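import Pool.Agent.Helper14.CMF.T18
import Pool.Agent.Helper14.CMF.T30
import Pool.Agent.Helper14.CMF.T22
import Pool.Agent.Helper14.CMF.T24
import Pool.Agent.Helper14.CMF.T27
import Pool.Agent.Helper14.CMF.T29
import Pool.Agent.Helper14.CMF.T21

set_option linter.all false

section

namespace Pool.Agent.Helper39.Area
end Pool.Agent.Helper39.Area
namespace Pool.Agent.Helper52.EK
end Pool.Agent.Helper52.EK
namespace Pool.Agent.Helper69.EK3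
end Pool.Agent.Helper69.EK3
namespace Pool.Agent.Helper69.EK7
end Pool.Agent.Helper69.EK7
namespace Pool.Agent.Helper69.CKC
end Pool.Agent.Helper69.CKC

set_option autoImplicit false

open Complex MeasureTheory Metric Set

open scoped Real ComplexConjugate

namespace Pool.Agent.Helper69.CK

open Pool.Agent.Helper39.Area Pool.Agent.Helper52.EK Pool.Agent.Helper69.EK3

open Pool.Agent.Helper69.EK7 Pool.Agent.Helper69.CKC

/-- the error of one disc -/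
theorem grow_one {s d B ε t l A c : ℝ} (hs : 0 ≤ s) (hd : 0 ≤ d) (hd8 : d ≤ 8)
    (hB : 0 ≤ B) (hε : 0 < ε) (ht : 0 ≤ t) (hst : s * t ≤ 10) (hs1 : s ≤ 1) (hc : 0 ≤ c)
    (hA : A ≤ c * (d * s)) (hl0 : 0 ≤ l) (hl : l ≤ B * (1 + t ^ 2)) :
    l * A ≤ (c * B + 200 * c ^ 2 * B ^ 2 / ε) * d + ε * t ^ 2 := by
  have h1 : l * A ≤ l * (c * (d * s)) := mul_le_mul_of_nonneg_left hA hl0
  have h2 : l * (c * (d * s)) ≤ B * (1 + t ^ 2) * (c * (d * s)) :=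
    mul_le_mul_of_nonneg_right hl (by (clear * - hc hd hs; positivity))
  have h3 : B * (1 + t ^ 2) * (c * (d * s)) = c * B * d * s + c * B * d * ((s * t) * t) := by ring
  have h4 : c * B * d * s ≤ c * B * d := by
    have : 0 ≤ c * B * d := by (clear * - hc hB hd; positivity)
    (clear * - hs1 this; nlinarith only [hs1, this])
  have h5 : c * B * d * ((s * t) * t) ≤ c * B * d * (10 * t) :=
    mul_le_mul_of_nonneg_left (mul_le_mul_of_nonneg_right hst ht) (by positivity)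
  have h6 : c * B * d * (10 * t) ≤ ε * t ^ 2 + (10 * c * B * d) ^ 2 / (4 * ε) := by
    have e : ε * t ^ 2 + (10 * c * B * d) ^ 2 / (4 * ε) - c * B * d * (10 * t) =
        (2 * ε * t - 10 * c * B * d) ^ 2 / (4 * ε) := by
      field_simp
      ring
    have : 0 ≤ (2 * ε * t - 10 * c * B * d) ^ 2 / (4 * ε) := by (clear * - hε; positivity)
    (clear * - e this; linarith only [e, this])
  have h7 : (10 * c * B * d) ^ 2 / (4 * ε) ≤ 200 * c ^ 2 * B ^ 2 / ε * d := by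
    rw [div_le_iff₀ (by positivity)]
    have e : 200 * c ^ 2 * B ^ 2 / ε * d * (4 * ε) = 800 * c ^ 2 * B ^ 2 * d := by
      field_simp
      ring
    rw [e]
    have : d ^ 2 ≤ 8 * d := by (clear * - hd hd8; nlinarith only [hd, hd8])
    have h8 : (10 * c * B * d) ^ 2 = 100 * c ^ 2 * B ^ 2 * d ^ 2 := by ring
    rw [h8]
    have h9 : 0 ≤ 100 * c ^ 2 * B ^ 2 := by (clear * -; positivity)
    (clear * - this h9; nlinarith only [this, h9])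
  have h10 : (c * B + 200 * c ^ 2 * B ^ 2 / ε) * d =
      c * B * d + 200 * c ^ 2 * B ^ 2 / ε * d := by ring
  rw [h10]
  linarith

/-- **the error of the discs with quadratic growth of the multipliers** -/
theorem grow_err {B ε : ℝ} (hB : 0 ≤ B) (hε : 0 < ε) : ∃ K : ℝ, 0 ≤ K ∧
    ∀ (X : ℂ) (s d A₁ A₂ l₀ l₁ l₂ : ℝ), 0 ≤ s → s ≤ 1 → 0 ≤ d → d ≤ 8 →
      s * ‖X‖ ≤ 1 + d * s → 0 ≤ A₁ → A₁ ≤ 4 * (1 + d * s) → 0 ≤ A₂ → A₂ ≤ 4 * (1 + d * s) →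
      0 ≤ l₀ → l₀ ≤ B * (1 + ‖X - 1‖ ^ 2) → 0 ≤ l₁ → l₁ ≤ B * (1 + ‖X - 1‖ ^ 2) →
      0 ≤ l₂ → l₂ ≤ B * (1 + ‖X - 1‖ ^ 2) →
      l₀ * ((s * ‖X‖) ^ 2 - 1) + l₁ * (A₁ ^ 2 - 16) + l₂ * (A₂ ^ 2 - 16) ≤
        K * d + ε * ‖X - 1‖ ^ 2 := by
  have hε3 : 0 < ε / 3 := by (clear * - hε; positivity)
  refine ⟨3 * (160 * B + 200 * 160 ^ 2 * B ^ 2 / (ε / 3)), by (clear * - hB hε; positivity), ?_⟩
  intro X s d A₁ A₂ l₀ l₁ l₂ hs hs1 hd hd8 hX hA₁ hA₁' hA₂ hA₂' h0 h0' h1 h1' h2 h2'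
  have hds : 0 ≤ d * s := mul_nonneg hd hs
  have hds8 : d * s ≤ 8 := by (clear * - hd8 hs1 hd; nlinarith only [hs1, hd, hd8])
  have hn := norm_nonneg X
  have ht := norm_nonneg (X - 1)
  have ht1 : ‖X - 1‖ ≤ ‖X‖ + 1 := by
    have := norm_sub_le X 1
    rwa [norm_one] at this
  have hst : s * ‖X - 1‖ ≤ 10 := by
    have q1 : s * ‖X - 1‖ ≤ s * (‖X‖ + 1) := mul_le_mul_of_nonneg_left ht1 hs
    (clear * - hs1 hd8 hX q1 hd; nlinarith only [hs1, hd, hd8, hX, q1])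
  have a0 : (s * ‖X‖) ^ 2 - 1 ≤ 160 * (d * s) := by
    have q1 : 0 ≤ s * ‖X‖ := mul_nonneg hs hn
    have q2 : (s * ‖X‖) ^ 2 ≤ (1 + d * s) ^ 2 := pow_le_pow_left₀ q1 hX 2
    nlinarith only [hds, hds8, q2]
  have a1 : A₁ ^ 2 - 16 ≤ 160 * (d * s) := by
    have q2 : A₁ ^ 2 ≤ (4 * (1 + d * s)) ^ 2 := pow_le_pow_left₀ hA₁ hA₁' 2
    (clear * - q2 hds hds8; nlinarith only [hds, hds8, q2])
  have a2 : A₂ ^ 2 - 16 ≤ 160 * (d * s) := by
    have q2 : A₂ ^ 2 ≤ (4 * (1 + d * s)) ^ 2 := pow_le_pow_left₀ hA₂ hA₂' 2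
    nlinarith only [hds, hds8, q2]
  have b0 := grow_one hs hd hd8 hB hε3 ht hst hs1 (by norm_num : (0:ℝ) ≤ 160) a0 h0 h0'
  have b1 := grow_one hs hd hd8 hB hε3 ht hst hs1 (by norm_num : (0:ℝ) ≤ 160) a1 h1 h1'
  have b2 := grow_one hs hd hd8 hB hε3 ht hst hs1 (by norm_num : (0:ℝ) ≤ 160) a2 h2 h2'
  (clear * - b0 b1 b2; linarith only [b0, b1, b2])

/-- the class with the hyperbolic error is contained in the old classes -/
theorem DiscG.toP {X : ℂ → ℂ} {x₁ x₂ : ℝ} (h : DiscG (π / 2) X x₁ x₂) : DiscP X x₁ x₂ := by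
  have hpi := Real.pi_pos
  obtain ⟨δ, h1, h2, h3, h4, h5⟩ := h
  refine ⟨δ, h1, h2, h3, h4, fun ξ hξ η hη => ?_⟩
  obtain ⟨k1, k2, k3⟩ := h5 ξ hξ η hη
  have := ds_le (h2 ξ) (sin_nnh (h := π / 2) (by (clear * - hpi; linarith only [hpi])) hη) (Real.sin_le_one η)
  exact ⟨k1.trans (by (clear * - this; linarith only [this])), k2.trans (by (clear * - this; linarith only [this])), k3.trans (by (clear * - this; linarith))⟩

theorem DiscG.toF {X : ℂ → ℂ} {x₁ x₂ : ℝ} (h : DiscG π X x₁ x₂) : DiscF X x₁ x₂ := by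
  obtain ⟨δ, h1, h2, h3, h4, h5⟩ := h
  refine ⟨δ, h1, h2, h3, h4, fun ξ hξ η hη => ?_⟩
  obtain ⟨k1, k2, k3⟩ := h5 ξ hξ η hη
  have := ds_le (h2 ξ) (sin_nnh le_rfl hη) (Real.sin_le_one η)
  exact ⟨k1.trans (by linarith only [this]), k2.trans (by (clear * - this; linarith only [this])), k3.trans (by (clear * - this; linarith))⟩

end Pool.Agent.Helper69.CK

end

section

namespace Pool.Agent.Helper39.Area
end Pool.Agent.Helper39.Area
namespace Pool.Agent.Helper39.EK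
end Pool.Agent.Helper39.EK
namespace Pool.Agent.Helper52.EK
end Pool.Agent.Helper52.EK
namespace Pool.Agent.Helper86.EK
end Pool.Agent.Helper86.EK
namespace Pool.Agent.Helper68.EKC
end Pool.Agent.Helper68.EKC
namespace Pool.Agent.Helper79.EK3
end Pool.Agent.Helper79.EK3

set_option autoImplicit false

open Complex MeasureTheory Metric Set Filter Topology

open scoped Real ComplexConjugate

namespace Pool.Agent.Helper77.CKC

open Pool.Agent.Helper39.Area Pool.Agent.Helper39.EK Pool.Agent.Helper52.EK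

open Pool.Agent.Helper86.EK Pool.Agent.Helper68.EKC Pool.Agent.Helper79.EK3

/-- the function `Φ` with its complex value at the target -/
theorem exists_Phi_C {β L : ℂ → ℂ} (h : Ext β) (hL : IsLog β L) {a : ℝ} (ha : 0 < a)
    (ha1 : a < 1) :
    ∃ Φ Φ' : ℂ → ℂ, (∀ ω : ℂ, 0 < ω.im → ω.im < π → HasDerivAt Φ (Φ' ω) ω) ∧
      (∀ ω : ℂ, 0 < ω.im → ω.im < π → ‖Φ' ω‖ * Real.sin ω.im ≤ Real.sqrt (2 * JJ β a)) ∧
      (∀ ω : ℂ, 0 < ω.im → ω.im < π → Real.log (tau a) < ω.re → ω.re < 0 →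
        Φ' ω = 2 * Xf β a ω - 2 * kap a ω) ∧
      Φ (pt (Real.log (tau a)) (π / 2)) = ((-Real.log (1 - a ^ 2) : ℝ) : ℂ) + L a ∧
      Φ (pt 0 (π / 2)) = 0 := by
  have haC : ((a:ℝ):ℂ) ∈ ball (0:ℂ) 1 := by
    rw [mem_ball, dist_zero_right, Complex.norm_real, Real.norm_of_nonneg ha.le]
    exact ha1
  have ha0 : ((a:ℝ):ℂ) ≠ 0 := by exact_mod_cast ha.ne'
  obtain ⟨F, hF0, hF, hexp⟩ := exists_log h haC
  have hFL : L a = F a := branch_eq h hL.cont hL.zero hL.exp haC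
    (fun z hz => (hF z hz).continuousAt.continuousWithinAt) hF0 hexp
  have hre : ∀ z ∈ ball (0:ℂ) 1, 0 < (1 - (a:ℂ) * z).re := by
    intro z hz
    rw [mem_ball, dist_zero_right] at hz
    have h1 : ((a:ℂ) * z).re ≤ ‖(a:ℂ) * z‖ := Complex.re_le_norm _
    rw [norm_mul, Complex.norm_real, Real.norm_of_nonneg ha.le] at h1
    rw [Complex.sub_re, Complex.one_re]
    nlinarith only [ha, ha1, hz, h1]
  have hsl : ∀ z ∈ ball (0:ℂ) 1, (1 - (a:ℂ) * z) ∈ slitPlane := fun z hz => Or.inl (hre z hz)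
  set D : ℂ → ℂ := fun z => F z - Complex.log (1 - (a:ℂ) * z) with hD
  set D' : ℂ → ℂ := fun z => deriv F z + (a:ℂ) / (1 - (a:ℂ) * z) with hD'
  have hder : ∀ z ∈ ball (0:ℂ) 1, HasDerivAt D (D' z) z := by
    intro z hz
    have h1 : HasDerivAt (fun z : ℂ => 1 - (a:ℂ) * z) (-(a:ℂ)) z := by
      have := ((hasDerivAt_id z).const_mul (a:ℂ)).const_sub 1
      simpa using this
    have h2 := h1.clog (hsl z hz)
    have h3 := (hF z hz).sub h2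
    have h4 : D' z = deriv (qq β a) z / qq β a z - -(a:ℂ) / (1 - (a:ℂ) * z) := by
      simp only [hD']
      rw [(hF z hz).deriv]
      ring
    rw [h4]
    exact h3
  have hDd : DifferentiableOn ℂ D (ball 0 1) := fun z hz =>
    (hder z hz).differentiableAt.differentiableWithinAt
  have hJ : - Real.log (1 - ‖((a:ℝ):ℂ)‖ ^ 2) + (F a).re = JJ β a := by
    have h5 : ‖N β (a:ℂ)‖ = Real.exp (F a).re := by
      rw [← qq_self, ← hexp _ haC, Complex.norm_exp]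
    have h6 : (0:ℝ) < 1 - a ^ 2 := by (clear * - ha1 ha; nlinarith only [ha, ha1])
    rw [JJ, h5, Real.log_div (Real.exp_pos _).ne' h6.ne', Real.log_exp, Complex.norm_real,
      Real.norm_of_nonneg ha.le]
    ring
  have hen : ∀ ρ : ℝ, 0 < ρ → ρ < 1 → ∫ z in ball (0:ℂ) ρ, ‖deriv D z‖ ^ 2 ≤ 2 * π * JJ β a := by
    intro ρ h0 h1
    have h2 := energy h h0 h1 haC ha0 hF hF0 hexp
    rw [hJ] at h2
    refine le_trans (le_of_eq ?_) h2
    apply setIntegral_congr_fun measurableSet_ball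
    intro z hz
    simp only
    rw [(hder z (ball_subset_ball h1.le hz)).deriv, hD', Complex.conj_ofReal]
  have hz1 : ∀ ω : ℂ, 0 < ω.im → ω.im < π → zf ω ∈ ball (0:ℂ) 1 := by
    intro ω h0 h1
    rw [mem_ball, dist_zero_right]
    exact norm_zf_lt (exp_im_pos h0 h1)
  refine ⟨fun ω => D (zf ω), fun ω => D' (zf ω) * zd ω, ?_, ?_, ?_, ?_, ?_⟩
  · intro ω h0 h1
    exact (hder _ (hz1 ω h0 h1)).comp ω (hasDerivAt_zf (exp_ne_neg_I' h0 h1))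
  · intro ω h0 h1
    have h2 := hz1 ω h0 h1
    have h3 : ‖zf ω‖ < 1 := by simpa using h2
    have h4 := bloch hDd hen h3
    rw [(hder _ h2).deriv] at h4
    have h5 := norm_zd h0 h1
    have hs : 0 < Real.sin ω.im := Real.sin_pos_of_pos_of_lt_pi h0 h1
    simp only
    rw [norm_mul]
    have h6 : ‖zd ω‖ * Real.sin ω.im = (1 - ‖zf ω‖) * (1 + ‖zf ω‖) / 2 := by
      linear_combination (1 / 2) * h5
    calc ‖D' (zf ω)‖ * ‖zd ω‖ * Real.sin ω.im = ‖D' (zf ω)‖ * (‖zd ω‖ * Real.sin ω.im) := by ring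
      _ = (‖D' (zf ω)‖ * (1 - ‖zf ω‖)) * ((1 + ‖zf ω‖) / 2) := by rw [h6]; ring
      _ ≤ (‖D' (zf ω)‖ * (1 - ‖zf ω‖)) * 1 := by
          apply mul_le_mul_of_nonneg_left (by linarith only [h3])
          exact mul_nonneg (norm_nonneg _) (by linarith only [h3])
      _ ≤ _ := by rw [mul_one]; exact h4
  · intro ω h0 h1 h2 h3
    have hR : ω ∈ Rect ω.re ω.re := ⟨⟨le_refl _, le_refl _⟩, ⟨h0.le, h1.le⟩⟩
    have hzb := hz1 ω h0 h1
    have hz0 : zf ω ≠ 0 := zf_ne_zero h3 hR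
    have hza : zf ω ≠ a := zf_ne_a ha ha1 h2 hR
    rw [← zd_Dd ha ha1 h2 h3 hR, Dd, dphi_div h haC hzb ha0 hz0 hza, hD']
    simp only
    rw [(hF _ hzb).deriv]
    ring
  · have h1 : zf (pt (Real.log (tau a)) (π / 2)) = a := by
      have h2 : Complex.exp (pt (Real.log (tau a)) (π / 2)) = (tau a : ℂ) * I := by
        rw [pt, Complex.exp_add, ← Complex.ofReal_exp, Real.exp_log (tau_pos ha ha1)]
        congr 1
        push_cast
        exact Complex.exp_pi_div_two_mul_I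
      rw [zf, h2, tau]
      have h3 : (1 + (a:ℂ)) ≠ 0 := by
        have : ((1 + a : ℝ) : ℂ) ≠ 0 := by exact_mod_cast (by positivity)
        simpa using this
      have h4 : (I:ℂ) ≠ 0 := I_ne_zero
      push_cast
      have h5 : I + (1 - (a:ℂ)) / (1 + a) * I = 2 / (1 + a) * I := by field_simp; ring
      have h6 : I - (1 - (a:ℂ)) / (1 + a) * I = 2 * a / (1 + a) * I := by field_simp; ring
      rw [h5, h6]
      field_simp
    simp only [h1]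
    rw [hFL, hD]
    simp only
    have h7 : (1 - (a:ℂ) * a) = ((1 - a ^ 2 : ℝ) : ℂ) := by push_cast; ring
    rw [h7, ← Complex.ofReal_log (by (clear * - ha1 ha; nlinarith only [ha, ha1]))]
    push_cast
    ring
  · have h1 : zf (pt 0 (π / 2)) = 0 := by
      have h2 : Complex.exp (pt 0 (π / 2)) = I := by
        rw [pt]
        push_cast
        rw [zero_add]
        exact Complex.exp_pi_div_two_mul_I
      rw [zf, h2, sub_self, zero_div]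
    simp only [h1]
    rw [hD]
    simp [hF0]

theorem kap_norm {a : ℝ} (h0 : 0 < a) (h1 : a < 1) {ξ η : ℝ} (hx : Real.log (tau a) + 1 ≤ ξ)
    (hx2 : ξ ≤ -1) :
    ‖kap a (pt ξ η) - 1‖ ≤
      12 * Real.exp (ξ / 2) + 4 * Real.exp ((Real.log (tau a) - ξ) / 2) := by
  have h3 := Pool.Agent.Helper46.EK.kap_bound h0 h1 (η := η) hx hx2
  have hτ := tau_pos h0 h1
  apply le_of_sq_le_sq _ (by positivity)
  have e1 : Real.exp (ξ / 2) ^ 2 = Real.exp ξ := by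
    rw [← Real.exp_nat_mul]; congr 1; push_cast; ring
  have e2 : Real.exp ((Real.log (tau a) - ξ) / 2) ^ 2 = tau a * Real.exp (-ξ) := by
    rw [← Real.exp_nat_mul]
    have : ((2:ℕ):ℝ) * ((Real.log (tau a) - ξ) / 2) = Real.log (tau a) + -ξ := by push_cast; ring
    rw [this, Real.exp_add, Real.exp_log hτ]
  have p1 := Real.exp_pos (ξ / 2)
  have p2 := Real.exp_pos ((Real.log (tau a) - ξ) / 2)
  (clear * - p2 p1 h3 e1 e2; nlinarith only [h3, e1, e2, p1, p2])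

/-- the centre line, complex form -/
theorem centre_C {β L : ℂ → ℂ} {R : ℝ} (h : ExtR β R) (hL : IsLog β L) {a : ℝ} (ha : 0 < a)
    (ha1 : a < 1) (hx : Real.log (tau a) + 1 ≤ -1) :
    ‖(2 * ∫ ξ in (Real.log (tau a) + 1)..(-1), (1 - Xf β a (pt ξ (π / 2)))) -
      (((-Real.log (1 - a ^ 2) : ℝ) : ℂ) + L a)‖ ≤ 100 + 2 * Real.sqrt (2 * JJ β a) := by
  have hπ := Real.pi_pos
  obtain ⟨Φ, Φ', hd, hb, hX, hJ, hO⟩ := exists_Phi_C h.toExt hL ha ha1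
  obtain ⟨x₁, hx₁⟩ : ∃ x₁, x₁ = Real.log (tau a) + 1 := ⟨_, rfl⟩
  rw [← hx₁] at hx ⊢
  have h12 : x₁ ≤ -1 := hx
  have hN := Pool.Agent.Helper67.EK.E1c h ha ha1 (x₁ := x₁) (x₂ := -1) (by linarith only [hx₁]) (by norm_num)
  have hmem : ∀ ξ ∈ Icc x₁ (-1), pt ξ (π / 2) ∈ Rect x₁ (-1) := fun ξ hξ =>
    pt_mem hξ ⟨by (clear * -; positivity), by (clear * - hπ; linarith only [hπ])⟩
  have hptc : Continuous fun ξ : ℝ => pt ξ (π / 2) := by unfold pt; fun_prop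
  have hXc : ContinuousOn (fun ξ : ℝ => Xf β a (pt ξ (π / 2))) (Icc x₁ (-1)) :=
    hN.an.continuousOn.comp hptc.continuousOn hmem
  have hkc : ContinuousOn (fun ξ : ℝ => kap a (pt ξ (π / 2))) (Icc x₁ (-1)) := by
    have hk : ContinuousOn (kap a) (Rect x₁ (-1)) := by
      apply ContinuousOn.div (by fun_prop) (by fun_prop)
      intro ω hω
      exact mul_ne_zero (sq_add_tau_ne ha ha1 (by (clear * - ha ha1 hx₁; linarith)) hω)
        (sq_add_one_ne (by norm_num) hω)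
    exact hk.comp hptc.continuousOn hmem
  have hXi : IntervalIntegrable (fun ξ : ℝ => Xf β a (pt ξ (π / 2))) volume x₁ (-1) := by
    apply ContinuousOn.intervalIntegrable
    rw [uIcc_of_le h12]
    exact hXc
  have hki : IntervalIntegrable (fun ξ : ℝ => kap a (pt ξ (π / 2))) volume x₁ (-1) := by
    apply ContinuousOn.intervalIntegrable
    rw [uIcc_of_le h12]
    exact hkc
  -- fundamental theorem of calculus
  have hft : ∫ ξ in x₁..(-1), (2 * Xf β a (pt ξ (π / 2)) - 2 * kap a (pt ξ (π / 2))) =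
      Φ (pt (-1) (π / 2)) - Φ (pt x₁ (π / 2)) := by
    apply intervalIntegral.integral_eq_sub_of_hasDerivAt (f := fun ξ => Φ (pt ξ (π / 2)))
    · intro ξ hξ
      rw [uIcc_of_le h12] at hξ
      have i1 : 0 < (pt ξ (π / 2)).im := by rw [pt_im]; (clear * - hπ; linarith only [hπ])
      have i2 : (pt ξ (π / 2)).im < π := by rw [pt_im]; (clear * - hπ; linarith)
      have h3 := (hd _ i1 i2).comp_of_eq ξ (hasDerivAt_pt ξ (π / 2)) rfl
      rw [mul_one, hX _ i1 i2 (by rw [pt_re]; linarith only [hξ.1, hx₁]) (by rw [pt_re]; linarith only [hξ.2])]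
        at h3
      exact h3
    · exact (hXi.const_mul 2).sub (hki.const_mul 2)
  have hend2 := horiz hd hb 0 (-1)
  rw [hO, sub_zero, sub_zero] at hend2
  have hend1 := horiz hd hb (Real.log (tau a)) x₁
  have e1 : |x₁ - Real.log (tau a)| = 1 := by
    rw [hx₁, add_sub_cancel_left, abs_one]
  have e2 : |(-1:ℝ)| = 1 := by norm_num
  rw [e1, mul_one, hJ] at hend1
  rw [e2, mul_one] at hend2
  have hkap : ‖2 * ∫ ξ in x₁..(-1), (1 - kap a (pt ξ (π / 2)))‖ ≤ 64 := by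
    rw [norm_mul]
    have h3 : ‖∫ ξ in x₁..(-1), (1 - kap a (pt ξ (π / 2)))‖ ≤
        ∫ ξ in x₁..(-1), (12 * Real.exp (ξ / 2) + 4 * Real.exp ((Real.log (tau a) - ξ) / 2)) := by
      refine intervalIntegral.norm_integral_le_of_norm_le h12 ?_
        ((by fun_prop : Continuous fun ξ : ℝ => 12 * Real.exp (ξ / 2) +
          4 * Real.exp ((Real.log (tau a) - ξ) / 2)).intervalIntegrable _ _)
      refine Filter.Eventually.of_forall fun ξ hξ => ?_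
      rw [norm_sub_rev]
      exact kap_norm ha ha1 (by rw [← hx₁]; exact hξ.1.le) hξ.2
    have h4 := int_exp_half (x₁ := x₁) (x₂ := -1) (L := Real.log (tau a)) hx₁.ge h12 le_rfl
    have h5 : ‖(2:ℂ)‖ = 2 := by simp
    rw [h5]
    (clear * - h3 h4; linarith only [h3, h4])
  have hsplit : 2 * ∫ ξ in x₁..(-1), (1 - Xf β a (pt ξ (π / 2))) =
      2 * (∫ ξ in x₁..(-1), (1 - kap a (pt ξ (π / 2)))) -
        ∫ ξ in x₁..(-1), (2 * Xf β a (pt ξ (π / 2)) - 2 * kap a (pt ξ (π / 2))) := by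
    rw [← intervalIntegral.integral_const_mul, ← intervalIntegral.integral_const_mul,
      ← intervalIntegral.integral_sub ((intervalIntegrable_const.sub hki).const_mul 2)
        ((hXi.const_mul 2).sub (hki.const_mul 2))]
    congr 1
    funext ξ
    ring
  rw [hsplit, hft]
  obtain ⟨T, hT⟩ : ∃ T, T = ((-Real.log (1 - a ^ 2) : ℝ) : ℂ) + L a := ⟨_, rfl⟩
  rw [← hT] at hend1 ⊢
  have e3 : 2 * (∫ ξ in x₁..(-1), (1 - kap a (pt ξ (π / 2)))) -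
      (Φ (pt (-1) (π / 2)) - Φ (pt x₁ (π / 2))) - T =
      2 * (∫ ξ in x₁..(-1), (1 - kap a (pt ξ (π / 2)))) +
        (-Φ (pt (-1) (π / 2)) + (Φ (pt x₁ (π / 2)) - T)) := by ring
  rw [e3]
  refine (norm_add_le _ _).trans ?_
  have h6 := norm_add_le (-Φ (pt (-1) (π / 2))) (Φ (pt x₁ (π / 2)) - T)
  rw [norm_neg] at h6
  linarith only [hend2, hkap, hend1, h6]

theorem log_tau {a : ℝ} (ha : 0 < a) (ha1 : a < 1) :
    -Real.log (tau a) - 2 ≤ -Real.log (1 - a ^ 2) ∧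
      -Real.log (1 - a ^ 2) ≤ -Real.log (tau a) := by
  have h1 : 0 < 1 - a := by (clear * - ha1; linarith only [ha1])
  have h2 : 0 < 1 + a := by (clear * - ha; linarith only [ha])
  have e : 1 - a ^ 2 = (1 - a) * (1 + a) := by ring
  have e2 : Real.log (tau a) = Real.log (1 - a) - Real.log (1 + a) := by
    rw [tau, Real.log_div h1.ne' h2.ne']
  have e3 : Real.log (1 - a ^ 2) = Real.log (1 - a) + Real.log (1 + a) := by
    rw [e, Real.log_mul h1.ne' h2.ne']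
  have h3 : 0 ≤ Real.log (1 + a) := Real.log_nonneg (by (clear * - ha; linarith))
  have h4 : Real.log (1 + a) ≤ a := by
    have := Real.log_le_sub_one_of_pos h2
    (clear * - this; linarith)
  constructor <;> rw [e2, e3] <;> linarith

theorem JJ_le {β : ℂ → ℂ} (h : Ext β) {a : ℝ} (ha : 0 < a) (ha1 : a < 1) :
    JJ β a ≤ 2 * -Real.log (1 - a ^ 2) := by
  have hn : ‖((a:ℝ):ℂ)‖ = a := by rw [Complex.norm_real, Real.norm_of_nonneg ha.le]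
  have h1 := Pool.Agent.Helper77.CK.N_bounds h (z := (a:ℂ)) (by rw [hn]; exact ha1)
  rw [hn] at h1
  have h2 : (0:ℝ) < 1 - a ^ 2 := by nlinarith only [ha, ha1]
  have h3 : 0 < ‖N β a‖ := by
    unfold N
    (clear * - h1 h2; linarith only [h1, h2])
  have h4 : ‖N β a‖ ≤ 1 / (1 - a ^ 2) := h1.2
  unfold JJ
  rw [Real.log_div h3.ne' h2.ne']
  have h5 := Real.log_le_log h3 h4
  rw [one_div, Real.log_inv] at h5
  (clear * - h5; linarith only [h5])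

/-- **the linear term in the direction `u`** -/
theorem line_C {u : ℂ} (hu : ‖u‖ = 1) : Pool.Agent.Helper69.CKC.LineC u := by
  intro g hg
  refine ⟨100 * π + 20 * π ^ 2 + 2 * g + 4 * π ^ 2 / g, ?_⟩
  intro β L R a hβ hL hae ha1 hx
  have hpi := Real.pi_pos
  have ha : 0 < a := (Real.exp_pos _).trans hae
  have hc := centre_C hβ hL ha ha1 hx
  have hF := Pool.Agent.Helper69.CKC.discF_Xf β R a hβ ha ha1 hx
  obtain ⟨x₁, hx₁⟩ : ∃ x₁, x₁ = Real.log (tau a) + 1 := ⟨_, rfl⟩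
  rw [← hx₁] at hx hc hF ⊢
  have hN := Pool.Agent.Helper67.EK.E1c hβ ha ha1 (x₁ := x₁) (x₂ := -1) (by linarith only [hx₁])
    (by norm_num)
  obtain ⟨X, hXX⟩ : ∃ X, X = Xf β a := ⟨_, rfl⟩
  rw [← hXX] at hc hN hF ⊢
  set f : ℂ → ℂ := fun ω => conj u * ((1 + u) / 2 - X ω) with hf
  have hfan : AnalyticOnNhd ℂ f (Rect x₁ (-1)) :=
    analyticOnNhd_const.mul (analyticOnNhd_const.sub hN.an)
  have huc : ‖conj u‖ = 1 := by rw [RCLike.norm_conj, hu]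
  have hB : ∀ ξ ∈ Icc x₁ (-1), ∀ η ∈ Icc (0:ℝ) π, Real.sin η * ‖f (pt ξ η)‖ ≤ 10 := by
    intro ξ hξ η hη
    have h1 := hF.X_le ξ hξ η hη
    have hs : 0 ≤ Real.sin η := Real.sin_nonneg_of_nonneg_of_le_pi hη.1 hη.2
    have hs1 : Real.sin η ≤ 1 := Real.sin_le_one η
    simp only [hf]
    rw [norm_mul, huc, one_mul]
    have h2 : ‖(1 + u) / 2‖ ≤ 1 := by
      rw [norm_div]
      have h3 := norm_add_le (1:ℂ) u
      rw [norm_one, hu] at h3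
      have h4 : ‖(2:ℂ)‖ = 2 := by simp
      rw [h4]
      linarith only [h3]
    have h3 := norm_sub_le ((1 + u) / 2) (X (pt ξ η))
    have h4 := mul_le_mul_of_nonneg_left h3 hs
    (clear * - h1 hs1 h4 hs h2; nlinarith only [h1, hs, hs1, h2, h4])
  obtain ⟨hA, hre⟩ := area_line hx hfan hB
  have hII : II x₁ (-1) (fun ξ η => Pool.Agent.Helper69.CKC.fu u (X (pt ξ η))) =
      ∫ η in (0:ℝ)..π, ∫ ξ in x₁..(-1), (f (pt ξ η)).re := by
    have hcH : Pool.Agent.Helper69.EK3.CH x₁ (-1) π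
        (fun ξ η => Pool.Agent.Helper69.CKC.fu u (X (pt ξ η))) := by
      have hptc : Continuous fun p : ℝ × ℝ => pt p.1 p.2 := by unfold pt; fun_prop
      exact Complex.continuous_re.comp_continuousOn (hfan.continuousOn.comp hptc.continuousOn
        fun p hp => pt_mem hp.1 hp.2)
    exact Pool.Agent.Helper69.EK7.IH_swap hx hpi.le hcH
  rw [hII, hre]
  have hrt := Complex.re_le_norm ((∫ η in (0:ℝ)..π, ∫ ξ in x₁..(-1), f (pt ξ η)) -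
    π * ∫ ξ in x₁..(-1), f (pt ξ (π / 2)))
  rw [Complex.sub_re, Complex.re_ofReal_mul] at hrt
  -- the centre line
  have hcX : IntervalIntegrable (fun ξ : ℝ => X (pt ξ (π / 2))) volume x₁ (-1) := by
    have hptc : Continuous fun ξ : ℝ => pt ξ (π / 2) := by unfold pt; fun_prop
    apply ContinuousOn.intervalIntegrable
    rw [uIcc_of_le hx]
    exact hN.an.continuousOn.comp hptc.continuousOn fun ξ hξ =>
      pt_mem hξ ⟨by positivity, by linarith only [hpi]⟩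
  have hcen : 2 * ∫ ξ in x₁..(-1), f (pt ξ (π / 2)) =
      conj u * (2 * ∫ ξ in x₁..(-1), (1 - X (pt ξ (π / 2)))) +
        (1 - conj u) * ((-1 - x₁ : ℝ) : ℂ) := by
    have h1 : (∫ ξ in x₁..(-1), f (pt ξ (π / 2))) =
        conj u * (∫ ξ in x₁..(-1), (1 - X (pt ξ (π / 2)))) +
          ∫ _ in x₁..(-1), conj u * ((u - 1) / 2) := by
      rw [← intervalIntegral.integral_const_mul, ← intervalIntegral.integral_add
        ((intervalIntegrable_const.sub hcX).const_mul _) intervalIntegrable_const]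
      refine intervalIntegral.integral_congr fun ξ _ => ?_
      simp only [hf]
      ring
    rw [h1, intervalIntegral.integral_const, Complex.real_smul]
    have h2 : conj u * u = 1 := by
      rw [mul_comm, Complex.mul_conj, Complex.normSq_eq_norm_sq, hu]
      simp
    linear_combination ((-1 - x₁ : ℝ) : ℂ) * h2
  obtain ⟨S, hS⟩ : ∃ S : ℂ, S = 2 * ∫ ξ in x₁..(-1), (1 - X (pt ξ (π / 2))) := ⟨_, rfl⟩
  obtain ⟨Fc, hFc⟩ : ∃ Fc : ℂ, Fc = ∫ ξ in x₁..(-1), f (pt ξ (π / 2)) := ⟨_, rfl⟩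
  obtain ⟨A, hAd⟩ : ∃ A : ℂ, A = ∫ η in (0:ℝ)..π, ∫ ξ in x₁..(-1), f (pt ξ η) := ⟨_, rfl⟩
  rw [← hS] at hc hcen
  rw [← hFc] at hcen hrt hA
  rw [← hAd] at hrt hA ⊢
  obtain ⟨Λ, hΛ⟩ : ∃ Λ, Λ = -Real.log (1 - a ^ 2) := ⟨_, rfl⟩
  obtain ⟨s, hs⟩ : ∃ s, s = Real.sqrt (2 * JJ β a) := ⟨_, rfl⟩
  have hJ0 := JJ_nonneg hβ.toExt ha ha1
  have hJ := JJ_le hβ.toExt ha ha1
  have hs2 : s ^ 2 = 2 * JJ β a := by
    rw [hs]
    exact Real.sq_sqrt (by linarith only [hJ0])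
  have hs0 : 0 ≤ s := by rw [hs]; exact Real.sqrt_nonneg _
  obtain ⟨hl1, hl2⟩ := log_tau ha ha1
  rw [← hΛ] at hc hJ hl1 hl2 ⊢
  rw [← hs] at hc
  -- the real part on the centre line
  have hc2 : (conj u * (S - ((Λ : ℂ) + L a))).re ≤ 100 + 2 * s := by
    refine (Complex.re_le_norm _).trans ?_
    rw [norm_mul, huc, one_mul]
    exact hc
  have e1 : (conj u * (S - ((Λ : ℂ) + L a))).re =
      (conj u * S).re - u.re * Λ - (conj u * L a).re := by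
    have : conj u * (S - ((Λ : ℂ) + L a)) = conj u * S - conj u * (Λ : ℂ) - conj u * L a := by
      ring
    rw [this, Complex.sub_re, Complex.sub_re, Complex.re_mul_ofReal, Complex.conj_re]
  rw [e1] at hc2
  have e2 : 2 * Fc.re = (conj u * S).re + (1 - u.re) * (-1 - x₁) := by
    have h1 := congrArg Complex.re hcen
    rw [Complex.add_re, Complex.re_mul_ofReal, Complex.sub_re, Complex.one_re,
      Complex.conj_re] at h1
    have h2 : (2 * Fc).re = 2 * Fc.re := by simp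
    rw [h2] at h1
    exact h1
  have hure : u.re ≤ 1 := by
    have := Complex.re_le_norm u
    rwa [hu] at this
  have h3 : (1 - u.re) * (-1 - x₁) ≤ (1 - u.re) * Λ := by
    refine mul_le_mul_of_nonneg_left ?_ (by linarith only [hure])
    rw [hx₁]
    linarith only [hl1]
  have h4 : 2 * Fc.re ≤ Λ + (conj u * L a).re + 100 + 2 * s := by
    rw [e2]
    linarith only [hc2, h3]
  have h5 : s ^ 2 ≤ 4 * (-1 - x₁) + 8 := by
    rw [hs2, hx₁]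
    (clear * - hJ hl2; linarith only [hJ, hl2])
  have h6 : 2 * π * s ≤ g * (-1 - x₁) + 2 * g + 4 * π ^ 2 / g := by
    have h7 : 0 ≤ (g * s / 2 - 2 * π) ^ 2 / g := by (clear * - hg; positivity)
    have h8 : (g * s / 2 - 2 * π) ^ 2 / g = g * s ^ 2 / 4 - 2 * π * s + 4 * π ^ 2 / g := by
      field_simp
      ring
    rw [h8] at h7
    have h9 := mul_le_mul_of_nonneg_left h5 hg.le
    (clear * - h7 h9; linarith only [h7, h9])
  have h7 : π * (2 * Fc.re) ≤ π * (Λ + (conj u * L a).re + 100 + 2 * s) :=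
    mul_le_mul_of_nonneg_left h4 hpi.le
  have h8 : A.re ≤ π * Fc.re + π ^ 2 * 10 := by linarith only [hA, hrt]
  (clear * - h6 h7 h8; linarith only [h6, h7, h8])

end Pool.Agent.Helper77.CKC

end

section

namespace Pool.Agent.Helper39.Area
end Pool.Agent.Helper39.Area
namespace Pool.Agent.Helper52.EK
end Pool.Agent.Helper52.EK
namespace Pool.Agent.Helper52.CK
end Pool.Agent.Helper52.CK
namespace Pool.Agent.Helper84.CK
end Pool.Agent.Helper84.CK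
namespace Pool.Agent.Helper69.CK
end Pool.Agent.Helper69.CK
namespace Pool.Agent.Helper9.EK
end Pool.Agent.Helper9.EK
namespace Pool.Agent.Helper68.EKC
end Pool.Agent.Helper68.EKC
namespace Pool.Agent.Helper77.CK
end Pool.Agent.Helper77.CK
namespace Pool.Agent.Helper97.CKC
end Pool.Agent.Helper97.CKC

set_option autoImplicit false

open Complex MeasureTheory Metric Set Filter Topology

open scoped Real ComplexConjugate

namespace Pool.Agent.Helper69.CKC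

open Pool.Agent.Helper39.Area Pool.Agent.Helper52.EK Pool.Agent.Helper52.CK

open Pool.Agent.Helper84.CK (WtF)

open Pool.Agent.Helper69.CK (MOk Mh MtC)

open Pool.Agent.Helper9.EK (rotβ)

open Pool.Agent.Helper68.EKC (IsLog)

open Pool.Agent.Helper77.CK (len_le tau_far' exp_m2 crude)

open Pool.Agent.Helper97.CKC (MC PTC)

/-- the bound for the target on the real axis, with a weight, direction `u` -/
def KOneStmtC (κ dc : ℝ) (u : ℂ) (G M : ℂ → ℂ) (q : ℂ) : Prop :=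
  ∃ e C₄ V₀ a₀ : ℝ, 0 < e ∧ 0 ≤ C₄ ∧ 0 < V₀ ∧ a₀ < 1 ∧
    ∀ ε : ℝ, 0 < ε → ∃ C : ℝ, 0 ≤ C ∧
    ∀ (β L : ℂ → ℂ) (R a V : ℝ) (Ω Ω₁ Ω₂ : ℝ → ℝ → ℝ), ExtR β R → IsLog β L → a₀ < a → a < 1 →
    0 ≤ V → V ≤ V₀ → WtF (Real.log (tau a) + 1) (-1) V Ω Ω₁ Ω₂ →
    Kf (wf G β) 1 (-1) (Real.log a) +
        e * II (Real.log (tau a) + 1) (-1) (fun ξ η => ‖Xf β a (pt ξ η) - (1 + u) / 2‖ ^ 2) ≤
      κ * (- Real.log (1 - a ^ 2) + (conj u * L a).re) +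
        π⁻¹ * II (Real.log (tau a) + 1) (-1) (fun ξ η => Ω ξ η * MtC M q (Xf β a) ξ η) +
        C₄ * II (Real.log (tau a) + 1) (-1) (fun ξ η => 1 - Ω ξ η) +
        (dc + ε) * (-1 - (Real.log (tau a) + 1)) +
        C * (1 + V * (-1 - (Real.log (tau a) + 1)))

/-- the energy of a target is nonnegative -/
theorem lam_nonneg {u : ℂ} (hu : ‖u‖ = 1) {β L : ℂ → ℂ} {R x : ℝ} (hβ : ExtR β R)
    (hL : IsLog β L) (hx : 0 < x) (hx1 : x ≤ Real.exp (-2)) :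
    0 ≤ - Real.log (1 - Real.exp (-x) ^ 2) + (conj u * L ((Real.exp (-x) : ℝ) : ℂ)).re := by
  have ha1 : Real.exp (-x) < 1 := by
    rw [Real.exp_lt_one_iff]
    linarith
  exact (energy_le hu (g := 1) one_pos hβ hL (Real.exp_pos _) ha1
    (x₁ := Real.log (tau (Real.exp (-x))) + 1) (by (clear * -; linarith only [])) (tau_far' hx hx1) le_rfl).2

/-- the depth of the upper cut -/
theorem exists_A {Cc e ε ε₀ : ℝ} (hCc : 0 ≤ Cc) (he : 0 < e) (hε : 0 < ε) (hε₀ : 0 < ε₀) :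
    ∃ A : ℝ, 8 * Real.exp (-A) ≤ 1 ∧ 184 * Real.exp (-A) ≤ ε₀ ∧
      2 * Cc * Real.exp (-A) ≤ e ∧ 8 * Cc * Real.exp (-A) ≤ ε := by
  have h1 : 0 < min (1 / 8) (min (ε₀ / 184) (min (e / (2 * Cc + 1)) (ε / (8 * Cc + 1)))) := by
    (clear * - hε₀ he hCc hε; positivity)
  refine ⟨-Real.log (min (1 / 8) (min (ε₀ / 184) (min (e / (2 * Cc + 1)) (ε / (8 * Cc + 1))))),
    ?_⟩
  rw [neg_neg, Real.exp_log h1]
  have m1 := min_le_left (1 / 8 : ℝ) (min (ε₀ / 184) (min (e / (2 * Cc + 1)) (ε / (8 * Cc + 1))))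
  have m' := min_le_right (1 / 8 : ℝ) (min (ε₀ / 184) (min (e / (2 * Cc + 1)) (ε / (8 * Cc + 1))))
  have m2 := m'.trans (min_le_left _ _)
  have m'' := m'.trans (min_le_right _ _)
  have m3 := m''.trans (min_le_left _ _)
  have m4 := m''.trans (min_le_right _ _)
  generalize min (1 / 8) (min (ε₀ / 184) (min (e / (2 * Cc + 1)) (ε / (8 * Cc + 1)))) = t at *
  refine ⟨by linarith only [m1], ?_, ?_, ?_⟩
  · rw [le_div_iff₀ (by norm_num)] at m2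
    (clear * - m2; linarith only [m2])
  · have h2 : 0 < 2 * Cc + 1 := by (clear * - hCc; positivity)
    rw [le_div_iff₀ h2] at m3
    (clear * - h1 m3; linarith only [h1, m3])
  · have h2 : 0 < 8 * Cc + 1 := by (clear * - hCc; positivity)
    rw [le_div_iff₀ h2] at m4
    (clear * - h1 m4; linarith only [h1, m4])

/-- the error of the conversion -/
theorem conv_err {Cc e E E₁ t l lx ε : ℝ} (hCc : 0 ≤ Cc) (ht : 0 ≤ t) (hE : 0 ≤ E) (hl : 0 ≤ l)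
    (hlen : l ≤ lx) (hE₁ : E₁ ≤ 2 * E + 2 * (π * l)) (h3 : 2 * Cc * t ≤ e)
    (h4 : 8 * Cc * t ≤ ε) :
    π⁻¹ * (Cc * (1 + t * E₁)) ≤ π⁻¹ * Cc + e * E + ε / 4 * lx := by
  have hpi := Real.pi_pos
  have hpi3 := Real.pi_gt_three
  have hpii : 0 < π⁻¹ := inv_pos.2 hpi
  have q1 : t * E₁ ≤ t * (2 * E + 2 * (π * l)) := mul_le_mul_of_nonneg_left hE₁ ht
  have q2 : π⁻¹ * (Cc * (1 + t * E₁)) ≤ π⁻¹ * (Cc * (1 + t * (2 * E + 2 * (π * l)))) :=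
    mul_le_mul_of_nonneg_left (mul_le_mul_of_nonneg_left (by linarith only [q1]) hCc) hpii.le
  have q3 : π⁻¹ * (Cc * (1 + t * (2 * E + 2 * (π * l)))) =
      π⁻¹ * Cc + π⁻¹ * ((2 * Cc * t) * E) + 2 * Cc * t * l := by
    field_simp
    ring
  have q4 : (2 * Cc * t) * E ≤ e * E := mul_le_mul_of_nonneg_right h3 hE
  have hpi1 : π⁻¹ ≤ 1 := inv_le_one_of_one_le₀ (by linarith only [hpi3])
  have q6 : 0 ≤ (2 * Cc * t) * E := by (clear * - hCc ht hE; positivity)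
  have q5 : π⁻¹ * ((2 * Cc * t) * E) ≤ 1 * ((2 * Cc * t) * E) :=
    mul_le_mul_of_nonneg_right hpi1 q6
  have q8 : 0 ≤ 2 * Cc * t := by (clear * - hCc ht; positivity)
  have q7 : 2 * Cc * t * l ≤ ε / 4 * lx :=
    mul_le_mul (by (clear * - h4; linarith only [h4])) hlen hl (by (clear * - h4 q8; linarith only [h4, q8]))
  (clear * - q2 q3 q4 q5 q7; linarith only [q2, q3, q4, q5, q7])

/-- the error of the area -/
theorem area_err {C₄ ε lx C₂ Ck n S : ℝ} (hC₄ : 0 ≤ C₄) (hε : 0 ≤ ε) (hl : 0 ≤ lx)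
    (h : S ≤ ε / (4 * (C₄ + 1)) * lx + C₂ + Ck * (lx - n)) :
    C₄ * S ≤ ε / 4 * lx + C₄ * C₂ + C₄ * Ck * (lx - n) := by
  have k6 := mul_le_mul_of_nonneg_left h hC₄
  have q1 : C₄ * (ε / (4 * (C₄ + 1))) ≤ ε / 4 := by
    rw [mul_div_assoc', div_le_iff₀ (by (clear * - hC₄; positivity))]
    linarith only [hε]
  have q2 := mul_le_mul_of_nonneg_right q1 hl
  have q3 : C₄ * (ε / (4 * (C₄ + 1)) * lx + C₂ + Ck * (lx - n)) =
      C₄ * (ε / (4 * (C₄ + 1))) * lx + C₄ * C₂ + C₄ * Ck * (lx - n) := by ring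
  rw [q3] at k6
  (clear * - k6 q2; linarith only [k6, q2])

/-- the error of the weight -/
theorem wt_err {C₁ V l lx ε : ℝ} (hC₁ : 0 ≤ C₁) (hV : 0 ≤ V) (hl : l ≤ lx) (h0 : 0 ≤ lx)
    (hCV : C₁ * V ≤ ε / 4) : C₁ * (1 + V * l) ≤ C₁ + ε / 4 * lx := by
  have q1 : C₁ * V * l ≤ C₁ * V * lx := mul_le_mul_of_nonneg_left hl (by positivity)
  have q2 : C₁ * V * lx ≤ ε / 4 * lx := mul_le_mul_of_nonneg_right hCV h0
  have q3 : C₁ * (1 + V * l) = C₁ + C₁ * V * l := by ring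
  (clear * - q1 q2; linarith only [q1, q2])

/-- the sum -/
theorem sum_err {K eE KL Mt Mj Ar Dl Wt Pc CC lx dl ε C₄ C₂ Ck n C₁ Cn : ℝ}
    (k1 : K + eE ≤ KL + Mt + Ar + Dl + Wt) (k4 : Mt - Mj ≤ Pc)
    (k5 : Pc ≤ CC + eE + ε / 4 * lx) (k6 : Ar ≤ ε / 4 * lx + C₄ * C₂ + C₄ * Ck * (lx - n))
    (k8 : Dl ≤ (dl + ε / 4) * lx) (k9 : Wt ≤ C₁ + ε / 4 * lx) (k10 : n ≤ lx) (k11 : 0 ≤ Cn) :
    K ≤ KL + Mj + (Cn + (CC + C₄ * C₂ + C₁)) + (dl + ε) * lx + (C₄ * Ck + 4) * (lx - n) := by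
  have q1 : (C₄ * Ck + 4) * (lx - n) = C₄ * Ck * (lx - n) + 4 * (lx - n) := by ring
  rw [q1]
  linarith

/-- **PTC from its parts** -/
theorem pt_ofC {κ dl : ℝ} (hκ : 0 ≤ κ) (hdl : 0 ≤ dl) {u : ℂ} (hu : ‖u‖ = 1)
    {G M M' : ℂ → ℂ} {L Mb Lm ε₀ : ℝ}
    (hG : GLip G L) (hM : MOk M M' Mb Lm ε₀) (hε₀ : 0 < ε₀)
    (hK : KOneStmtC κ dl u G M (Pool.Agent.Helper97.CKC.tau κ dl u)) :
    PTC κ dl u G (Mh M') := by
  obtain ⟨e, C₄, V₀, a₀, he, hC₄, hV₀, ha₀, hK⟩ := hK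
  obtain ⟨Cc, hCc, hconv⟩ := Pool.Agent.Helper69.CK.convC hM (Pool.Agent.Helper97.CKC.tau κ dl u)
  obtain ⟨Ck, hCk, hcut⟩ := Pool.Agent.Helper73.CK.cut
  obtain ⟨Cr, hCr, hcr⟩ := crude hG
  have hpi := Real.pi_pos
  have hpi3 := Real.pi_gt_three
  have hpii : 0 < π⁻¹ := inv_pos.2 hpi
  refine ⟨C₄ * Ck + 4, by (clear * - hC₄ hCk; positivity), ?_⟩
  intro ε hε
  obtain ⟨C₁, hC₁, hK⟩ := hK (ε / 4) (by (clear * - hε; positivity))
  obtain ⟨V, hV⟩ : ∃ V, V = min V₀ (ε / (4 * (C₁ + 1))) := ⟨_, rfl⟩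
  have hVpos : 0 < V := by
    rw [hV]
    exact lt_min hV₀ (by (clear * - hε hC₁; positivity))
  have hVV : V ≤ V₀ := by rw [hV]; exact min_le_left _ _
  have hCV : C₁ * V ≤ ε / 4 := by
    have h1 : V ≤ ε / (4 * (C₁ + 1)) := by rw [hV]; exact min_le_right _ _
    have h2 : V * (4 * (C₁ + 1)) ≤ ε := by
      rwa [le_div_iff₀ (by (clear * - hC₁; positivity))] at h1
    (clear * - hVpos h2; linarith only [hVpos, h2])
  obtain ⟨A, hA1, hA2, hA3, hA4⟩ := exists_A hCc he hε hε₀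
  obtain ⟨s, C₂, n₀, hs, hs1, hC₂, hcut⟩ := hcut V (ε / (4 * (C₄ + 1))) A hVpos (by (clear * - hε hC₄; positivity))
  -- the first depth
  obtain ⟨n₁, hn₁⟩ : ∃ n₁ : ℝ, ∀ x : ℝ, x ≤ Real.exp (-n₁) → a₀ < Real.exp (-x) := by
    refine ⟨-Real.log (1 - a₀) + 1, ?_⟩
    intro x hx
    have h1 : Real.exp (-(-Real.log (1 - a₀) + 1)) = (1 - a₀) * Real.exp (-1) := by
      rw [neg_add, neg_neg, Real.exp_add, Real.exp_log (by linarith only [ha₀])]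
    rw [h1] at hx
    have h2 : Real.exp (-1) < 1 := by
      rw [Real.exp_lt_one_iff]
      norm_num
    have h3 := Real.add_one_le_exp (-x)
    (clear * - hx h3 ha₀ h2; nlinarith only [ha₀, hx, h2, h3])
  obtain ⟨n₂, hn₂⟩ : ∃ n₂, n₂ = max n₀ n₁ := ⟨_, rfl⟩
  refine ⟨s, (Cr + 4 * |n₂|) + (π⁻¹ * Cc + C₄ * C₂ + C₁), hs, hs1, by (clear * - hCr hCc hC₄ hC₂ hC₁; positivity), ?_⟩
  intro n hn
  by_cases hnn : n₂ ≤ n
  · obtain ⟨W0, hW0, hcut⟩ := hcut n ((le_max_left _ _).trans (hn₂ ▸ hnn))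
    refine ⟨W0, hW0, ?_⟩
    intro β Lg R hβ hLg x θ hx hxn hθ
    obtain ⟨⟨W₁, W₂, hWt⟩, hsupp, harea⟩ := hcut x θ hx hxn hθ
    have hx2 : x ≤ Real.exp (-2) := hxn.trans (Real.exp_le_exp.2 (by linarith only [hn]))
    have hx4 : x ≤ 1 / 4 := hx2.trans exp_m2
    have ha1 : Real.exp (-x) < 1 := by
      rw [Real.exp_lt_one_iff]
      linarith only [hx]
    have ha0 : a₀ < Real.exp (-x) := hn₁ x (hxn.trans (Real.exp_le_exp.2 (by
      have := (le_max_right n₀ n₁).trans (hn₂ ▸ hnn)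
      linarith only [this])))
    have hfar := tau_far' hx hx2
    have hlen := len_le hx (by (clear * - hx4; linarith only [hx4]) : x ≤ 1)
    have hβ' := Pool.Agent.Helper9.EK.rot_ExtR hβ θ
    have k1 := hK (rotβ β θ) _ R (Real.exp (-x)) V _ W₁ W₂ hβ' (hLg.rot θ) ha0 ha1 hVpos.le hVV hWt
    have k2 := hconv (rotβ β θ) R (Real.exp (-x)) A (Real.log (tau (Real.exp (-x))) + 1)
      (fun z => W0 (Complex.exp (θ * I) * z)) hβ' (Real.exp_pos _) ha1 (by linarith only []) hfar hA1 hA2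
      (hW0.cont.comp (continuous_const.mul continuous_id)) (fun z => hW0.nn _)
      (fun z => hW0.le1 _) hsupp
    rw [Real.log_exp, ← Pool.Agent.Helper9.EK.rot_Kf'] at k1
    have e1 : Lg (Complex.exp (θ * I) * ((Real.exp (-x) : ℝ) : ℂ)) = Lg (ep (-x) θ) := by
      rw [Pool.Agent.Helper69.CK.ep_eq]
    have e2 : Real.exp (-x) ^ 2 = Real.exp (-2 * x) := by
      rw [← Real.exp_nat_mul]
      congr 1
      push_cast
      ring
    rw [e1, e2] at k1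
    have e3 := Pool.Agent.Helper69.CK.MC_rot κ dl u W0 M' β x θ
    have hX : NiceX (Xf (rotβ β θ) (Real.exp (-x))) (Real.log (tau (Real.exp (-x))) + 1) (-1) :=
      Pool.Agent.Helper67.EK.E1c hβ' (Real.exp_pos _) ha1 (by linarith only []) (by norm_num)
    have e4 := around_one hu hfar hX
    set E := II (Real.log (tau (Real.exp (-x))) + 1) (-1)
      (fun ξ η => ‖Xf (rotβ β θ) (Real.exp (-x)) (pt ξ η) - (1 + u) / 2‖ ^ 2) with hE
    set E₁ := II (Real.log (tau (Real.exp (-x))) + 1) (-1)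
      (fun ξ η => ‖Xf (rotβ β θ) (Real.exp (-x)) (pt ξ η) - 1‖ ^ 2) with hE₁
    set J := ∫ z : ℂ, W0 (Complex.exp (θ * I) * z) * (Mh M' (rotβ β θ) z *
      (kA (rotβ β θ) ((Real.exp (-x) : ℝ) : ℂ) z -
        Pool.Agent.Helper97.CKC.tau κ dl u * omp 0 z ^ 2)).re with hJ
    have hE0 : 0 ≤ E := Pool.Agent.Helper83.EK.II_nonneg hfar (fun ξ η => by (clear * -; positivity))
    have hl0 : 0 ≤ -Real.log x := by
      rw [neg_nonneg]
      exact Real.log_nonpos hx.le (by linarith only [hx4])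
    have hl : 0 ≤ -1 - (Real.log (tau (Real.exp (-x))) + 1) := by linarith only [hfar]
    have k3 := (abs_le.mp k2).2
    have k4 := mul_le_mul_of_nonneg_left k3 hpii.le
    rw [mul_sub] at k4
    rw [e3]
    have hln : n ≤ -Real.log x := by
      have := Real.log_le_log hx hxn
      rw [Real.log_exp] at this
      linarith only [this]
    have k5 := conv_err (e := e) (ε := ε) hCc (Real.exp_pos (-A)).le hE0 hl hlen e4 hA3 hA4
    have k6 := area_err hC₄ hε.le hl0 harea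
    have k8 : (dl + ε / 4) * (-1 - (Real.log (tau (Real.exp (-x))) + 1)) ≤
        (dl + ε / 4) * (-Real.log x) :=
      mul_le_mul_of_nonneg_left hlen (by (clear * - hdl hε; positivity))
    have k9 := wt_err hC₁ hVpos.le hlen hl0 hCV
    have k11 : 0 ≤ Cr + 4 * |n₂| := by (clear * - hCr; positivity)
    exact sum_err k1 k4 k5 k6 k8 k9 hln k11
  · push Not at hnn
    refine ⟨fun _ => 0, ⟨continuous_const, fun _ => le_rfl, fun _ => zero_le_one,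
      fun z h => absurd rfl h⟩, ?_⟩
    intro β Lg R hβ hLg x θ hx hxn _
    have hx2 : x ≤ Real.exp (-2) := hxn.trans (Real.exp_le_exp.2 (by linarith only [hn]))
    have hx4 : x ≤ 1 / 4 := hx2.trans exp_m2
    have hβ' := Pool.Agent.Helper9.EK.rot_ExtR hβ θ
    have k1 := hcr (rotβ β θ) R x hβ' hx hx2
    rw [← Pool.Agent.Helper9.EK.rot_Kf'] at k1
    have k2 := lam_nonneg hu hβ' (hLg.rot θ) hx hx2
    have e1 : Lg (Complex.exp (θ * I) * ((Real.exp (-x) : ℝ) : ℂ)) = Lg (ep (-x) θ) := by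
      rw [Pool.Agent.Helper69.CK.ep_eq]
    have e2 : Real.exp (-x) ^ 2 = Real.exp (-2 * x) := by
      rw [← Real.exp_nat_mul]
      congr 1
      push_cast
      ring
    rw [e1, e2] at k2
    have k3 : MC κ dl u (fun _ => 0) (Mh M' β) β x θ = 0 := by
      unfold MC
      simp
    have k4 := mul_nonneg hκ k2
    have hl0 : 0 ≤ -Real.log x := by
      rw [neg_nonneg]
      exact Real.log_nonpos hx.le (by (clear * - hx4; linarith only [hx4]))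
    have k5 : 0 ≤ (dl + ε) * (-Real.log x) := by (clear * - hdl hε hl0; positivity)
    have hln : n ≤ -Real.log x := by
      have := Real.log_le_log hx hxn
      rw [Real.log_exp] at this
      linarith only [this]
    have k6 : 0 ≤ C₄ * Ck * (-Real.log x - n) := mul_nonneg (by (clear * - hC₄ hCk; positivity)) (by linarith only [hln])
    have k7 : 0 ≤ π⁻¹ * Cc + C₄ * C₂ + C₁ := by (clear * - hCc hC₄ hC₂ hC₁; positivity)
    have k8 : 4 * n ≤ 4 * |n₂| := by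
      have := le_abs_self n₂
      linarith only [hnn, this]
    rw [k3]
    have k9 : (C₄ * Ck + 4) * (-Real.log x - n) =
        C₄ * Ck * (-Real.log x - n) + 4 * (-Real.log x) - 4 * n := by ring
    rw [k9]
    linarith only [k1, k4, k5, k6, k7, k8]

end Pool.Agent.Helper69.CKC

end

section

namespace Pool.Agent.Helper39.Area
end Pool.Agent.Helper39.Area
namespace Pool.Agent.Helper52.EK
end Pool.Agent.Helper52.EK
namespace Pool.Agent.Helper69.EK3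
end Pool.Agent.Helper69.EK3
namespace Pool.Agent.Helper69.EK7
end Pool.Agent.Helper69.EK7
namespace Pool.Agent.Helper84.CK
end Pool.Agent.Helper84.CK
namespace Pool.Agent.Helper68.EKC
end Pool.Agent.Helper68.EKC
namespace Pool.Agent.Helper69.CK
end Pool.Agent.Helper69.CK

set_option autoImplicit false

open Complex MeasureTheory Metric Set

open scoped Real ComplexConjugate

namespace Pool.Agent.Helper69.CKC

open Pool.Agent.Helper39.Area Pool.Agent.Helper52.EK Pool.Agent.Helper69.EK3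

open Pool.Agent.Helper69.EK7 Pool.Agent.Helper84.CK Pool.Agent.Helper68.EKC

open Pool.Agent.Helper69.CK

/-- the error of the discs, centre `z₀` -/
theorem grow_err_u {B ε : ℝ} (hB : 0 ≤ B) (hε : 0 < ε) {z₀ : ℂ} (hz : ‖z₀‖ ≤ 1) :
    ∃ K : ℝ, 0 ≤ K ∧
    ∀ (X : ℂ) (s d A₁ A₂ l₀ l₁ l₂ : ℝ), 0 ≤ s → s ≤ 1 → 0 ≤ d → d ≤ 8 →
      s * ‖X‖ ≤ 1 + d * s → 0 ≤ A₁ → A₁ ≤ 4 * (1 + d * s) → 0 ≤ A₂ → A₂ ≤ 4 * (1 + d * s) →
      0 ≤ l₀ → l₀ ≤ B * (1 + ‖X‖ ^ 2) → 0 ≤ l₁ → l₁ ≤ B * (1 + ‖X‖ ^ 2) →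
      0 ≤ l₂ → l₂ ≤ B * (1 + ‖X‖ ^ 2) →
      l₀ * ((s * ‖X‖) ^ 2 - 1) + l₁ * (A₁ ^ 2 - 16) + l₂ * (A₂ ^ 2 - 16) ≤
        K * d + ε * ‖X - z₀‖ ^ 2 := by
  have hε3 : 0 < ε / 3 := by (clear * - hε; positivity)
  have hB3 : 0 ≤ 3 * B := by (clear * - hB; positivity)
  refine ⟨3 * (160 * (3 * B) + 200 * 160 ^ 2 * (3 * B) ^ 2 / (ε / 3)), by (clear * - hB hε; positivity), ?_⟩
  intro X s d A₁ A₂ l₀ l₁ l₂ hs hs1 hd hd8 hX hA₁ hA₁' hA₂ hA₂' h0 h0' h1 h1' h2 h2'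
  have hds : 0 ≤ d * s := mul_nonneg hd hs
  have hds8 : d * s ≤ 8 := by nlinarith only [hs1, hd, hd8]
  have hn := norm_nonneg X
  have ht := norm_nonneg (X - z₀)
  have ht1 : ‖X - z₀‖ ≤ ‖X‖ + 1 := (norm_sub_le X z₀).trans (by (clear * - hz; linarith))
  have ht2 : ‖X‖ ≤ ‖X - z₀‖ + 1 := by
    have := norm_add_le (X - z₀) z₀
    rw [sub_add_cancel] at this
    (clear * - hz this; linarith only [hz, this])
  have ht3 : 1 + ‖X‖ ^ 2 ≤ 3 * (1 + ‖X - z₀‖ ^ 2) := by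
    have : ‖X‖ ^ 2 ≤ (‖X - z₀‖ + 1) ^ 2 := pow_le_pow_left₀ hn ht2 2
    (clear * - this; nlinarith only [this])
  have hst : s * ‖X - z₀‖ ≤ 10 := by
    have q1 : s * ‖X - z₀‖ ≤ s * (‖X‖ + 1) := mul_le_mul_of_nonneg_left ht1 hs
    nlinarith only [hs1, hd, hd8, hX, q1]
  have hBt : B * (1 + ‖X‖ ^ 2) ≤ 3 * B * (1 + ‖X - z₀‖ ^ 2) := by
    have := mul_le_mul_of_nonneg_left ht3 hB
    linarith only [this]
  have a0 : (s * ‖X‖) ^ 2 - 1 ≤ 160 * (d * s) := by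
    have q1 : 0 ≤ s * ‖X‖ := mul_nonneg hs hn
    have q2 : (s * ‖X‖) ^ 2 ≤ (1 + d * s) ^ 2 := pow_le_pow_left₀ q1 hX 2
    nlinarith only [hds, hds8, q2]
  have a1 : A₁ ^ 2 - 16 ≤ 160 * (d * s) := by
    have q2 : A₁ ^ 2 ≤ (4 * (1 + d * s)) ^ 2 := pow_le_pow_left₀ hA₁ hA₁' 2
    (clear * - q2 hds hds8; nlinarith only [hds, hds8, q2])
  have a2 : A₂ ^ 2 - 16 ≤ 160 * (d * s) := by
    have q2 : A₂ ^ 2 ≤ (4 * (1 + d * s)) ^ 2 := pow_le_pow_left₀ hA₂ hA₂' 2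
    nlinarith only [hds, hds8, q2]
  have b0 := grow_one hs hd hd8 hB3 hε3 ht hst hs1 (by norm_num : (0:ℝ) ≤ 160) a0 h0
    (h0'.trans hBt)
  have b1 := grow_one hs hd hd8 hB3 hε3 ht hst hs1 (by norm_num : (0:ℝ) ≤ 160) a1 h1
    (h1'.trans hBt)
  have b2 := grow_one hs hd hd8 hB3 hε3 ht hst hs1 (by norm_num : (0:ℝ) ≤ 160) a2 h2
    (h2'.trans hBt)
  linarith

theorem norm_alpha_le {u : ℂ} (hu : ‖u‖ = 1) : ‖(1 + u) / 2‖ ≤ 1 := by
  rw [norm_div]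
  have h3 := norm_add_le 1 u
  rw [hu, norm_one] at h3
  have : ‖(2:ℂ)‖ = 2 := by simp
  rw [this]
  (clear * - h3; linarith only [h3])

/-- the energy around `(1 + u) / 2` -/
theorem energy_alpha {u : ℂ} (hu : ‖u‖ = 1) (X : ℂ) :
    ‖X - (1 + u) / 2‖ ^ 2 = fu u X + (‖X‖ ^ 2 - X.re) := by
  have h1 : u.re ^ 2 + u.im ^ 2 = 1 := by
    have h2 : ‖u‖ ^ 2 = 1 := by rw [hu, one_pow]
    rw [← Complex.normSq_eq_norm_sq, Complex.normSq_apply] at h2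
    (clear * - h2; linarith only [h2])
  unfold fu
  rw [← Complex.normSq_eq_norm_sq, ← Complex.normSq_eq_norm_sq, Complex.normSq_apply,
    Complex.normSq_apply]
  have e1 : ((1 + u) / 2).re = (1 + u.re) / 2 := by
    simp
  have e2 : ((1 + u) / 2).im = u.im / 2 := by
    simp
  simp only [mul_re, sub_re, sub_im, conj_re, conj_im, e1, e2]
  (clear * - h1; linarith only [h1])

/-- **the bound for one target from a certificate in the direction `u`**, multipliers of the discs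
with quadratic growth -/
theorem K_oneC_g {k₂ lam dc κ L₀ B : ℝ} {q u : ℂ} (hu : ‖u‖ = 1) (line : LineC u)
    (hB : 0 ≤ B) (hlam : 0 ≤ lam) (hk₂ : lam ≤ k₂)
    (hdc : 0 ≤ dc) (hκ : k₂ < 2 * κ) {G : ℂ → ℂ} (hG : GLip G L₀)
    {M : ℂ → ℂ} (hM : Continuous M)
    {Nl : (ℂ → ℂ) → ℝ → ℝ → ℝ} (hN : IsNullC (DiscG π) Nl)
    (hp : ∀ (X : ℂ → ℂ) (x₁ x₂ : ℝ), NiceX X x₁ x₂ → ∀ ξ ∈ Icc x₁ x₂,
      ∀ η ∈ Icc (0:ℝ) π, Real.sin η * ‖X (pt ξ η)‖ ≤ 9 →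
      Real.sin η * ‖deriv X (pt ξ η) / X (pt ξ η)‖ ≤ 38 → ∃ l₀ l₁ l₂ : ℝ,
      0 ≤ l₀ ∧ l₀ ≤ B * (1 + ‖X (pt ξ η)‖ ^ 2) ∧ 0 ≤ l₁ ∧ l₁ ≤ B * (1 + ‖X (pt ξ η)‖ ^ 2) ∧
      0 ≤ l₂ ∧ l₂ ≤ B * (1 + ‖X (pt ξ η)‖ ^ 2) ∧
      T2 (fun m _ => G m) X ξ η + l₀ * (1 - (Real.sin η * ‖X (pt ξ η)‖) ^ 2) +
        l₁ * (16 - ‖dA 1 (X (pt ξ η)) (deriv X (pt ξ η)) (Real.sin η) (Real.cos η)‖ ^ 2) +
        l₂ * (16 - ‖dA (-1) (X (pt ξ η)) (deriv X (pt ξ η)) (Real.sin η) (Real.cos η)‖ ^ 2) ≤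
      k₂ * fu u (X (pt ξ η)) + lam * (‖X (pt ξ η)‖ ^ 2 - (X (pt ξ η)).re) + dc +
        Nl X ξ η + MtC M q X ξ η) :
    KOneStmtC κ dc u G M q := by
  have hG2 := GLip.two hG
  obtain ⟨ε, hε⟩ : ∃ ε, ε = (2 * κ - k₂) / 2 := ⟨_, rfl⟩
  have hε0 : 0 < ε := by rw [hε]; linarith only [hκ]
  obtain ⟨K, hK, hgrow⟩ := grow_err_u hB hε0 (norm_alpha_le hu)
  refine K_oneC (w := wf2 (fun m _ => G m)) (adm := DiscG π) (T := T2 (fun m _ => G m))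
    (lam := lam + ε) (k₂ := k₂ + ε) hu
    (E3F hG2 1 le_rfl) (T2_le4 hG2) (fun X x₁ x₂ hX => F3_contOn hG2 hX) discG_Xf line ?_
    (by linarith only [hlam, hε0]) (by (clear * - hk₂; linarith)) (by linarith)
  refine stripC (P := DiscG π) (T := T2 (fun m _ => G m)) (Mt := MtC M q) (D := K * 8) (dc := dc)
    (by (clear * - hlam hε0; linarith)) (by (clear * - hk₂; linarith)) hdc hu (fun X x₁ x₂ hX => F3_contOn hG2 hX) (MtC_cont_X hM q) hN ?_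
  intro X x₁ x₂ hx hX hP
  have q9 := hP.X_le le_rfl
  have q38 := hP.q_le le_rfl
  obtain ⟨δ, h1, h2, h3, h4, h5⟩ := hP
  refine ⟨fun ξ => K * δ ξ, by fun_prop, fun ξ => mul_nonneg hK (h2 ξ), ?_, ?_⟩
  · rw [intervalIntegral.integral_const_mul]
    exact mul_le_mul_of_nonneg_left h4 hK
  · intro ξ hξ η hη
    have hs : 0 ≤ Real.sin η := sin_nn' hη
    obtain ⟨l₀, l₁, l₂, a1, a2, b1, b2, c1, c2, hl⟩ := hp X x₁ x₂ hX ξ hξ η hη
      (q9 ξ hξ η hη) (q38 ξ hξ η hη)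
    obtain ⟨k1, k2, k3⟩ := h5 ξ hξ η hη
    have hg := hgrow (X (pt ξ η)) (Real.sin η) (δ ξ) _ _ l₀ l₁ l₂ hs (Real.sin_le_one η) (h2 ξ)
      (h3 ξ hξ) k1 (norm_nonneg _) k2 (norm_nonneg _) k3 a1 a2 b1 b2 c1 c2
    rw [energy_alpha hu] at hg
    (clear * - hl hg; linarith)

/-- **PTC from a pointwise certificate**, multipliers of the discs with quadratic growth -/
theorem pt_C_g {k₂ lam dl κ L₀ B Mb Lm ε₀ : ℝ} {u : ℂ} (hu : ‖u‖ = 1) (line : LineC u)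
    (hB : 0 ≤ B) (hlam : 0 ≤ lam) (hk₂ : lam ≤ k₂) (hdl : 0 ≤ dl) (hκ : k₂ < 2 * κ)
    {G M M' : ℂ → ℂ} (hG : GLip G L₀) (hM : MOk M M' Mb Lm ε₀) (hε₀ : 0 < ε₀)
    {Nl : (ℂ → ℂ) → ℝ → ℝ → ℝ} (hN : IsNullC (DiscG π) Nl)
    (hp : ∀ (X : ℂ → ℂ) (x₁ x₂ : ℝ), NiceX X x₁ x₂ → ∀ ξ ∈ Icc x₁ x₂,
      ∀ η ∈ Icc (0:ℝ) π, Real.sin η * ‖X (pt ξ η)‖ ≤ 9 →
      Real.sin η * ‖deriv X (pt ξ η) / X (pt ξ η)‖ ≤ 38 → ∃ l₀ l₁ l₂ : ℝ,
      0 ≤ l₀ ∧ l₀ ≤ B * (1 + ‖X (pt ξ η)‖ ^ 2) ∧ 0 ≤ l₁ ∧ l₁ ≤ B * (1 + ‖X (pt ξ η)‖ ^ 2) ∧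
      0 ≤ l₂ ∧ l₂ ≤ B * (1 + ‖X (pt ξ η)‖ ^ 2) ∧
      T2 (fun m _ => G m) X ξ η + l₀ * (1 - (Real.sin η * ‖X (pt ξ η)‖) ^ 2) +
        l₁ * (16 - ‖dA 1 (X (pt ξ η)) (deriv X (pt ξ η)) (Real.sin η) (Real.cos η)‖ ^ 2) +
        l₂ * (16 - ‖dA (-1) (X (pt ξ η)) (deriv X (pt ξ η)) (Real.sin η) (Real.cos η)‖ ^ 2) ≤
      k₂ * fu u (X (pt ξ η)) + lam * (‖X (pt ξ η)‖ ^ 2 - (X (pt ξ η)).re) + dl +
        Nl X ξ η + MtC M (Pool.Agent.Helper97.CKC.tau κ dl u) X ξ η) :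
    Pool.Agent.Helper97.CKC.PTC κ dl u G (Mh M') :=
  pt_ofC (by (clear * - hlam hk₂ hκ; linarith only [hlam, hk₂, hκ])) hdl hu hG hM hε₀
    (K_oneC_g hu line hB hlam hk₂ hdl hκ hG hM.cont hN hp)

end Pool.Agent.Helper69.CKC

end

section

namespace Pool.Agent.Helper39.Area
end Pool.Agent.Helper39.Area
namespace Pool.Agent.Helper52.EK
end Pool.Agent.Helper52.EK
namespace Pool.Agent.Helper69.EK3
end Pool.Agent.Helper69.EK3
namespace Pool.Agent.Helper69.EK7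
end Pool.Agent.Helper69.EK7
namespace Pool.Agent.Helper69.CK
end Pool.Agent.Helper69.CK

set_option autoImplicit false

open Complex MeasureTheory Metric Set

open scoped Real ComplexConjugate

namespace Pool.Agent.Helper69.CKC

open Pool.Agent.Helper39.Area Pool.Agent.Helper52.EK Pool.Agent.Helper69.EK3

open Pool.Agent.Helper69.EK7 Pool.Agent.Helper69.CK

/-- **from a pointwise certificate to the integral means** -/
theorem sigC_of_cert {k₂ lam dl κ L₀ B Mb Lm ε₀ : ℝ} {u : ℂ} (hu : ‖u‖ = 1) (hκ1 : 1 ≤ κ)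
    (hB : 0 ≤ B) (hlam : 0 ≤ lam) (hk₂ : lam ≤ k₂) (hdl : 0 ≤ dl) (hκ : k₂ < 2 * κ)
    {G M M' : ℂ → ℂ} (hG : GLip G L₀) (hM : MOk M M' Mb Lm ε₀) (hε₀ : 0 < ε₀)
    (hMb : Mb < 2 * κ) {Nl : (ℂ → ℂ) → ℝ → ℝ → ℝ} (hN : IsNullC (DiscG π) Nl)
    (hp : ∀ (X : ℂ → ℂ) (x₁ x₂ : ℝ), NiceX X x₁ x₂ → ∀ ξ ∈ Icc x₁ x₂,
      ∀ η ∈ Icc (0:ℝ) π, Real.sin η * ‖X (pt ξ η)‖ ≤ 9 →
      Real.sin η * ‖deriv X (pt ξ η) / X (pt ξ η)‖ ≤ 38 → ∃ l₀ l₁ l₂ : ℝ,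
      0 ≤ l₀ ∧ l₀ ≤ B * (1 + ‖X (pt ξ η)‖ ^ 2) ∧ 0 ≤ l₁ ∧ l₁ ≤ B * (1 + ‖X (pt ξ η)‖ ^ 2) ∧
      0 ≤ l₂ ∧ l₂ ≤ B * (1 + ‖X (pt ξ η)‖ ^ 2) ∧
      T2 (fun m _ => G m) X ξ η + l₀ * (1 - (Real.sin η * ‖X (pt ξ η)‖) ^ 2) +
        l₁ * (16 - ‖dA 1 (X (pt ξ η)) (deriv X (pt ξ η)) (Real.sin η) (Real.cos η)‖ ^ 2) +
        l₂ * (16 - ‖dA (-1) (X (pt ξ η)) (deriv X (pt ξ η)) (Real.sin η) (Real.cos η)‖ ^ 2) ≤
      k₂ * fu u (X (pt ξ η)) + lam * (‖X (pt ξ η)‖ ^ 2 - (X (pt ξ η)).re) + dl +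
        Nl X ξ η + MtC M (Pool.Agent.Helper97.CKC.tau κ dl u) X ξ η)
    {t : ℂ} (ht : κ ≤ ‖t‖) (htu : t = -((‖t‖ : ℂ) * conj u)) {e : ℝ} (he : 0 < e) :
    Pool.Agent.Helper58.CKC.SigC t (‖t‖ - 1 + dl + e) :=
  Pool.Agent.Helper52.CKC.main_of_ptC hu hκ1 hdl ((norm_nonneg _).trans (hM.le 0)) hMb hG
    (fun β R h => Mh_cont hM h.toExt) (Mh_le hM)
    (pt_C_g hu (Pool.Agent.Helper77.CKC.line_C hu) hB hlam hk₂ hdl hκ hG hM hε₀ hN hp) ht htu he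

end Pool.Agent.Helper69.CKC

end

section

namespace Pool.Agent.Helper52.EK
end Pool.Agent.Helper52.EK
namespace Pool.Agent.Helper20.EK7
end Pool.Agent.Helper20.EK7
namespace Pool.Agent.Helper69.EK3
end Pool.Agent.Helper69.EK3

set_option autoImplicit false

open Complex Metric Set

open scoped Real ComplexConjugate

namespace Pool.Agent.Helper82.CKC

open Pool.Agent.Helper52.EK

open Pool.Agent.Helper20.EK7 (prj prj_lip prj_of_le norm_prj_le prj_dist_sq InL OutL OutD)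

open Pool.Agent.Helper69.EK3 (rF)

/-- the field -/
noncomputable def GC (u gam c a b a' b' : ℂ) (p0 p1 p2 q0 q1 q2 : ℝ) (m : ℂ) : ℂ :=
  BqC gam c a b a' b' p0 p1 p2 q0 q1 q2 (wu u (rR 115 m))

/-- the conditions on a field `G` which enter the pointwise inequality -/
structure FldC (G : ℂ → ℂ) (u gam c a b a' b' : ℂ) (p0 p1 p2 q0 q1 q2 : ℝ) : Prop where
  gin : ∀ m : ℂ, ‖m‖ ≤ 115 → ‖wu u m‖ ≤ 1 → ∀ e : ℂ, ‖e‖ = 1 →
    ‖G m - e‖ ^ 2 ≤ ‖FqC gam c a b 1 p0 p1 p2 (wu u m) - e‖ ^ 2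
  gout : ∀ m : ℂ, ‖m‖ ≤ 115 → 1 < ‖wu u m‖ → ∀ e : ℂ, ‖e‖ = 1 →
    ‖G m - e‖ ^ 2 ≤ ‖FqC gam c a' b' (-1) q0 q1 q2 (wu u m) - e‖ ^ 2

theorem fldC_GC (u gam c a b a' b' : ℂ) (p0 p1 p2 q0 q1 q2 : ℝ) :
    FldC (GC u gam c a b a' b' p0 p1 p2 q0 q1 q2) u gam c a b a' b' p0 p1 p2 q0 q1 q2 := by
  refine ⟨fun m hm h e he => ?_, fun m hm h e he => ?_⟩
  · unfold GC BqC
    rw [rR_eq (by norm_num) hm, if_pos h]
    exact prj_dist_sq he.le
  · unfold GC BqC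
    rw [rR_eq (by norm_num) hm, if_neg (not_le.2 h)]
    exact prj_dist_sq he.le

/-- **the field of the direction `u` is admissible** -/
theorem glip_GC {u : ℂ} (hu : ‖u‖ = 1) (gam c a b a' b' : ℂ) {p0 p1 p2 q0 q1 q2 : ℝ}
    (h : InL p0 p1 p2) (h' : OutD q0 q1 q2) :
    ∃ L : ℝ, GLip (GC u gam c a b a' b' p0 p1 p2 q0 q1 q2) L := by
  obtain ⟨k, hk, h1⟩ := h.low
  have h3 : OutL (q1 + q2) q0 q1 q2 := ⟨rfl, h'.pos, h'.pos'⟩
  obtain ⟨k', hk', h2⟩ := h3.low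
  obtain ⟨L, hL⟩ := glip_BqC gam c a b a' b' hk hk'
    (fun w hw => le_trans (by nlinarith only [hk]) (h1 w hw))
    (fun w => le_trans (by (clear * - hk'; nlinarith only [hk'])) (h2 w)) (R := 115) (by norm_num) hu
  refine ⟨L, fun m => hL.le_one m 0, fun m m' => hL.lip m m' 0, fun v m hv => ?_⟩
  exact hL.rot v m 0 hv

theorem one_add_e0_eq (η : ℝ) : 1 + e0 (Real.sin η) (Real.cos η) =
    2 * (Real.sin η : ℂ) * ((Real.sin η : ℂ) + (Real.cos η : ℂ) * I) := by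
  have h := Real.sin_sq_add_cos_sq η
  have h' : (Real.cos η : ℂ) ^ 2 = 1 - (Real.sin η : ℂ) ^ 2 := by
    have : (Real.cos η) ^ 2 = 1 - (Real.sin η) ^ 2 := by (clear * - h; linarith only [h])
    exact_mod_cast this
  unfold e0
  linear_combination (norm := skip) (-1 : ℂ) * h'
  ring_nf
  rw [I_sq]
  ring

theorem norm_one_add_e0 {η : ℝ} (hη : 0 ≤ Real.sin η) :
    ‖1 + e0 (Real.sin η) (Real.cos η)‖ = 2 * Real.sin η := by
  have h1 : ‖(Real.sin η : ℂ) + (Real.cos η : ℂ) * I‖ = 1 := by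
    rw [Complex.norm_add_mul_I, Real.sin_sq_add_cos_sq, Real.sqrt_one]
  rw [one_add_e0_eq, norm_mul, h1, mul_one, norm_mul, Complex.norm_real,
    Real.norm_of_nonneg hη]
  norm_num

/-- the region of the certificate -/
theorem mX_le {X Y : ℂ} {η : ℝ} (hη : η ∈ Icc (0:ℝ) π) (h1 : Real.sin η * ‖X‖ ≤ 9)
    (h2 : Real.sin η * ‖Y / X‖ ≤ 38) : ‖mX X Y (Real.sin η) (Real.cos η)‖ ≤ 115 := by
  have hs := Real.sin_nonneg_of_mem_Icc hη
  have hs1 := Real.sin_le_one η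
  have k1 : ‖2 * X - 1 + Y / X‖ ≤ 2 * ‖X‖ + 1 + ‖Y / X‖ := by
    have a1 := norm_add_le (2 * X - 1) (Y / X)
    have a2 := norm_sub_le (2 * X) 1
    rw [norm_mul, norm_one] at a2
    have a3 : ‖(2:ℂ)‖ = 2 := by norm_num
    rw [a3] at a2
    (clear * - a1 a2; linarith only [a1, a2])
  have k2 := norm_sub_le ((1 + e0 (Real.sin η) (Real.cos η)) * (2 * X - 1 + Y / X)) 1
  rw [norm_mul, norm_one_add_e0 hs, norm_one] at k2
  have k3 := mul_le_mul_of_nonneg_left k1 (mul_nonneg zero_le_two hs)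
  unfold mX
  linarith only [h1, h2, hs1, k2, k3]

/-- the coordinate `w` -/
theorem wu_mX {u : ℂ} (hu : ‖u‖ = 1) (X Y : ℂ) (s c : ℝ) :
    wu u (mX X Y s c) = e0 s c + (1 + e0 s c) * (2 * (conj u * (X - (1 + u) / 2)) +
      conj u * (Y / X)) := by
  have h : conj u * u = 1 := by
    rw [mul_comm, mul_conj, normSq_eq_norm_sq, hu]
    norm_num
  unfold wu mX
  linear_combination (1 + e0 s c) * h

/-- **the field against `e₀`**, inside -/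
theorem FldC.T_in {G : ℂ → ℂ} {u gam c a b a' b' : ℂ} {p0 p1 p2 q0 q1 q2 : ℝ}
    (h : FldC G u gam c a b a' b' p0 p1 p2 q0 q1 q2) {X Y : ℂ} {η : ℝ} (hη : η ∈ Icc (0:ℝ) π)
    (h1 : Real.sin η * ‖X‖ ≤ 9) (h2 : Real.sin η * ‖Y / X‖ ≤ 38) {w : ℂ}
    (hw : wu u (mX X Y (Real.sin η) (Real.cos η)) = w) (hw1 : ‖w‖ ≤ 1) :
    ‖G (mX X Y (Real.sin η) (Real.cos η)) - e0 (Real.sin η) (Real.cos η)‖ ^ 2 ≤
      ‖gam * w + c + (((1 - ‖w‖ ^ 2) / rF p0 p1 p2 w : ℝ) : ℂ) * (a * w + b) -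
        e0 (Real.sin η) (Real.cos η)‖ ^ 2 := by
  have h3 := h.gin _ (mX_le hη h1 h2) (by rw [hw]; exact hw1) _
    (Pool.Agent.Helper69.EK3.norm_e0 η)
  rw [hw] at h3
  unfold FqC at h3
  rwa [one_mul] at h3

/-- **the field against `e₀`**, outside -/
theorem FldC.T_out {G : ℂ → ℂ} {u gam c a b a' b' : ℂ} {p0 p1 p2 q0 q1 q2 : ℝ}
    (h : FldC G u gam c a b a' b' p0 p1 p2 q0 q1 q2) {X Y : ℂ} {η : ℝ} (hη : η ∈ Icc (0:ℝ) π)
    (h1 : Real.sin η * ‖X‖ ≤ 9) (h2 : Real.sin η * ‖Y / X‖ ≤ 38) {w : ℂ}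
    (hw : wu u (mX X Y (Real.sin η) (Real.cos η)) = w) (hw1 : 1 < ‖w‖) :
    ‖G (mX X Y (Real.sin η) (Real.cos η)) - e0 (Real.sin η) (Real.cos η)‖ ^ 2 ≤
      ‖gam * w + c + (((‖w‖ ^ 2 - 1) / rF q0 q1 q2 w : ℝ) : ℂ) * (a' * w + b') -
        e0 (Real.sin η) (Real.cos η)‖ ^ 2 := by
  have h3 := h.gout _ (mX_le hη h1 h2) (by rw [hw]; exact hw1) _
    (Pool.Agent.Helper69.EK3.norm_e0 η)
  rw [hw] at h3
  unfold FqC at h3
  have e : -1 * (1 - ‖w‖ ^ 2) = ‖w‖ ^ 2 - 1 := by ring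
  rwa [e] at h3

end Pool.Agent.Helper82.CKC

end

section

namespace Pool.Agent.Helper52.EK
end Pool.Agent.Helper52.EK
namespace Pool.Agent.Helper69.EK3
end Pool.Agent.Helper69.EK3
namespace Pool.Agent.Helper69.EK7
end Pool.Agent.Helper69.EK7
namespace Pool.Agent.Helper69.CKC
end Pool.Agent.Helper69.CKC
namespace Pool.Agent.Helper69.CK
end Pool.Agent.Helper69.CK
namespace Pool.Agent.Helper82.CKC
end Pool.Agent.Helper82.CKC
namespace Pool.Agent.Helper20.EK7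
end Pool.Agent.Helper20.EK7
namespace Pool.Agent.Helper11.CKC
end Pool.Agent.Helper11.CKC

set_option autoImplicit false

open Complex MeasureTheory Metric Set

open scoped Real ComplexConjugate

namespace Pool.Agent.Helper99.CKC

open Pool.Agent.Helper52.EK Pool.Agent.Helper69.EK3 Pool.Agent.Helper69.EK7

open Pool.Agent.Helper69.CKC Pool.Agent.Helper69.CK

open Pool.Agent.Helper82.CKC (GC FldC fldC_GC glip_GC wu wu_mX)

open Pool.Agent.Helper20.EK7 (InL OutD)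

open Pool.Agent.Helper11.CKC (CL Mqc uT)

/-- the inequality of the certificate at one point, `T` the field term, `Mv` the value of the
multiplier -/
def PtI (τ k₂ lam dl tt B T : ℝ) (Mv : ℂ) (N : ℂ → ℂ → ℝ → ℝ) (x q : ℂ) (η : ℝ) : Prop :=
  ∃ l₀ l₁ l₂ : ℝ, 0 ≤ l₀ ∧ l₀ ≤ B * (1 + ‖x‖ ^ 2) ∧ 0 ≤ l₁ ∧ l₁ ≤ B * (1 + ‖x‖ ^ 2) ∧
    0 ≤ l₂ ∧ l₂ ≤ B * (1 + ‖x‖ ^ 2) ∧
    T + l₀ * (1 + τ ^ 2 - (Real.sin η * ‖1 + (1 + I * τ) * x‖) ^ 2) +
      l₁ * dpol τ 1 x q (Real.sin η) (Real.cos η) +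
      l₂ * dpol τ (-1) x q (Real.sin η) (Real.cos η) ≤
    -k₂ * x.re + lam * (‖x‖ ^ 2 + x.re) + dl + N x q η +
      (Mv * e0 (Real.sin η) (Real.cos η) *
        ((1 + I * τ) / 2 * x ^ 2 + x - tt * ((1 - I * τ) / 2))).re

/-- the inequality of the certificate in the direction `ud τ`: inside and outside of the disc -/
structure PtX (τ k₂ lam dl tt B : ℝ) (gam c a b a' b' : ℂ) (p0 p1 p2 q0 q1 q2 : ℝ)
    (F : ℂ → ℂ) (N : ℂ → ℂ → ℝ → ℝ) : Prop where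
  inn : ∀ (x q : ℂ) (η : ℝ), η ∈ Icc (0:ℝ) π → Real.sin η * ‖x‖ ≤ 10 → Real.sin η * ‖q‖ ≤ 38 →
    ∀ w : ℂ, w = wx x q (Real.sin η) (Real.cos η) → ‖w‖ ≤ 1 →
    ∀ l : ℝ, l = (1 - ‖w‖ ^ 2) / rF p0 p1 p2 w →
    PtI τ k₂ lam dl tt B
      (‖gam * w + c + (l : ℂ) * (a * w + b) - e0 (Real.sin η) (Real.cos η)‖ ^ 2) (F w) N x q η
  out : ∀ (x q : ℂ) (η : ℝ), η ∈ Icc (0:ℝ) π → Real.sin η * ‖x‖ ≤ 10 → Real.sin η * ‖q‖ ≤ 38 →
    ∀ w : ℂ, w = wx x q (Real.sin η) (Real.cos η) → 1 < ‖w‖ →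
    ∀ l : ℝ, l = (‖w‖ ^ 2 - 1) / rF q0 q1 q2 w →
    PtI τ k₂ lam dl tt B
      (‖gam * w + c + (l : ℂ) * (a' * w + b') - e0 (Real.sin η) (Real.cos η)‖ ^ 2) (F w) N x q η

/-- the term of the multiplier -/
theorem mt_eq (τ κ dl : ℝ) (F : ℂ → ℂ) (X Y : ℂ) (s c : ℝ) :
    conj (ud τ) ^ 2 * ((1 + (τ : ℂ) * I) / 2) * F (wu (ud τ) (mX X Y s c)) * e0 s c *
      (X ^ 2 - Pool.Agent.Helper97.CKC.tau κ dl (ud τ)) =
    F (wu (ud τ) (mX X Y s c)) * e0 s c * ((1 + I * τ) / 2 * xu τ X ^ 2 + xu τ X -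
      ((dl / (2 * κ) : ℝ) : ℂ) * ((1 - I * τ) / 2)) := by
  have hu := ud_conj τ
  have n2 := ne2 τ
  have h1 := sq_eq τ X ((dl / (2 * κ) : ℝ) : ℂ)
  unfold Pool.Agent.Helper97.CKC.tau
  rw [h1]
  generalize F (wu (ud τ) (mX X Y s c)) = f
  generalize e0 s c = e
  generalize ((dl / (2 * κ) : ℝ) : ℂ) = t
  generalize xu τ X = x
  have h2 : conj (ud τ) ^ 2 * ud τ ^ 2 = 1 := by
    rw [← mul_pow, mul_comm, hu, one_pow]
  have h3 : (1 + I * (τ : ℂ)) / 2 * (1 + conj (ud τ)) = 1 := by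
    rw [one_add_conj]
    field_simp
  have h4 : (1 + I * (τ : ℂ)) / 2 * conj (ud τ) = (1 - I * τ) / 2 := by
    rw [conj_ud]
    (clear * - n2; field_simp)
  rw [mul_comm (τ : ℂ) I]
  generalize conj (ud τ) = v at *
  generalize ud τ = u at *
  linear_combination ((1 + I * (τ:ℂ)) / 2 * f * e * (x ^ 2 + (1 + v) * x - v * t)) * h2 +
    f * e * x * h3 - f * e * t * h4

theorem bd_aux {B l T x z : ℝ} (hB : 0 ≤ B) (hT : 0 ≤ T) (hx0 : 0 ≤ x) (hx1 : x ≤ z + 1)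
    (hl : l ≤ B * (1 + x ^ 2)) : l * T ≤ 3 * B * T * (1 + z ^ 2) := by
  have h4 : x ^ 2 ≤ (z + 1) ^ 2 := pow_le_pow_left₀ hx0 hx1 2
  have h5 : 1 + x ^ 2 ≤ 3 * (1 + z ^ 2) := by nlinarith only [h4]
  calc l * T ≤ B * (1 + x ^ 2) * T := mul_le_mul_of_nonneg_right hl hT
    _ ≤ B * (3 * (1 + z ^ 2)) * T :=
      mul_le_mul_of_nonneg_right (mul_le_mul_of_nonneg_left h5 hB) hT
    _ = 3 * B * T * (1 + z ^ 2) := by ring

theorem bd_aux4 {B l T x z : ℝ} (hB : 0 ≤ B) (hT : 0 ≤ T) (hx0 : 0 ≤ x) (hx1 : x ≤ z + 1)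
    (h0 : 0 ≤ l) (hl : l ≤ B * (1 + x ^ 2)) : l * (T / 4) ≤ 3 * B * T * (1 + z ^ 2) := by
  refine le_trans ?_ (bd_aux hB hT hx0 hx1 hl)
  exact mul_le_mul_of_nonneg_left (by (clear * - hT; linarith)) h0

theorem norm_Xt (τ : ℝ) (Z : ℂ) (s : ℝ) :
    (s * ‖1 + (1 + I * τ) * xu τ Z‖) ^ 2 = (1 + τ ^ 2) * (s * ‖Z‖) ^ 2 := by
  have h3 : ‖(1:ℂ) - I * τ‖ ^ 2 = 1 + τ ^ 2 := by
    rw [← Complex.normSq_eq_norm_sq, Complex.normSq_apply]
    simp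
    ring
  rw [← Xt_eq, norm_mul, ← h3]
  ring

/-- **the pointwise hypothesis of `sigC_of_cert`** -/
theorem hp_of {τ k₂ lam dl κ B : ℝ} (hB : 0 ≤ B) {gam c a b a' b' : ℂ} {p0 p1 p2 q0 q1 q2 : ℝ}
    {F : ℂ → ℂ} {N : ℂ → ℂ → ℝ → ℝ}
    (h : PtX τ k₂ lam dl (dl / (2 * κ)) B gam c a b a' b' p0 p1 p2 q0 q1 q2 F N)
    (X : ℂ → ℂ) (x₁ x₂ : ℝ) (_hX : NiceX X x₁ x₂) (ξ : ℝ) (_hξ : ξ ∈ Icc x₁ x₂) (η : ℝ)
    (hη : η ∈ Icc (0:ℝ) π) (h9 : Real.sin η * ‖X (pt ξ η)‖ ≤ 9)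
    (h38 : Real.sin η * ‖deriv X (pt ξ η) / X (pt ξ η)‖ ≤ 38) :
    ∃ l₀ l₁ l₂ : ℝ,
      0 ≤ l₀ ∧ l₀ ≤ 3 * B * (1 + τ ^ 2) * (1 + ‖X (pt ξ η)‖ ^ 2) ∧
      0 ≤ l₁ ∧ l₁ ≤ 3 * B * (1 + τ ^ 2) * (1 + ‖X (pt ξ η)‖ ^ 2) ∧
      0 ≤ l₂ ∧ l₂ ≤ 3 * B * (1 + τ ^ 2) * (1 + ‖X (pt ξ η)‖ ^ 2) ∧
      T2 (fun m _ => GC (ud τ) gam c a b a' b' p0 p1 p2 q0 q1 q2 m) X ξ η +
        l₀ * (1 - (Real.sin η * ‖X (pt ξ η)‖) ^ 2) +
        l₁ * (16 - ‖dA 1 (X (pt ξ η)) (deriv X (pt ξ η)) (Real.sin η) (Real.cos η)‖ ^ 2) +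
        l₂ * (16 - ‖dA (-1) (X (pt ξ η)) (deriv X (pt ξ η)) (Real.sin η) (Real.cos η)‖ ^ 2) ≤
      k₂ * fu (ud τ) (X (pt ξ η)) + lam * (‖X (pt ξ η)‖ ^ 2 - (X (pt ξ η)).re) + dl +
        N (xu τ (X (pt ξ η))) (conj (ud τ) * (deriv X (pt ξ η) / X (pt ξ η))) η +
        MtC (fun m => conj (ud τ) ^ 2 * ((1 + (τ : ℂ) * I) / 2) * F (wu (ud τ) m))
          (Pool.Agent.Helper97.CKC.tau κ dl (ud τ)) X ξ η := by
  have hs : 0 ≤ Real.sin η := sin_nn' hη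
  have hs1 := Real.sin_le_one η
  have hal := norm_alpha τ
  have hu1 := norm_ud τ
  have hsc : Real.sin η ^ 2 + Real.cos η ^ 2 = 1 := Real.sin_sq_add_cos_sq η
  have hw := wu_mX hu1 (X (pt ξ η)) (deriv X (pt ξ η)) (Real.sin η) (Real.cos η)
  have hMt : MtC (fun m => conj (ud τ) ^ 2 * ((1 + (τ : ℂ) * I) / 2) * F (wu (ud τ) m))
      (Pool.Agent.Helper97.CKC.tau κ dl (ud τ)) X ξ η = (F (wu (ud τ) (mX (X (pt ξ η))
        (deriv X (pt ξ η)) (Real.sin η) (Real.cos η))) * e0 (Real.sin η) (Real.cos η) *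
        ((1 + I * τ) / 2 * xu τ (X (pt ξ η)) ^ 2 + xu τ (X (pt ξ η)) -
        ((dl / (2 * κ) : ℝ) : ℂ) * ((1 - I * τ) / 2))).re := by
    unfold MtC
    rw [← mt_eq]
  have hfld := fldC_GC (ud τ) gam c a b a' b' p0 p1 p2 q0 q1 q2
  have hT : T2 (fun m _ => GC (ud τ) gam c a b a' b' p0 p1 p2 q0 q1 q2 m) X ξ η =
      ‖GC (ud τ) gam c a b a' b' p0 p1 p2 q0 q1 q2 (mX (X (pt ξ η)) (deriv X (pt ξ η))
        (Real.sin η) (Real.cos η)) - e0 (Real.sin η) (Real.cos η)‖ ^ 2 := rfl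
  rw [hMt, hT]
  have hd1 := dpol_eq τ (σ := 1) (by norm_num) (X (pt ξ η)) (deriv X (pt ξ η)) hsc
  have hd2 := dpol_eq τ (σ := -1) (by norm_num) (X (pt ξ η)) (deriv X (pt ξ η)) hsc
  have hfu := fu_eq τ (X (pt ξ η))
  have har := area_eq τ (X (pt ξ η))
  have hXt := Xt_eq τ (X (pt ξ η))
  have hnx := norm_xu τ (X (pt ξ η))
  rw [hfu, har]
  generalize deriv X (pt ξ η) = Y at *
  generalize X (pt ξ η) = Z at *
  have hwx : wu (ud τ) (mX Z Y (Real.sin η) (Real.cos η)) =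
      wx (xu τ Z) (conj (ud τ) * (Y / Z)) (Real.sin η) (Real.cos η) := hw
  have hnq : ‖conj (ud τ) * (Y / Z)‖ = ‖Y / Z‖ := by
    rw [norm_mul, RCLike.norm_conj, hu1, one_mul]
  have hx1 : ‖xu τ Z‖ ≤ ‖Z‖ + 1 := by
    rw [hnx]
    exact (norm_sub_le _ _).trans (by linarith only [hal])
  have hx10 : Real.sin η * ‖xu τ Z‖ ≤ 10 := by
    have := mul_le_mul_of_nonneg_left hx1 hs
    (clear * - hsc h9 this; nlinarith only [hsc, h9, this])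
  have hq38 : Real.sin η * ‖conj (ud τ) * (Y / Z)‖ ≤ 38 := by rw [hnq]; exact h38
  -- the inequality at the point
  have key : PtI τ k₂ lam dl (dl / (2 * κ)) B
      (‖GC (ud τ) gam c a b a' b' p0 p1 p2 q0 q1 q2 (mX Z Y (Real.sin η) (Real.cos η)) -
        e0 (Real.sin η) (Real.cos η)‖ ^ 2)
      (F (wu (ud τ) (mX Z Y (Real.sin η) (Real.cos η)))) N (xu τ Z) (conj (ud τ) * (Y / Z)) η := by
    by_cases h1 : ‖wu (ud τ) (mX Z Y (Real.sin η) (Real.cos η))‖ ≤ 1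
    · have k1 := hfld.T_in hη h9 h38 rfl h1
      have k2 := h.inn _ _ η hη hx10 hq38 _ hwx h1 _ rfl
      obtain ⟨l₀, l₁, l₂, a1, a2, a3, a4, a5, a6, a7⟩ := k2
      exact ⟨l₀, l₁, l₂, a1, a2, a3, a4, a5, a6, by linarith only [k1, a7]⟩
    · have k1 := hfld.T_out hη h9 h38 rfl (not_le.1 h1)
      have k2 := h.out _ _ η hη hx10 hq38 _ hwx (not_le.1 h1) _ rfl
      obtain ⟨l₀, l₁, l₂, a1, a2, a3, a4, a5, a6, a7⟩ := k2
      exact ⟨l₀, l₁, l₂, a1, a2, a3, a4, a5, a6, by (clear * - k1 a7; linarith only [k1, a7])⟩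
  obtain ⟨l₀, l₁, l₂, a1, a2, a3, a4, a5, a6, a7⟩ := key
  have hτ : (0:ℝ) ≤ 1 + τ ^ 2 := by (clear * -; positivity)
  rw [hd1, hd2, norm_Xt] at a7
  have hx0 := norm_nonneg (xu τ Z)
  refine ⟨l₀ * (1 + τ ^ 2), l₁ * ((1 + τ ^ 2) / 4), l₂ * ((1 + τ ^ 2) / 4),
    mul_nonneg a1 hτ, bd_aux hB hτ hx0 hx1 a2, mul_nonneg a3 (by (clear * -; positivity)),
    bd_aux4 hB hτ hx0 hx1 a3 a4, mul_nonneg a5 (by (clear * -; positivity)), bd_aux4 hB hτ hx0 hx1 a5 a6, ?_⟩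
  rw [mul_neg, ← neg_mul]
  refine le_trans (le_of_eq ?_) a7
  ring

/-- **from the inequality in the direction `ud τ` to the integral means** -/
theorem sigC_of_X {τ k₂ lam dl κ B Mb : ℝ} (hκ1 : 1 ≤ κ) (hB : 0 ≤ B) (hlam : 0 ≤ lam)
    (hk₂ : lam ≤ k₂) (hdl : 0 ≤ dl) (hκ : k₂ < 2 * κ) (hMb : Mb < 2 * κ)
    {gam c a b a' b' : ℂ} {p0 p1 p2 q0 q1 q2 : ℝ} (hp : InL p0 p1 p2) (hq : OutD q0 q1 q2)
    {F M' : ℂ → ℂ} {Lm ε₀ : ℝ} (hε₀ : 0 < ε₀)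
    (hM : MOk (fun m => conj (ud τ) ^ 2 * ((1 + (τ : ℂ) * I) / 2) * F (wu (ud τ) m)) M' Mb Lm ε₀)
    {N : ℂ → ℂ → ℝ → ℝ} (hN : NullX τ N)
    (h : PtX τ k₂ lam dl (dl / (2 * κ)) B gam c a b a' b' p0 p1 p2 q0 q1 q2 F N)
    {t : ℂ} (ht : κ ≤ ‖t‖) (htu : t = -((‖t‖ : ℂ) * conj (ud τ))) {e : ℝ} (he : 0 < e) :
    Pool.Agent.Helper58.CKC.SigC t (‖t‖ - 1 + dl + e) := by
  obtain ⟨L, hG⟩ := glip_GC (norm_ud τ) gam c a b a' b' hp hq
  exact sigC_of_cert (norm_ud τ) hκ1 (by (clear * - hB; positivity) : 0 ≤ 3 * B * (1 + τ ^ 2)) hlam hk₂ hdl hκ hG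
    hM hε₀ hMb (IsNullC.mono (fun _ _ _ h => h.toF) hN) (hp_of hB h) ht htu he

end Pool.Agent.Helper99.CKC

end

section

namespace Pool.Agent.Helper99.CKC
end Pool.Agent.Helper99.CKC
namespace Pool.Agent.Helper82.CKC
end Pool.Agent.Helper82.CKC
namespace Pool.Agent.Helper69.CK
end Pool.Agent.Helper69.CK
namespace Pool.Agent.Helper20.EK7
end Pool.Agent.Helper20.EK7
namespace Pool.Agent.Helper33.CKC
end Pool.Agent.Helper33.CKC

set_option autoImplicit false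

open Complex MeasureTheory Metric Set

open scoped Real ComplexConjugate

namespace Pool.Agent.Helper65.CKC

open Pool.Agent.Helper99.CKC

open Pool.Agent.Helper82.CKC (wu)

open Pool.Agent.Helper69.CK (MOk)

open Pool.Agent.Helper20.EK7 (InL OutD)

open Pool.Agent.Helper33.CKC (SecH)

/-- the data of one direction, without excess -/
structure DirX (κ τ p0 p1 p2 q0 q1 q2 : ℝ) : Prop where
  ex : ∃ (k₂ lam B Mb Lm ε₀ : ℝ) (gam c a b a' b' : ℂ) (F M' : ℂ → ℂ) (N : ℂ → ℂ → ℝ → ℝ),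
    0 ≤ B ∧ 0 ≤ lam ∧ lam ≤ k₂ ∧ k₂ < 2 * κ ∧ Mb < 2 * κ ∧ 0 < ε₀ ∧ NullX τ N ∧
    MOk (fun m => conj (ud τ) ^ 2 * ((1 + (τ : ℂ) * I) / 2) * F (wu (ud τ) m)) M' Mb Lm ε₀ ∧
    PtX τ k₂ lam 0 0 B gam c a b a' b' p0 p1 p2 q0 q1 q2 F N

/-- **one direction** -/
theorem DirX.sig {κ τ p0 p1 p2 q0 q1 q2 : ℝ} (h : DirX κ τ p0 p1 p2 q0 q1 q2) (hκ : 1 ≤ κ)
    (hp : InL p0 p1 p2) (hq : OutD q0 q1 q2) {t : ℂ} (ht : κ ≤ ‖t‖)
    (htu : t = -((‖t‖ : ℂ) * conj (ud τ))) {e : ℝ} (he : 0 < e) :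
    Pool.Agent.Helper58.CKC.SigC t (‖t‖ - 1 + e) := by
  obtain ⟨k₂, lam, B, Mb, Lm, ε₀, gam, c, a, b, a', b', F, M', N, hB, hlam, hk, hk2, hMb, hε, hN,
    hM, hX⟩ := h.ex
  have h1 := sigC_of_X (dl := 0) hκ hB hlam hk le_rfl hk2 hMb hp hq hε hM hN
    (by rw [zero_div]; exact hX) ht htu he
  rwa [add_zero] at h1

/-- **a sector** -/
theorem secH_of_DirX {a b T p0 p1 p2 q0 q1 q2 : ℝ} (ha : 1 ≤ a) (hb : 0 ≤ b)
    (hp : InL p0 p1 p2) (hq : OutD q0 q1 q2)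
    (H : ∀ τ : ℝ, 0 ≤ τ → τ ≤ T → DirX (a + b * τ ^ 2) τ p0 p1 p2 q0 q1 q2) : SecH a b T := by
  intro τ h0 h1 t ht htu e he
  have hb2 : 0 ≤ b * τ ^ 2 := mul_nonneg hb (sq_nonneg _)
  refine (H τ h0 h1).sig (by linarith only [ha, hb2]) hp hq ht ?_ he
  unfold ud
  rw [mul_comm I (τ : ℂ)]
  exact htu

end Pool.Agent.Helper65.CKC

end
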