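import Pool.Agent.Helper14.CMF.T04
import Pool.Agent.Helper14.CMG.T01
import Pool.Agent.Helper14.CMF.T21
import Pool.Agent.Helper14.CMF.T16
import Pool.Agent.Helper14.CMF.T12
import Pool.Agent.Helper14.CMF.T14
import Pool.Agent.Helper14.CMF.T15
import Pool.Agent.Helper14.CMF.T30
import Pool.Agent.Helper14.CMG.T10
import Pool.Agent.Helper14.CMF.T42

set_option linter.all false

section

namespace Pool.Sos71
end Pool.Sos71
namespace Pool.Agent.Helper69.EK6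
end Pool.Agent.Helper69.EK6
namespace Pool.Agent.Helper71.CK
end Pool.Agent.Helper71.CK
namespace Pool.Agent.Helper46.CK.C4
end Pool.Agent.Helper46.CK.C4

set_option autoImplicit false

namespace Pool.Agent.Helper46.CK.C4.D2

open Pool.Sos71

open Pool.Agent.Helper69.EK6 (eDi)

open Pool.Agent.Helper71.CK

open Pool.Agent.Helper46.CK.C4

def f0_0 : Fac := ⟨1, ⟨0, 0, 0, 0, 0, 0, 0⟩, 0, false, 0, ⟨0, 0, 0, 0, 0, 0, 0⟩, 0⟩

def its0 : List Itm := [⟨⟨0, 0, 0, 0, 0, 1, 0⟩, 118, f0_0, false⟩,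
 ⟨⟨0, 0, 0, 0, 0, 2, 0⟩, 236, f0_0, false⟩,
 ⟨⟨0, 0, 0, 0, 0, 3, 0⟩, 354, f0_0, false⟩,
 ⟨⟨0, 0, 0, 0, 0, 4, 0⟩, 472, f0_0, false⟩,
 ⟨⟨0, 0, 0, 0, 0, 5, 0⟩, 590, f0_0, false⟩,
 ⟨⟨0, 0, 0, 0, 0, 6, 0⟩, 708, f0_0, false⟩,
 ⟨⟨0, 0, 0, 0, 0, 7, 0⟩, 826, f0_0, false⟩,
 ⟨⟨0, 0, 0, 0, 0, 0, 2⟩, 3540, f0_0, false⟩,
 ⟨⟨0, 0, 0, 0, 0, 1, 2⟩, 3658, f0_0, false⟩,
 ⟨⟨0, 0, 0, 0, 0, 2, 2⟩, 3776, f0_0, false⟩,
 ⟨⟨0, 0, 0, 0, 0, 3, 2⟩, 3894, f0_0, false⟩,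
 ⟨⟨0, 0, 0, 0, 0, 4, 2⟩, 4012, f0_0, false⟩,
 ⟨⟨0, 0, 0, 0, 0, 5, 2⟩, 4130, f0_0, false⟩,
 ⟨⟨0, 0, 0, 0, 0, 0, 4⟩, 7080, f0_0, false⟩,
 ⟨⟨0, 0, 0, 0, 0, 1, 4⟩, 7198, f0_0, false⟩,
 ⟨⟨0, 0, 0, 0, 0, 2, 4⟩, 7316, f0_0, false⟩,
 ⟨⟨0, 0, 0, 0, 0, 3, 4⟩, 7434, f0_0, false⟩,
 ⟨⟨0, 0, 0, 0, 0, 0, 6⟩, 10620, f0_0, false⟩,
 ⟨⟨0, 0, 0, 0, 0, 1, 6⟩, 10738, f0_0, true⟩]

def l0 : List ℕ := [
 0x8b75d3f51f2338555005e7b8a683e1c88854ddc8f38a884f6a0d8385b4c42f73e7f0e3d442ad7a7f339fc44c95c7e3e5c1948c54815a83eeb25e981953984044d7807024d13ff76801186c4d4f9580f67251cfa7684a5c8a1835888839af39a6dd886ca24788e6cf82b97969a20d3807f83f30c63d8008371d2c6b9,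
 0x87d7503d6d3f884420d7571239961ef9cfe245fa926ce369b0a0915ed156ec7f08128f185c5d508fbbe0457e83bb643145a37476b98efa1ebf52196a52852e86c282b9cd82cd5b37fffc163643c482d283f5985118cfc4f7f96dd895489a0fb928c8f7da4637333a850740c71d2538094ebc164080,
 0x77bc10037cedd7bf61e4c236d9871fd6bd4d4f177cffb1e4a52d7b2023e47f2a88037f38b4817e8f5da4fb1a9aaa888bc40cd46696b115eb2c3fe83b46cf887237802a2374967d57fff785f5ed4581b303618f66a86ad6bcd036a1886161ffabe4183d61787edadd808f99e05997b,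
 0x7430cb985ab057a42433125df678921d05cbf69672bc28e7cf6676faf0c7b7bc68060bf5c1e94781cb7acf58b96823f990ce9b647c7d5e0bb2b577e1191e0a08af7ffea344337aa7ffe3417177c1808276c64042381c19850f8dc681c06f7215c4d807cded9663e8,
 0x7e377467229097f8b009dc3124765db0f07f63178091ab91e1187f1a4bad93132801689a81ccca731da6ee8ad265b99b129242c566c5acb459d7b79b2a425c0f6c7f69be82356327ffbffd16d45580568b32a741080c679350f9fd804a9aa77e6c6,
 0x848cea54ba8aa81236d2453b608e2241448720a985dd00def10c87aa3c629e3d8807f2623ae19f8087f864db2bf850bd374ffb3b85870fdec0e62815f7a66f1cd4800970327b2467ffe061b15328800f8e7e2c1d1800c72487a688,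
 0x78f88a387a41d7debbe32d9357819eb5ceb75607aacb94b02dd27f538db0254dc804fe5ba9935d7f4063b3e77597febd4adc8d8c7f5d8972d30827ff6bb9ef9eb980075d1cae8227fff856761ba98009a268a75bb,
 0x785a7cde82f0b7ee7a541a478f748e147260d68607203ec63de7733edbc55903f7ea7f52b566558a02cf877dc91a004524e1e4e39f3361c0f93ab8cddfd6dac59882432726068bb8022a56d89d6a,
 0x690614dc8603d7656abd407832801f6fbb7893d6dfff554e8bb67f455b1a5727582533cb249bd18af01e5fdd3d2a3d2afb95c0d4a099b12f179f98c087bf1127e6819b928a3d43d,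
 0xa616f5908ce4f902865535b6f1b081905e01980e032deecda90c9cea25e99aca07f303c33f710e90fee49bb92cbb3733cdd13e9ea7f90d88a061b88dc24d958b74,
 0x79d214be4a9607c5e00ce346e97c173da723ea76c28895bcb31176353a7691a2b7fa9f6b796b8e874edfa95c0bd913b3ce6e537a864248e71e901,
 0x75a995d39f14e7f189ab1679466beaeab41088c5691956d6970773b106b3191ae7eeb8178db90881e488947e61082b637ae118a8,
 0x885f5ce6ba9c181c5685543b93738eabc2fdf94780f21ce3f1c47c5a86930649b7f85875c49c6b817648c9cdd48,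
 0x8a76930c7546f81ae201b23efe9852d1326e526b67b036659fac96b24c237f70c8269c94a48858,
 0x9127460818e0b85bd78fa3bfba9068c6c77e952a689a52c6e8478b2347257afd4,
 0x822b23e40a97b7ed7023b1d4248524f880a914e881dd1c380b10,
 0x77b5b668f19b27e4fc89b6c118858898870e823,
 0x84ef0e9977355830d261a7c3c3,
 2318935652549782]

def e0 : List ℕ := [
 0xefb0b4b8623f1ea2136dd282c3a6525155646073ae98d965e2ef81feddc0d2ba00e9e1256c85b44a8bfa871fb83a635735c3ab1d64010cfe3ba256596173e0f411e257fc6e4c804d7054506e2cd7b4c4582bf5d9cf4e6ea68b42826338775d7873d5971b40f704c749007289a035f768b45914009cd3ea5e2f,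
 0x222f7bf46282dbbec2d2e188fc74c47c0cde334e994945559181ceba6365978bbe07fb77034ad569b66e3e17aad12a2fea1c7ee0e98d5cd70eac75900433f8ee89596585cf83d047895ff1b92d6a2b71b89bb8b35ed31160afc7673d39ba9a2b0a098ce1dd75e1cf565c6d03dc131d2401ca25,
 0x46911d028d73e88bdefd18a0b6bc5e8695ce7a1d311f03378cd3a6525155646073ae98d965e2ec4b5f41502f6d5a6d9b8f85eab44a8bfa871fb83a635735c3ab1d64010cfe3b6256596173e0f3c173d35754915a8adc6e26ee2cd7b4c4582bf1d9cf4e6ea68ac2826338775d7,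
 0x6bb9918aa301f1a44740a35cf8a02c8a33b1edaf17a1a5739e774c47c0cde334e994945559182101cf226517cb12d7d0540bdb569b66e3e17aad12a2fea1c7ee0e98d5cd70eac75900433f8eda5e69c4778412f05cf4d5d52456a2b71b89bb8335ed31160afc,
 0xccb08c5e4923daee6462a8c0795af29ca49adb280b228cec7b6bc5e8695ce79dd311f03378cd4c3bf3c8573d484073c89945f2c4b5f41502f6d5a6d9b8f85eab44a8bfa871fa83a635735c3ab5d9c5dac3b282979a711de104bc173d3575490,
 0x263712706fd9db32c23179248f39d3f21c094e856bca72926b6ca02c8a33b1edaf17a1a5739e799c279d3bdfe930efcf215cf52101cf226517cb12d7d0540bdb569b66e3e17a8d12a2fea1c7eabe751429b0045767176b0ec9f,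
 0x3ea8d78143f1898dc49c1bf676cd7a286a90328e74fc870253995af29ca49adb280b228cec7b712755f972e8b66709e74ef7fa4c3bf3c8573d484073c89945f2c4b5f41502f695a6d9b8f85ea4495d9b31175a,
 0x7c07297bdca28f9e7f6ddbaa2e22f7bf46282dbbec2d2e188fc7a884db74a0b100b884e7b9c3dd311f03378ccba6525155646073ae98d965e2ef81feddc0d2b600e9e1256c85c0002a4b156d3,
 0xf50c34e762b31f01ca5ef728a46911d028d73e88bdefd18a0b6efb0b4b8623f1ea2136dd282c2f17a1a5739e774c47c0cde332e99494555917dceba6365978bbe07fb77034ad,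
 0xe3e04f34e14abd430d39d8acb6bb9918aa301d1a44740a35cfa22f7bf46282dbbec2d2e188fc280b228cec7b6bc5e8695ce79dd311f03378ccba6525155645f,
 0x1b4c21cf2876838f813cd3852accb08c5e4923daee6462a8c0746911d028d73e88bdefd18a0b656bca72926b68a02c8a33b1edaf17a1a5739e7,
 0x7a6e770818c826d30873ca1da263712706fd9d332c23179248f6bb9918aa301d1a44740a35cf8e74fc870253995af29ca49ada,
 0x16d4e430e95f15e9b9dc206320bea8d78143f1898dc49c1bf674ccb08c5e4923daee6462a8c07335e8a1aa40ca,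
 0x21d4d8bec4a4ebf69519f0dcbd38f813cd38528f50c34e762b2df01ca5ef7289be79fdb76ea8b,
 0x3547349060d16875362fb1293a6d30873ca1da0e3e04f34e14a3d430d39d8acb,
 0xa3590114358aad51cd24183459e9b9dc2063201b4c21cf28768,
 0x130bb37601107e8d640450d62adb5390c3a57c5,
 0x1cee25bef6a2d420d089e102b2,
 1204227262664535]

def b0 : Blk := ⟨mOne, ⟨0, 0, 0, 0, 7, 6, 0⟩, 1, its0, 4503599627370496, 2251799813685248, l0, 2251799813685248, 1125899906842624, e0, 140177127289685065728⟩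

def f1_0 : Fac := ⟨1, ⟨0, 0, 0, 0, 0, 0, 0⟩, 0, false, 0, ⟨0, 0, 0, 0, 0, 0, 0⟩, 0⟩

def its1 : List Itm := [⟨⟨0, 0, 0, 0, 0, 0, 1⟩, 1770, f1_0, false⟩,
 ⟨⟨0, 0, 0, 0, 0, 1, 1⟩, 1888, f1_0, false⟩,
 ⟨⟨0, 0, 0, 0, 0, 2, 1⟩, 2006, f1_0, false⟩,
 ⟨⟨0, 0, 0, 0, 0, 3, 1⟩, 2124, f1_0, false⟩,
 ⟨⟨0, 0, 0, 0, 0, 4, 1⟩, 2242, f1_0, false⟩,
 ⟨⟨0, 0, 0, 0, 0, 5, 1⟩, 2360, f1_0, false⟩,
 ⟨⟨0, 0, 0, 0, 0, 6, 1⟩, 2478, f1_0, false⟩,
 ⟨⟨0, 0, 0, 0, 0, 0, 3⟩, 5310, f1_0, false⟩,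
 ⟨⟨0, 0, 0, 0, 0, 1, 3⟩, 5428, f1_0, false⟩,
 ⟨⟨0, 0, 0, 0, 0, 2, 3⟩, 5546, f1_0, false⟩,
 ⟨⟨0, 0, 0, 0, 0, 3, 3⟩, 5664, f1_0, false⟩,
 ⟨⟨0, 0, 0, 0, 0, 4, 3⟩, 5782, f1_0, false⟩,
 ⟨⟨0, 0, 0, 0, 0, 0, 5⟩, 8850, f1_0, false⟩,
 ⟨⟨0, 0, 0, 0, 0, 1, 5⟩, 8968, f1_0, false⟩,
 ⟨⟨0, 0, 0, 0, 0, 2, 5⟩, 9086, f1_0, false⟩,
 ⟨⟨0, 0, 0, 0, 0, 0, 7⟩, 12390, f1_0, true⟩]

def l1 : List ℕ := [
 0x7f9015fa12b59bbb892d067f009e9ab64026d76efedd387e5644f7395f13eab025ae4a84f5eb3b6d9f5af17d97a1af4c2f1904837a7f9c83a10305640b8638361b96a156da50ca40a10df182793f2d58474950e8977140b9f435e770da00de01a1a4a4100056e3c0c15a,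
 0x3faf78bb8d590ddaf8befb3dec2ef8d78ebaf7ce7eb186b4f59da3e2fd6ef80db5dd405c9f724fb0f9616e295259d8149daf23a881c02d7118a9f92a098cb0c4f2dd512b8723e9244d8c668f8cd1bc9c3aea5b095f6c207e727e46a957005fc104500d9,
 0x1f8c98b06b804f27a6d764e6d19900a1c615357ec22eae667a7f86603a87cfca04d82fac4c1d1b83abfbf92f56922c4698fe36eebc1ffdbbc123d6310a37f3f3ae70293c31d4d84d124c5ccf4e7ba746302cbe1acdb7f03ff7afd87e51,
 0x105c6b24cb563e86eb0a9250a23436b57f6d39969fe92d85d5ee710f20adcb606179034f8c2cb205431c805d788475fecab4780d0bafffdc239dba95824e1fc8715d4c3aa60fd83484e195409141a10d0330f57233398,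
 0x7dd9ffb78efcebaf8940a8f2d1de0084e2ace4f4ff6e4773e25c37491afb4ca4d43073c1e4e914cdbc09b0f66f410fb25e623a49947fe4d13f168bd40a346d28d222a0c0e588c229ff025245cc1a382,
 0x40da95da9ca539e8eab9eafaad70114e204365837fb7c1aadb20ebb622870358705aae2b647f7d5ef088169bb70537f14145877d1dbffea2347b96fe015105873eedd010d6e8759f22,
 0x1f9076a1d7b2e30faef5ec36d05839458951ec6cc075bd26bbbf2df9b4d8dbf5b2704e888fdf1fc880f2075654b444001314baeea85ffe56b2ae89b500739327f9841,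
 0xfff7d08fb0fbd85aa9e06aabccc1700bbfdd258e01491d037816713fa3e1c313349be71e298ccbc49a4d02cea4b7612f91f25a863f00af1a0c0add2,
 0x80105873a31c3c656be2889f6ae25a085c1ced0d02d5eceb4b1ec8a6b7a0b76543cdf2b7468bb20a3a7e85aaab03503d67b95ac0a1,
 0x4191f91cb9b9360e2fb6964dc2104337f1550b187effde980944443561bba6418923b4a5ab2c62b309990f4719d45,
 0x1f28a3735a0c0affabd985cbf7f7bd77ea2d9428402c7b699df57607109ce64c57f06573ac3bfa80,
 0x1037c5c01403f6792925b3f4151be441833ba726dfc9f77873474703506f34cbfc0,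
 0x7f67b3460e04ec2983acd69b53a196405e799c4502e3675a74d46,
 0x4120768bb2d10a08a2a06bc76430792faf40a992,
 0x1f9a709522c58505acc32905fe1,
 4553355162835033]

def e1 : List ℕ := [
 0x7cf3fb6edd514efb0b4b8623f1ea2136dd282c402e2139ee70e74ca4a2aac8bee75d31b2cbc5df03fdbb81a56c01d3c24ad90b800054962ada4d12a2fea1c7ea0e98d5cd70eac75900433f8ed89596585cf83b047895ff1b92e0135c15141b8c000a47ddac5c,
 0xf80e52f7b944e22f7bf46282dbbec2d2e188fc7a884db74a0b0e988f819bc665d32928aab22fb9d74c6cb2f177c0ff6ee0695b0074f092b642d5a6d9b8f85ea344a8bfa871fa83a635735c3ab1d64010cfe3b6256596173e0ec11e257fc6e4b,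
 0x1ea1869cec565c6911d028d73e88bdefd18a0b6efb0b4b8623f178bd0d2b9cf3ba623e066f19974ca4a2aac8bee75d31b2cbc5df03fdbb81a56b12d7d0540bda569b66e3e17a8d12a2fea1c7ea0e98d5cd70eac75900433f8ed,
 0x1c7c09e69c2946bb9918aa301d1a44740a35cfa22f7bf46282d94059146763da5e2f434ae73cee988f819bc665d32928aab22fb9d74c6cb2f1684073c89945f2c4b5f41502f695a6d9b8f85ea344a8bfa871fa,
 0x3698439e50ed0ccb08c5e4923daee6462a8c0746911d028d73e2b5e5394935b450164519d8f6978bd0d2b9cf3ba623e066f19974ca4a2aac8bf30efcf215cf4e101cf226517cb12d7d0540bda,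
 0xf4dcee103190263712706fd9d332c23179248e6bb9918aa301c73a7e438129ccad794e524d6d14059146763da5e2f434ae73cee988f819bc6666709e74ef7fa4c3bf3c8573d3,
 0x2da9c861d2be23ea8d78143f1898dc49c1bf674ccb08c5e492399af450d520649ce9f90e04a732b5e5394935b450164519d8f6978bd0d2b9cf3c49d57e5cba2c,
 0x3f69519f0dcbd7a861a73b1596f80e52f7b944df3cfedbb754546911d028d73e88bdefd18a0b6efb0b4b8623f1ea2136dd282c402e2139ee70e,
 0x875362fb1293871f0279a70a51ea1869cec565be0394bdee5136bb9918aa301d1a44740a35cf622f7bf46282d3bec2d2e188fb,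
 0xd51cd24183454da610e7943b41c7c09e69c2947a861a73b1596ccb08c5e49239aee6462a8c0746911d028d73d,
 0x28d640450d62a3d373b840c6403698439e50ed071f0279a70a5263712706fd9d332c23179248e,
 0x4c2ecdd80441fb6a721874af88f4dcee1031900da610e7943b43ea8d78143f18,
 0x841a113c20564d51cd241834561d4d8bec4a4e3f69519f0dcbc,
 0xe7712df7b516a8d640450d62a3547349060d15,
 0x2239e811c27abcc2ecdd80441f,
 1363209340717154]

def b1 : Blk := ⟨mOne, ⟨0, 0, 0, 0, 6, 7, 0⟩, 1, its1, 9007199254740992, 4503599627370496, l1, 2251799813685248, 1125899906842624, e1, 2349783351476520222720⟩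

def f2_0 : Fac := ⟨1, ⟨0, 0, 0, 0, 0, 0, 0⟩, 0, false, 0, ⟨0, 0, 0, 0, 0, 0, 0⟩, 0⟩

def its2 : List Itm := [⟨⟨0, 0, 0, 0, 0, 0, 0⟩, 0, f2_0, false⟩,
 ⟨⟨0, 0, 0, 0, 0, 1, 0⟩, 118, f2_0, false⟩,
 ⟨⟨0, 0, 0, 0, 0, 2, 0⟩, 236, f2_0, false⟩,
 ⟨⟨0, 0, 0, 0, 0, 3, 0⟩, 354, f2_0, false⟩,
 ⟨⟨0, 0, 0, 0, 0, 4, 0⟩, 472, f2_0, false⟩,
 ⟨⟨0, 0, 0, 0, 0, 5, 0⟩, 590, f2_0, false⟩,
 ⟨⟨0, 0, 0, 0, 0, 6, 0⟩, 708, f2_0, false⟩,
 ⟨⟨0, 0, 0, 0, 0, 0, 2⟩, 3540, f2_0, false⟩,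
 ⟨⟨0, 0, 0, 0, 0, 1, 2⟩, 3658, f2_0, false⟩,
 ⟨⟨0, 0, 0, 0, 0, 2, 2⟩, 3776, f2_0, false⟩,
 ⟨⟨0, 0, 0, 0, 0, 3, 2⟩, 3894, f2_0, false⟩,
 ⟨⟨0, 0, 0, 0, 0, 4, 2⟩, 4012, f2_0, false⟩,
 ⟨⟨0, 0, 0, 0, 0, 0, 4⟩, 7080, f2_0, false⟩,
 ⟨⟨0, 0, 0, 0, 0, 1, 4⟩, 7198, f2_0, false⟩,
 ⟨⟨0, 0, 0, 0, 0, 2, 4⟩, 7316, f2_0, false⟩,
 ⟨⟨0, 0, 0, 0, 0, 0, 6⟩, 10620, f2_0, true⟩]

def l2 : List ℕ := [
 0x7fe27c93746e182f9beb22261e80c8c18e536547ff4d6c5bb60a80af7b2353e2386df66d0b2f2f87fc52c2f15268344595559e2a806eefa1e3dab8179df5b54c0185ae5b85a07c287ee85b0348b08503bfd08a8378177eb6c75c3d802af5ae2eab880009ef5d7d19,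
 0x801d80afa10cb7fb410161a4c97d16094bd13b07efb016ec8dd1884d840fa329198cb7f39ce07994e08e0f49b6486f655993f73080cea93da7d9f81ef8cf745c9c877f81f2df6418a63a1118ee818665e4b83f8b681c88c2044a58802e94095571e,
 0x843a1ea293fba954ddfd98910c91525c19a294f81ced7aabfb458deaab332b8f5a43330035b3be949e1bc3e5b6583206b22ee483800a756d7eb2b8220c244bd45487157f6443cb587da645e62863834eb9fe241d280734e68be619,
 0x81272edf0260b6c30b53bad1af6c1285861eed57b00125cfae957c6f3560fd832732979b9fea377681eae936dce7ddbce3f0ff397ff1dd9f997a08112b8832a402826969c131ca88188eba1dedb0804c9068dca14,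
 0x7d89cdf1208006ce754d49cbe36f0c0eafbd6697d617b248292276deed7413210683a44de926d6722f174c8a4c37d9db9948e2467fe4f99ff8dcd80b61535cdc98813f0c54e49d1806dc20764e76,
 0x7fa720c7c0e9096674c7cb695491ac3633b3380836522cb963ec76f26e9d379ca7a265106927607fb4501b83e0f8020dbbe0de587ffa561797dfb8037070986344801aea64bcdac,
 0x7defe3003a3798503d85224ec57fbfd0e1ff62e7ff392a6f05637da23ac1ec02b7dd33e368cd2d7e7928a121b2a7f9ca8c168d407ff4de68238c280088493dbab7,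
 0x7f1f8f09d454f6d2e954448e9672cdb9805d2a97e1eb4b5a6bc1930d847e961f0a348cc3d5042895d094ca42691855d862fdb109806c079037562,
 0x7c1c5406facd1beddaad2abce2c8ac9f4905cae931c574b7d8c19012bb0835dd0a61d40b3f21bb991a94d789c3d84f296521ce5e,
 0x85e9f0408861c70aec0ee70e77745bfd925df5c7bfe01d572e339208e95d6def994d71d35d029e85b5e4abb9f67,
 0x7beb225386a33645530ad3f2e86e12b0f7b882f7e882f172fa5289f692687bcec84cc0131032cf,
 0x86928e07e12006abcafbcf668a7b3b789b8c0a47f4e911f40c5c829158dd66c95,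
 0x80ec82b5d14faa6e4ee25088a89c6ddc1f55f3384a85786baf4b,
 0x80298362b80eb9de684258da8d8af0210b5557f,
 0x78e81d13302148ac95eaa16c0e,
 2357539734388243]

def e2 : List ℕ := [
 0x800000002000000008000000020000000080000000200000000800000002000000008000000020000000080000000200000000800000002000000008000000008594338f,
 0x20000000080000000200000000800000002000000008000000020000000080000000200000000800000002000000008000000020000000080000000200000000,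
 0x80000000200000000800000002000000008000000020000000080000000200000000800000002000000008000000020000000080000000200000000,
 0x200000000800000002000000008000000020000000080000000200000000800000002000000008000000020000000080000000200000000,
 0x800000002000000008000000020000000080000000200000000800000002000000008000000020000000080000000200000000,
 0x2000000008000000020000000080000000200000000800000002000000008000000020000000080000000200000000,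
 0x8000000020000000080000000200000000800000002000000008000000020000000080000000200000000,
 0x20000000080000000200000000800000002000000008000000020000000080000000200000000,
 0x80000000200000000800000002000000008000000020000000080000000200000000,
 0x200000000800000002000000008000000020000000080000000200000000,
 0x800000002000000008000000020000000080000000200000000,
 0x2000000008000000020000000080000000200000000,
 0x8000000020000000080000000200000000,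
 0x20000000080000000200000000,
 147573952598266347520,
 8589934592]

def b2 : Blk := ⟨mCen, ⟨0, 0, 0, 0, 6, 6, 0⟩, 1, its2, 4503599627370496, 2251799813685248, l2, 17179869184, 8589934592, e2, 36041369936629948416⟩

def f3_0 : Fac := ⟨1, ⟨0, 0, 0, 0, 0, 0, 0⟩, 0, false, 0, ⟨0, 0, 0, 0, 0, 0, 0⟩, 0⟩

def its3 : List Itm := [⟨⟨0, 0, 0, 0, 0, 0, 1⟩, 1770, f3_0, false⟩,
 ⟨⟨0, 0, 0, 0, 0, 1, 1⟩, 1888, f3_0, false⟩,
 ⟨⟨0, 0, 0, 0, 0, 2, 1⟩, 2006, f3_0, false⟩,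
 ⟨⟨0, 0, 0, 0, 0, 3, 1⟩, 2124, f3_0, false⟩,
 ⟨⟨0, 0, 0, 0, 0, 4, 1⟩, 2242, f3_0, false⟩,
 ⟨⟨0, 0, 0, 0, 0, 5, 1⟩, 2360, f3_0, false⟩,
 ⟨⟨0, 0, 0, 0, 0, 0, 3⟩, 5310, f3_0, false⟩,
 ⟨⟨0, 0, 0, 0, 0, 1, 3⟩, 5428, f3_0, false⟩,
 ⟨⟨0, 0, 0, 0, 0, 2, 3⟩, 5546, f3_0, false⟩,
 ⟨⟨0, 0, 0, 0, 0, 3, 3⟩, 5664, f3_0, false⟩,
 ⟨⟨0, 0, 0, 0, 0, 0, 5⟩, 8850, f3_0, false⟩,
 ⟨⟨0, 0, 0, 0, 0, 1, 5⟩, 8968, f3_0, true⟩]

def l3 : List ℕ := [
 0x83521763fbbe981477f73da84d69a2a655b622364113e5f65f6a773ffeba816b77f738a914831786a921308edc4919e7f0cdec7690b5c432c1d1187257b5150a1e8153973732d6e80134291ebba0,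
 0x78f8ab5b976397cde52e7ebf5aa55fa2c8f1b22c92836e8b929fa9d6f639a3c0a8761f5f517f5988daa26b43ede9b90b9fba4c479cb47b8a544e68c194d36e232e81c69e64586ff,
 0x855aca18fb2f38463af6afded5895987b5909218ed116c4034a18430de831e9d17f6f6e8e4f0e6881ec63139ab3920032af4ae188c03b92190edd82804741db7c2,
 0x730a43a9248fc7973968c0311a7b1cf4d716b62701f34475684c7828299d9a7d57f74bd64996eb8489fa0647e5f86a562731dfa2821dacd325e75,
 0x897c3d0502c1284d3eb8f6bcd2625091fea82b5666b415d17d467a1f7b34efe447f7f05429553e8262cad703dc5814d144054ea5,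
 0x95d42e51a97558679aafef43ed74b994e1ab4d8855cab9eee18a833e72a6740ff8038592b8371580d3ca942fbc0,
 0x729ebd6bcdd877b3b60a6cd66ca67eefc4f7c9caf4feb51b50249130fd4ad9cec81d5a87043476,
 0x9bb6577ffb9ce8b2acfa8fa801926e38f4a36b995acd762b319685897cfe3d777,
 0x6694575f410a9752ef0c53272f99652b1d95ff88ae48a48cb6cf,
 0x77c4b86aa30d77f42347fbc9478631931fc6b69,
 0x9eff01a80149a8b5d0a14fe9bc,
 2385076052678633]

def b3 : Blk := ⟨mCen, ⟨0, 0, 0, 0, 5, 5, 0⟩, 1, its3, 4503599627370496, 2251799813685248, l3, 2, 1, [], 0⟩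

noncomputable def cert : Cert := ⟨118, ⟨15, 225, 225, 225, 225⟩, ⟨0, 0, 0, 0, 14, 14, 0⟩, 14, (.bp g.cen),
 [b0, b1, b2, b3]⟩

theorem okF : cert.checkF = true := by decide +kernel

theorem ok : cert.checkW = true := Cert.checkW_of_F okF

end Pool.Agent.Helper46.CK.C4.D2

end

section

namespace Pool.Agent.Helper71.CK
end Pool.Agent.Helper71.CK
namespace Pool.Agent.Helper11.CK
end Pool.Agent.Helper11.CK
namespace Pool.Agent.Helper20.CK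
end Pool.Agent.Helper20.CK
namespace Pool.Agent.Helper20.EK7
end Pool.Agent.Helper20.EK7
namespace Pool.Agent.Helper69.CK
end Pool.Agent.Helper69.CK

/-!
The multiplier of the certificate: `|M| ≤ 5 / 2` on `|m + 3| ≤ 4`.
-/

set_option autoImplicit false

namespace Pool.Agent.Helper46.CK.C4

open Pool.Agent.Helper71.CK Pool.Agent.Helper11.CK

open Pool.Agent.Helper20.CK (ROk)

open Pool.Agent.Helper20.EK7 (InL OutL)

open Pool.Agent.Helper69.CK (MOk)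

def mc : MChk := ⟨128, 60, 2, 128, 60, 2, 5, 2, 20, 20, 1, -4, 120, 54, -5, 66⟩

theorem mc_ok : mc.ok g.s = true := by decide +kernel

theorem mOk {Mb : ℝ} (hMb : 5 / 2 < Mb) : ∃ (M' : ℂ → ℂ) (L' ε : ℝ), 0 < ε ∧
    MOk (g.s.Mu (1) (1 / 20) (-1 / 5) (9 / 20) (-1 / 24) (11 / 20)) M' Mb L' ε := by
  refine mOk_Mu (a := (61 / 120)) (by constructor <;> norm_num [abs_of_nonneg, abs_of_neg, abs_of_pos, abs_of_nonpos])
    (by constructor <;> norm_num [abs_of_nonneg, abs_of_neg, abs_of_pos, abs_of_nonpos]) (by decide +kernel) mc (by decide) (by decide)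
    (by constructor <;> norm_num [mc]) (by constructor <;> norm_num [mc]) mc_ok ?_
  simp only [mc]
  norm_num
  linarith

end Pool.Agent.Helper46.CK.C4

end

section

namespace Pool.Agent.Helper39.Area
end Pool.Agent.Helper39.Area
namespace Pool.Agent.Helper52.EK
end Pool.Agent.Helper52.EK
namespace Pool.Agent.Helper69.EK3
end Pool.Agent.Helper69.EK3

set_option autoImplicit false

open Complex MeasureTheory Metric Set

open scoped Real ComplexConjugate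

namespace Pool.Agent.Helper84.CB

open Pool.Agent.Helper39.Area Pool.Agent.Helper52.EK Pool.Agent.Helper69.EK3

/-- the second coefficient in terms of `X`, `Y = X'`, `Z = X''` -/
noncomputable def bc (X Y Z : ℂ) : ℂ := (X - X ^ 3 + 2 * Z - 3 / 2 * (Y ^ 2 / X)) / 3

/-- the region of `(X, X', b)` on the centre line -/
structure RegC (X Y b : ℂ) : Prop where
  ne : X ≠ 0
  le : ‖X‖ ≤ 1
  ar : ‖Y‖ ^ 2 + 2 * ‖b‖ ^ 2 ≤ -(‖X‖ ^ 2 * Real.log (‖X‖ ^ 2))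
  b1 : ‖Y + 2 * X ^ 2‖ ≤ 2 * ‖X‖
  b2 : ‖Y - 2 * X ^ 2‖ ≤ 2 * ‖X‖

/-- the class: the scaled values lie in the region -/
def CenP (X : ℂ → ℂ) (x₁ x₂ : ℝ) : Prop :=
  ∃ ρ : ℝ → ℝ, Continuous ρ ∧ (∀ ξ, 1 / 9 ≤ ρ ξ ∧ ρ ξ ≤ 1) ∧
    ∫ ξ in x₁..x₂, (1 - ρ ξ) ≤ 8 ∧ ∀ ξ ∈ Icc x₁ x₂,
      RegC ((ρ ξ : ℂ) * X (pt ξ (π / 2))) ((ρ ξ : ℂ) ^ 2 * deriv X (pt ξ (π / 2)))
        ((ρ ξ : ℂ) ^ 3 * bc (X (pt ξ (π / 2))) (deriv X (pt ξ (π / 2)))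
          (deriv (deriv X) (pt ξ (π / 2))))

/-- the area inequality is monotone in the radius -/
theorem ar_mono {r ρ u v w : ℝ} (hρ : 0 < ρ) (h : ρ ≤ r) (hw : 0 < w)
    (ha : r ^ 2 * u ^ 2 + 2 * r ^ 4 * v ^ 2 ≤ -2 * Real.log (r * w)) :
    ρ ^ 2 * u ^ 2 + 2 * ρ ^ 4 * v ^ 2 ≤ -2 * Real.log (ρ * w) := by
  have h1 : ρ ^ 2 * u ^ 2 ≤ r ^ 2 * u ^ 2 :=
    mul_le_mul_of_nonneg_right (pow_le_pow_left₀ hρ.le h 2) (sq_nonneg _)
  have h2 : ρ ^ 4 * v ^ 2 ≤ r ^ 4 * v ^ 2 :=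
    mul_le_mul_of_nonneg_right (pow_le_pow_left₀ hρ.le h 4) (sq_nonneg _)
  have h3 : Real.log (ρ * w) ≤ Real.log (r * w) :=
    Real.log_le_log (mul_pos hρ hw) (mul_le_mul_of_nonneg_right h hw.le)
  linarith only [ha, h1, h2, h3]

/-- the region from the inequalities at radius `ρ` -/
theorem regC_of {X Y Z : ℂ} (hX : X ≠ 0) {ρ δ : ℝ} (hρ : 0 < ρ) (hδ : ρ * (1 + δ) ≤ 1)
    (ha : ρ ^ 2 * ‖Y / X‖ ^ 2 +
      2 * ρ ^ 4 * ‖(1 - X ^ 2 + 2 * (Z / X) - 3 / 2 * (Y / X) ^ 2) / 3‖ ^ 2 ≤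
      -2 * Real.log (ρ * ‖X‖))
    (h1 : ‖2 * X + Y / X‖ ≤ 2 * (1 + δ)) (h2 : ‖-(2 * X) + Y / X‖ ≤ 2 * (1 + δ)) :
    RegC ((ρ : ℂ) * X) ((ρ : ℂ) ^ 2 * Y) ((ρ : ℂ) ^ 3 * bc X Y Z) := by
  have hn : 0 < ‖X‖ := norm_pos_iff.2 hX
  have hρn : ‖(ρ : ℂ)‖ = ρ := by rw [norm_real, Real.norm_of_nonneg hρ.le]
  have hnX : ‖(ρ : ℂ) * X‖ = ρ * ‖X‖ := by rw [norm_mul, hρn]
  have hY : ‖Y‖ = ‖Y / X‖ * ‖X‖ := by rw [norm_div, div_mul_cancel₀ _ hn.ne']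
  have hb : ‖bc X Y Z‖ = ‖(1 - X ^ 2 + 2 * (Z / X) - 3 / 2 * (Y / X) ^ 2) / 3‖ * ‖X‖ := by
    rw [← norm_mul]
    congr 1
    unfold bc
    (clear * - hX; field_simp)
  have hlog : 0 ≤ -2 * Real.log (ρ * ‖X‖) := le_trans (by (clear * - hρ; positivity)) ha
  have hle : ρ * ‖X‖ ≤ 1 := by
    by_contra hc
    have := Real.log_pos (not_le.1 hc)
    linarith only [hlog, this]
  refine ⟨mul_ne_zero (by exact_mod_cast hρ.ne') hX, by rw [hnX]; exact hle, ?_, ?_, ?_⟩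
  · rw [hnX, norm_mul, norm_pow, hρn, norm_mul, norm_pow, hρn, hY, hb]
    have e1 : Real.log ((ρ * ‖X‖) ^ 2) = 2 * Real.log (ρ * ‖X‖) := by
      rw [Real.log_pow]
      norm_num
    rw [e1]
    have h3 := mul_le_mul_of_nonneg_left ha (sq_nonneg (ρ * ‖X‖))
    refine le_trans (le_of_eq ?_) (h3.trans (le_of_eq ?_))
    · ring
    · ring
  · have e : (ρ : ℂ) ^ 2 * Y + 2 * ((ρ : ℂ) * X) ^ 2 = (ρ : ℂ) ^ 2 * X * (2 * X + Y / X) := by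
      field_simp
      ring
    rw [e, norm_mul, norm_mul, norm_pow, hρn, hnX]
    have h3 := mul_le_mul_of_nonneg_left h1 (by positivity : 0 ≤ ρ ^ 2 * ‖X‖)
    have h4 := mul_le_mul_of_nonneg_left hδ (by positivity : 0 ≤ 2 * ρ * ‖X‖)
    linarith only [h3, h4]
  · have e : (ρ : ℂ) ^ 2 * Y - 2 * ((ρ : ℂ) * X) ^ 2 = (ρ : ℂ) ^ 2 * X * (-(2 * X) + Y / X) := by
      field_simp
      ring
    rw [e, norm_mul, norm_mul, norm_pow, hρn, hnX]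
    have h3 := mul_le_mul_of_nonneg_left h2 (by positivity : 0 ≤ ρ ^ 2 * ‖X‖)
    have h4 := mul_le_mul_of_nonneg_left hδ (by positivity : 0 ≤ 2 * ρ * ‖X‖)
    linarith only [h3, h4]

theorem dA_cent (σ : ℝ) (X Y : ℂ) : dA σ X Y (Real.sin (π / 2)) (Real.cos (π / 2)) =
    2 * ((σ : ℂ) * (2 * X) + Y / X) := by
  unfold dA e0
  rw [Real.sin_pi_div_two, Real.cos_pi_div_two]
  push_cast
  linear_combination -((σ : ℂ) * (2 * X) - 1 + Y / X) * I_sq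

/-- **the class for the functions `Xf`** -/
theorem cenP_Xf {β : ℂ → ℂ} {R a : ℝ} (h : ExtR β R) (ha : 0 < a) (ha1 : a < 1)
    (hx : Real.log (tau a) + 1 ≤ -1) : CenP (Xf β a) (Real.log (tau a) + 1) (-1) := by
  obtain ⟨δ, hδ⟩ : ∃ δ : ℝ → ℝ, δ = fun ξ => 4 * Real.exp (min ξ 0) +
      4 * Real.exp (min (Real.log (tau a) - ξ) 0) := ⟨_, rfl⟩
  have cδ : Continuous δ := by rw [hδ]; fun_prop
  have δ0 : ∀ ξ, 0 ≤ δ ξ := fun ξ => by rw [hδ]; positivity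
  have δ8 : ∀ ξ, δ ξ ≤ 8 := by
    intro ξ
    rw [hδ]
    have h1 : Real.exp (min ξ 0) ≤ 1 := Real.exp_le_one_iff.2 (min_le_right _ _)
    have h2 : Real.exp (min (Real.log (tau a) - ξ) 0) ≤ 1 :=
      Real.exp_le_one_iff.2 (min_le_right _ _)
    simp only
    linarith only [h1, h2]
  have hδe : ∀ ξ ∈ Icc (Real.log (tau a) + 1) (-1 : ℝ), δ ξ =
      4 * Real.exp ξ + 4 * Real.exp (Real.log (tau a) - ξ) := by
    intro ξ hξ
    rw [hδ]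
    simp only
    rw [min_eq_left (by (clear * - ha ha1 hξ; linarith [hξ.2])), min_eq_left (by linarith [hξ.1])]
  have hI : ∫ ξ in (Real.log (tau a) + 1)..(-1), δ ξ ≤ 8 := by
    have e : ∫ ξ in (Real.log (tau a) + 1)..(-1), δ ξ = ∫ ξ in (Real.log (tau a) + 1)..(-1),
        (4 * Real.exp ξ + 4 * Real.exp (Real.log (tau a) - ξ)) := by
      refine intervalIntegral.integral_congr fun ξ hξ => ?_
      rw [uIcc_of_le hx] at hξ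
      exact hδe ξ hξ
    rw [e]
    have i1 : IntervalIntegrable (fun ξ : ℝ => 4 * Real.exp ξ) volume
        (Real.log (tau a) + 1) (-1) :=
      (by fun_prop : Continuous fun ξ : ℝ => 4 * Real.exp ξ).intervalIntegrable _ _
    have i2 : IntervalIntegrable (fun ξ : ℝ => 4 * Real.exp (Real.log (tau a) - ξ)) volume
        (Real.log (tau a) + 1) (-1) :=
      (by fun_prop : Continuous fun ξ : ℝ => 4 * Real.exp (Real.log (tau a) - ξ)).intervalIntegrable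
        _ _
    rw [intervalIntegral.integral_add i1 i2, intervalIntegral.integral_const_mul,
      intervalIntegral.integral_const_mul,
      intervalIntegral.integral_comp_sub_left (fun u => Real.exp u) (Real.log (tau a)),
      exp_int, exp_int]
    have e1 : Real.exp (-1) ≤ 1 := Real.exp_le_one_iff.2 (by norm_num)
    have e2 := Real.exp_pos (Real.log (tau a) + 1)
    have e3 : Real.exp (Real.log (tau a) - (Real.log (tau a) + 1)) ≤ 1 :=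
      Real.exp_le_one_iff.2 (by linarith)
    have e4 := Real.exp_pos (Real.log (tau a) - -1)
    (clear * - e1 e2 e3 e4; linarith)
  have hpos : ∀ ξ, 0 < 1 + δ ξ := fun ξ => by linarith [δ0 ξ]
  have cρ : Continuous fun ξ => (1 + δ ξ)⁻¹ :=
    (continuous_const.add cδ).inv₀ fun ξ => (hpos ξ).ne'
  refine ⟨fun ξ => (1 + δ ξ)⁻¹, cρ, fun ξ => ⟨?_, ?_⟩, ?_, fun ξ hξ => ?_⟩
  · rw [one_div]
    exact inv_anti₀ (hpos ξ) (by linarith [δ8 ξ])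
  · exact inv_le_one_of_one_le₀ (by linarith [δ0 ξ])
  · refine le_trans (intervalIntegral.integral_mono_on hx
      ((continuous_const.sub cρ).intervalIntegrable _ _) (cδ.intervalIntegrable _ _)
      fun ξ _ => ?_) hI
    have h1 : 1 - (1 + δ ξ)⁻¹ = δ ξ / (1 + δ ξ) := by
      have := (hpos ξ).ne'
      field_simp
      ring
    rw [h1]
    exact div_le_self (δ0 ξ) (by linarith [δ0 ξ])
  · have hτ : 0 < tau a := by
      unfold tau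
      have : 0 < 1 - a := by linarith
      (clear * - ha1 ha; positivity)
    obtain ⟨hX0, hr0, hr1, har⟩ := Pool.Agent.Helper84.EK.centre_be h ha ha1 (ξ := ξ)
      (by linarith [hξ.1]) (by linarith [hξ.2]) rfl rfl rfl rfl
    obtain ⟨_, d1, d2⟩ := disc_Xf h ha ha1 hξ.1 hξ.2 (η := π / 2) (by positivity)
      (by linarith only [Real.pi_pos])
    rw [← hδe ξ hξ] at d1 d2
    -- comparison of the radii
    have hr : (1 + δ ξ)⁻¹ ≤ (max ((1 + Real.exp ξ) / (1 - Real.exp ξ))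
        ((Real.exp ξ + tau a) / (Real.exp ξ - tau a)))⁻¹ := by
      have hhalf : Real.exp (-1) ≤ 1 / 2 := by
        have h9 : Real.exp (-1) < 0.3678794412 := Real.exp_neg_one_lt_d9
        linarith only [h9]
      have key : ∀ q : ℝ, 0 < q → q ≤ 1 / 2 → (1 + q) / (1 - q) ≤ 1 + 4 * q := by
        intro q hq hq2
        rw [div_le_iff₀ (by linarith only [hq2])]
        (clear * - hq hq2; nlinarith only [hq, hq2])
      have hy : Real.exp ξ ≤ 1 / 2 := (Real.exp_le_exp.mpr hξ.2).trans hhalf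
      have hq : Real.exp (Real.log (tau a) - ξ) ≤ 1 / 2 :=
        (Real.exp_le_exp.mpr (by linarith only [hξ.1])).trans hhalf
      have hy0 := Real.exp_pos ξ
      have hq0 := Real.exp_pos (Real.log (tau a) - ξ)
      have hτe : tau a = Real.exp ξ * Real.exp (Real.log (tau a) - ξ) := by
        rw [← Real.exp_add, add_sub_cancel, Real.exp_log hτ]
      refine inv_anti₀ (lt_of_lt_of_le (div_pos (by linarith only [hy0]) (by linarith only [hy])) (le_max_left _ _))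
        (max_le ?_ ?_)
      · rw [hδe ξ hξ]
        have := key _ hy0 hy
        linarith only [hq0, this]
      · have h3 := key _ hq0 hq
        have h4 : (Real.exp ξ + tau a) / (Real.exp ξ - tau a) =
            (1 + Real.exp (Real.log (tau a) - ξ)) / (1 - Real.exp (Real.log (tau a) - ξ)) := by
          rw [div_eq_div_iff]
          · linear_combination 2 * hτe
          · have h5 : tau a < Real.exp ξ := (Real.log_lt_iff_lt_exp hτ).mp (by linarith only [hξ.1])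
            linarith only [h5]
          · linarith only [hq]
        rw [h4, hδe ξ hξ]
        linarith only [hy0, h3]
    have hρ0 : 0 < (1 + δ ξ)⁻¹ := inv_pos.2 (hpos ξ)
    have har' := ar_mono hρ0 hr (norm_pos_iff.2 hX0) har
    rw [dA_cent, norm_mul] at d1 d2
    have n2 : ‖(2:ℂ)‖ = 2 := by simp
    rw [n2] at d1 d2
    have e1 : ((1 : ℝ) : ℂ) * (2 * Xf β a (pt ξ (π / 2))) = 2 * Xf β a (pt ξ (π / 2)) := by simp
    have e2 : ((-1 : ℝ) : ℂ) * (2 * Xf β a (pt ξ (π / 2))) = -(2 * Xf β a (pt ξ (π / 2))) := by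
      simp
    rw [e1] at d1
    rw [e2] at d2
    exact regC_of hX0 hρ0 (δ := δ ξ) (inv_mul_cancel₀ (hpos ξ).ne').le har' (by linarith only [d1])
      (by linarith only [d2])

end Pool.Agent.Helper84.CB

end

section

namespace Pool.Agent.Helper39.Area
end Pool.Agent.Helper39.Area
namespace Pool.Agent.Helper52.EK
end Pool.Agent.Helper52.EK
namespace Pool.Agent.Helper69.EK3
end Pool.Agent.Helper69.EK3

set_option autoImplicit false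

open Complex MeasureTheory Metric Set

open scoped Real ComplexConjugate

namespace Pool.Agent.Helper84.CB

open Pool.Agent.Helper39.Area Pool.Agent.Helper52.EK Pool.Agent.Helper69.EK3

theorem hasDerivAt_pt (ξ : ℝ) : HasDerivAt (fun t : ℝ => pt t (π / 2)) 1 ξ := by
  have h := (Complex.ofRealCLM.hasDerivAt (x := ξ)).add_const (((π / 2 : ℝ) : ℂ) * I)
  exact h.congr_deriv (by simp)

theorem line_hd {F : ℂ → ℂ} {ξ : ℝ} (hF : AnalyticAt ℂ F (pt ξ (π / 2))) :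
    HasDerivAt (fun t : ℝ => F (pt t (π / 2))) (deriv F (pt ξ (π / 2))) ξ := by
  have h1 := (hF.differentiableAt.hasDerivAt).comp_of_eq ξ (hasDerivAt_pt ξ) rfl
  exact h1.congr_deriv (mul_one _)

end Pool.Agent.Helper84.CB

end

section

namespace Pool.Agent.Helper39.Area
end Pool.Agent.Helper39.Area
namespace Pool.Agent.Helper52.EK
end Pool.Agent.Helper52.EK
namespace Pool.Agent.Helper69.EK3
end Pool.Agent.Helper69.EK3

set_option autoImplicit false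

open Complex MeasureTheory Metric Set

open scoped Real ComplexConjugate

namespace Pool.Agent.Helper84.CB

open Pool.Agent.Helper39.Area Pool.Agent.Helper52.EK Pool.Agent.Helper69.EK3

/-- the coefficient `b` -/
noncomputable def bq (X Y Z : ℂ) : ℂ := (1 - X ^ 2 + 2 * (Z / X) - 3 / 2 * (Y / X) ^ 2) / 3

/-- the region of `(X, q, b)` on the centre line -/
structure RegQ (X q b : ℂ) : Prop where
  ne : X ≠ 0
  le : ‖X‖ ≤ 1
  ar : ‖q‖ ^ 2 + 2 * ‖b‖ ^ 2 ≤ -Real.log (‖X‖ ^ 2)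
  b1 : ‖q + 2 * X‖ ≤ 2
  b2 : ‖q - 2 * X‖ ≤ 2
  kr : ‖b - X ^ 2 - q ^ 2 / 2‖ ≤ 1

/-- the class: the scaled values lie in the region -/
def CenQP (X : ℂ → ℂ) (x₁ x₂ : ℝ) : Prop :=
  ∃ ρ : ℝ → ℝ, Continuous ρ ∧ (∀ ξ, 1 / 9 ≤ ρ ξ ∧ ρ ξ ≤ 1) ∧
    ∫ ξ in x₁..x₂, (1 - ρ ξ) ≤ 8 ∧ ∀ ξ ∈ Icc x₁ x₂,
      RegQ ((ρ ξ : ℂ) * X (pt ξ (π / 2)))
        ((ρ ξ : ℂ) * (deriv X (pt ξ (π / 2)) / X (pt ξ (π / 2))))
        ((ρ ξ : ℂ) ^ 2 * bq (X (pt ξ (π / 2))) (deriv X (pt ξ (π / 2)))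
          (deriv (deriv X) (pt ξ (π / 2))))

theorem RegQ.of_C {X Y Z : ℂ} {ρ : ℝ} (hρ : 0 < ρ) (hρ1 : ρ ≤ 1) (hX : X ≠ 0)
    (h : RegC ((ρ : ℂ) * X) ((ρ : ℂ) ^ 2 * Y) ((ρ : ℂ) ^ 3 * bc X Y Z))
    (hk : ‖Pool.Agent.Helper69.EK7.tX X Y Z 1 0‖ ≤ 6) :
    RegQ ((ρ : ℂ) * X) ((ρ : ℂ) * (Y / X)) ((ρ : ℂ) ^ 2 * bq X Y Z) := by
  have hc : (ρ : ℂ) ≠ 0 := by exact_mod_cast hρ.ne'
  have hn : 0 < ‖(ρ : ℂ) * X‖ := norm_pos_iff.2 h.ne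
  have eY : (ρ : ℂ) ^ 2 * Y = ((ρ : ℂ) * X) * ((ρ : ℂ) * (Y / X)) := by
    (clear * - hX hc; field_simp)
  have eb : (ρ : ℂ) ^ 3 * bc X Y Z = ((ρ : ℂ) * X) * ((ρ : ℂ) ^ 2 * bq X Y Z) := by
    unfold bc bq
    (clear * - hX hc; field_simp)
  refine ⟨h.ne, h.le, ?_, ?_, ?_, ?_⟩
  · have h1 := h.ar
    rw [eY, eb, norm_mul ((ρ : ℂ) * X), norm_mul ((ρ : ℂ) * X)] at h1
    have h2 : 0 < ‖(ρ : ℂ) * X‖ ^ 2 := pow_pos hn 2
    refine le_of_mul_le_mul_left (le_trans (le_of_eq ?_) (h1.trans (le_of_eq ?_))) h2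
    · ring
    · ring
  · have h1 := h.b1
    have e : (ρ : ℂ) ^ 2 * Y + 2 * ((ρ : ℂ) * X) ^ 2 =
        ((ρ : ℂ) * X) * ((ρ : ℂ) * (Y / X) + 2 * ((ρ : ℂ) * X)) := by
      rw [eY]
      ring
    rw [e, norm_mul ((ρ : ℂ) * X)] at h1
    refine le_of_mul_le_mul_left ?_ hn
    linarith only [h1]
  · have h1 := h.b2
    have e : (ρ : ℂ) ^ 2 * Y - 2 * ((ρ : ℂ) * X) ^ 2 =
        ((ρ : ℂ) * X) * ((ρ : ℂ) * (Y / X) - 2 * ((ρ : ℂ) * X)) := by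
      rw [eY]
      ring
    rw [e, norm_mul ((ρ : ℂ) * X)] at h1
    refine le_of_mul_le_mul_left ?_ hn
    linarith only [h1]
  · have e1 : Pool.Agent.Helper69.EK7.tX X Y Z 1 0 = 6 * (bq X Y Z - X ^ 2 - (Y / X) ^ 2 / 2) := by
      unfold Pool.Agent.Helper69.EK7.tX bq e0
      push_cast
      linear_combination -4 * (1 / 2 - 2 * X ^ 2 + Z / X - 3 / 2 * (Y / X) ^ 2) * I_sq
    rw [e1, norm_mul] at hk
    have n6 : ‖(6:ℂ)‖ = 6 := by simp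
    rw [n6] at hk
    have e2 : (ρ : ℂ) ^ 2 * bq X Y Z - ((ρ : ℂ) * X) ^ 2 - ((ρ : ℂ) * (Y / X)) ^ 2 / 2 =
        (ρ : ℂ) ^ 2 * (bq X Y Z - X ^ 2 - (Y / X) ^ 2 / 2) := by ring
    rw [e2, norm_mul, norm_pow, norm_real, Real.norm_of_nonneg hρ.le]
    have h1 : ρ ^ 2 ≤ 1 := pow_le_one₀ hρ.le hρ1
    (clear * - hρ1 hk hρ; nlinarith only [hρ, hρ1, hk])

/-- **the class for the functions `Xf`** -/
theorem cenQP_Xf {β : ℂ → ℂ} {R a : ℝ} (h : ExtR β R) (ha : 0 < a) (ha1 : a < 1)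
    (hx : Real.log (tau a) + 1 ≤ -1) : CenQP (Xf β a) (Real.log (tau a) + 1) (-1) := by
  obtain ⟨ρ, cρ, hρ, hI, hR⟩ := cenP_Xf h ha ha1 hx
  refine ⟨ρ, cρ, hρ, hI, fun ξ hξ => ?_⟩
  have hρ0 : 0 < ρ ξ := by linarith only [(hρ ξ).1]
  have hr := hR ξ hξ
  have hX : Xf β a (pt ξ (π / 2)) ≠ 0 := by
    intro h0
    exact hr.ne (by rw [h0, mul_zero])
  refine RegQ.of_C hρ0 (hρ ξ).2 hX hr ?_
  have hk := Pool.Agent.Helper20.Kraus2.kraus_strip h ha ha1 (ξ := ξ) (η := π / 2)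
    (by (clear * - hξ; linarith only [hξ.1])) (by (clear * - ha ha1 hξ; linarith [hξ.2])) (by (clear * -; positivity)) (by (clear * -; linarith only [Real.pi_pos]))
  rw [Real.sin_pi_div_two, Real.cos_pi_div_two] at hk
  exact hk

theorem RegQ.q_le {X q b : ℂ} (h : RegQ X q b) : ‖q‖ ≤ 2 := by
  have e : q = (1 / 2 : ℂ) * ((q + 2 * X) + (q - 2 * X)) := by ring
  rw [e, norm_mul]
  have h1 := norm_add_le (q + 2 * X) (q - 2 * X)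
  have n2 : ‖(1 / 2 : ℂ)‖ = 1 / 2 := by simp
  rw [n2]
  (clear * - h1 h; linarith [h.b1, h.b2])

theorem RegQ.b_le {X q b : ℂ} (h : RegQ X q b) : ‖b‖ ≤ 4 := by
  have e : b = (b - X ^ 2 - q ^ 2 / 2) + (X ^ 2 + q ^ 2 / 2) := by ring
  rw [e]
  have h1 := norm_add_le (b - X ^ 2 - q ^ 2 / 2) (X ^ 2 + q ^ 2 / 2)
  have h2 := norm_add_le (X ^ 2) (q ^ 2 / 2)
  rw [norm_pow, norm_div, norm_pow] at h2
  have n2 : ‖(2 : ℂ)‖ = 2 := by simp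
  rw [n2] at h2
  have h3 : ‖X‖ ^ 2 ≤ 1 := pow_le_one₀ (norm_nonneg _) h.le
  have h4 : ‖q‖ ^ 2 ≤ 2 ^ 2 := pow_le_pow_left₀ (norm_nonneg _) h.q_le 2
  (clear * - h1 h2 h3 h4 h; linarith [h.kr])

end Pool.Agent.Helper84.CB

end

section

namespace Pool.Agent.Helper39.Area
end Pool.Agent.Helper39.Area
namespace Pool.Agent.Helper52.EK
end Pool.Agent.Helper52.EK
namespace Pool.Agent.Helper69.EK3
end Pool.Agent.Helper69.EK3

set_option autoImplicit false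

open Complex MeasureTheory Metric Set

open scoped Real ComplexConjugate

namespace Pool.Agent.Helper84.CB

open Pool.Agent.Helper39.Area Pool.Agent.Helper52.EK Pool.Agent.Helper69.EK3

/-- the values of `Q` near the region -/
theorem Q_lowQ {Q : ℂ → ℂ → ℂ → ℝ} (hQ : ∀ X q b : ℂ, RegQ X q b → 0 ≤ Q X q b)
    (hQL : LocallyLipschitz fun p : ℂ × ℂ × ℂ => Q p.1 p.2.1 p.2.2) :
    ∃ M : ℝ, 0 ≤ M ∧ ∀ (X q b : ℂ) (ρ : ℝ), 1 / 9 ≤ ρ → ρ ≤ 1 →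
      RegQ ((ρ : ℂ) * X) ((ρ : ℂ) * q) ((ρ : ℂ) ^ 2 * b) → -(M * (1 - ρ)) ≤ Q X q b := by
  obtain ⟨K, hK⟩ := hQL.locallyLipschitzOn.exists_lipschitzOnWith_of_compact
    (s := closedBall (0 : ℂ × ℂ × ℂ) 324) (isCompact_closedBall _ _)
  refine ⟨K * 648, by (clear * -; positivity), fun X q b ρ h1 h2 hR => ?_⟩
  have hρ0 : 0 < ρ := by (clear * - h1; linarith)
  have hρn : ‖(ρ : ℂ)‖ = ρ := by rw [norm_real, Real.norm_of_nonneg hρ0.le]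
  have x1 : ρ * ‖X‖ ≤ 1 := by
    have := hR.le
    rwa [norm_mul, hρn] at this
  have q1 : ρ * ‖q‖ ≤ 2 := by
    have := hR.q_le
    rwa [norm_mul, hρn] at this
  have b1 : ρ ^ 2 * ‖b‖ ≤ 4 := by
    have := hR.b_le
    rwa [norm_mul, norm_pow, hρn] at this
  have x2 : ‖X‖ ≤ 9 := by (clear * - h1 x1; nlinarith only [h1, x1])
  have q2 : ‖q‖ ≤ 18 := by nlinarith only [h1, q1]
  have b2 : ‖b‖ ≤ 324 := by
    have h3 : (1 / 9 : ℝ) ^ 2 ≤ ρ ^ 2 := pow_le_pow_left₀ (by norm_num) h1 2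
    (clear * - b1 h3; nlinarith only [b1, h3])
  have hd : (0:ℝ) ≤ 1 - ρ := by linarith only [h2]
  have m1 : ((X, q, b) : ℂ × ℂ × ℂ) ∈ closedBall (0 : ℂ × ℂ × ℂ) 324 := by
    rw [mem_closedBall_zero_iff, Prod.norm_def, Prod.norm_def]
    exact max_le (by (clear * - x2; linarith)) (max_le (by linarith only [q2]) b2)
  have m2 : (((ρ : ℂ) * X, (ρ : ℂ) * q, (ρ : ℂ) ^ 2 * b) : ℂ × ℂ × ℂ) ∈
      closedBall (0 : ℂ × ℂ × ℂ) 324 := by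
    rw [mem_closedBall_zero_iff, Prod.norm_def, Prod.norm_def]
    refine max_le ?_ (max_le ?_ ?_)
    · simp only
      rw [norm_mul, hρn]
      linarith only [x1]
    · simp only
      rw [norm_mul, hρn]
      linarith only [q1]
    · simp only
      rw [norm_mul, norm_pow, hρn]
      linarith only [b1]
  have hL := hK.dist_le_mul _ m1 _ m2
  have hdist : dist ((X, q, b) : ℂ × ℂ × ℂ)
      ((ρ : ℂ) * X, (ρ : ℂ) * q, (ρ : ℂ) ^ 2 * b) ≤ 648 * (1 - ρ) := by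
    rw [dist_eq_norm, Prod.norm_def, Prod.norm_def]
    refine max_le ?_ (max_le ?_ ?_)
    · simp only [Prod.fst_sub]
      have e : X - (ρ : ℂ) * X = ((1 - ρ : ℝ) : ℂ) * X := by push_cast; ring
      rw [e, norm_mul, norm_real, Real.norm_of_nonneg hd]
      (clear * - hd x2; nlinarith only [x2, hd])
    · simp only [Prod.snd_sub, Prod.fst_sub]
      have e : q - (ρ : ℂ) * q = ((1 - ρ : ℝ) : ℂ) * q := by
        push_cast
        ring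
      rw [e, norm_mul, norm_real, Real.norm_of_nonneg hd]
      nlinarith only [q2, hd]
    · simp only [Prod.snd_sub]
      have e : b - (ρ : ℂ) ^ 2 * b = ((1 - ρ : ℝ) : ℂ) * ((1 + ρ : ℝ) : ℂ) * b := by
        push_cast
        ring
      rw [e, norm_mul, norm_mul, norm_real, norm_real, Real.norm_of_nonneg hd,
        Real.norm_of_nonneg (by (clear * - hρ0; linarith))]
      have h3 : (1 - ρ) * (1 + ρ) ≤ (1 - ρ) * 2 := mul_le_mul_of_nonneg_left (by (clear * - h2; linarith)) hd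
      have h4 := mul_le_mul h3 b2 (norm_nonneg b) (by (clear * - h2; positivity))
      linarith only [h4]
  have hq := hQ _ _ _ hR
  have h5 : dist (Q X q b) (Q ((ρ : ℂ) * X) ((ρ : ℂ) * q) ((ρ : ℂ) ^ 2 * b)) ≤
      K * (648 * (1 - ρ)) := hL.trans (mul_le_mul_of_nonneg_left hdist K.coe_nonneg)
  rw [Real.dist_eq] at h5
  have h6 := (abs_le.1 h5).1
  linarith only [hq, h6]

/-- the linear term: from the class -/
theorem CenQP.re_le {X : ℂ → ℂ} {x₁ x₂ : ℝ} (h : CenQP X x₁ x₂) :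
    ∃ δ : ℝ → ℝ, Continuous δ ∧ (∀ ξ ∈ Icc x₁ x₂, 0 ≤ δ ξ) ∧
      (∀ ξ ∈ Icc x₁ x₂, ‖X (pt ξ (π / 2))‖ ≤ 1 + δ ξ) ∧ ∫ ξ in x₁..x₂, δ ξ ≤ 72 := by
  obtain ⟨ρ, cρ, hρ, hI, hR⟩ := h
  refine ⟨fun ξ => 9 * (1 - ρ ξ), by fun_prop, fun ξ _ => by have := (hρ ξ).2; (clear * - this; linarith),
    fun ξ hξ => ?_, ?_⟩
  · have h3 := (hR ξ hξ).le
    obtain ⟨r1, r2⟩ := hρ ξ
    have hρ0 : 0 < ρ ξ := by (clear * - r1; linarith only [r1])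
    rw [norm_mul, norm_real, Real.norm_of_nonneg hρ0.le] at h3
    have h4 : ‖X (pt ξ (π / 2))‖ ≤ 9 := by (clear * - h3 r1; nlinarith only [h3, r1])
    nlinarith only [h3, r1, r2]
  · rw [intervalIntegral.integral_const_mul]
    linarith

/-- the derivative of `q` -/
theorem q_hd {x y : ℝ → ℂ} {z : ℂ} {ξ : ℝ} (h1 : HasDerivAt x (y ξ) ξ) (h2 : HasDerivAt y z ξ)
    (h0 : x ξ ≠ 0) : HasDerivAt (fun t => y t / x t)
      ((3 * bq (x ξ) (y ξ) z - 1 + x ξ ^ 2) / 2 - (y ξ / x ξ) ^ 2 / 4) ξ := by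
  refine (h2.div h1 h0).congr_deriv ?_
  unfold bq
  field_simp
  ring

end Pool.Agent.Helper84.CB

end

section

namespace Pool.Agent.Helper39.Area
end Pool.Agent.Helper39.Area
namespace Pool.Agent.Helper52.EK
end Pool.Agent.Helper52.EK
namespace Pool.Agent.Helper69.EK3
end Pool.Agent.Helper69.EK3

set_option autoImplicit false

open Complex MeasureTheory Metric Set

open scoped Real ComplexConjugate

namespace Pool.Agent.Helper84.CB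

open Pool.Agent.Helper39.Area Pool.Agent.Helper52.EK Pool.Agent.Helper69.EK3

/-- the centre condition for a function `E` of `X` -/
def CenE (E : ℂ → ℝ) : Prop :=
  ∃ (Q : ℂ → ℂ → ℂ → ℝ) (Wc : ℂ → ℂ → ℝ),
    (∀ X q b : ℂ, RegQ X q b → 0 ≤ Q X q b) ∧
    (LocallyLipschitz fun p : ℂ × ℂ × ℂ => Q p.1 p.2.1 p.2.2) ∧
    (Continuous fun p : ℂ × ℂ => Wc p.1 p.2) ∧
    ∀ (x q : ℝ → ℂ) (b : ℂ) (ξ : ℝ), HasDerivAt x (x ξ * q ξ) ξ →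
      HasDerivAt q ((3 * b - 1 + x ξ ^ 2) / 2 - q ξ ^ 2 / 4) ξ →
      HasDerivAt (fun t : ℝ => Wc (x t) (q t)) (E (x ξ) - Q (x ξ) (q ξ) b) ξ

/-- a `C¹` function of a complex variable -/
theorem C1f.contDiff {W Wx Wy : ℂ → ℝ} (h : C1f W Wx Wy) : ContDiff ℝ 1 W := by
  rw [contDiff_one_iff_hasFDerivAt]
  exact ⟨fun X => Wx X • reCLM + Wy X • imCLM,
    (h.cx.smul continuous_const).add (h.cy.smul continuous_const), h.hd⟩

theorem ll_add {Q Q' : ℂ → ℂ → ℂ → ℝ} (h : LocallyLipschitz fun p : ℂ × ℂ × ℂ => Q p.1 p.2.1 p.2.2)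
    (h' : LocallyLipschitz fun p : ℂ × ℂ × ℂ => Q' p.1 p.2.1 p.2.2) :
    LocallyLipschitz fun p : ℂ × ℂ × ℂ => Q p.1 p.2.1 p.2.2 + Q' p.1 p.2.1 p.2.2 := by
  intro x
  obtain ⟨K, t, ht, hK⟩ := h x
  obtain ⟨K', t', ht', hK'⟩ := h' x
  refine ⟨K + K', t ∩ t', Filter.inter_mem ht ht', ?_⟩
  exact (hK.mono inter_subset_left).add (hK'.mono inter_subset_right)

/-- adding a function which is nonnegative on the unit disc -/
theorem CenE.add {E₀ E F Fx Fy : ℂ → ℝ} (h : CenE E₀) (hF : C1f F Fx Fy)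
    (hE : ∀ X, E X = E₀ X + F X) (hp : ∀ X : ℂ, ‖X‖ ≤ 1 → 0 ≤ F X) : CenE E := by
  obtain ⟨Q, Wc, h1, h2, h3, h4⟩ := h
  refine ⟨fun X q b => Q X q b + F X, Wc, fun X q b hR => add_nonneg (h1 X q b hR)
    (hp X hR.le), ?_, h3, fun x q b ξ hx hq => ?_⟩
  · refine ll_add h2 (Q' := fun X _ _ => F X) ?_
    have h5 : ContDiff ℝ 1 fun p : ℂ × ℂ × ℂ => F p.1 := (C1f.contDiff hF).comp contDiff_fst
    exact h5.locallyLipschitz
  · refine (h4 x q b ξ hx hq).congr_deriv ?_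
    rw [hE]
    ring

/-- functions which are nonnegative on the unit disc -/
theorem CenE.of_pos {E Ex Ey : ℂ → ℝ} (hE : C1f E Ex Ey) (hp : ∀ X : ℂ, ‖X‖ ≤ 1 → 0 ≤ E X) :
    CenE E := by
  have h5 : ContDiff ℝ 1 fun p : ℂ × ℂ × ℂ => E p.1 := (C1f.contDiff hE).comp contDiff_fst
  refine ⟨fun X _ _ => E X, fun _ _ => 0, fun X q b hR => hp X hR.le,
    h5.locallyLipschitz, continuous_const, fun x q b ξ _ _ => ?_⟩
  rw [sub_self]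
  exact hasDerivAt_const _ _

theorem CenE.const_mul {E : ℂ → ℝ} (h : CenE E) {c : ℝ} (hc : 0 ≤ c) : CenE fun X => c * E X := by
  obtain ⟨Q, Wc, h1, h2, h3, h4⟩ := h
  refine ⟨fun X q b => c * Q X q b, fun X q => c * Wc X q, fun X q b hR =>
    mul_nonneg hc (h1 X q b hR), ?_, continuous_const.mul h3, fun x q b ξ hx hq => ?_⟩
  · intro x
    obtain ⟨K, t, ht, hK⟩ := h2 x
    refine ⟨‖c‖₊ * K, t, ht, ?_⟩
    intro u hu v hv
    have h5 := hK hu hv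
    have e : edist (c * Q u.1 u.2.1 u.2.2) (c * Q v.1 v.2.1 v.2.2) =
        (‖c‖₊ : ENNReal) * edist (Q u.1 u.2.1 u.2.2) (Q v.1 v.2.1 v.2.2) := by
      rw [← smul_eq_mul, ← smul_eq_mul, edist_smul₀]
      rfl
    simp only
    rw [e]
    calc (‖c‖₊ : ENNReal) * edist (Q u.1 u.2.1 u.2.2) (Q v.1 v.2.1 v.2.2) ≤
          (‖c‖₊ : ENNReal) * (K * edist u v) := by (clear * - h5; gcongr)
      _ = _ := by rw [ENNReal.coe_mul, mul_assoc]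
  · refine ((h4 x q b ξ hx hq).const_mul c).congr_deriv ?_
    ring

end Pool.Agent.Helper84.CB

end

section

namespace Pool.EK71
end Pool.EK71
namespace Pool.Agent.Helper71.CK
end Pool.Agent.Helper71.CK
namespace Pool.Agent.Helper69.EK3
end Pool.Agent.Helper69.EK3
namespace Pool.Agent.Helper69.EK7
end Pool.Agent.Helper69.EK7
namespace Pool.Agent.Helper20.EK7
end Pool.Agent.Helper20.EK7

/-!
# Project CK: the global multiplier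

`Mg = Mq ∘ p4`, `p4` the retraction to the disc `|m + 3| ≤ 4`.
-/

set_option autoImplicit false

open Complex Metric Set

open scoped ComplexConjugate

namespace Pool.Agent.Helper20.CK

open Pool.EK71

open Pool.Agent.Helper71.CK (MS Mq MS_conj MS_zero Mq_conj)

open Pool.Agent.Helper69.EK3 (rF rF_eq exists_cross)

open Pool.Agent.Helper69.EK7

open Pool.Agent.Helper20.EK7

/-- bounded and Lipschitz on `S` -/
def BLi (S : Set ℂ) (f : ℂ → ℂ) : Prop :=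
  ∃ C : ℝ, 0 ≤ C ∧ (∀ m ∈ S, ‖f m‖ ≤ C) ∧ ∀ m ∈ S, ∀ m' ∈ S, ‖f m - f m'‖ ≤ C * ‖m - m'‖

variable {S : Set ℂ} {f g : ℂ → ℂ}

theorem BLi.congr (h : BLi S f) (e : ∀ m ∈ S, g m = f m) : BLi S g := by
  obtain ⟨C, h0, h1, h2⟩ := h
  exact ⟨C, h0, fun m hm => by rw [e m hm]; exact h1 m hm,
    fun m hm m' hm' => by rw [e m hm, e m' hm']; exact h2 m hm m' hm'⟩

theorem BLi.const (c : ℂ) : BLi S fun _ => c :=
  ⟨‖c‖, norm_nonneg _, fun _ _ => le_rfl, fun m _ m' _ => by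
    rw [sub_self, norm_zero]; (clear * -; positivity)⟩

theorem BLi.idf {R : ℝ} (hS : ∀ m ∈ S, ‖m‖ ≤ R) : BLi S fun m => m :=
  ⟨max R 1, by positivity, fun m hm => (hS m hm).trans (le_max_left _ _), fun m _ m' _ => by
    have := mul_le_mul_of_nonneg_right (le_max_right R 1) (norm_nonneg (m - m'))
    (clear * - this; linarith only [this])⟩

theorem BLi.conjf (h : BLi S f) : BLi S fun m => conj (f m) := by
  obtain ⟨C, h0, h1, h2⟩ := h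
  refine ⟨C, h0, fun m hm => by rw [norm_conj]; exact h1 m hm, fun m hm m' hm' => ?_⟩
  rw [← map_sub, norm_conj]
  exact h2 m hm m' hm'

theorem BLi.add (h : BLi S f) (h' : BLi S g) : BLi S fun m => f m + g m := by
  obtain ⟨C, h0, h1, h2⟩ := h
  obtain ⟨D, k0, k1, k2⟩ := h'
  refine ⟨C + D, by positivity, fun m hm => (norm_add_le _ _).trans
    (add_le_add (h1 m hm) (k1 m hm)), fun m hm m' hm' => ?_⟩
  rw [add_sub_add_comm, add_mul]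
  exact (norm_add_le _ _).trans (add_le_add (h2 m hm m' hm') (k2 m hm m' hm'))

theorem BLi.mul (h : BLi S f) (h' : BLi S g) : BLi S fun m => f m * g m := by
  obtain ⟨C, h0, h1, h2⟩ := h
  obtain ⟨D, k0, k1, k2⟩ := h'
  refine ⟨2 * (C * D) , by positivity, fun m hm => ?_, fun m hm m' hm' => ?_⟩
  · rw [norm_mul]
    have := mul_le_mul (h1 m hm) (k1 m hm) (norm_nonneg _) h0
    have := mul_nonneg h0 k0
    linarith
  · have e : f m * g m - f m' * g m' = (f m - f m') * g m + f m' * (g m - g m') := by ring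
    rw [e]
    refine (norm_add_le _ _).trans ?_
    rw [norm_mul, norm_mul]
    have q := norm_nonneg (m - m')
    have a1 := mul_le_mul (h2 m hm m' hm') (k1 m hm) (norm_nonneg _) (mul_nonneg h0 q)
    have a2 := mul_le_mul (h1 m' hm') (k2 m hm m' hm') (norm_nonneg _) h0
    linarith only [a1, a2]

theorem BLi.powf (h : BLi S f) (n : ℕ) : BLi S fun m => f m ^ n := by
  induction n with
  | zero => exact (BLi.const 1).congr fun m _ => pow_zero _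
  | succ n ih => exact (ih.mul h).congr fun m _ => pow_succ _ _

theorem BLi.inv (h : BLi S f) {c : ℝ} (hc : 0 < c) (hf : ∀ m ∈ S, c ≤ ‖f m‖) :
    BLi S fun m => (f m)⁻¹ := by
  obtain ⟨C, h0, h1, h2⟩ := h
  have hne : ∀ m ∈ S, f m ≠ 0 := fun m hm => norm_pos_iff.1 (hc.trans_le (hf m hm))
  refine ⟨max (1 / c) (C / c ^ 2), by (clear * - hc; positivity), fun m hm => ?_, fun m hm m' hm' => ?_⟩
  · rw [norm_inv, ← one_div]
    exact (one_div_le_one_div_of_le hc (hf m hm)).trans (le_max_left _ _)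
  · have n1 := hne m hm
    have n2 := hne m' hm'
    have e : (f m)⁻¹ - (f m')⁻¹ = - (f m - f m') / (f m * f m') := by
      field_simp
      ring
    rw [e, norm_div, norm_neg, norm_mul]
    have a1 : c ^ 2 ≤ ‖f m‖ * ‖f m'‖ := by
      rw [pow_two]
      exact mul_le_mul (hf m hm) (hf m' hm') hc.le (norm_nonneg _)
    have a2 := h2 m hm m' hm'
    have q := norm_nonneg (m - m')
    have a3 : ‖f m - f m'‖ / (‖f m‖ * ‖f m'‖) ≤ C * ‖m - m'‖ / c ^ 2 :=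
      div_le_div₀ (mul_nonneg h0 q) a2 (by positivity) a1
    refine a3.trans ?_
    rw [mul_div_right_comm]
    exact mul_le_mul_of_nonneg_right (le_max_right _ _) q

theorem BLi.normsq {R : ℝ} (hS : ∀ m ∈ S, ‖m‖ ≤ R) : BLi S fun m => ((‖m‖ ^ 2 : ℝ) : ℂ) :=
  ((BLi.idf hS).mul (BLi.idf hS).conjf).congr fun m _ => by
    rw [mul_conj, normSq_eq_norm_sq]

theorem BLi.ref {R : ℝ} (hS : ∀ m ∈ S, ‖m‖ ≤ R) : BLi S fun m => ((m.re : ℝ) : ℂ) :=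
  ((BLi.const (1 / 2)).mul ((BLi.idf hS).add (BLi.idf hS).conjf)).congr fun m _ => by
    rw [add_conj]
    push_cast
    ring

theorem BLi.rFf {R : ℝ} (hS : ∀ m ∈ S, ‖m‖ ≤ R) (p0 p1 p2 : ℝ) :
    BLi S fun m => ((rF p0 p1 p2 m : ℝ) : ℂ) :=
  (((BLi.const ((p0 + p1 : ℝ) : ℂ)).add ((BLi.const ((2 * p1 : ℝ) : ℂ)).mul (BLi.ref hS))).add
    ((BLi.const ((p1 + p2 : ℝ) : ℂ)).mul (BLi.normsq hS))).congr fun m _ => by
    rw [rF_eq]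
    push_cast
    ring

/-- the function `l` -/
theorem BLi.lf {R c : ℝ} (hS : ∀ m ∈ S, ‖m‖ ≤ R) (a b p0 p1 p2 : ℝ) (hc : 0 < c)
    (hr : ∀ m ∈ S, c ≤ rF p0 p1 p2 m) :
    BLi S fun m => (((a + b * ‖m‖ ^ 2) / rF p0 p1 p2 m : ℝ) : ℂ) :=
  (((BLi.const (a : ℂ)).add ((BLi.const (b : ℂ)).mul (BLi.normsq hS))).mul
    ((BLi.rFf hS p0 p1 p2).inv hc fun m hm => by
      rw [norm_real, Real.norm_of_nonneg (hc.le.trans (hr m hm))]
      exact hr m hm)).congr fun m _ => by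
    rw [div_eq_mul_inv]
    push_cast
    ring

theorem BLi.ms {R : ℝ} (hS : ∀ m ∈ S, ‖m‖ ≤ R) {l : ℂ → ℝ} (hl : BLi S fun m => (l m : ℂ))
    (M : ℤ) (L : List (ℕ × ℕ × ℤ)) : BLi S fun m => MS L (l m) m / (M : ℂ) := by
  have h : BLi S fun m => MS L (l m) m := by
    induction L with
    | nil => exact (BLi.const 0).congr fun m _ => by simp [MS]
    | cons t L ih =>
      exact (((BLi.const (t.2.2 : ℂ)).mul ((hl.powf t.1).mul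
        ((BLi.idf hS).conjf.powf t.2.1))).add ih).congr fun m _ => by
          simp [MS]
  exact (h.mul (BLi.const ((M : ℂ)⁻¹))).congr fun m _ => div_eq_mul_inv _ _

/-- the `l⁰` terms agree -/
def Zeq (MI MO : List (ℕ × ℕ × ℤ)) : Prop :=
  (MI.filter fun t => t.1 == 0) = (MO.filter fun t => t.1 == 0)

instance (MI MO : List (ℕ × ℕ × ℤ)) : Decidable (Zeq MI MO) := by
  unfold Zeq; infer_instance

section glob

variable {a p0 p1 p2 q0 q1 q2 : ℝ} {MI MO : List (ℕ × ℕ × ℤ)}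

/-- **the multiplier is bounded and Lipschitz on bounded sets** -/
theorem Mq_lip (hp : InL p0 p1 p2) (hq : OutL a q0 q1 q2) (hz : Zeq MI MO) (M : ℤ) (R : ℝ) :
    ∃ C : ℝ, 0 ≤ C ∧ (∀ m : ℂ, ‖m‖ ≤ R → ‖Mq M MI MO p0 p1 p2 q0 q1 q2 m‖ ≤ C) ∧
      ∀ m m' : ℂ, ‖m‖ ≤ R → ‖m'‖ ≤ R →
        ‖Mq M MI MO p0 p1 p2 q0 q1 q2 m - Mq M MI MO p0 p1 p2 q0 q1 q2 m'‖ ≤ C * ‖m - m'‖ := by
  obtain ⟨c, hc, hcl⟩ := hp.low
  obtain ⟨d, hd, hdl⟩ := hq.low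
  -- inside
  have hA := BLi.ms (S := {m : ℂ | ‖m‖ ≤ 1}) (R := 1) (fun m hm => hm)
    (BLi.lf (S := {m : ℂ | ‖m‖ ≤ 1}) (R := 1) (fun m hm => hm) 1 (-1) p0 p1 p2 hc
      fun m hm => (le_mul_of_one_le_right hc.le (by have := sq_nonneg ‖m‖; linarith only [this])).trans
        (hcl m hm)) M MI
  have hB := BLi.ms (S := {m : ℂ | 1 ≤ ‖m‖ ∧ ‖m‖ ≤ max R 1}) (R := max R 1) (fun m hm => hm.2)
    (BLi.lf (S := {m : ℂ | 1 ≤ ‖m‖ ∧ ‖m‖ ≤ max R 1}) (R := max R 1) (fun m hm => hm.2)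
      (-1) 1 q0 q1 q2 hd
      fun m hm => (le_mul_of_one_le_right hd.le (by have := sq_nonneg ‖m‖; (clear * - this; linarith only [this]))).trans
        (hdl m)) M MO
  obtain ⟨C, hC0, hC1, hC2⟩ := hA
  obtain ⟨D, hD0, hD1, hD2⟩ := hB
  have eA : ∀ m : ℂ, ‖m‖ ≤ 1 → Mq M MI MO p0 p1 p2 q0 q1 q2 m =
      MS MI ((1 + (-1) * ‖m‖ ^ 2) / rF p0 p1 p2 m) m / (M : ℂ) := by
    intro m hm
    unfold Mq
    rw [if_pos hm]
    congr 3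
    ring
  have eB' : ∀ m : ℂ, 1 < ‖m‖ → Mq M MI MO p0 p1 p2 q0 q1 q2 m =
      MS MO ((-1 + 1 * ‖m‖ ^ 2) / rF q0 q1 q2 m) m / (M : ℂ) := by
    intro m hm
    unfold Mq
    rw [if_neg (not_le.2 hm)]
    congr 3
    ring
  have eB : ∀ m : ℂ, 1 ≤ ‖m‖ → Mq M MI MO p0 p1 p2 q0 q1 q2 m =
      MS MO ((-1 + 1 * ‖m‖ ^ 2) / rF q0 q1 q2 m) m / (M : ℂ) := by
    intro m hm
    rcases hm.lt_or_eq with h | h
    · exact eB' m h
    · rw [eA m h.ge, ← h]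
      have e1 : (1 + (-1) * (1:ℝ) ^ 2) / rF p0 p1 p2 m = 0 := by norm_num
      have e2 : (-1 + 1 * (1:ℝ) ^ 2) / rF q0 q1 q2 m = 0 := by norm_num
      rw [e1, e2, MS_zero MI, MS_zero MO, hz]
  have hle : ∀ m : ℂ, ‖m‖ ≤ R → ‖Mq M MI MO p0 p1 p2 q0 q1 q2 m‖ ≤ max C D := by
    intro m hm
    rcases le_or_gt ‖m‖ 1 with h | h
    · rw [eA m h]
      exact (hC1 m h).trans (le_max_left _ _)
    · rw [eB m h.le]
      exact (hD1 m ⟨h.le, hm.trans (le_max_left _ _)⟩).trans (le_max_right _ _)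
  have h00 : 0 ≤ max C D := le_max_of_le_left hC0
  have kA : ∀ m m' : ℂ, ‖m‖ ≤ 1 → ‖m'‖ ≤ 1 →
      ‖Mq M MI MO p0 p1 p2 q0 q1 q2 m - Mq M MI MO p0 p1 p2 q0 q1 q2 m'‖ ≤
        max C D * ‖m - m'‖ := by
    intro m m' h h'
    rw [eA m h, eA m' h']
    exact (hC2 m h m' h').trans (mul_le_mul_of_nonneg_right (le_max_left _ _) (norm_nonneg _))
  have kB : ∀ m m' : ℂ, 1 ≤ ‖m‖ → 1 ≤ ‖m'‖ → ‖m‖ ≤ max R 1 → ‖m'‖ ≤ max R 1 →
      ‖Mq M MI MO p0 p1 p2 q0 q1 q2 m - Mq M MI MO p0 p1 p2 q0 q1 q2 m'‖ ≤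
        max C D * ‖m - m'‖ := by
    intro m m' h h' k k'
    rw [eB m h, eB m' h']
    exact (hD2 m ⟨h, k⟩ m' ⟨h', k'⟩).trans
      (mul_le_mul_of_nonneg_right (le_max_right _ _) (norm_nonneg _))
  have kC : ∀ m m' : ℂ, ‖m‖ ≤ 1 → 1 ≤ ‖m'‖ → ‖m'‖ ≤ max R 1 →
      ‖Mq M MI MO p0 p1 p2 q0 q1 q2 m - Mq M MI MO p0 p1 p2 q0 q1 q2 m'‖ ≤
        max C D * ‖m - m'‖ := by
    intro m m' h h' k'
    obtain ⟨p, hp1, he⟩ := exists_cross h h'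
    have h1 := kA m p h hp1.le
    have h2 := kB p m' hp1.ge h' (hp1.le.trans (le_max_right _ _)) k'
    have e : Mq M MI MO p0 p1 p2 q0 q1 q2 m - Mq M MI MO p0 p1 p2 q0 q1 q2 m' =
      (Mq M MI MO p0 p1 p2 q0 q1 q2 m - Mq M MI MO p0 p1 p2 q0 q1 q2 p) +
      (Mq M MI MO p0 p1 p2 q0 q1 q2 p - Mq M MI MO p0 p1 p2 q0 q1 q2 m') := by ring
    rw [e, ← he, mul_add]
    exact (norm_add_le _ _).trans (add_le_add h1 h2)
  refine ⟨max C D, h00, hle, fun m m' hm hm' => ?_⟩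
  rcases le_or_gt ‖m‖ 1 with h | h <;> rcases le_or_gt ‖m'‖ 1 with h' | h'
  · exact kA m m' h h'
  · exact kC m m' h h'.le (hm'.trans (le_max_left _ _))
  · rw [norm_sub_rev, norm_sub_rev m]
    exact kC m' m h' h.le (hm.trans (le_max_left _ _))
  · exact kB m m' h.le h'.le (hm.trans (le_max_left _ _)) (hm'.trans (le_max_left _ _))

end glob

end Pool.Agent.Helper20.CK

end

section

namespace Pool.Agent.Helper39.Area
end Pool.Agent.Helper39.Area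
namespace Pool.Agent.Helper52.EK
end Pool.Agent.Helper52.EK
namespace Pool.Agent.Helper69.CK
end Pool.Agent.Helper69.CK
namespace Pool.Agent.Helper84.CK
end Pool.Agent.Helper84.CK
namespace Pool.Agent.Helper71.CK
end Pool.Agent.Helper71.CK
namespace Pool.Agent.Helper84.CB
end Pool.Agent.Helper84.CB
namespace Pool.Agent.Helper69.EK3
end Pool.Agent.Helper69.EK3
namespace Pool.Agent.Helper20.CK
end Pool.Agent.Helper20.CK
namespace Pool.Agent.Helper2.EK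
end Pool.Agent.Helper2.EK

set_option autoImplicit false

open Complex MeasureTheory Metric Set

open scoped Real ComplexConjugate

namespace Pool.Agent.Helper65.CK

open Pool.Agent.Helper39.Area Pool.Agent.Helper52.EK

open Pool.Agent.Helper69.CK Pool.Agent.Helper84.CK Pool.Agent.Helper71.CK

open Pool.Agent.Helper84.CB (RegQ CenQP Q_lowQ bq CenE line_hd q_hd cenQP_Xf)

open Pool.Agent.Helper69.EK3 (NiceH RectH pt_mem_RectH)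

open Pool.Agent.Helper20.CK (Zeq Mq_lip)

open Pool.Agent.Helper2.EK (c1_sub)

/-- the centre terms against a cut-off, from an inequality on the region `RegQ` -/
theorem cenW_q {Kl : (ℂ → ℂ) → ℝ → ℝ} {Q : ℂ → ℂ → ℂ → ℝ} {Wc : ℂ → ℂ → ℝ}
    (hQ : ∀ X q b : ℂ, RegQ X q b → 0 ≤ Q X q b)
    (hQL : LocallyLipschitz fun p : ℂ × ℂ × ℂ => Q p.1 p.2.1 p.2.2)
    (cW : Continuous fun p : ℂ × ℂ => Wc p.1 p.2)
    (cK : ∀ (X : ℂ → ℂ) (x₁ x₂ : ℝ), NiceH X x₁ x₂ → ContinuousOn (Kl X) (Icc x₁ x₂))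
    (hd : ∀ (X : ℂ → ℂ) (x₁ x₂ : ℝ), NiceX X x₁ x₂ → ∀ ξ ∈ Icc x₁ x₂,
      HasDerivAt (fun t : ℝ => Wc (X (pt t (π / 2))) (deriv X (pt t (π / 2)) / X (pt t (π / 2))))
        (-(Kl X ξ + Kl (Pool.Agent.Helper69.EK3.mir X) ξ) - Q (X (pt ξ (π / 2)))
          (deriv X (pt ξ (π / 2)) / X (pt ξ (π / 2)))
          (bq (X (pt ξ (π / 2))) (deriv X (pt ξ (π / 2))) (deriv (deriv X) (pt ξ (π / 2))))) ξ) :
    ∃ C' : ℝ, ∀ (x₁ x₂ V : ℝ) (χ χ₁ : ℝ → ℝ) (X : ℂ → ℂ),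
      Cut1 x₁ x₂ V χ χ₁ → x₁ ≤ x₂ → 0 ≤ V → NiceX X x₁ x₂ → CenQP X x₁ x₂ →
      ∫ ξ in x₁..x₂, χ ξ * (Kl X ξ + Kl (Pool.Agent.Helper69.EK3.mir X) ξ) ≤
        C' * (1 + V * (x₂ - x₁)) := by
  obtain ⟨M, hM, hlow⟩ := Q_lowQ hQ hQL
  obtain ⟨B, hB⟩ := (isCompact_closedBall (0 : ℂ × ℂ) 18).bddAbove_image cW.abs.continuousOn
  have hB' : ∀ Z ∈ closedBall (0 : ℂ × ℂ) 18, |Wc Z.1 Z.2| ≤ B :=
    fun Z hZ => hB (mem_image_of_mem _ hZ)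
  have hB0 : 0 ≤ B := (abs_nonneg _).trans (hB' 0 (by simp))
  refine ⟨M * 8 + B, fun x₁ x₂ V χ χ₁ X hc hx hV hX hP => ?_⟩
  obtain ⟨ρ, cρ, hρ, hI, hR⟩ := hP
  have hXh := Pool.Agent.Helper69.EK3.NiceX.half hX
  obtain ⟨e, he⟩ : ∃ e : ℝ → ℝ, e = fun ξ => Kl X ξ + Kl (Pool.Agent.Helper69.EK3.mir X) ξ :=
    ⟨_, rfl⟩
  have ce : ContinuousOn e (Icc x₁ x₂) := by
    rw [he]
    exact (cK X x₁ x₂ hXh).add (cK _ x₁ x₂ (Pool.Agent.Helper69.EK3.NiceX.mir hX))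
  obtain ⟨x, hxd⟩ : ∃ x : ℝ → ℂ, x = fun ξ => X (pt ξ (π / 2)) := ⟨_, rfl⟩
  obtain ⟨y, hyd⟩ : ∃ y : ℝ → ℂ, y = fun ξ => deriv X (pt ξ (π / 2)) := ⟨_, rfl⟩
  obtain ⟨z, hzd⟩ : ∃ z : ℝ → ℂ, z = fun ξ => deriv (deriv X) (pt ξ (π / 2)) := ⟨_, rfl⟩
  have cx : ContinuousOn x (Icc x₁ x₂) := by
    rw [hxd]; exact Pool.Agent.Helper69.EK3.contC hXh.an.continuousOn
  have cy : ContinuousOn y (Icc x₁ x₂) := by
    rw [hyd]; exact Pool.Agent.Helper69.EK3.contC hXh.an.deriv.continuousOn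
  have cz : ContinuousOn z (Icc x₁ x₂) := by
    rw [hzd]; exact Pool.Agent.Helper69.EK3.contC hXh.an.deriv.deriv.continuousOn
  have hne : ∀ ξ ∈ Icc x₁ x₂, x ξ ≠ 0 := fun ξ hξ => by
    rw [hxd]; exact hXh.ne _ (Pool.Agent.Helper69.EK3.cent_mem hξ)
  obtain ⟨q, hqd⟩ : ∃ q : ℝ → ℝ, q = fun ξ => Q (x ξ) (y ξ / x ξ) (bq (x ξ) (y ξ) (z ξ)) :=
    ⟨_, rfl⟩
  obtain ⟨w, hwd⟩ : ∃ w : ℝ → ℝ, w = fun ξ => Wc (x ξ) (y ξ / x ξ) := ⟨_, rfl⟩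
  have cyx : ContinuousOn (fun ξ => y ξ / x ξ) (Icc x₁ x₂) := cy.div cx hne
  have cq : ContinuousOn q (Icc x₁ x₂) := by
    rw [hqd]
    have cb : ContinuousOn (fun ξ => bq (x ξ) (y ξ) (z ξ)) (Icc x₁ x₂) := by
      unfold bq
      exact ((((continuousOn_const.sub (cx.pow 2)).add (continuousOn_const.mul
        (cz.div cx hne))).sub (continuousOn_const.mul (cyx.pow 2))).div_const _)
    exact hQL.continuous.comp_continuousOn (cx.prodMk (cyx.prodMk cb))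
  have cw : ContinuousOn w (Icc x₁ x₂) := by
    rw [hwd]
    exact cW.comp_continuousOn (cx.prodMk cyx)
  have hd' : ∀ ξ ∈ Icc x₁ x₂, HasDerivAt w (- e ξ - q ξ) ξ := by
    intro ξ hξ
    rw [hwd, hqd, hxd, hyd, hzd, he]
    exact hd X x₁ x₂ hX ξ hξ
  have cχ := hc.c0
  have cχ1 := hc.c1
  have i1 : IntervalIntegrable (fun ξ => χ ξ * e ξ) volume x₁ x₂ :=
    (cχ.mul ce).intervalIntegrable_of_Icc hx
  have i2 : IntervalIntegrable (fun ξ => χ ξ * q ξ) volume x₁ x₂ :=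
    (cχ.mul cq).intervalIntegrable_of_Icc hx
  have i3 : IntervalIntegrable (fun ξ => χ₁ ξ * w ξ) volume x₁ x₂ :=
    (cχ1.mul cw).intervalIntegrable_of_Icc hx
  have hF : ∫ ξ in x₁..x₂, (χ₁ ξ * w ξ + χ ξ * (- e ξ - q ξ)) = 0 := by
    have hi : IntervalIntegrable (fun ξ => χ₁ ξ * w ξ + χ ξ * (- e ξ - q ξ)) volume x₁ x₂ :=
      ((cχ1.mul cw).add (cχ.mul (ce.neg.sub cq))).intervalIntegrable_of_Icc hx
    have h0 := intervalIntegral.integral_eq_sub_of_hasDerivAt (f := fun ξ => χ ξ * w ξ)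
      (f' := fun ξ => χ₁ ξ * w ξ + χ ξ * (- e ξ - q ξ)) (fun ξ hξ => by
        rw [uIcc_of_le hx] at hξ
        exact (hc.d ξ hξ).mul (hd' ξ hξ)) hi
    rw [h0]
    simp [hc.e1, hc.e2]
  have e1 : ∫ ξ in x₁..x₂, (χ₁ ξ * w ξ + χ ξ * (- e ξ - q ξ)) =
      (∫ ξ in x₁..x₂, χ₁ ξ * w ξ) - (∫ ξ in x₁..x₂, χ ξ * e ξ) -
        ∫ ξ in x₁..x₂, χ ξ * q ξ := by
    rw [← intervalIntegral.integral_sub i3 i1, ← intervalIntegral.integral_sub (i3.sub i1) i2]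
    refine intervalIntegral.integral_congr fun ξ _ => ?_
    ring
  rw [e1] at hF
  have b1 : -(M * 8) ≤ ∫ ξ in x₁..x₂, χ ξ * q ξ := by
    have h1 : ∫ ξ in x₁..x₂, -(M * (1 - ρ ξ)) ≤ ∫ ξ in x₁..x₂, χ ξ * q ξ := by
      refine intervalIntegral.integral_mono_on hx
        ((continuous_const.mul (continuous_const.sub cρ)).neg.intervalIntegrable _ _) i2
        fun ξ hξ => ?_
      have h2 := hR ξ hξ
      have h3 := hlow _ _ _ (ρ ξ) (hρ ξ).1 (hρ ξ).2 h2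
      have h4 : -(M * (1 - ρ ξ)) ≤ q ξ := by
        rw [hqd, hxd, hyd, hzd]
        exact h3
      have h5 := hc.b01 ξ hξ
      have h6 : 0 ≤ M * (1 - ρ ξ) := mul_nonneg hM (by linarith only [(hρ ξ).2])
      (clear * - h4 h5 h6; nlinarith only [h4, h5, h6])
    rw [intervalIntegral.integral_neg, intervalIntegral.integral_const_mul] at h1
    have := mul_le_mul_of_nonneg_left hI hM
    (clear * - h1 this; linarith)
  have b2 : ∫ ξ in x₁..x₂, χ₁ ξ * w ξ ≤ B * (V * (x₂ - x₁)) := by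
    have h1 : ∫ ξ in x₁..x₂, χ₁ ξ * w ξ ≤ ∫ _ in x₁..x₂, B * V := by
      refine intervalIntegral.integral_mono_on hx i3 (by simp) fun ξ hξ => ?_
      have h2 : |w ξ| ≤ B := by
        rw [hwd]
        refine hB' (x ξ, y ξ / x ξ) ?_
        have hr := hR ξ hξ
        obtain ⟨r1, r2⟩ := hρ ξ
        have hρ0 : 0 < ρ ξ := by linarith only [r1]
        have hρn : ‖(ρ ξ : ℂ)‖ = ρ ξ := by rw [norm_real, Real.norm_of_nonneg hρ0.le]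
        have x1 := hr.le
        have q1 := hr.q_le
        rw [norm_mul, hρn] at x1 q1
        rw [mem_closedBall_zero_iff, Prod.norm_def, hxd, hyd]
        refine max_le ?_ ?_
        · simp only
          (clear * - r1 x1; nlinarith only [r1, x1])
        · simp only
          nlinarith only [r1, q1]
      calc χ₁ ξ * w ξ ≤ |χ₁ ξ * w ξ| := le_abs_self _
        _ = |w ξ| * |χ₁ ξ| := by rw [abs_mul, mul_comm]
        _ ≤ B * V := mul_le_mul h2 (hc.k1 ξ hξ) (abs_nonneg _) hB0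
    rw [intervalIntegral.integral_const, smul_eq_mul] at h1
    linarith only [h1]
  have h9 : ∫ ξ in x₁..x₂, χ ξ * (Kl X ξ + Kl (Pool.Agent.Helper69.EK3.mir X) ξ) =
      ∫ ξ in x₁..x₂, χ ξ * e ξ := by rw [he]
  rw [h9]
  have hVd : 0 ≤ V * (x₂ - x₁) := mul_nonneg hV (by (clear * - hx; linarith))
  have h10 : 0 ≤ M * 8 * (V * (x₂ - x₁)) := by (clear * - hM hV hx; positivity)
  linarith only [hB0, hF, b1, b2, h10]

/-- the centre terms which depend on `X` only -/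
theorem cenW_E {E : ℂ → ℝ} (hE : CenE E) {Kl : (ℂ → ℂ) → ℝ → ℝ}
    (cK : ∀ (X : ℂ → ℂ) (x₁ x₂ : ℝ), NiceH X x₁ x₂ → ContinuousOn (Kl X) (Icc x₁ x₂))
    (hK : ∀ (X : ℂ → ℂ) (x₁ x₂ : ℝ), NiceX X x₁ x₂ → ∀ ξ ∈ Icc x₁ x₂,
      Kl X ξ + Kl (Pool.Agent.Helper69.EK3.mir X) ξ = - E (X (pt ξ (π / 2)))) :
    ∃ C' : ℝ, ∀ (x₁ x₂ V : ℝ) (χ χ₁ : ℝ → ℝ) (X : ℂ → ℂ),
      Cut1 x₁ x₂ V χ χ₁ → x₁ ≤ x₂ → 0 ≤ V → NiceX X x₁ x₂ → CenQP X x₁ x₂ →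
      ∫ ξ in x₁..x₂, χ ξ * (Kl X ξ + Kl (Pool.Agent.Helper69.EK3.mir X) ξ) ≤
        C' * (1 + V * (x₂ - x₁)) := by
  obtain ⟨Q, Wc, h1, h2, h3, h4⟩ := hE
  refine cenW_q h1 h2 h3 cK fun X x₁ x₂ hX ξ hξ => ?_
  have hXh := Pool.Agent.Helper69.EK3.NiceX.half hX
  have hm := Pool.Agent.Helper69.EK3.cent_mem hξ
  have n0 := hXh.ne _ hm
  have d1 := line_hd (hXh.an _ hm)
  have d2 := line_hd (hXh.an _ hm).deriv
  have e : X (pt ξ (π / 2)) * (deriv X (pt ξ (π / 2)) / X (pt ξ (π / 2))) =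
      deriv X (pt ξ (π / 2)) := by
    field_simp
  rw [hK X x₁ x₂ hX ξ hξ, neg_neg]
  exact h4 (fun t => X (pt t (π / 2)))
    (fun t => deriv X (pt t (π / 2)) / X (pt t (π / 2)))
    (bq (X (pt ξ (π / 2))) (deriv X (pt ξ (π / 2))) (deriv (deriv X) (pt ξ (π / 2)))) ξ
    (by
      rw [e]
      exact d1) (q_hd d1 d2 n0)

theorem Zeq_scl {td : ℤ} {MI MO : List (ℕ × ℕ × ℤ)} (h : Zeq MI MO) :
    Zeq (scl td MI) (scl td MO) := by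
  have e : ∀ L : List (ℕ × ℕ × ℤ), (scl td L).filter (fun t => t.1 == 0) =
      scl td (L.filter fun t => t.1 == 0) := by
    intro L
    unfold scl
    rw [List.filter_map]
    rfl
  unfold Zeq at h ⊢
  rw [e, e, h]

theorem Mq_cont {a p0 p1 p2 q0 q1 q2 : ℝ} {MI MO : List (ℕ × ℕ × ℤ)}
    (hp : Pool.Agent.Helper20.EK7.InL p0 p1 p2) (hq : Pool.Agent.Helper20.EK7.OutL a q0 q1 q2)
    (hz : Zeq MI MO) (M : ℤ) : Continuous (Mq M MI MO p0 p1 p2 q0 q1 q2) := by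
  rw [continuous_iff_continuousAt]
  intro m
  obtain ⟨C, h0, -, h2⟩ := Mq_lip hp hq hz M (‖m‖ + 1)
  have h3 : ContinuousOn (Mq M MI MO p0 p1 p2 q0 q1 q2) (ball m 1) := by
    refine (LipschitzOnWith.of_dist_le_mul (K := ⟨C, h0⟩) fun u hu v hv => ?_).continuousOn
    rw [dist_eq_norm, dist_eq_norm]
    have g : ∀ u ∈ ball m 1, ‖u‖ ≤ ‖m‖ + 1 := by
      intro u hu
      rw [mem_ball, dist_eq_norm] at hu
      have e : u = m + (u - m) := by ring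
      rw [e]
      exact (norm_add_le _ _).trans (by (clear * - hu; linarith only [hu]))
    exact h2 u v (g u hu) (g v hv)
  exact h3.continuousAt (ball_mem_nhds m one_pos)

variable {g : DatG}

/-- the centre condition from a nonnegative polynomial on the unit disc -/
theorem cenE_pos (w : g.Wf)
    (hCen : ∀ x : Pool.Sos71.Pnt, 0 ≤ -2 * x.f - x.f ^ 2 - x.g ^ 2 →
      0 ≤ (Pool.Sos71.Ex.bp g.cen).re x) : CenE (g.Ecp g.s.d.c.c1 (355 / 113)) := by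
  obtain ⟨Ex, Ey, hE⟩ := DatG.Ecp_c1 (g := g) g.s.d.c.c1 (355 / 113)
  refine CenE.of_pos hE fun X hX => ?_
  have h1 : 0 ≤ (Pool.Sos71.Ex.bp g.cen).re ⟨0, 0, 0, 0, 0, X.re - 1, X.im⟩ := by
    apply hCen
    show 0 ≤ -2 * (X.re - 1) - (X.re - 1) ^ 2 - X.im ^ 2
    have h1 : X.re ^ 2 + X.im ^ 2 ≤ 1 := by
      rw [← Pool.Agent.Helper69.EK3.nq_sq]
      nlinarith only [norm_nonneg X, hX]
    (clear * - h1; linarith)
  have h2 : (Pool.Sos71.Ex.bp g.cen).re ⟨0, 0, 0, 0, 0, X.re - 1, X.im⟩ =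
    Pool.EK71.ev2 (X.re - 1) X.im g.cen := rfl
  rw [h2, DatG.cen_ev w] at h1
  refine nonneg_of_mul_nonneg_right h1 ?_
  have := pow_pos (Pool.Agent.Helper69.EK5.Dd_pos g.s.d.c.a X.re X.im) g.s.d.c.K
  (clear * - this; positivity)

end Pool.Agent.Helper65.CK

end

section

namespace Pool.Agent.Helper39.Area
end Pool.Agent.Helper39.Area
namespace Pool.Agent.Helper52.EK
end Pool.Agent.Helper52.EK
namespace Pool.Agent.Helper69.EK3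
end Pool.Agent.Helper69.EK3
namespace Pool.Agent.Helper69.EK7
end Pool.Agent.Helper69.EK7
namespace Pool.Agent.Helper69.CK
end Pool.Agent.Helper69.CK

set_option autoImplicit false

open Complex MeasureTheory Metric Set

open scoped Real ComplexConjugate

namespace Pool.Agent.Helper84.CK

open Pool.Agent.Helper39.Area Pool.Agent.Helper52.EK Pool.Agent.Helper69.EK3

open Pool.Agent.Helper69.EK7 Pool.Agent.Helper69.CK

/-- the energy around `1` -/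
theorem energy_one (X : ℂ) : ‖X - 1‖ ^ 2 = (1 - X.re) + (‖X‖ ^ 2 - X.re) := by
  rw [← Complex.normSq_eq_norm_sq, ← Complex.normSq_eq_norm_sq, Complex.normSq_apply,
    Complex.normSq_apply]
  simp only [Complex.sub_re, Complex.one_re, Complex.sub_im, Complex.one_im]
  ring

/-- the class of `DiscG`, with the bound of Kraus -/
def DiscGK (X : ℂ → ℂ) (x₁ x₂ : ℝ) : Prop :=
  DiscG (π / 2) X x₁ x₂ ∧ ∀ ξ ∈ Icc x₁ x₂, ∀ η ∈ Icc (0:ℝ) (π / 2),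
    ‖tX (X (pt ξ η)) (deriv X (pt ξ η)) (deriv (deriv X) (pt ξ η)) (Real.sin η)
      (Real.cos η)‖ ≤ 6

theorem DiscGK.toK {X : ℂ → ℂ} {x₁ x₂ : ℝ} (h : DiscGK X x₁ x₂) : DiscK X x₁ x₂ :=
  ⟨h.1.toP, h.2⟩

theorem discGK_Xf (β : ℂ → ℂ) (R a : ℝ) (h : ExtR β R) (ha : 0 < a) (ha1 : a < 1)
    (hx : Real.log (tau a) + 1 ≤ -1) : DiscGK (Xf β a) (Real.log (tau a) + 1) (-1) ∧
      DiscGK (mir (Xf β a)) (Real.log (tau a) + 1) (-1) := by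
  obtain ⟨h1, h2⟩ := discG_Xf_half β R a h ha ha1 hx
  obtain ⟨h3, h4⟩ := discK_Xf β R a h ha ha1 hx
  exact ⟨⟨h1, h3.2⟩, ⟨h2, h4.2⟩⟩

/-- **the bound for one target from a certificate with the critical multiplier**, fields built
from 2-jets, multipliers of the discs with quadratic growth -/
theorem K_oneW_gd {k₂ lam dc κ L B q : ℝ} (hB : 0 ≤ B) (hlam : 0 ≤ lam) (hk₂ : lam ≤ k₂)
    (hdc : 0 ≤ dc) (hκ : k₂ < 2 * κ) {G : ℂ → ℂ → ℂ} (hG : GLip2 G L)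
    (hGc : ∀ m t, G (conj m) (conj t) = conj (G m t))
    {M : ℂ → ℂ} (hM : Continuous M) (hMc : ∀ m, M (conj m) = conj (M m))
    {Nl : (ℂ → ℂ) → ℝ → ℝ → ℝ} {Kl : (ℂ → ℂ) → ℝ → ℝ} (hN : IsNullW DiscK Nl Kl)
    (hp : ∀ (X : ℂ → ℂ) (x₁ x₂ : ℝ), NiceH X x₁ x₂ → ∀ ξ ∈ Icc x₁ x₂,
      ∀ η ∈ Icc (0:ℝ) (π / 2), ‖tX (X (pt ξ η)) (deriv X (pt ξ η)) (deriv (deriv X) (pt ξ η))
        (Real.sin η) (Real.cos η)‖ ≤ 6 → Real.sin η * ‖X (pt ξ η)‖ ≤ 9 →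
      Real.sin η * ‖deriv X (pt ξ η) / X (pt ξ η)‖ ≤ 38 → ∃ l₀ l₁ l₂ : ℝ,
      0 ≤ l₀ ∧ l₀ ≤ B * (1 + ‖X (pt ξ η) - 1‖ ^ 2) ∧
      0 ≤ l₁ ∧ l₁ ≤ B * (1 + ‖X (pt ξ η) - 1‖ ^ 2) ∧
      0 ≤ l₂ ∧ l₂ ≤ B * (1 + ‖X (pt ξ η) - 1‖ ^ 2) ∧
      T2 G X ξ η + l₀ * (1 - (Real.sin η * ‖X (pt ξ η)‖) ^ 2) +
        l₁ * (16 - ‖dA 1 (X (pt ξ η)) (deriv X (pt ξ η)) (Real.sin η) (Real.cos η)‖ ^ 2) +
        l₂ * (16 - ‖dA (-1) (X (pt ξ η)) (deriv X (pt ξ η)) (Real.sin η) (Real.cos η)‖ ^ 2) ≤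
      k₂ * (1 - (X (pt ξ η)).re) + lam * (‖X (pt ξ η)‖ ^ 2 - (X (pt ξ η)).re) + dc +
        Nl X ξ η + Mt M q X ξ η)
    {Q : (ℂ → ℂ) → ℝ → ℝ → Prop}
    (hQf : ∀ (β : ℂ → ℂ) (R a : ℝ), ExtR β R → 0 < a → a < 1 → Real.log (tau a) + 1 ≤ -1 →
      Q (Xf β a) (Real.log (tau a) + 1) (-1))
    (hCen : ∃ C' : ℝ, ∀ (x₁ x₂ V : ℝ) (χ χ₁ : ℝ → ℝ) (X : ℂ → ℂ),
      Cut1 x₁ x₂ V χ χ₁ → x₁ ≤ x₂ → 0 ≤ V → NiceX X x₁ x₂ → Q X x₁ x₂ →
      ∫ ξ in x₁..x₂, χ ξ * (Kl X ξ + Kl (mir X) ξ) ≤ C' * (1 + V * (x₂ - x₁)))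
    {D' : ℝ} (hQ : ∀ (X : ℂ → ℂ) (x₁ x₂ : ℝ), Q X x₁ x₂ → ∃ δ : ℝ → ℝ, Continuous δ ∧
      (∀ ξ ∈ Icc x₁ x₂, 0 ≤ δ ξ) ∧ (∀ ξ ∈ Icc x₁ x₂, (X (pt ξ (π / 2))).re ≤ 1 + δ ξ) ∧
      ∫ ξ in x₁..x₂, δ ξ ≤ D') :
    ∃ e C V₀ a₀ : ℝ, 0 < e ∧ 0 ≤ C ∧ 0 < V₀ ∧ a₀ < 1 ∧
      ∀ (β : ℂ → ℂ) (R a V : ℝ) (Ω Ω₁ Ω₂ : ℝ → ℝ → ℝ), ExtR β R → a₀ < a → a < 1 →
      0 ≤ V → V ≤ V₀ → WtF (Real.log (tau a) + 1) (-1) V Ω Ω₁ Ω₂ →
      Kf (wf2 G β) 1 (-1) (Real.log a) +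
          e * II (Real.log (tau a) + 1) (-1) (fun ξ η => ‖Xf β a (pt ξ η) - 1‖ ^ 2) ≤
        κ * Real.log (‖N β a‖ / (1 - a ^ 2)) +
          π⁻¹ * II (Real.log (tau a) + 1) (-1) (fun ξ η => Ω ξ η * Mt M q (Xf β a) ξ η) +
          4 * π⁻¹ * II (Real.log (tau a) + 1) (-1) (fun ξ η => 1 - Ω ξ η) +
          dc * (-1 - (Real.log (tau a) + 1)) +
          C * (1 + V * (-1 - (Real.log (tau a) + 1))) := by
  have hpi := Real.pi_pos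
  obtain ⟨ε, hε⟩ : ∃ ε, ε = (2 * κ - k₂) / 2 := ⟨_, rfl⟩
  have hε0 : 0 < ε := by rw [hε]; linarith only [hκ]
  obtain ⟨Kg, hKg0, hKg⟩ := grow_err hB hε0
  have hS := stripW_b (P := DiscGK) (T := T2 G) (Mt := Mt M q) (D := Kg * 8) (dc := dc)
    (lam := lam + ε) (k₂ := k₂ + ε)
    (by (clear * - hlam hε0; linarith)) (by (clear * - hk₂; linarith)) hdc (fun X x₁ x₂ hX => F3_contOn hG hX) (T2_cont_H hG)
    (T2_mirror hGc)
    (Mt_cont_X hM q) (Mt_cont_H hM q) (Mt_mirror hMc q)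
    (hN.mono fun _ _ _ h => DiscGK.toK h) ?_ hCen hQ
  · exact K_oneW (w := wf2 G) (E3F hG 1 le_rfl) (T2_le4 hG)
      (fun X x₁ x₂ hX => F3_contOn hG hX)
      (fun β R a h ha ha1 hx => ⟨(discGK_Xf β R a h ha ha1 hx).1,
      (discGK_Xf β R a h ha ha1 hx).2, hQf β R a h ha ha1 hx⟩)
      (fun δ hδ => Pool.Agent.Helper79.EK3.centre_line hδ) hS (by linarith) (by linarith)
      (by rw [hε]; (clear * - hε hε0; linarith only [hε, hε0]))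
  intro X x₁ x₂ hx hX hP
  have q9 := DiscG.X_le (by linarith) hP.1
  have q38 := DiscG.q_le (by (clear * - hpi; linarith)) hP.1
  obtain ⟨⟨δ, h1, h2, h3, h4, h5⟩, h6⟩ := hP
  refine ⟨fun ξ => Kg * δ ξ, by fun_prop, fun ξ => mul_nonneg hKg0 (h2 ξ), ?_, ?_⟩
  · rw [intervalIntegral.integral_const_mul]
    exact mul_le_mul_of_nonneg_left h4 hKg0
  · intro ξ hξ η hη
    have hs : 0 ≤ Real.sin η := Real.sin_nonneg_of_nonneg_of_le_pi hη.1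
      (hη.2.trans (by (clear * - hpi; linarith)))
    obtain ⟨l₀, l₁, l₂, a1, a2, b1, b2, c1, c2, hl⟩ := hp X x₁ x₂ hX ξ hξ η hη (h6 ξ hξ η hη)
      (q9 ξ hξ η hη) (q38 ξ hξ η hη)
    obtain ⟨k1, k2, k3⟩ := h5 ξ hξ η hη
    have hg := hKg (X (pt ξ η)) (Real.sin η) (δ ξ) _ _ l₀ l₁ l₂ hs (Real.sin_le_one η) (h2 ξ)
      (h3 ξ hξ) k1 (norm_nonneg _) k2 (norm_nonneg _) k3 a1 a2 b1 b2 c1 c2
    rw [energy_one] at hg
    show T2 G X ξ η ≤ (k₂ + ε) * (1 - (X (pt ξ η)).re) +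
      (lam + ε) * (‖X (pt ξ η)‖ ^ 2 - (X (pt ξ η)).re) + dc + Nl X ξ η + Mt M q X ξ η +
      Kg * δ ξ
    linarith only [hl, hg]

/-- **the same for fields built from the gradient** -/
theorem K_oneW_g {k₂ lam dc κ L B q : ℝ} (hB : 0 ≤ B) (hlam : 0 ≤ lam) (hk₂ : lam ≤ k₂)
    (hdc : 0 ≤ dc) (hκ : k₂ < 2 * κ) {G : ℂ → ℂ} (hG : GLip G L)
    (hGc : ∀ m, G (conj m) = conj (G m))
    {M : ℂ → ℂ} (hM : Continuous M) (hMc : ∀ m, M (conj m) = conj (M m))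
    {Nl : (ℂ → ℂ) → ℝ → ℝ → ℝ} {Kl : (ℂ → ℂ) → ℝ → ℝ} (hN : IsNullW DiscP Nl Kl)
    (hp : ∀ (X : ℂ → ℂ) (x₁ x₂ : ℝ), NiceH X x₁ x₂ → ∀ ξ ∈ Icc x₁ x₂,
      ∀ η ∈ Icc (0:ℝ) (π / 2), Real.sin η * ‖X (pt ξ η)‖ ≤ 9 →
      Real.sin η * ‖deriv X (pt ξ η) / X (pt ξ η)‖ ≤ 38 → ∃ l₀ l₁ l₂ : ℝ,
      0 ≤ l₀ ∧ l₀ ≤ B * (1 + ‖X (pt ξ η) - 1‖ ^ 2) ∧
      0 ≤ l₁ ∧ l₁ ≤ B * (1 + ‖X (pt ξ η) - 1‖ ^ 2) ∧
      0 ≤ l₂ ∧ l₂ ≤ B * (1 + ‖X (pt ξ η) - 1‖ ^ 2) ∧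
      TG G (X (pt ξ η)) (deriv X (pt ξ η)) (Real.sin η) (Real.cos η) +
        l₀ * (1 - (Real.sin η * ‖X (pt ξ η)‖) ^ 2) +
        l₁ * (16 - ‖dA 1 (X (pt ξ η)) (deriv X (pt ξ η)) (Real.sin η) (Real.cos η)‖ ^ 2) +
        l₂ * (16 - ‖dA (-1) (X (pt ξ η)) (deriv X (pt ξ η)) (Real.sin η) (Real.cos η)‖ ^ 2) ≤
      k₂ * (1 - (X (pt ξ η)).re) + lam * (‖X (pt ξ η)‖ ^ 2 - (X (pt ξ η)).re) + dc +
        Nl X ξ η + Mt M q X ξ η)
    {Q : (ℂ → ℂ) → ℝ → ℝ → Prop}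
    (hQf : ∀ (β : ℂ → ℂ) (R a : ℝ), ExtR β R → 0 < a → a < 1 → Real.log (tau a) + 1 ≤ -1 →
      Q (Xf β a) (Real.log (tau a) + 1) (-1))
    (hCen : ∃ C' : ℝ, ∀ (x₁ x₂ V : ℝ) (χ χ₁ : ℝ → ℝ) (X : ℂ → ℂ),
      Cut1 x₁ x₂ V χ χ₁ → x₁ ≤ x₂ → 0 ≤ V → NiceX X x₁ x₂ → Q X x₁ x₂ →
      ∫ ξ in x₁..x₂, χ ξ * (Kl X ξ + Kl (mir X) ξ) ≤ C' * (1 + V * (x₂ - x₁)))
    {D' : ℝ} (hQ : ∀ (X : ℂ → ℂ) (x₁ x₂ : ℝ), Q X x₁ x₂ → ∃ δ : ℝ → ℝ, Continuous δ ∧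
      (∀ ξ ∈ Icc x₁ x₂, 0 ≤ δ ξ) ∧ (∀ ξ ∈ Icc x₁ x₂, (X (pt ξ (π / 2))).re ≤ 1 + δ ξ) ∧
      ∫ ξ in x₁..x₂, δ ξ ≤ D') :
    ∃ e C V₀ a₀ : ℝ, 0 < e ∧ 0 ≤ C ∧ 0 < V₀ ∧ a₀ < 1 ∧
      ∀ (β : ℂ → ℂ) (R a V : ℝ) (Ω Ω₁ Ω₂ : ℝ → ℝ → ℝ), ExtR β R → a₀ < a → a < 1 →
      0 ≤ V → V ≤ V₀ → WtF (Real.log (tau a) + 1) (-1) V Ω Ω₁ Ω₂ →
      Kf (wf G β) 1 (-1) (Real.log a) +
          e * II (Real.log (tau a) + 1) (-1) (fun ξ η => ‖Xf β a (pt ξ η) - 1‖ ^ 2) ≤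
        κ * Real.log (‖N β a‖ / (1 - a ^ 2)) +
          π⁻¹ * II (Real.log (tau a) + 1) (-1) (fun ξ η => Ω ξ η * Mt M q (Xf β a) ξ η) +
          4 * π⁻¹ * II (Real.log (tau a) + 1) (-1) (fun ξ η => 1 - Ω ξ η) +
          dc * (-1 - (Real.log (tau a) + 1)) +
          C * (1 + V * (-1 - (Real.log (tau a) + 1))) :=
  K_oneW_gd (G := fun m _ => G m) hB hlam hk₂ hdc hκ (GLip.two hG) (fun m _ => hGc m) hM hMc
    (hN.mono fun _ _ _ h => h.1) (fun X x₁ x₂ hX ξ hξ η hη _ => hp X x₁ x₂ hX ξ hξ η hη)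
    hQf hCen hQ

end Pool.Agent.Helper84.CK

end

section

namespace Pool.Sos71
end Pool.Sos71
namespace Pool.EK71
end Pool.EK71
namespace Pool.Agent.Helper52.EK
end Pool.Agent.Helper52.EK
namespace Pool.Agent.Helper2.EK
end Pool.Agent.Helper2.EK
namespace Pool.Agent.Helper69.EK3
end Pool.Agent.Helper69.EK3
namespace Pool.Agent.Helper69.EK5
end Pool.Agent.Helper69.EK5
namespace Pool.Agent.Helper69.EK6
end Pool.Agent.Helper69.EK6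
namespace Pool.Agent.Helper69.EK6.Dat
end Pool.Agent.Helper69.EK6.Dat
namespace Pool.Agent.Helper69.EK3.Dat
end Pool.Agent.Helper69.EK3.Dat
namespace Pool.Agent.Helper20.EK7
end Pool.Agent.Helper20.EK7

set_option autoImplicit false

open Complex MeasureTheory Metric Set

open scoped Real ComplexConjugate

namespace Pool.Agent.Helper71.CK

open Pool.Sos71

open Pool.EK71 Pool.Agent.Helper52.EK Pool.Agent.Helper2.EK

open Pool.Agent.Helper69.EK3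

open Pool.Agent.Helper69.EK5 (DQ Dd Dd_pos Dd_low DL e_D qX qY Rr c1_Rr Dn Dn_ev Rr_conj_even Rr_conj_odd Rs Dd_conj)

open Pool.Agent.Helper69.EK6 (px px_o csE_re eCon px_TT eDi px_Di)

open Pool.Agent.Helper69.EK6.Dat (SideOk_con)

open Pool.Agent.Helper69.EK3.Dat (SideOk disc_im half_bd)

open Pool.Agent.Helper20.EK7 (InL OutL)

variable {Ln Ld : ℤ}

/-- the domain of the growth condition -/
theorem domH_px {X Y : ℂ} {l η : ℝ} (hη : η ∈ Icc (0:ℝ) (π / 2))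
    (h9 : Real.sin η * ‖X‖ ≤ 9) (h38 : Real.sin η * ‖Y / X‖ ≤ 38) : DomH (px l η X Y) := by
  refine ⟨domW_px (Y := Y) (l := l) hη h9, ?_⟩
  obtain ⟨b1, b2⟩ := half_bd hη
  have hs : Real.sin η = 2 * Real.sin (η / 2) * Real.cos (η / 2) := by
    rw [← Real.sin_two_mul]
    congr 1
    ring
  have h1 := Real.sin_sq_add_cos_sq (η / 2)
  have hs' : Real.sin (η / 2) ^ 2 * 2 ≤ Real.sin η ^ 2 := by
    rw [hs]
    (clear * - b1 b2 h1; nlinarith only [mul_nonneg (sq_nonneg (Real.sin (η / 2))) (sub_nonneg.2 (pow_le_pow_left₀ b1 b2 2)), h1])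
  have hs0 : 0 ≤ Real.sin η := by
    rw [hs]
    exact mul_nonneg (by (clear * - b1; linarith)) (by linarith only [b1, b2])
  have h2 : (Real.sin η * ‖Y / X‖) ^ 2 ≤ 38 ^ 2 :=
    pow_le_pow_left₀ (mul_nonneg hs0 (norm_nonneg _)) h38 2
  have hq : ‖Y / X‖ ^ 2 = (Y / X).re ^ 2 + (Y / X).im ^ 2 := by
    rw [← Complex.normSq_eq_norm_sq, Complex.normSq_apply]
    ring
  show (Real.sin (η / 2) * (Y / X).re) ^ 2 + (Real.sin (η / 2) * (Y / X).im) ^ 2 ≤ 900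
  have h3 : (Real.sin (η / 2) * (Y / X).re) ^ 2 + (Real.sin (η / 2) * (Y / X).im) ^ 2 =
      Real.sin (η / 2) ^ 2 * ‖Y / X‖ ^ 2 := by
    rw [hq]
    ring
  rw [h3]
  have := mul_le_mul_of_nonneg_right hs' (sq_nonneg ‖Y / X‖)
  (clear * - h2 hs'; nlinarith only [hs', h2])

theorem SideH.apply {c : Pool.Agent.Helper69.EK6.Dat} {t : Ex} (h : SideH c.K Ln Ld t) :
    ∃ B : ℝ, 0 ≤ B ∧ ∀ (X Y : ℂ) (l η : ℝ), η ∈ Icc (0:ℝ) (π / 2) →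
      Real.sin η * ‖X‖ ≤ 9 → Real.sin η * ‖Y / X‖ ≤ 38 → 0 ≤ l → (Ld : ℝ) * l ≤ Ln →
      ∃ q1 q2 : ℝ, 0 ≤ q1 ∧ q1 ≤ B * (1 + ‖X - 1‖ ^ 2) ∧ 0 ≤ q2 ∧ q2 ≤ B * (1 + ‖X - 1‖ ^ 2) ∧
      Dd c.a X.re X.im ^ c.K * (q1 * (16 - ‖dA 1 X Y (Real.sin η) (Real.cos η)‖ ^ 2) +
        q2 * (16 - ‖dA (-1) X Y (Real.sin η) (Real.cos η)‖ ^ 2)) ≤ t.re (px l η X Y) := by
  obtain ⟨B, hB⟩ := h
  obtain ⟨k, hk, hl⟩ := Dd_low c.a
  refine ⟨|B| * k ^ c.K, by (clear * - hk; positivity), fun X Y l η hη h9 h38 l0 l1 => ?_⟩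
  obtain ⟨b1, b2⟩ := half_bd hη
  have hD := Dd_pos c.a X.re X.im
  have hDK : 0 < Dd c.a X.re X.im ^ c.K := pow_pos hD _
  obtain ⟨q1, q2, g1, g2, g3, g4, g5⟩ := hB (px l η X Y) b1 b2 (Real.sin_sq_add_cos_sq _) l0 l1
    (domH_px hη h9 h38)
  have hX1 : 1 + ‖X - 1‖ ^ 2 = 1 + (X.re - 1) ^ 2 + X.im ^ 2 := by
    rw [← Complex.normSq_eq_norm_sq, Complex.normSq_apply]
    simp only [sub_re, sub_im, one_re, one_im, sub_zero]
    ring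
  have hu : (1 + (X.re - 1) ^ 2 + X.im ^ 2) ^ c.K ≤ k ^ c.K * Dd c.a X.re X.im ^ c.K := by
    rw [← mul_pow]
    refine pow_le_pow_left₀ (by (clear * -; positivity)) ?_ _
    have := hl X.re X.im
    (clear * - this; linarith only [this])
  have hb : B * (1 + (X.re - 1) ^ 2 + X.im ^ 2) ^ (c.K + 1) ≤
      |B| * k ^ c.K * (1 + ‖X - 1‖ ^ 2) * Dd c.a X.re X.im ^ c.K := by
    have h0 : 0 ≤ (1 + (X.re - 1) ^ 2 + X.im ^ 2) ^ (c.K + 1) := by (clear * -; positivity)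
    have h1 : 0 ≤ |B| * (1 + (X.re - 1) ^ 2 + X.im ^ 2) := by (clear * -; positivity)
    calc B * (1 + (X.re - 1) ^ 2 + X.im ^ 2) ^ (c.K + 1) ≤
          |B| * (1 + (X.re - 1) ^ 2 + X.im ^ 2) ^ (c.K + 1) :=
          mul_le_mul_of_nonneg_right (le_abs_self B) h0
      _ = |B| * (1 + (X.re - 1) ^ 2 + X.im ^ 2) *
          (1 + (X.re - 1) ^ 2 + X.im ^ 2) ^ c.K := by rw [pow_succ]; ring
      _ ≤ |B| * (1 + (X.re - 1) ^ 2 + X.im ^ 2) * (k ^ c.K * Dd c.a X.re X.im ^ c.K) :=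
          mul_le_mul_of_nonneg_left hu h1
      _ = _ := by rw [hX1]; ring
  refine ⟨q1 / Dd c.a X.re X.im ^ c.K, q2 / Dd c.a X.re X.im ^ c.K, div_nonneg g1 hDK.le, ?_,
    div_nonneg g3 hDK.le, ?_, ?_⟩
  · rw [div_le_iff₀ hDK]
    exact g2.trans hb
  · rw [div_le_iff₀ hDK]
    exact g4.trans hb
  · rw [px_Di, px_Di] at g5
    refine le_trans (le_of_eq ?_) g5
    push_cast
    (clear * - hD; field_simp)

namespace DatG

variable {g : DatG} {ka kb p0 p1 p2 la lb q0 q1 q2 : ℝ} {Ln' Ld' : ℤ}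

/-- **the pointwise inequality**, growth class, disc multipliers with growth, additional
multipliers of the relation -/
theorem Ok.pointH (o : g.Ok ka kb p0 p1 p2 la lb q0 q1 q2 Ln Ld Ln' Ld') {mi mo : Ex}
    (hIn : SideH g.s.d.c.K Ln Ld (g.tInM mi)) (hOut : SideH g.s.d.c.K Ln' Ld' (g.tOutM mo)) :
    ∃ B : ℝ, 0 ≤ B ∧
    ∀ G : ℂ → ℂ, Fld G ka kb p0 p1 p2 la lb q0 q1 q2 →
    ∀ X Y : ℂ, X ≠ 0 → ∀ η ∈ Icc (0:ℝ) (π / 2), Real.sin η * ‖X‖ ≤ 9 →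
    Real.sin η * ‖Y / X‖ ≤ 38 →
    ∃ l1 l2 : ℝ, 0 ≤ l1 ∧ l1 ≤ B * (1 + ‖X - 1‖ ^ 2) ∧ 0 ≤ l2 ∧ l2 ≤ B * (1 + ‖X - 1‖ ^ 2) ∧
    g.s.d.c.M * ‖G (mX X Y (Real.sin η) (Real.cos η)) - e0 (Real.sin η) (Real.cos η)‖ ^ 2 +
      (l1 * (16 - ‖dA 1 X Y (Real.sin η) (Real.cos η)‖ ^ 2) +
        l2 * (16 - ‖dA (-1) X Y (Real.sin η) (Real.cos η)‖ ^ 2)) ≤
      g.NT X Y η + (g.s.d.c.lam * ‖X - 1‖ ^ 2 + g.s.d.c.a2 * ((X.re - 1) ^ 2 - X.im ^ 2)) +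
        (g.s.d.kb * (1 - X.re) + g.s.d.del) +
        g.s.d.c.M * (g.s.Mu p0 p1 p2 q0 q1 q2 (mX X Y (Real.sin η) (Real.cos η)) *
          e0 (Real.sin η) (Real.cos η) * (X ^ 2 - (1 + g.s.tn / g.s.td))).re := by
  obtain ⟨B1, hB1, k1⟩ := SideH.apply hIn
  obtain ⟨B2, hB2, k2⟩ := SideH.apply hOut
  have w := wf_iff g o.wf
  refine ⟨max B1 B2, le_max_of_le_left hB1, fun G hG X Y hX η hη h9 h38 => ?_⟩
  have hM : (0:ℝ) < g.s.d.c.M := by exact_mod_cast o.M0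
  have hMc : (g.s.d.c.M : ℂ) ≠ 0 := by exact_mod_cast hM.ne'
  have htd : (g.s.td : ℂ) ≠ 0 := by exact_mod_cast o.td0.ne'
  have hD : 0 < Dd g.s.d.c.a X.re X.im ^ g.s.d.c.K := pow_pos (Dd_pos _ _ _) _
  have he : ‖e0 (Real.sin η) (Real.cos η)‖ = 1 := norm_e0 η
  have h1X : 0 ≤ 1 + ‖X - 1‖ ^ 2 := by (clear * -; positivity)
  have m1 : B1 * (1 + ‖X - 1‖ ^ 2) ≤ max B1 B2 * (1 + ‖X - 1‖ ^ 2) :=
    mul_le_mul_of_nonneg_right (le_max_left _ _) h1X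
  have m2 : B2 * (1 + ‖X - 1‖ ^ 2) ≤ max B1 B2 * (1 + ‖X - 1‖ ^ 2) :=
    mul_le_mul_of_nonneg_right (le_max_right _ _) h1X
  -- the multiplier
  have hmul : ∀ z : ℂ, (g.s.d.c.M : ℝ) * (g.s.td * z / (g.s.d.c.M : ℂ) *
      e0 (Real.sin η) (Real.cos η) * (X ^ 2 - (1 + g.s.tn / g.s.td))).re =
      (z * e0 (Real.sin η) (Real.cos η) * (g.s.td * (X ^ 2 - 1) - g.s.tn)).re := by
    intro z
    rw [← re_ofReal_mul]
    congr 1
    push_cast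
    field_simp
    ring
  obtain ⟨m, hm⟩ : ∃ m : ℂ, m = mX X Y (Real.sin η) (Real.cos η) := ⟨_, rfl⟩
  by_cases h1 : ‖m‖ ≤ 1
  · obtain ⟨d1, d2, d3⟩ := o.lIn.l_bd o.inL h1
    obtain ⟨l, hl⟩ : ∃ l : ℝ, l = (1 - ‖m‖ ^ 2) / rF p0 p1 p2 m := ⟨_, rfl⟩
    have hL : (0:ℝ) < Ld := by exact_mod_cast o.Ld0
    rw [← hl] at d2 d3
    have hc : (eCon g.s.d.c.fi).re (px l η X Y) = 0 := by
      refine SideOk_con o.fi ?_ (by norm_num)
      rw [← hm, hl, div_mul_cancel₀ _ d1.ne']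
      push_cast
      ring
    obtain ⟨l1, l2, a1, a2, a3, a4, h5⟩ := k1 X Y l η hη h9 h38 d2 (by
      rw [le_div_iff₀ hL] at d3
      linarith only [d3])
    have h6' : (g.tInM mi).re (px l η X Y) = g.tIn.re (px l η X Y) := by
      have e9 : (g.tInM mi).re (px l η X Y) = g.tIn.re (px l η X Y) +
        mi.re (px l η X Y) * (eCon g.s.d.c.fi).re (px l η X Y) := rfl
      rw [hc, mul_zero, add_zero] at e9
      exact e9
    rw [h6'] at h5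
    have h6 : g.tIn.re (px l η X Y) = _ := tSide_re w w.d.mi hX l η hc
    rw [h6] at h5
    have h7 := le_of_mul_le_mul_left h5 hD
    rw [px_TT l η X Y o.fi.ma o.fi.mb o.fi.maa o.fi.mab o.fi.mbb (by rw [o.fi.sg]; norm_num),
      ← hm, o.fi.sg] at h7
    refine ⟨l1, l2, a1, a2.trans m1, a3, a4.trans m1, ?_⟩
    have h8 := mul_le_mul_of_nonneg_left (hG.gin m h1 _ he) hM.le
    unfold Fq at h8
    rw [← hl] at h8
    rw [← hm]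
    unfold DatT.Mu Mq
    rw [if_pos h1, ← hl, MS_scl, hmul]
    push_cast at h7
    rw [one_mul] at h7
    linarith only [h8, h7]
  · have h1' : 1 < ‖m‖ := not_le.1 h1
    obtain ⟨d1, d2, d3⟩ := o.lOut.l_bd o.outL h1'.le
    obtain ⟨l, hl⟩ : ∃ l : ℝ, l = (‖m‖ ^ 2 - 1) / rF q0 q1 q2 m := ⟨_, rfl⟩
    have hL : (0:ℝ) < Ld' := by exact_mod_cast o.Ld0'
    rw [← hl] at d2 d3
    have hc : (eCon g.s.d.c.fo).re (px l η X Y) = 0 := by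
      refine SideOk_con o.fo ?_ (by norm_num)
      rw [← hm, hl, div_mul_cancel₀ _ d1.ne']
      push_cast
      ring
    obtain ⟨l1, l2, a1, a2, a3, a4, h5⟩ := k2 X Y l η hη h9 h38 d2 (by
      rw [le_div_iff₀ hL] at d3
      linarith only [d3])
    have h6' : (g.tOutM mo).re (px l η X Y) = g.tOut.re (px l η X Y) := by
      have e9 : (g.tOutM mo).re (px l η X Y) = g.tOut.re (px l η X Y) +
        mo.re (px l η X Y) * (eCon g.s.d.c.fo).re (px l η X Y) := rfl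
      rw [hc, mul_zero, add_zero] at e9
      exact e9
    rw [h6'] at h5
    have h6 : g.tOut.re (px l η X Y) = _ := tSide_re w w.d.mo hX l η hc
    rw [h6] at h5
    have h7 := le_of_mul_le_mul_left h5 hD
    rw [px_TT l η X Y o.fo.ma o.fo.mb o.fo.maa o.fo.mab o.fo.mbb (by rw [o.fo.sg]; norm_num),
      ← hm, o.fo.sg] at h7
    have e : (1 - ‖m‖ ^ 2) / rF q0 q1 q2 m = ((-1 : ℤ) : ℝ) * l := by
      rw [hl]
      push_cast
      ring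
    refine ⟨l1, l2, a1, a2.trans m2, a3, a4.trans m2, ?_⟩
    have h8 := mul_le_mul_of_nonneg_left (hG.gout m h1' _ he) hM.le
    unfold Fq at h8
    rw [e] at h8
    rw [← hm]
    unfold DatT.Mu Mq
    rw [if_neg h1, ← hl, MS_scl, hmul]
    linarith only [h7, h8]

end DatG

end Pool.Agent.Helper71.CK

end

section

namespace Pool.Agent.Helper39.Area
end Pool.Agent.Helper39.Area
namespace Pool.Agent.Helper52.EK
end Pool.Agent.Helper52.EK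
namespace Pool.Agent.Helper52.CK
end Pool.Agent.Helper52.CK
namespace Pool.Agent.Helper69.CK
end Pool.Agent.Helper69.CK
namespace Pool.Agent.Helper84.CK
end Pool.Agent.Helper84.CK
namespace Pool.Agent.Helper71.CK
end Pool.Agent.Helper71.CK
namespace Pool.Agent.Helper65.CK
end Pool.Agent.Helper65.CK
namespace Pool.Agent.Helper84.CB
end Pool.Agent.Helper84.CB
namespace Pool.Agent.Helper69.EK3
end Pool.Agent.Helper69.EK3
namespace Pool.Agent.Helper20.CK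
end Pool.Agent.Helper20.CK
namespace Pool.Agent.Helper2.EK
end Pool.Agent.Helper2.EK
namespace Pool.Agent.Helper20.EK7
end Pool.Agent.Helper20.EK7

set_option autoImplicit false

open Complex MeasureTheory Metric Set

open scoped Real ComplexConjugate

namespace Pool.Agent.Helper71.CK

open Pool.Agent.Helper39.Area Pool.Agent.Helper52.EK Pool.Agent.Helper52.CK

open Pool.Agent.Helper69.CK Pool.Agent.Helper84.CK Pool.Agent.Helper71.CK Pool.Agent.Helper65.CK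

open Pool.Agent.Helper84.CB (RegQ CenQP Q_lowQ bq CenE line_hd q_hd cenQP_Xf)

open Pool.Agent.Helper69.EK3 (NiceH RectH pt_mem_RectH)

open Pool.Agent.Helper20.CK (Zeq Mq_lip)

open Pool.Agent.Helper2.EK (c1_sub)

open Pool.Agent.Helper20.EK7 (Gp Gp_glip)

variable {g : DatG}

/-- **the bound for one target from the pointwise inequality of the data**, for a field `G` and a
multiplier `M` -/
theorem K_pwH (w : g.Wf) (M0 : 0 < g.s.d.c.M) (lam0 : 0 ≤ g.s.d.c.lam)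
    (c10 : 0 ≤ g.s.d.c.c1) (del0 : 0 ≤ g.s.d.del) {G M : ℂ → ℂ} {L q : ℝ} (hG : GLip G L)
    (hGc : ∀ m, G (conj m) = conj (G m)) (hM : Continuous M)
    (hMc : ∀ m, M (conj m) = conj (M m))
    (hpt : ∃ B : ℝ, 0 ≤ B ∧ ∀ X Y : ℂ, X ≠ 0 → ∀ η ∈ Icc (0:ℝ) (π / 2),
      Real.sin η * ‖X‖ ≤ 9 → Real.sin η * ‖Y / X‖ ≤ 38 → ∃ l1 l2 : ℝ,
      0 ≤ l1 ∧ l1 ≤ B * (1 + ‖X - 1‖ ^ 2) ∧ 0 ≤ l2 ∧ l2 ≤ B * (1 + ‖X - 1‖ ^ 2) ∧
      g.s.d.c.M * ‖G (mX X Y (Real.sin η) (Real.cos η)) - e0 (Real.sin η) (Real.cos η)‖ ^ 2 +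
        (l1 * (16 - ‖Pool.Agent.Helper69.EK3.dA 1 X Y (Real.sin η) (Real.cos η)‖ ^ 2) +
          l2 * (16 - ‖Pool.Agent.Helper69.EK3.dA (-1) X Y (Real.sin η) (Real.cos η)‖ ^ 2)) ≤
        g.NT X Y η + (g.s.d.c.lam * ‖X - 1‖ ^ 2 + g.s.d.c.a2 * ((X.re - 1) ^ 2 - X.im ^ 2)) +
          (g.s.d.kb * (1 - X.re) + g.s.d.del) +
          g.s.d.c.M * (M (mX X Y (Real.sin η) (Real.cos η)) *
            e0 (Real.sin η) (Real.cos η) * (X ^ 2 - q)).re)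
    (hC : CenE (g.Ecp g.s.d.c.c1 (355 / 113))) {κ : ℝ}
    (hκ : (g.s.d.c.lam : ℝ) + g.s.d.c.c1 + (|(g.s.d.c.c1 : ℝ) - g.s.d.kb| +
      2 * |(g.s.d.c.a2 : ℝ)|) / 10 ^ 7 < 2 * κ * g.s.d.c.M) :
    ∃ e C V₀ a₀ : ℝ, 0 < e ∧ 0 ≤ C ∧ 0 < V₀ ∧ a₀ < 1 ∧
      ∀ (β : ℂ → ℂ) (R a V : ℝ) (Ω Ω₁ Ω₂ : ℝ → ℝ → ℝ), ExtR β R → a₀ < a → a < 1 →
      0 ≤ V → V ≤ V₀ → WtF (Real.log (tau a) + 1) (-1) V Ω Ω₁ Ω₂ →
      Kf (wf G β) 1 (-1) (Real.log a) +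
          e * II (Real.log (tau a) + 1) (-1) (fun ξ η => ‖Xf β a (pt ξ η) - 1‖ ^ 2) ≤
        κ * Real.log (‖N β a‖ / (1 - a ^ 2)) +
          π⁻¹ * II (Real.log (tau a) + 1) (-1) (fun ξ η => Ω ξ η * Mt M q (Xf β a) ξ η) +
          4 * π⁻¹ * II (Real.log (tau a) + 1) (-1) (fun ξ η => 1 - Ω ξ η) +
          (g.s.d.del : ℝ) / g.s.d.c.M * (-1 - (Real.log (tau a) + 1)) +
          C * (1 + V * (-1 - (Real.log (tau a) + 1))) := by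
  have hM0 : (0:ℝ) < g.s.d.c.M := by exact_mod_cast M0
  have hlam : (0:ℝ) ≤ g.s.d.c.lam := by exact_mod_cast lam0
  have hc1 : (0:ℝ) ≤ g.s.d.c.c1 := by exact_mod_cast c10
  have hdel : (0:ℝ) ≤ g.s.d.del := by exact_mod_cast del0
  obtain ⟨p, hp⟩ : ∃ p : ℝ, p = 355 / 113 := ⟨_, rfl⟩
  obtain ⟨e1, e2⟩ := Pool.Agent.Helper69.EK3.Dat.pi_err hp
  have hpi := Real.pi_pos
  obtain ⟨A, hA⟩ : ∃ A : ℝ, A = |(g.s.d.c.c1 : ℝ) - g.s.d.kb| + 2 * |(g.s.d.c.a2 : ℝ)| :=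
    ⟨_, rfl⟩
  have hA0 : 0 ≤ A := by rw [hA]; (clear * -; positivity)
  obtain ⟨ε, hε⟩ : ∃ ε : ℝ, ε = A * ((p - π) / π) := ⟨_, rfl⟩
  have hε0 : 0 ≤ ε := by
    rw [hε]
    exact mul_nonneg hA0 (div_nonneg e1 hpi.le)
  have hε1 : ε ≤ A / 10 ^ 7 := by
    rw [hε, div_eq_mul_one_div A (10 ^ 7 : ℝ)]
    exact mul_le_mul_of_nonneg_left e2 hA0
  have hεπ : ε * π = A * (p - π) := by
    rw [hε]
    (clear * -; field_simp)
  rw [← hA] at hκ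
  rw [hA] at hεπ
  obtain ⟨k, hk⟩ : ∃ k : ℝ, k = g.s.d.c.c1 + ε := ⟨_, rfl⟩
  have n1 := (isNullW_har (P := Pool.Agent.Helper69.EK3.DiscP) (β := fun _ => (1:ℝ))
    continuous_const 2 le_rfl).const_mul (g.s.d.c.a2 : ℝ)
  have n2 := (isNullW_har (P := Pool.Agent.Helper69.EK3.DiscP) (β := fun _ => (1:ℝ))
    continuous_const 1 (by norm_num)).const_mul (k - g.s.d.kb)
  have hN := (((DatG.isNullW_NT w).add n1).add n2).const_mul (1 / (g.s.d.c.M : ℝ))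
  have hre2 : ∀ X : ℂ, ((X - 1) ^ 2).re = (X.re - 1) ^ 2 - X.im ^ 2 := by
    intro X
    rw [pow_two (X - 1), mul_re]
    simp
    ring
  have hre1 : ∀ X : ℂ, ((X - 1) ^ 1).re = X.re - 1 := by
    intro X
    simp
  have hint : ∫ _ in (0:ℝ)..(π / 2), (1:ℝ) = π / 2 := by simp
  obtain ⟨B, hB0, hpt'⟩ := hpt
  -- the centre condition
  have hC1 : CenE (g.Ecp k π) := by
    obtain ⟨Fx, Fy, hF⟩ : ∃ Fx Fy : ℂ → ℝ,
        C1f (fun X => g.Ecp k π X - g.Ecp g.s.d.c.c1 (355 / 113) X) Fx Fy := by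
      obtain ⟨Ax, Ay, hA'⟩ := DatG.Ecp_c1 (g := g) k π
      obtain ⟨Bx, By, hB'⟩ := DatG.Ecp_c1 (g := g) g.s.d.c.c1 (355 / 113)
      exact ⟨_, _, c1_sub hA' hB'⟩
    refine hC.add hF (fun X => by ring) fun X hX => ?_
    rw [← hp, hk]
    exact DatG.Ecp_pi e1 hεπ hX
  have hC2 : CenE fun X => 1 / (g.s.d.c.M : ℝ) * g.Ecp k π X := hC1.const_mul (by positivity)
  have hCen := cenW_E hC2 hN.cK (by
    intro X x₁ x₂ hX ξ hξ
    have hm : pt ξ (π - π / 2) ∈ Rect x₁ x₂ := by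
      have h9 := Pool.Agent.Helper69.EK3.mir_mem (pt_mem_RectH (h := π / 2) hξ
        (⟨by positivity, le_rfl⟩ : π / 2 ∈ Icc (0:ℝ) (π / 2)))
      rwa [Pool.Agent.Helper69.EK3.conj_pt] at h9
    have hA9 : AnalyticAt ℂ X (pt ξ (π - π / 2)) := hX.an _ hm
    have h1 := DatG.KT_conj w (X (pt ξ (π / 2))) (deriv X (pt ξ (π / 2))) k
    simp only [hre2, hre1, hint]
    rw [Pool.Agent.Helper69.EK3.mir_pt, Pool.Agent.Helper69.EK3.mir_deriv_pt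
      hA9.differentiableAt]
    have e9 : π - π / 2 = π / 2 := by ring
    rw [e9]
    linear_combination (1 / (g.s.d.c.M : ℝ)) * h1)
  refine K_oneW_g (B := B / g.s.d.c.M) (lam := g.s.d.c.lam / g.s.d.c.M)
    (k₂ := (g.s.d.c.lam + k) / g.s.d.c.M) (dc := (g.s.d.del : ℝ) / g.s.d.c.M)
    (div_nonneg hB0 hM0.le) (div_nonneg hlam hM0.le) ?_ (div_nonneg hdel hM0.le) ?_ hG hGc hM hMc
    hN ?_ (fun β R a h ha ha1 hx => cenQP_Xf h ha ha1 hx) hCen (D' := 72)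
    fun X x₁ x₂ hX => ?_
  · rw [div_le_div_iff_of_pos_right hM0, hk]
    linarith only [hc1, hε0]
  · rw [div_lt_iff₀ hM0, hk]
    (clear * - hκ hε1; linarith only [hκ, hε1])
  · intro X x₁ x₂ hX ξ hξ η hη h9 h38
    have hne := hX.ne _ (pt_mem_RectH hξ hη)
    obtain ⟨l1, l2, a1, a2, a3, a4, h1⟩ := hpt' (X (pt ξ η)) (deriv X (pt ξ η)) hne η hη h9 h38
    have hu : 0 ≤ 1 + ‖X (pt ξ η) - 1‖ ^ 2 := by (clear * -; positivity)
    refine ⟨0, l1 / g.s.d.c.M, l2 / g.s.d.c.M, le_rfl,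
      mul_nonneg (div_nonneg hB0 hM0.le) hu,
      div_nonneg a1 hM0.le, (div_le_div_of_nonneg_right a2 hM0.le).trans
        (le_of_eq (mul_div_right_comm _ _ _)), div_nonneg a3 hM0.le,
      (div_le_div_of_nonneg_right a4 hM0.le).trans
        (le_of_eq (mul_div_right_comm _ _ _)), ?_⟩
    simp only [hre2, hre1]
    unfold TG Mt
    generalize X (pt ξ η) = Z at *
    generalize deriv X (pt ξ η) = Y at *
    have e0 : ‖Z - 1‖ ^ 2 = ‖Z‖ ^ 2 - 2 * Z.re + 1 := by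
      rw [Pool.Agent.Helper69.EK3.nq_sq, Pool.Agent.Helper69.EK3.nq_sq]
      simp
      ring
    rw [e0] at h1
    refine le_of_mul_le_mul_left (le_trans (le_of_eq ?_) (h1.trans (le_of_eq ?_))) hM0
    · field_simp
      ring
    · field_simp
      ring
  · obtain ⟨δ, c1, c2, c3, c4⟩ := Pool.Agent.Helper84.CB.CenQP.re_le hX
    exact ⟨δ, c1, c2, fun ξ hξ => (re_le_norm _).trans (c3 ξ hξ), c4⟩

/-- **the bound for one target from the data** -/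
theorem K_dataH {ka kb p0 p1 p2 la lb q0 q1 q2 : ℝ} {Ln Ld Ln' Ld' : ℤ} {mi mo : Pool.Sos71.Ex}
    (o : g.Ok ka kb p0 p1 p2 la lb q0 q1 q2 Ln Ld Ln' Ld')
    (hIn : Pool.Sos71.SideH g.s.d.c.K Ln Ld (g.tInM mi))
    (hOut : Pool.Sos71.SideH g.s.d.c.K Ln' Ld' (g.tOutM mo))
    (hz : Zeq g.s.d.MI g.s.d.MO) (c10 : 0 ≤ g.s.d.c.c1) (del0 : 0 ≤ g.s.d.del)
    (hC : CenE (g.Ecp g.s.d.c.c1 (355 / 113))) {κ : ℝ}
    (hκ : (g.s.d.c.lam : ℝ) + g.s.d.c.c1 + (|(g.s.d.c.c1 : ℝ) - g.s.d.kb| +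
      2 * |(g.s.d.c.a2 : ℝ)|) / 10 ^ 7 < 2 * κ * g.s.d.c.M)
    {G : ℂ → ℂ} {L : ℝ} (hG : GLip G L) (hGc : ∀ m, G (conj m) = conj (G m))
    (hF : Fld G ka kb p0 p1 p2 la lb q0 q1 q2) :
    ∃ e C V₀ a₀ : ℝ, 0 < e ∧ 0 ≤ C ∧ 0 < V₀ ∧ a₀ < 1 ∧
      ∀ (β : ℂ → ℂ) (R a V : ℝ) (Ω Ω₁ Ω₂ : ℝ → ℝ → ℝ), ExtR β R → a₀ < a → a < 1 →
      0 ≤ V → V ≤ V₀ → WtF (Real.log (tau a) + 1) (-1) V Ω Ω₁ Ω₂ →
      Kf (wf G β) 1 (-1) (Real.log a) +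
          e * II (Real.log (tau a) + 1) (-1) (fun ξ η => ‖Xf β a (pt ξ η) - 1‖ ^ 2) ≤
        κ * Real.log (‖N β a‖ / (1 - a ^ 2)) +
          π⁻¹ * II (Real.log (tau a) + 1) (-1) (fun ξ η => Ω ξ η *
            Mt (g.s.Mu p0 p1 p2 q0 q1 q2) (1 + g.s.tn / g.s.td) (Xf β a) ξ η) +
          4 * π⁻¹ * II (Real.log (tau a) + 1) (-1) (fun ξ η => 1 - Ω ξ η) +
          (g.s.d.del : ℝ) / g.s.d.c.M * (-1 - (Real.log (tau a) + 1)) +
          C * (1 + V * (-1 - (Real.log (tau a) + 1))) := by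
  refine K_pwH (DatG.wf_iff g o.wf) o.M0 o.lam0 c10 del0 hG hGc
    (Mq_cont o.inL o.outL (Zeq_scl hz) _) (fun m => DatT.Mu_conj m) ?_ hC hκ
  obtain ⟨B, hB, h⟩ := o.pointH hIn hOut
  refine ⟨B, hB, fun X Y hX η hη h9 h38 => ?_⟩
  obtain ⟨l1, l2, a1, a2, a3, a4, h1⟩ := h G hF X Y hX η hη h9 h38
  refine ⟨l1, l2, a1, a2, a3, a4, ?_⟩
  push_cast
  exact h1

/-- the field `Gp` -/
theorem K_data_GpH {ka kb p0 p1 p2 la lb q0 q1 q2 : ℝ} {Ln Ld Ln' Ld' : ℤ} {mi mo : Pool.Sos71.Ex}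
    (o : g.Ok ka kb p0 p1 p2 la lb q0 q1 q2 Ln Ld Ln' Ld')
    (hIn : Pool.Sos71.SideH g.s.d.c.K Ln Ld (g.tInM mi))
    (hOut : Pool.Sos71.SideH g.s.d.c.K Ln' Ld' (g.tOutM mo))
    (hz : Zeq g.s.d.MI g.s.d.MO) (c10 : 0 ≤ g.s.d.c.c1) (del0 : 0 ≤ g.s.d.del)
    (hC : CenE (g.Ecp g.s.d.c.c1 (355 / 113))) {κ : ℝ}
    (hκ : (g.s.d.c.lam : ℝ) + g.s.d.c.c1 + (|(g.s.d.c.c1 : ℝ) - g.s.d.kb| +
      2 * |(g.s.d.c.a2 : ℝ)|) / 10 ^ 7 < 2 * κ * g.s.d.c.M) :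
    ∃ e C V₀ a₀ : ℝ, 0 < e ∧ 0 ≤ C ∧ 0 < V₀ ∧ a₀ < 1 ∧
      ∀ (β : ℂ → ℂ) (R a V : ℝ) (Ω Ω₁ Ω₂ : ℝ → ℝ → ℝ), ExtR β R → a₀ < a → a < 1 →
      0 ≤ V → V ≤ V₀ → WtF (Real.log (tau a) + 1) (-1) V Ω Ω₁ Ω₂ →
      Kf (wf (Pool.Agent.Helper20.EK7.Gp ka kb p0 p1 p2 la lb q0 q1 q2) β) 1 (-1) (Real.log a) +
          e * II (Real.log (tau a) + 1) (-1) (fun ξ η => ‖Xf β a (pt ξ η) - 1‖ ^ 2) ≤
        κ * Real.log (‖N β a‖ / (1 - a ^ 2)) +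
          π⁻¹ * II (Real.log (tau a) + 1) (-1) (fun ξ η => Ω ξ η *
            Mt (g.s.Mu p0 p1 p2 q0 q1 q2) (1 + g.s.tn / g.s.td) (Xf β a) ξ η) +
          4 * π⁻¹ * II (Real.log (tau a) + 1) (-1) (fun ξ η => 1 - Ω ξ η) +
          (g.s.d.del : ℝ) / g.s.d.c.M * (-1 - (Real.log (tau a) + 1)) +
          C * (1 + V * (-1 - (Real.log (tau a) + 1))) := by
  obtain ⟨CG, hGl⟩ := Pool.Agent.Helper20.EK7.Gp_glip (a := ka) (b := kb) (b' := lb) o.inL o.outL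
  exact K_dataH o hIn hOut hz c10 del0 hC hκ hGl (Pool.Agent.Helper20.EK7.Gp_conj _ _ _ _ _ _ _ _ _ _)
    (fld_Gp _ _ _ _ _ _ _ _ _ _)

/-- **the spectrum from the data** -/
theorem meansH {ka kb p0 p1 p2 la lb q0 q1 q2 : ℝ} {Ln Ld Ln' Ld' : ℤ} {mi mo : Pool.Sos71.Ex}
    (o : g.Ok ka kb p0 p1 p2 la lb q0 q1 q2 Ln Ld Ln' Ld')
    (hIn : Pool.Sos71.SideH g.s.d.c.K Ln Ld (g.tInM mi))
    (hOut : Pool.Sos71.SideH g.s.d.c.K Ln' Ld' (g.tOutM mo))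
    (hz : Zeq g.s.d.MI g.s.d.MO) (c10 : 0 ≤ g.s.d.c.c1) (del0 : 0 ≤ g.s.d.del)
    (hCen : ∀ x : Pool.Sos71.Pnt, 0 ≤ -2 * x.f - x.f ^ 2 - x.g ^ 2 →
      0 ≤ (Pool.Sos71.Ex.bp g.cen).re x)
    {κ : ℝ} (hk : (g.s.d.c.lam : ℝ) + g.s.d.c.c1 + (|(g.s.d.c.c1 : ℝ) - g.s.d.kb| +
      2 * |(g.s.d.c.a2 : ℝ)|) / 10 ^ 7 < 2 * κ * g.s.d.c.M)
    (hκ : 1 ≤ κ) {Mb : ℝ} (hMb0 : 0 ≤ Mb) (hMb : Mb < 2 * κ)
    (hM : ∃ (M' : ℂ → ℂ) (L' ε : ℝ), 0 < ε ∧ MOk (g.s.Mu p0 p1 p2 q0 q1 q2) M' Mb L' ε)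
    (ht : (g.s.tn : ℝ) / g.s.td = (g.s.d.del : ℝ) / g.s.d.c.M / (2 * κ)) :
    ∀ p : ℝ, κ ≤ p → ∀ e : ℝ, 0 < e → ∃ C : ℝ, ∀ ψ : ℂ → ℂ,
    DifferentiableOn ℂ ψ {z : ℂ | 1 < ‖z‖} → InjOn ψ {z : ℂ | 1 < ‖z‖} →
    (∃ b : ℂ, Filter.Tendsto (fun z => ψ z - z) (Bornology.cobounded ℂ) (nhds b)) →
    ∀ R : ℝ, 1 < R →
    (2 * π)⁻¹ * (∫ θ in (0:ℝ)..(2 * π), ‖deriv ψ (R * Complex.exp (θ * I))‖ ^ (-p)) ≤
      C * (R ^ 2 / (R ^ 2 - 1)) ^ (p - 1 + (g.s.d.del : ℝ) / g.s.d.c.M + e) := by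
  obtain ⟨L, hG⟩ := Gp_glip (a := ka) (b := kb) (b' := lb) o.inL o.outL
  obtain ⟨M', L', ε, hε, hM'⟩ := hM
  have hM0 : (0:ℝ) < g.s.d.c.M := by exact_mod_cast o.M0
  have hd0 : (0:ℝ) ≤ g.s.d.del := by exact_mod_cast del0
  have hK := K_data_GpH o hIn hOut hz c10 del0 (cenE_pos (DatG.wf_iff g o.wf) hCen) hk
  rw [ht] at hK
  have hpt := Pool.Agent.Helper77.CK.pt (by linarith only [hκ]) (div_nonneg hd0 hM0.le) hG hM' hε hK
  exact main_of_pt hκ (div_nonneg hd0 hM0.le) hMb0 hMb hG (fun β R h => Mh_cont hM' h.toExt)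
    (fun β z => Mh_le hM' β z) hpt

end Pool.Agent.Helper71.CK

end
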