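import Pool.Agent.Helper14.CMF.T49
import Pool.Agent.Helper14.CMF.T56
import Pool.Agent.Helper14.CMG.T10

set_option linter.all false

section

namespace Pool.Agent.Helper11.CKC
end Pool.Agent.Helper11.CKC

/-! The multiplier of the certificate: bound on the arc, checked by the kernel. -/

set_option autoImplicit false

set_option maxRecDepth 100000

namespace Pool.Agent.Helper99.CKC.A9

open Pool.Agent.Helper11.CKC

def c0 : FChk :=
  ⟨1024, 4096, 4, 1024, 4096, 6, 8576, 1000,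
    900, 900, 0, (-324), 900, 850, 75, 825, 20, 0, 4,
    9784234392801565812512154020374118400000, 9784234392801565812512154020374118400000,
    ⟨⟨0, 0, 685732242713594400000, (-851553231355101600000), (-531000036927496800000), (-920750767525864800000)⟩, ⟨31410530226019188000000, 0, 3988622316850704000000, 114572163054182400000, (-977885392605386400000), (-293448994503890400000)⟩, ⟨1167732166369500000000, (-718433718101172000000), (-2224823903882236800000), (-279595383780463200000), (-782559357768338400000), 1503917662863513600000⟩, ⟨0, 0, 527585939696577600000, (-880062236046231840000), (-112275037625829120000), 266018467080733920000⟩, ⟨31100619773854248480000, 0, 3950689020655615200000, 975136135972402080000, (-863277765781072320000), 528388007941284480000⟩, ⟨1311418909989734400000, (-484887284827272000000), (-2094637961114651520000), (-325306597986637920000), (-851312476734805440000), 999903342314335680000⟩⟩,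
    ⟨⟨0, 0, 31799366054553600000, 1163273418693871200000, 3657202684529817600000, (-4803350134524969600000)⟩, ⟨31410530226019188000000, 0, (-23725150855569561600000), (-248763497768740800000), (-5299560845532403200000), 571165930955030400000⟩, ⟨1167732166369500000000, (-718433718101172000000), 1011224505460788000000, 1945018792983247200000, (-1686306338064216000000), (-1251415910829765600000)⟩, ⟨0, 0, (-173081298255118560000), 1388445429761873280000, 4086043722906071040000, (-3408389171032243680000)⟩, ⟨31100619773854248480000, 0, (-22879989142255486080000), (-3094999037963995680000), (-6754984862594087520000), 877886379662303520000⟩, ⟨1311418909989734400000, (-484887284827272000000), 909760584205529280000, 429229674502462080000, (-1846389235495350240000), (-174397136924384640000)⟩⟩⟩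

theorem c0I : c0.okI = true := by decide +kernel

theorem c0O : c0.okO = true := by decide +kernel

def c1 : FChk :=
  ⟨1024, 4096, 5, 1024, 4096, 6, 8160, 1000,
    900, 900, 0, (-324), 900, 850, 75, 825, 20, 4, 8,
    9309626008076116724591788340281344000000, 9309626008076116724591788340281344000000,
    ⟨⟨0, 0, 527585939696577600000, (-880062236046231840000), (-112275037625829120000), 266018467080733920000⟩, ⟨31100619773854248480000, 0, 3950689020655615200000, 975136135972402080000, (-863277765781072320000), 528388007941284480000⟩, ⟨1311418909989734400000, (-484887284827272000000), (-2094637961114651520000), (-325306597986637920000), (-851312476734805440000), 999903342314335680000⟩, ⟨0, 0, 369439636679560800000, (-908571240737362080000), 306449961675838560000, 1452787701687332640000⟩, ⟨30790709321689308960000, 0, 3912755724460526400000, 1835700108890621760000, (-748670138956758240000), 1350225010386459360000⟩,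 ⟨1455105653609968800000, (-251340851553372000000), (-1964452018347066240000), (-371017812192812640000), (-920065595701272480000), 495889021765157760000⟩⟩,
    ⟨⟨0, 0, (-173081298255118560000), 1388445429761873280000, 4086043722906071040000, (-3408389171032243680000)⟩, ⟨31100619773854248480000, 0, (-22879989142255486080000), (-3094999037963995680000), (-6754984862594087520000), 877886379662303520000⟩, ⟨1311418909989734400000, (-484887284827272000000), 909760584205529280000, 429229674502462080000, (-1846389235495350240000), (-174397136924384640000)⟩, ⟨0, 0, (-377961962564790720000), 1613617440829875360000, 4514884761282324480000, (-2013428207539517760000)⟩, ⟨30790709321689308960000, 0, (-22034827428941410560000), (-5941234578159250560000), (-8210408879655771840000), 1184606828369576640000⟩, ⟨1455105653609968800000, (-251340851553372000000), 808296662950270560000, (-1086559443978323040000), (-2006472132926484480000),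 902621636980996320000⟩⟩⟩

theorem c1I : c1.okI = true := by decide +kernel

theorem c1O : c1.okO = true := by decide +kernel

def c2 : FChk :=
  ⟨1024, 4096, 5, 1024, 4096, 7, 7977, 1000,
    900, 900, 0, (-324), 900, 850, 75, 825, 20, 8, 10,
    9100843954218527342165281322355916800000, 9100843954218527342165281322355916800000,
    ⟨⟨0, 0, 369439636679560800000, (-908571240737362080000), 306449961675838560000, 1452787701687332640000⟩, ⟨30790709321689308960000, 0, 3912755724460526400000, 1835700108890621760000, (-748670138956758240000), 1350225010386459360000⟩, ⟨1455105653609968800000, (-251340851553372000000), (-1964452018347066240000), (-371017812192812640000), (-920065595701272480000), 495889021765157760000⟩, ⟨0, 0, 290366485171052400000, (-922825743082927200000), 515812461326672400000, 2046172318990632000000⟩, ⟨30635754095606839200000, 0, 3893789076362982000000, 2265982095349731600000, (-691366325544601200000),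 1761143511609046800000⟩, ⟨1526949025420086000000, (-134567634916422000000), (-1899359046963273600000), (-393873419295900000000), (-954442155184506000000), 243881861490568800000⟩⟩,
    ⟨⟨0, 0, (-377961962564790720000), 1613617440829875360000, 4514884761282324480000, (-2013428207539517760000)⟩, ⟨30790709321689308960000, 0, (-22034827428941410560000), (-5941234578159250560000), (-8210408879655771840000), 1184606828369576640000⟩, ⟨1455105653609968800000, (-251340851553372000000), 808296662950270560000, (-1086559443978323040000), (-2006472132926484480000), 902621636980996320000⟩, ⟨0, 0, (-480402294719626800000), 1726203446363876400000, 4729305280470451200000, (-1315947725793154800000)⟩, ⟨30635754095606839200000, 0, (-21612246572284372800000), (-7364352348256878000000), (-8938120888186614000000), 1337967052723213200000⟩, ⟨1526949025420086000000, (-134567634916422000000), 757564702322641200000, (-1844454003218715600000),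 (-2086513581642051600000), 1441131023933686800000⟩⟩⟩

theorem c2I : c2.okI = true := by decide +kernel

theorem c2O : c2.okO = true := by decide +kernel

def cells : List FChk := [c0, c1, c2]

theorem boxes : ∀ c ∈ cells, c.okI = true ∧ c.okO = true := by
  intro c hc
  simp only [cells, List.mem_cons, List.not_mem_nil, or_false] at hc
  rcases hc with rfl | rfl | rfl
  · exact ⟨c0I, c0O⟩
  · exact ⟨c1I, c1O⟩
  · exact ⟨c2I, c2O⟩

theorem arc : arcB D.M D.MI0 D.MI1 D.MO0 D.MO1 900 900 0 (-324) 900 850 75 825 21865 2702 10000 cells = true := by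
  decide +kernel

theorem cov : covB 1 2 0 1 cells = true := by decide +kernel

end Pool.Agent.Helper99.CKC.A9

end

section

namespace Pool.Sos71
end Pool.Sos71
namespace Pool.EK71
end Pool.EK71
namespace Pool.Agent.Helper52.EK
end Pool.Agent.Helper52.EK
namespace Pool.Agent.Helper2.EK
end Pool.Agent.Helper2.EK
namespace Pool.Agent.Helper69.EK3
end Pool.Agent.Helper69.EK3
namespace Pool.Agent.Helper71.CK
end Pool.Agent.Helper71.CK
namespace Pool.Agent.Helper20.EK7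
end Pool.Agent.Helper20.EK7
namespace Pool.Agent.Helper99.CKC
end Pool.Agent.Helper99.CKC
namespace Pool.Agent.Helper11.CKC
end Pool.Agent.Helper11.CKC

set_option autoImplicit false

open Complex MeasureTheory Metric Set

open scoped Real ComplexConjugate

namespace Pool.Agent.Helper42.CKC

open Pool.Sos71 Pool.EK71 Pool.Agent.Helper52.EK Pool.Agent.Helper2.EK

open Pool.Agent.Helper69.EK3 (AP aev af rF rF_eq)

open Pool.Agent.Helper71.CK (LIn LOut)

open Pool.Agent.Helper20.EK7 (InL OutL OutD)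

open Pool.Agent.Helper99.CKC

open Pool.Agent.Helper11.CKC (CL MSc Mqc MqA)

/-- the mean of the coefficients of three fields -/
noncomputable def cf3 (s0 s1 s2 : ℝ) (F : ℤ) (r0 i0 r1 i1 r2 i2 : ℤ) : ℂ :=
  s0 * (((r0 : ℂ) + i0 * I) / F) + s1 * (((r1 : ℂ) + i1 * I) / F) + s2 * (((r2 : ℂ) + i2 * I) / F)

/-- the null Lagrangian -/
noncomputable def DatC.NN (D : DatC) (v0 v1 v2 : Vx) (τ s0 s1 s2 : ℝ) (x q : ℂ) (η : ℝ) : ℝ :=
  1 / D.M * (NGs D.d τ D.G0 x q η + τ * NGs D.d τ D.G1 x q η +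
    (s0 * NHms v0.HM x q η + s1 * NHms v1.HM x q η + s2 * NHms v2.HM x q η))

theorem rF_div (p0 p1 p2 r : ℝ) (w : ℂ) :
    rF (p0 / r) (p1 / r) (p2 / r) w = rF p0 p1 p2 w / r := by
  unfold rF
  ring

theorem dom_pt {Ln Ld : ℤ} {l η : ℝ} {x : ℂ} (q : ℂ) (hη : η ∈ Icc (0:ℝ) π)
    (hx : Real.sin η * ‖x‖ ≤ 10) (h0 : 0 ≤ l) (h1 : (Ld : ℝ) * l ≤ Ln) :
    DomC Ln Ld (pt7 l η q x) := by
  obtain ⟨s0, s1, c0, c1⟩ := half_bd hη
  have hs := sin_half η
  have e2 : ‖x‖ ^ 2 = x.re ^ 2 + x.im ^ 2 := by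
    rw [← Complex.normSq_eq_norm_sq, Complex.normSq_apply]
    ring
  have hr : Bdd.rho (pt7 l η q x) ≤ 1 + ‖x‖ := by
    unfold Bdd.rho pt7
    rw [Real.sqrt_le_left (by (clear * -; positivity))]
    linarith only [norm_nonneg x, e2]
  refine ⟨s0, c0, Real.sin_sq_add_cos_sq _, h0, h1, ?_⟩
  have h3 : 0 ≤ Real.sin (η / 2) * Real.cos (η / 2) := mul_nonneg s0 c0
  have h4 := mul_le_mul_of_nonneg_left hr h3
  refine h4.trans ?_
  have h5 : Real.sin (η / 2) * Real.cos (η / 2) * (1 + ‖x‖) =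
      Real.sin η / 2 + Real.sin η * ‖x‖ / 2 := by
    rw [hs]
    ring
  rw [h5]
  (clear * - hx; linarith only [Real.sin_le_one η, hx])

/-- the mean of the fields of three vertices -/
theorem bf_jensen {s0 s1 s2 : ℝ} (p0 : 0 ≤ s0) (p1 : 0 ≤ s1) (p2 : 0 ≤ s2)
    (hs : s0 + s1 + s2 = 1) (F : ℤ) (hF : 0 < F) (v0 v1 v2 : Vx) (s : ℤ) (f0 f1 f2 : Fl) (l : ℝ)
    (w e : ℂ) : (F : ℝ) ^ 2 * ‖cf3 s0 s1 s2 F v0.gm 0 v1.gm 0 v2.gm 0 * w +
        cf3 s0 s1 s2 F v0.cR v0.cI v1.cR v1.cI v2.cR v2.cI +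
        (l : ℂ) * ((s * cf3 s0 s1 s2 F f0.aR f0.aI f1.aR f1.aI f2.aR f2.aI) * w +
          s * cf3 s0 s1 s2 F f0.bR f0.bI f1.bR f1.bI f2.bR f2.bI) - e‖ ^ 2 ≤
      s0 * ‖Bf s v0.gm v0.cR v0.cI f0 l w - F * e‖ ^ 2 +
        s1 * ‖Bf s v1.gm v1.cR v1.cI f1 l w - F * e‖ ^ 2 +
        s2 * ‖Bf s v2.gm v2.cR v2.cI f2 l w - F * e‖ ^ 2 := by
  have h := sq_jensen ⟨s0, s1, s2⟩ p0 p1 p2 hs (Bf s v0.gm v0.cR v0.cI f0 l w)
    (Bf s v1.gm v1.cR v1.cI f1 l w) (Bf s v2.gm v2.cR v2.cI f2 l w) (F * e)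
  unfold W3.r W3.z at h
  simp only at h
  refine le_trans (le_of_eq ?_) h
  have hF' : (F : ℂ) ≠ 0 := by exact_mod_cast hF.ne'
  have hn : ‖(F : ℂ)‖ = F := by
    have : (F : ℂ) = ((F : ℝ) : ℂ) := by push_cast; rfl
    rw [this, norm_real, Real.norm_eq_abs, abs_of_pos (by exact_mod_cast hF)]
  rw [← hn, ← mul_pow, ← norm_mul]
  congr 2
  unfold cf3 Bf
  push_cast
  field_simp
  ring

theorem FF_mul {D : DatC} {v : Vx} (h : 0 < v.td) (s : ℤ) (f : Fl) (L0 L1 : CL) (l : ℝ)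
    (x q : ℂ) (η a : ℝ) : a / v.td * D.FF v s f L0 L1 l x q η =
    -2 * D.Mt * (a * ‖Bf s v.gm v.cR v.cI f l (wx x q (Real.sin η) (Real.cos η)) -
      D.Fd * e0 (Real.sin η) (Real.cos η)‖ ^ 2) + 2 * (a * NHms v.HM x q η) +
    2 * (a / v.td * NGsv D.d v.td (v.td + v.tn * I) D.G0 x q η +
      a / v.td * NGsv D.d v.tn (v.tn + v.sn * I) D.G1 x q η) +
    (a / v.td * MTv v.td (v.td + v.tn * I) L0 l (wx x q (Real.sin η) (Real.cos η))
        (e0 (Real.sin η) (Real.cos η)) x +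
      a / v.td * MTv v.tn (v.tn + v.sn * I) L1 l (wx x q (Real.sin η) (Real.cos η))
        (e0 (Real.sin η) (Real.cos η)) x) +
    2 * (a * (v.lam * (‖x‖ ^ 2 + x.re) - v.ka * x.re)) := by
  have u : (v.td : ℝ) ≠ 0 := by exact_mod_cast h.ne'
  have e : a / v.td * v.td = a := div_mul_cancel₀ _ u
  unfold DatC.FF
  linear_combination (-2 * D.Mt * ‖Bf s v.gm v.cR v.cI f l (wx x q (Real.sin η) (Real.cos η)) -
      D.Fd * e0 (Real.sin η) (Real.cos η)‖ ^ 2 + 2 * NHms v.HM x q η +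
      2 * (v.lam * (‖x‖ ^ 2 + x.re) - v.ka * x.re)) * e

/-- the bound of the factors of the discs -/
theorem k_bd {B N Dk M Q t : ℝ} {K : ℕ} (hB : 0 ≤ B) (hM : 0 < M) (ht : 1 ≤ t) (hD : 0 < Dk)
    (hN : t ≤ N * Dk) (hQ : Q ≤ B * t ^ (K + 1)) :
    Q / (2 * M * Dk ^ K) ≤ B * N ^ K / (2 * M) * t := by
  have h0 : 0 < t := by linarith
  have hDK : 0 < Dk ^ K := pow_pos hD K
  rw [div_le_iff₀ (by positivity)]
  have h1 : t ^ K ≤ (N * Dk) ^ K := pow_le_pow_left₀ h0.le hN K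
  have h2 : B * t * t ^ K ≤ B * t * (N * Dk) ^ K := mul_le_mul_of_nonneg_left h1 (by (clear * - hB ht; positivity))
  have e : B * N ^ K / (2 * M) * t * (2 * M * Dk ^ K) = B * t * (N * Dk) ^ K := by
    rw [mul_pow]
    (clear * - hM hD ht; field_simp)
  rw [e]
  refine hQ.trans (le_trans (le_of_eq ?_) h2)
  rw [pow_succ]
  ring

/-- **one side** -/
theorem side_pt {D : DatC} (w : D.Wf) {v0 v1 v2 : Vx} (hM : 0 < D.M) (hF : 0 < D.Fd)
    (hMF : D.M = D.Fd ^ 2 * D.Mt) (t0 : 0 < v0.td) (t1 : 0 < v1.td) (t2 : 0 < v2.td)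
    {Ln Ld s r0 r1 r2 : ℤ} {f0 f1 f2 : Fl} {L0 L1 : CL} (h0 : ∀ t ∈ L0, t.2.1 ≤ 2)
    (h1 : ∀ t ∈ L1, t.2.1 ≤ 2) {R0 R1 R2 : List Rm} {B : ℝ} (hB : 0 ≤ B) {Q1 Q2 : Pnt → ℝ}
    (hQ : ∀ y : Pnt, DomC Ln Ld y →
      0 ≤ Q1 y ∧ Q1 y ≤ B * (1 + y.f ^ 2 + y.g ^ 2) ^ (D.K + 1) ∧
      0 ≤ Q2 y ∧ Q2 y ≤ B * (1 + y.f ^ 2 + y.g ^ 2) ^ (D.K + 1) ∧
      Q1 y * (eDs 1 v0.tn v0.sn v0.td).re y + Q2 y * (eDs (-1) v0.tn v0.sn v0.td).re y ≤
        (D.target v0 s r0 r1 r2 f0 L0 L1 R0).re y ∧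
      Q1 y * (eDs 1 v1.tn v1.sn v1.td).re y + Q2 y * (eDs (-1) v1.tn v1.sn v1.td).re y ≤
        (D.target v1 s r0 r1 r2 f1 L0 L1 R1).re y ∧
      Q1 y * (eDs 1 v2.tn v2.sn v2.td).re y + Q2 y * (eDs (-1) v2.tn v2.sn v2.td).re y ≤
        (D.target v2 s r0 r1 r2 f2 L0 L1 R2).re y)
    {τ s0 s1 s2 : ℝ} (p0 : 0 ≤ s0) (p1 : 0 ≤ s1) (p2 : 0 ≤ s2) (hs : s0 + s1 + s2 = 1)
    (hτ : s0 * (v0.tn / v0.td) + s1 * (v1.tn / v1.td) + s2 * (v2.tn / v2.td) = τ)
    (hσ : s0 * (v0.sn / v0.td) + s1 * (v1.sn / v1.td) + s2 * (v2.sn / v2.td) = τ ^ 2)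
    {x q : ℂ} {η : ℝ} (hη : η ∈ Icc (0:ℝ) π) (hx : Real.sin η * ‖x‖ ≤ 10) {l : ℝ} (l0 : 0 ≤ l)
    (l1 : (Ld : ℝ) * l ≤ Ln)
    (hr : D.rd * (‖wx x q (Real.sin η) (Real.cos η)‖ ^ 2 - 1) +
      s * l * rF r0 r1 r2 (wx x q (Real.sin η) (Real.cos η)) = 0) :
    ∃ k1 k2 : ℝ, 0 ≤ k1 ∧ k1 ≤ B * D.d.N ^ D.K / (2 * D.M) * (1 + ‖x‖ ^ 2) ∧
      0 ≤ k2 ∧ k2 ≤ B * D.d.N ^ D.K / (2 * D.M) * (1 + ‖x‖ ^ 2) ∧
      ‖cf3 s0 s1 s2 D.Fd v0.gm 0 v1.gm 0 v2.gm 0 * wx x q (Real.sin η) (Real.cos η) +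
        cf3 s0 s1 s2 D.Fd v0.cR v0.cI v1.cR v1.cI v2.cR v2.cI +
        (l : ℂ) * ((s * cf3 s0 s1 s2 D.Fd f0.aR f0.aI f1.aR f1.aI f2.aR f2.aI) *
            wx x q (Real.sin η) (Real.cos η) +
          s * cf3 s0 s1 s2 D.Fd f0.bR f0.bI f1.bR f1.bI f2.bR f2.bI) -
        e0 (Real.sin η) (Real.cos η)‖ ^ 2 +
        k1 * dpol τ 1 x q (Real.sin η) (Real.cos η) +
        k2 * dpol τ (-1) x q (Real.sin η) (Real.cos η) ≤
      -(s0 * (v0.ka / D.M) + s1 * (v1.ka / D.M) + s2 * (v2.ka / D.M)) * x.re +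
        (s0 * (v0.lam / D.M) + s1 * (v1.lam / D.M) + s2 * (v2.lam / D.M)) *
          (‖x‖ ^ 2 + x.re) + D.NN v0 v1 v2 τ s0 s1 s2 x q η +
        ((MSc L0 l (wx x q (Real.sin η) (Real.cos η)) / D.M + (τ : ℂ) *
          (MSc L1 l (wx x q (Real.sin η) (Real.cos η)) / D.M)) * e0 (Real.sin η) (Real.cos η) *
          ((1 + I * τ) / 2 * x ^ 2 + x)).re := by
  obtain ⟨a1, a2, a3, a4, a5, a6, a7⟩ := hQ _ (dom_pt q hη hx l0 l1)
  rw [eDs_re, eDs_re, D.target_re l η q x w v0 s r0 r1 r2 f0 h0 h1 R0 hr] at a5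
  rw [eDs_re, eDs_re, D.target_re l η q x w v1 s r0 r1 r2 f1 h0 h1 R1 hr] at a6
  rw [eDs_re, eDs_re, D.target_re l η q x w v2 s r0 r1 r2 f2 h0 h1 R2 hr] at a7
  have hD1 := Dc_pos D.d x.re x.im
  have hD : 0 < Dc D.d x.re x.im ^ D.K := pow_pos hD1 _
  have hM' : (0:ℝ) < D.M := by exact_mod_cast hM
  have hF' : (0:ℝ) < D.Fd := by exact_mod_cast hF
  have hMF' : (D.M : ℝ) = D.Fd ^ 2 * D.Mt := by exact_mod_cast hMF
  have hMt : (0:ℝ) < D.Mt := by
    by_contra hc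
    have : (D.Fd : ℝ) ^ 2 * D.Mt ≤ 0 := mul_nonpos_of_nonneg_of_nonpos (by positivity) (not_lt.1 hc)
    (clear * - hM' hMF' this; linarith only [hM', hMF', this])
  have u0 : (0:ℝ) < v0.td := by exact_mod_cast t0
  have u1 : (0:ℝ) < v1.td := by exact_mod_cast t1
  have u2 : (0:ℝ) < v2.td := by exact_mod_cast t2
  obtain ⟨W, hW⟩ : ∃ W : W3, W = ⟨s0 / v0.td, s1 / v1.td, s2 / v2.td⟩ := ⟨_, rfl⟩
  have wr : ∀ a b c : ℝ, W.r a b c = s0 / v0.td * a + s1 / v1.td * b + s2 / v2.td * c := by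
    intro a b c
    rw [hW]
    rfl
  have etd : W.r v0.td v1.td v2.td = 1 := by
    rw [wr, div_mul_cancel₀ _ u0.ne', div_mul_cancel₀ _ u1.ne', div_mul_cancel₀ _ u2.ne', hs]
  have etn : W.r v0.tn v1.tn v2.tn = τ := by
    rw [wr, ← hτ]
    ring
  have esn : W.r v0.sn v1.sn v2.sn = τ ^ 2 := by
    rw [wr, ← hσ]
    ring
  have zz : ∀ a b c a' b' c' : ℝ, W.z ((a : ℂ) + a' * I) ((b : ℂ) + b' * I) ((c : ℂ) + c' * I) =
      (W.r a b c : ℂ) + (W.r a' b' c' : ℂ) * I := by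
    intro a b c a' b' c'
    unfold W3.z W3.r
    push_cast
    ring
  have z1 : W.z ((v0.td : ℂ) + v0.tn * I) ((v1.td : ℂ) + v1.tn * I) ((v2.td : ℂ) + v2.tn * I) =
      1 + τ * I := by
    have := zz v0.td v1.td v2.td v0.tn v1.tn v2.tn
    rw [etd, etn] at this
    push_cast at this
    exact this
  have z2 : W.z ((v0.tn : ℂ) + v0.sn * I) ((v1.tn : ℂ) + v1.sn * I) ((v2.tn : ℂ) + v2.sn * I) =
      τ + (τ ^ 2 : ℝ) * I := by
    have := zz v0.tn v1.tn v2.tn v0.sn v1.sn v2.sn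
    rw [etn, esn] at this
    push_cast at this ⊢
    exact this
  have dd : ∀ σ : ℝ, W.r (dpv v0.td v0.tn v0.sn σ x q (Real.sin η) (Real.cos η))
      (dpv v1.td v1.tn v1.sn σ x q (Real.sin η) (Real.cos η))
      (dpv v2.td v2.tn v2.sn σ x q (Real.sin η) (Real.cos η)) =
      dpol τ σ x q (Real.sin η) (Real.cos η) := by
    intro σ
    rw [← dpv_lin, etd, etn, esn, dpv_dpol]
  have g0 : W.r (NGsv D.d v0.td (v0.td + v0.tn * I) D.G0 x q η)
      (NGsv D.d v1.td (v1.td + v1.tn * I) D.G0 x q η)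
      (NGsv D.d v2.td (v2.td + v2.tn * I) D.G0 x q η) = NGs D.d τ D.G0 x q η := by
    rw [← NGsv_lin, etd, z1, NGsv_tau]
  have g1 : W.r (NGsv D.d v0.tn (v0.tn + v0.sn * I) D.G1 x q η)
      (NGsv D.d v1.tn (v1.tn + v1.sn * I) D.G1 x q η)
      (NGsv D.d v2.tn (v2.tn + v2.sn * I) D.G1 x q η) = τ * NGs D.d τ D.G1 x q η := by
    rw [← NGsv_lin, etn, z2, NGsv_tau']
  obtain ⟨w', hw'⟩ : ∃ w', w' = wx x q (Real.sin η) (Real.cos η) := ⟨_, rfl⟩
  obtain ⟨e, he⟩ : ∃ e, e = e0 (Real.sin η) (Real.cos η) := ⟨_, rfl⟩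
  have m0 : W.r (MTv v0.td (v0.td + v0.tn * I) L0 l w' e x)
      (MTv v1.td (v1.td + v1.tn * I) L0 l w' e x) (MTv v2.td (v2.td + v2.tn * I) L0 l w' e x) =
      2 * (MSc L0 l w' * e * ((1 + I * τ) / 2 * x ^ 2 + x)).re := by
    rw [← MTv_lin, etd, z1, MTv_tau]
  have m1 : W.r (MTv v0.tn (v0.tn + v0.sn * I) L1 l w' e x)
      (MTv v1.tn (v1.tn + v1.sn * I) L1 l w' e x) (MTv v2.tn (v2.tn + v2.sn * I) L1 l w' e x) =
      2 * (τ * MSc L1 l w' * e * ((1 + I * τ) / 2 * x ^ 2 + x)).re := by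
    rw [← MTv_lin, etn, z2, MTv_tau']
  have jen := bf_jensen p0 p1 p2 hs D.Fd hF v0 v1 v2 s f0 f1 f2 l w' e
  -- sum of the three inequalities
  have b0 : 0 ≤ s0 / v0.td := div_nonneg p0 u0.le
  have b1 : 0 ≤ s1 / v1.td := div_nonneg p1 u1.le
  have b2 : 0 ≤ s2 / v2.td := div_nonneg p2 u2.le
  have c0 := mul_le_mul_of_nonneg_left a5 b0
  have c1 := mul_le_mul_of_nonneg_left a6 b1
  have c2 := mul_le_mul_of_nonneg_left a7 b2
  have d1 := dd 1
  have d2 := dd (-1)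
  rw [wr] at d1 d2 g0 g1 m0 m1
  have F0 := FF_mul (D := D) t0 s f0 L0 L1 l x q η s0
  have F1 := FF_mul (D := D) t1 s f1 L0 L1 l x q η s1
  have F2 := FF_mul (D := D) t2 s f2 L0 L1 l x q η s2
  rw [← hw', ← he] at F0 F1 F2 ⊢
  have hmul : (2:ℝ) * D.M * ((MSc L0 l w' / D.M + (τ : ℂ) * (MSc L1 l w' / D.M)) * e *
      ((1 + I * τ) / 2 * x ^ 2 + x)).re =
      2 * (MSc L0 l w' * e * ((1 + I * τ) / 2 * x ^ 2 + x)).re +
      2 * (τ * MSc L1 l w' * e * ((1 + I * τ) / 2 * x ^ 2 + x)).re := by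
    have hMc : (D.M : ℂ) ≠ 0 := by exact_mod_cast hM.ne'
    rw [← mul_add, ← add_re, mul_assoc]
    congr 1
    have e5 : ((D.M : ℤ) : ℝ) * ((MSc L0 l w' / D.M + (τ : ℂ) * (MSc L1 l w' / D.M)) * e *
      ((1 + I * τ) / 2 * x ^ 2 + x)).re = (((D.M : ℝ) : ℂ) * ((MSc L0 l w' / D.M + (τ : ℂ) *
      (MSc L1 l w' / D.M)) * e * ((1 + I * τ) / 2 * x ^ 2 + x))).re := by rw [re_ofReal_mul]
    rw [e5]
    congr 1
    push_cast
    (clear * - hMc; field_simp)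
  have hnn : (2:ℝ) * D.M * D.NN v0 v1 v2 τ s0 s1 s2 x q η =
      2 * (NGs D.d τ D.G0 x q η + τ * NGs D.d τ D.G1 x q η +
        (s0 * NHms v0.HM x q η + s1 * NHms v1.HM x q η + s2 * NHms v2.HM x q η)) := by
    unfold DatC.NN
    (clear * - hM; field_simp)
  have hkl : (2:ℝ) * D.M * (-(s0 * (v0.ka / D.M) + s1 * (v1.ka / D.M) + s2 * (v2.ka / D.M)) *
        x.re + (s0 * (v0.lam / D.M) + s1 * (v1.lam / D.M) + s2 * (v2.lam / D.M)) *
          (‖x‖ ^ 2 + x.re)) =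
      2 * (s0 * (v0.lam * (‖x‖ ^ 2 + x.re) - v0.ka * x.re)) +
      2 * (s1 * (v1.lam * (‖x‖ ^ 2 + x.re) - v1.ka * x.re)) +
      2 * (s2 * (v2.lam * (‖x‖ ^ 2 + x.re) - v2.ka * x.re)) := by
    field_simp
    ring
  have hN : 1 + ‖x‖ ^ 2 ≤ D.d.N * Dc D.d x.re x.im := by
    have h := Dc_low D.d x.re x.im
    have e2 : ‖x‖ ^ 2 = x.re ^ 2 + x.im ^ 2 := by
      rw [← Complex.normSq_eq_norm_sq, Complex.normSq_apply]
      ring
    rw [e2]
    exact h
  have e2 : 1 + ‖x‖ ^ 2 = 1 + (pt7 l η q x).f ^ 2 + (pt7 l η q x).g ^ 2 := by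
    rw [← Complex.normSq_eq_norm_sq, Complex.normSq_apply]
    show 1 + (x.re * x.re + x.im * x.im) = 1 + x.re ^ 2 + x.im ^ 2
    ring
  rw [← e2] at a2 a4
  have ht1 : (1:ℝ) ≤ 1 + ‖x‖ ^ 2 := le_add_of_nonneg_right (sq_nonneg _)
  have hMD : 0 < 2 * (D.M : ℝ) * Dc D.d x.re x.im ^ D.K := by (clear * - hM hD1; positivity)
  refine ⟨Q1 (pt7 l η q x) / (2 * D.M * Dc D.d x.re x.im ^ D.K),
    Q2 (pt7 l η q x) / (2 * D.M * Dc D.d x.re x.im ^ D.K), div_nonneg a1 hMD.le,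
    k_bd hB hM' ht1 hD1 hN a2, div_nonneg a3 hMD.le, k_bd hB hM' ht1 hD1 hN a4, ?_⟩
  generalize Q1 (pt7 l η q x) = q1 at *
  generalize Q2 (pt7 l η q x) = q2 at *
  generalize ‖cf3 s0 s1 s2 D.Fd v0.gm 0 v1.gm 0 v2.gm 0 * w' +
        cf3 s0 s1 s2 D.Fd v0.cR v0.cI v1.cR v1.cI v2.cR v2.cI +
        (l : ℂ) * ((s * cf3 s0 s1 s2 D.Fd f0.aR f0.aI f1.aR f1.aI f2.aR f2.aI) * w' +
          s * cf3 s0 s1 s2 D.Fd f0.bR f0.bI f1.bR f1.bI f2.bR f2.bI) - e‖ ^ 2 = T at *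
  generalize ‖Bf s v0.gm v0.cR v0.cI f0 l w' - D.Fd * e‖ ^ 2 = A0 at *
  generalize ‖Bf s v1.gm v1.cR v1.cI f1 l w' - D.Fd * e‖ ^ 2 = A1 at *
  generalize ‖Bf s v2.gm v2.cR v2.cI f2 l w' - D.Fd * e‖ ^ 2 = A2 at *
  have jen2 : (D.M : ℝ) * T ≤ D.Mt * (s0 * A0 + s1 * A1 + s2 * A2) := by
    rw [hMF', mul_comm ((D.Fd : ℝ) ^ 2), mul_assoc]
    exact mul_le_mul_of_nonneg_left jen hMt.le
  generalize ((MSc L0 l w' / D.M + (τ : ℂ) * (MSc L1 l w' / D.M)) * e *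
      ((1 + I * τ) / 2 * x ^ 2 + x)).re = MM at *
  generalize hKL : -(s0 * (v0.ka / D.M) + s1 * (v1.ka / D.M) + s2 * ((v2.ka : ℝ) / D.M)) *
        x.re + (s0 * (v0.lam / D.M) + s1 * (v1.lam / D.M) + s2 * (v2.lam / D.M)) *
          (‖x‖ ^ 2 + x.re) = KL at *
  generalize D.NN v0 v1 v2 τ s0 s1 s2 x q η = Nn at *
  have S1 : s0 / v0.td * D.FF v0 s f0 L0 L1 l x q η + s1 / v1.td * D.FF v1 s f1 L0 L1 l x q η +
      s2 / v2.td * D.FF v2 s f2 L0 L1 l x q η ≤ 2 * D.M * (KL + Nn + MM - T) := by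
    rw [F0, F1, F2]
    have : 2 * (D.M : ℝ) * (KL + Nn + MM - T) = 2 * D.M * KL + 2 * D.M * Nn + 2 * D.M * MM -
      2 * (D.M * T) := by ring
    rw [this, hkl, hnn, hmul]
    linarith only [g0, g1, m0, m1, jen2]
  have S2 : q1 * dpol τ 1 x q (Real.sin η) (Real.cos η) +
      q2 * dpol τ (-1) x q (Real.sin η) (Real.cos η) ≤
      Dc D.d x.re x.im ^ D.K * (2 * D.M * (KL + Nn + MM - T)) := by
    refine le_trans ?_ (mul_le_mul_of_nonneg_left S1 hD.le)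
    rw [← d1, ← d2]
    push_cast at c0 c1 c2
    linarith only [c0, c1, c2]
  have S3 : q1 / (2 * D.M * Dc D.d x.re x.im ^ D.K) * dpol τ 1 x q (Real.sin η) (Real.cos η) +
      q2 / (2 * D.M * Dc D.d x.re x.im ^ D.K) * dpol τ (-1) x q (Real.sin η) (Real.cos η) ≤
      KL + Nn + MM - T := by
    have e7 : q1 / (2 * D.M * Dc D.d x.re x.im ^ D.K) * dpol τ 1 x q (Real.sin η) (Real.cos η) +
      q2 / (2 * D.M * Dc D.d x.re x.im ^ D.K) * dpol τ (-1) x q (Real.sin η) (Real.cos η) =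
      (q1 * dpol τ 1 x q (Real.sin η) (Real.cos η) +
      q2 * dpol τ (-1) x q (Real.sin η) (Real.cos η)) / (2 * D.M * Dc D.d x.re x.im ^ D.K) := by
      ring
    rw [e7, div_le_iff₀ hMD]
    refine S2.trans (le_of_eq ?_)
    ring
  linarith only [S3]

end Pool.Agent.Helper42.CKC

end

section

namespace Pool.Sos71
end Pool.Sos71
namespace Pool.EK71
end Pool.EK71
namespace Pool.Agent.Helper52.EK
end Pool.Agent.Helper52.EK
namespace Pool.Agent.Helper2.EK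
end Pool.Agent.Helper2.EK
namespace Pool.Agent.Helper69.EK3
end Pool.Agent.Helper69.EK3
namespace Pool.Agent.Helper71.CK
end Pool.Agent.Helper71.CK
namespace Pool.Agent.Helper20.EK7
end Pool.Agent.Helper20.EK7
namespace Pool.Agent.Helper99.CKC
end Pool.Agent.Helper99.CKC
namespace Pool.Agent.Helper11.CKC
end Pool.Agent.Helper11.CKC

set_option autoImplicit false

open Complex MeasureTheory Metric Set

open scoped Real ComplexConjugate

namespace Pool.Agent.Helper42.CKC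

open Pool.Sos71 Pool.EK71 Pool.Agent.Helper52.EK Pool.Agent.Helper2.EK

open Pool.Agent.Helper69.EK3 (AP aev af rF rF_eq)

open Pool.Agent.Helper71.CK (LIn LOut)

open Pool.Agent.Helper20.EK7 (InL OutL OutD)

open Pool.Agent.Helper99.CKC

open Pool.Agent.Helper11.CKC (CL MSc Mqc MqA)

namespace DatC

/-- conditions on the data -/
structure Ok (D : DatC) (v0 v1 v2 : Vx) (Ln Ld Ln' Ld' : ℤ) : Prop where
  wf : D.wf = true
  g0 : okGs D.G0 = true
  g1 : okGs D.G1 = true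
  m0 : v0.HM.all HmC.ok = true
  m1 : v1.HM.all HmC.ok = true
  m2 : v2.HM.all HmC.ok = true
  M0 : 0 < D.M
  F0 : 0 < D.Fd
  MF : D.M = D.Fd ^ 2 * D.Mt
  rd0 : 0 < D.rd
  t0 : 0 < v0.td
  t1 : 0 < v1.td
  t2 : 0 < v2.td
  Ld0 : 0 < Ld
  Ld0' : 0 < Ld'
  inL : InL (D.p0 / D.rd) (D.p1 / D.rd) (D.p2 / D.rd)
  outD : OutD (D.q0 / D.rd) (D.q1 / D.rd) (D.q2 / D.rd)
  lIn : LIn (D.p0 / D.rd) (D.p1 / D.rd) (D.p2 / D.rd) (Ln / Ld)
  lOut : LOut (D.q0 / D.rd) (D.q1 / D.rd) (D.q2 / D.rd) (Ln' / Ld')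

variable {D : DatC} {v0 v1 v2 : Vx} {Ln Ld Ln' Ld' : ℤ}

theorem Ok.null (o : D.Ok v0 v1 v2 Ln Ld Ln' Ld') (τ s0 s1 s2 : ℝ) :
    NullX τ (D.NN v0 v1 v2 τ s0 s1 s2) :=
  (((nullX_Gs D.d τ D.G0 o.g0).add ((nullX_Gs D.d τ D.G1 o.g1).const_mul τ)).add
    ((((nullX_Hms τ v0.HM o.m0).const_mul s0).add ((nullX_Hms τ v1.HM o.m1).const_mul s1)).add
      ((nullX_Hms τ v2.HM o.m2).const_mul s2))).const_mul (1 / D.M)

/-- **the inequality in every direction** -/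
theorem Ok.point (o : D.Ok v0 v1 v2 Ln Ld Ln' Ld')
    (hI : SideP D.K Ln Ld v0 v1 v2 (D.tIn v0) (D.tIn v1) (D.tIn v2))
    (hO : SideP D.K Ln' Ld' v0 v1 v2 (D.tOut v0) (D.tOut v1) (D.tOut v2)) :
    ∃ B : ℝ, 0 ≤ B ∧ ∀ τ s0 s1 s2 : ℝ, 0 ≤ s0 → 0 ≤ s1 → 0 ≤ s2 → s0 + s1 + s2 = 1 →
      s0 * (v0.tn / v0.td) + s1 * (v1.tn / v1.td) + s2 * (v2.tn / v2.td) = τ →
      s0 * (v0.sn / v0.td) + s1 * (v1.sn / v1.td) + s2 * (v2.sn / v2.td) = τ ^ 2 →
      NullX τ (D.NN v0 v1 v2 τ s0 s1 s2) ∧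
      PtX τ (s0 * (v0.ka / D.M) + s1 * (v1.ka / D.M) + s2 * (v2.ka / D.M))
        (s0 * (v0.lam / D.M) + s1 * (v1.lam / D.M) + s2 * (v2.lam / D.M)) 0 0 B
        (cf3 s0 s1 s2 D.Fd v0.gm 0 v1.gm 0 v2.gm 0)
        (cf3 s0 s1 s2 D.Fd v0.cR v0.cI v1.cR v1.cI v2.cR v2.cI)
        (cf3 s0 s1 s2 D.Fd v0.fi.aR v0.fi.aI v1.fi.aR v1.fi.aI v2.fi.aR v2.fi.aI)
        (cf3 s0 s1 s2 D.Fd v0.fi.bR v0.fi.bI v1.fi.bR v1.fi.bI v2.fi.bR v2.fi.bI)
        (-cf3 s0 s1 s2 D.Fd v0.fo.aR v0.fo.aI v1.fo.aR v1.fo.aI v2.fo.aR v2.fo.aI)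
        (-cf3 s0 s1 s2 D.Fd v0.fo.bR v0.fo.bI v1.fo.bR v1.fo.bI v2.fo.bR v2.fo.bI)
        (D.p0 / D.rd) (D.p1 / D.rd) (D.p2 / D.rd) (D.q0 / D.rd) (D.q1 / D.rd) (D.q2 / D.rd)
        (MqA D.M D.MI0 D.MI1 D.MO0 D.MO1 (D.p0 / D.rd) (D.p1 / D.rd) (D.p2 / D.rd)
          (D.q0 / D.rd) (D.q1 / D.rd) (D.q2 / D.rd) τ)
        (D.NN v0 v1 v2 τ s0 s1 s2) := by
  obtain ⟨B1, hB1, Q1, Q2, hQ⟩ := hI
  obtain ⟨B2, hB2, Q1', Q2', hQ'⟩ := hO
  have w := wf_iff D o.wf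
  have hM : (0:ℝ) < D.M := by exact_mod_cast o.M0
  have hN : (0:ℝ) < D.d.N := by exact_mod_cast D.d.hN
  have hR : (0:ℝ) < D.rd := by exact_mod_cast o.rd0
  have hL : (0:ℝ) < Ld := by exact_mod_cast o.Ld0
  have hL' : (0:ℝ) < Ld' := by exact_mod_cast o.Ld0'
  have hNK : 0 ≤ (D.d.N : ℝ) ^ D.K / (2 * D.M) := by (clear * - hN hM; positivity)
  have hB : 0 ≤ (B1 + B2) * D.d.N ^ D.K / (2 * D.M) := by (clear * - hB1 hB2 hN hM; positivity)
  have mon1 : ∀ t : ℝ, 0 ≤ t → B1 * D.d.N ^ D.K / (2 * D.M) * t ≤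
      (B1 + B2) * D.d.N ^ D.K / (2 * D.M) * t := by
    intro t ht
    refine mul_le_mul_of_nonneg_right ?_ ht
    rw [mul_div_assoc, mul_div_assoc]
    exact mul_le_mul_of_nonneg_right (by linarith only [hB2]) hNK
  have mon2 : ∀ t : ℝ, 0 ≤ t → B2 * D.d.N ^ D.K / (2 * D.M) * t ≤
      (B1 + B2) * D.d.N ^ D.K / (2 * D.M) * t := by
    intro t ht
    refine mul_le_mul_of_nonneg_right ?_ ht
    rw [mul_div_assoc, mul_div_assoc]
    exact mul_le_mul_of_nonneg_right (by linarith only [hB1]) hNK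
  refine ⟨(B1 + B2) * D.d.N ^ D.K / (2 * D.M), hB,
    fun τ s0 s1 s2 p0 p1 p2 hs hτ hσ => ⟨o.null τ s0 s1 s2, ?_, ?_⟩⟩
  · intro x q η hη hx _ w' hw' h1 l hl
    obtain ⟨c1, c2, c3⟩ := o.lIn.l_bd o.inL h1
    rw [← hl] at c2 c3
    have l1 : (Ld : ℝ) * l ≤ Ln := by
      rw [le_div_iff₀ hL] at c3
      linarith only [c3]
    have hr : D.rd * (‖wx x q (Real.sin η) (Real.cos η)‖ ^ 2 - 1) +
        ((1 : ℤ) : ℝ) * l * rF D.p0 D.p1 D.p2 (wx x q (Real.sin η) (Real.cos η)) = 0 := by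
      rw [← hw']
      have e1 : l * rF (D.p0 / D.rd) (D.p1 / D.rd) (D.p2 / D.rd) w' = 1 - ‖w'‖ ^ 2 := by
        rw [hl, div_mul_cancel₀ _ c1.ne']
      rw [rF_div] at e1
      have e2 : l * rF D.p0 D.p1 D.p2 w' = D.rd * (1 - ‖w'‖ ^ 2) := by
        rw [← e1]
        (clear * - hR; field_simp)
      push_cast
      rw [one_mul, e2]
      ring
    obtain ⟨k1, k2, a1, a2, a3, a4, a5⟩ := side_pt w o.M0 o.F0 o.MF o.t0 o.t1 o.t2 (s := 1)
      (f0 := v0.fi) (f1 := v1.fi) (f2 := v2.fi) w.i0 w.i1 (R0 := v0.RI) (R1 := v1.RI)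
      (R2 := v2.RI) hB1 hQ p0 p1 p2 hs hτ hσ hη hx c2 l1 hr
    have ht : 0 ≤ 1 + ‖x‖ ^ 2 := by (clear * -; positivity)
    refine ⟨0, k1, k2, le_rfl, mul_nonneg hB ht, a1, a2.trans (mon1 _ ht), a3,
      a4.trans (mon1 _ ht), ?_⟩
    rw [← hw'] at a5
    unfold MqA Mqc
    rw [if_pos h1, if_pos h1, ← hl]
    simp only [Int.cast_one, one_mul] at a5
    simp only [ofReal_zero, zero_mul, sub_zero, add_zero]
    exact a5
  · intro x q η hη hx _ w' hw' h1 l hl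
    have hOL : OutL ((D.q1 : ℝ) / D.rd + D.q2 / D.rd) (D.q0 / D.rd) (D.q1 / D.rd)
      (D.q2 / D.rd) := ⟨rfl, o.outD.pos, o.outD.pos'⟩
    obtain ⟨c1, c2, c3⟩ := o.lOut.l_bd hOL h1.le
    rw [← hl] at c2 c3
    have l1 : (Ld' : ℝ) * l ≤ Ln' := by
      rw [le_div_iff₀ hL'] at c3
      linarith only [c3]
    have hr : D.rd * (‖wx x q (Real.sin η) (Real.cos η)‖ ^ 2 - 1) +
        ((-1 : ℤ) : ℝ) * l * rF D.q0 D.q1 D.q2 (wx x q (Real.sin η) (Real.cos η)) = 0 := by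
      rw [← hw']
      have e1 : l * rF (D.q0 / D.rd) (D.q1 / D.rd) (D.q2 / D.rd) w' = ‖w'‖ ^ 2 - 1 := by
        rw [hl, div_mul_cancel₀ _ c1.ne']
      rw [rF_div] at e1
      have e2 : l * rF D.q0 D.q1 D.q2 w' = D.rd * (‖w'‖ ^ 2 - 1) := by
        rw [← e1]
        (clear * - hR; field_simp)
      push_cast
      rw [neg_one_mul, neg_mul, e2]
      ring
    obtain ⟨k1, k2, a1, a2, a3, a4, a5⟩ := side_pt w o.M0 o.F0 o.MF o.t0 o.t1 o.t2 (s := -1)
      (f0 := v0.fo) (f1 := v1.fo) (f2 := v2.fo) w.o0 w.o1 (R0 := v0.RO) (R1 := v1.RO)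
      (R2 := v2.RO) hB2 hQ' p0 p1 p2 hs hτ hσ hη hx c2 l1 hr
    have ht : 0 ≤ 1 + ‖x‖ ^ 2 := by (clear * -; positivity)
    refine ⟨0, k1, k2, le_rfl, mul_nonneg hB ht, a1, a2.trans (mon2 _ ht), a3,
      a4.trans (mon2 _ ht), ?_⟩
    rw [← hw'] at a5
    unfold MqA Mqc
    rw [if_neg (not_le.2 h1), if_neg (not_le.2 h1), ← hl]
    simp only [Int.cast_neg, Int.cast_one, neg_one_mul] at a5
    simp only [ofReal_zero, zero_mul, sub_zero, add_zero]
    exact a5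

end DatC

end Pool.Agent.Helper42.CKC

end
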