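import Pool.Agent.Helper14.CMG.T10
import Pool.Agent.Helper14.CMF.T56
import Pool.Agent.Helper14.CMF.T49
import Pool.Agent.Helper14.CMG.T13

set_option linter.all false

section

namespace Pool.Agent.Helper42.CKC
end Pool.Agent.Helper42.CKC
namespace Pool.Agent.Helper99.CKC
end Pool.Agent.Helper99.CKC

set_option autoImplicit false

open Complex MeasureTheory Metric Set

open scoped Real ComplexConjugate

namespace Pool.Agent.Helper65.CKC

open Pool.Agent.Helper42.CKC (Vx DatC)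

open Pool.Agent.Helper99.CKC

/-- the weights: (α, α²), (β, β²), ((α + β)/2, α β) span the arc (τ, τ²), τ in [α, β] -/
theorem bern {α β τ : ℝ} (h : α < β) (h0 : α ≤ τ) (h1 : τ ≤ β) :
    ∃ s0 s1 s2 : ℝ, 0 ≤ s0 ∧ 0 ≤ s1 ∧ 0 ≤ s2 ∧ s0 + s1 + s2 = 1 ∧
      s0 * α + s1 * β + s2 * ((α + β) / 2) = τ ∧
      s0 * α ^ 2 + s1 * β ^ 2 + s2 * (α * β) = τ ^ 2 := by
  have hd : 0 < β - α := sub_pos.2 h
  obtain ⟨x, hx⟩ : ∃ x : ℝ, x = (τ - α) / (β - α) := ⟨_, rfl⟩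
  have hx0 : 0 ≤ x := by
    rw [hx]
    exact div_nonneg (by linarith) hd.le
  have hx1 : x ≤ 1 := by
    rw [hx, div_le_one hd]
    linarith
  have hτ : τ = α + (β - α) * x := by
    rw [hx]
    field_simp
    ring
  refine ⟨(1 - x) ^ 2, x ^ 2, 2 * (x * (1 - x)), sq_nonneg _, sq_nonneg _,
    mul_nonneg (by norm_num) (mul_nonneg hx0 (by linarith)), by ring, ?_, ?_⟩
  · rw [hτ]
    ring
  · rw [hτ]
    ring

/-- the three vertices of an arc -/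
def arcV (v0 v1 v2 : Vx) : Bool :=
  and (and (and (decide (0 < v0.td)) (decide (0 < v1.td))) (decide (0 < v2.td)))
    (and (and (and (decide (v0.sn * v0.td = v0.tn ^ 2)) (decide (v1.sn * v1.td = v1.tn ^ 2)))
      (and (decide (2 * v2.tn * (v0.td * v1.td) = v2.td * (v0.tn * v1.td + v1.tn * v0.td)))
        (decide (v2.sn * (v0.td * v1.td) = v0.tn * v1.tn * v2.td))))
      (decide (v0.tn * v1.td < v1.tn * v0.td)))

theorem arcV_td {v0 v1 v2 : Vx} (h : arcV v0 v1 v2 = true) :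
    0 < v0.td ∧ 0 < v1.td ∧ 0 < v2.td := by
  simp only [arcV, Bool.and_eq_true, decide_eq_true_eq] at h
  exact ⟨h.1.1.1, h.1.1.2, h.1.2⟩

/-- **the weights of a direction of the arc** -/
theorem arcV_bern {v0 v1 v2 : Vx} (h : arcV v0 v1 v2 = true) {τ : ℝ}
    (h0 : (v0.tn : ℝ) / v0.td ≤ τ) (h1 : τ ≤ (v1.tn : ℝ) / v1.td) :
    ∃ s0 s1 s2 : ℝ, 0 ≤ s0 ∧ 0 ≤ s1 ∧ 0 ≤ s2 ∧ s0 + s1 + s2 = 1 ∧
      s0 * (v0.tn / v0.td) + s1 * (v1.tn / v1.td) + s2 * (v2.tn / v2.td) = τ ∧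
      s0 * (v0.sn / v0.td) + s1 * (v1.sn / v1.td) + s2 * (v2.sn / v2.td) = τ ^ 2 := by
  obtain ⟨k0, k1, k2⟩ := arcV_td h
  simp only [arcV, Bool.and_eq_true, decide_eq_true_eq] at h
  obtain ⟨-, ⟨⟨a0, a1⟩, a2, a3⟩, a4⟩ := h
  have d0 : (0:ℝ) < v0.td := by exact_mod_cast k0
  have d1 : (0:ℝ) < v1.td := by exact_mod_cast k1
  have d2 : (0:ℝ) < v2.td := by exact_mod_cast k2
  have b0 : (v0.sn : ℝ) * v0.td = v0.tn ^ 2 := by exact_mod_cast a0
  have b1 : (v1.sn : ℝ) * v1.td = v1.tn ^ 2 := by exact_mod_cast a1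
  have b2 : 2 * (v2.tn : ℝ) * (v0.td * v1.td) = v2.td * (v0.tn * v1.td + v1.tn * v0.td) := by
    exact_mod_cast a2
  have b3 : (v2.sn : ℝ) * (v0.td * v1.td) = v0.tn * v1.tn * v2.td := by exact_mod_cast a3
  have b4 : (v0.tn : ℝ) * v1.td < v1.tn * v0.td := by exact_mod_cast a4
  have hlt : (v0.tn : ℝ) / v0.td < v1.tn / v1.td := by
    rw [div_lt_div_iff₀ d0 d1]
    exact b4
  obtain ⟨s0, s1, s2, p0, p1, p2, e1, e2, e3⟩ := bern hlt h0 h1
  have c0 : (v0.sn : ℝ) / v0.td = ((v0.tn : ℝ) / v0.td) ^ 2 := by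
    rw [div_pow, div_eq_div_iff d0.ne' (by positivity), ← b0]
    ring
  have c1 : (v1.sn : ℝ) / v1.td = ((v1.tn : ℝ) / v1.td) ^ 2 := by
    rw [div_pow, div_eq_div_iff d1.ne' (by positivity), ← b1]
    ring
  have c2 : (v2.tn : ℝ) / v2.td = ((v0.tn : ℝ) / v0.td + v1.tn / v1.td) / 2 := by
    field_simp
    linarith
  have c3 : (v2.sn : ℝ) / v2.td = (v0.tn : ℝ) / v0.td * (v1.tn / v1.td) := by
    field_simp
    linarith
  exact ⟨s0, s1, s2, p0, p1, p2, e1, by rw [c2, e2], by rw [c0, c1, c3, e3]⟩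

/-- the number of a vertex: `0 ≤ lam ≤ ka`, `ka/M < 2 (kA + kB sn/td)/kD` -/
def numV (M kA kB kD : ℤ) (v : Vx) : Bool :=
  and (and (decide (0 < v.td)) (and (decide (0 ≤ v.lam)) (decide (v.lam ≤ v.ka))))
    (decide (v.ka * (kD * v.td) < 2 * M * (kA * v.td + kB * v.sn)))

theorem numV_lt {M kA kB kD : ℤ} {v : Vx} (h : numV M kA kB kD v = true) (hM : 0 < M)
    (hD : 0 < kD) : (0:ℝ) ≤ v.lam / M ∧ (v.lam : ℝ) / M ≤ v.ka / M ∧
      (v.ka : ℝ) / M < 2 * (kA / kD + kB / kD * (v.sn / v.td)) := by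
  simp only [numV, Bool.and_eq_true, decide_eq_true_eq] at h
  obtain ⟨⟨h0, h1, h2⟩, h3⟩ := h
  have d : (0:ℝ) < v.td := by exact_mod_cast h0
  have m : (0:ℝ) < M := by exact_mod_cast hM
  have k : (0:ℝ) < kD := by exact_mod_cast hD
  have l0 : (0:ℝ) ≤ v.lam := by exact_mod_cast h1
  have l1 : (v.lam : ℝ) ≤ v.ka := by exact_mod_cast h2
  have l3 : (v.ka : ℝ) * (kD * v.td) < 2 * M * (kA * v.td + kB * v.sn) := by exact_mod_cast h3
  refine ⟨div_nonneg l0 m.le, div_le_div_of_nonneg_right l1 m.le, ?_⟩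
  rw [div_lt_iff₀ m]
  have e : 2 * ((kA : ℝ) / kD + kB / kD * (v.sn / v.td)) * M =
      (2 * M * (kA * v.td + kB * v.sn)) / (kD * v.td) := by
    field_simp
  rw [e, lt_div_iff₀ (by positivity)]
  exact l3

/-- the numbers of a direction of the arc -/
theorem num_arc {M kA kB kD : ℤ} {v0 v1 v2 : Vx} (g0 : numV M kA kB kD v0 = true)
    (g1 : numV M kA kB kD v1 = true) (g2 : numV M kA kB kD v2 = true) (hM : 0 < M)
    (hD : 0 < kD) {s0 s1 s2 τ : ℝ} (p0 : 0 ≤ s0) (p1 : 0 ≤ s1) (p2 : 0 ≤ s2)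
    (hs : s0 + s1 + s2 = 1)
    (hτ : s0 * (v0.sn / v0.td) + s1 * (v1.sn / v1.td) + s2 * (v2.sn / v2.td) = τ ^ 2) :
    0 ≤ s0 * (v0.lam / M) + s1 * (v1.lam / M) + s2 * (v2.lam / M) ∧
    s0 * ((v0.lam : ℝ) / M) + s1 * (v1.lam / M) + s2 * (v2.lam / M) ≤
      s0 * (v0.ka / M) + s1 * (v1.ka / M) + s2 * (v2.ka / M) ∧
    s0 * ((v0.ka : ℝ) / M) + s1 * (v1.ka / M) + s2 * (v2.ka / M) <
      2 * (kA / kD + kB / kD * τ ^ 2) := by
  obtain ⟨a0, a1, a2⟩ := numV_lt g0 hM hD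
  obtain ⟨b0, b1, b2⟩ := numV_lt g1 hM hD
  obtain ⟨c0, c1, c2⟩ := numV_lt g2 hM hD
  refine ⟨by positivity, ?_, ?_⟩
  · exact add_le_add (add_le_add (mul_le_mul_of_nonneg_left a1 p0)
      (mul_le_mul_of_nonneg_left b1 p1)) (mul_le_mul_of_nonneg_left c1 p2)
  · rw [← hτ]
    generalize (v0.ka : ℝ) / M = A0 at *
    generalize (v1.ka : ℝ) / M = A1 at *
    generalize (v2.ka : ℝ) / M = A2 at *
    generalize (v0.sn : ℝ) / v0.td = S0 at *
    generalize (v1.sn : ℝ) / v1.td = S1 at *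
    generalize (v2.sn : ℝ) / v2.td = S2 at *
    generalize (kA : ℝ) / kD = K at *
    generalize (kB : ℝ) / kD = L at *
    have e0 : 0 ≤ s0 * (2 * (K + L * S0) - A0) := mul_nonneg p0 (by linarith)
    have e1 : 0 ≤ s1 * (2 * (K + L * S1) - A1) := mul_nonneg p1 (by linarith)
    have e2 : 0 ≤ s2 * (2 * (K + L * S2) - A2) := mul_nonneg p2 (by linarith)
    have e3 : 2 * (K + L * (s0 * S0 + s1 * S1 + s2 * S2)) - (s0 * A0 + s1 * A1 + s2 * A2) =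
        s0 * (2 * (K + L * S0) - A0) + s1 * (2 * (K + L * S1) - A1) +
        s2 * (2 * (K + L * S2) - A2) := by
      linear_combination - 2 * K * hs
    by_contra hcon
    have e4 : s0 * (2 * (K + L * S0) - A0) + s1 * (2 * (K + L * S1) - A1) +
        s2 * (2 * (K + L * S2) - A2) ≤ 0 := by
      rw [← e3]
      linarith [not_lt.1 hcon]
    have z0 : s0 = 0 := by
      have : s0 * (2 * (K + L * S0) - A0) = 0 := by linarith
      rcases mul_eq_zero.1 this with h | h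
      · exact h
      · linarith
    have z1 : s1 = 0 := by
      have : s1 * (2 * (K + L * S1) - A1) = 0 := by linarith
      rcases mul_eq_zero.1 this with h | h
      · exact h
      · linarith
    have z2 : s2 = 0 := by
      have : s2 * (2 * (K + L * S2) - A2) = 0 := by linarith
      rcases mul_eq_zero.1 this with h | h
      · exact h
      · linarith
    rw [z0, z1, z2] at hs
    norm_num at hs

end Pool.Agent.Helper65.CKC

end

section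

namespace Pool.Agent.Helper42.CKC
end Pool.Agent.Helper42.CKC
namespace Pool.Agent.Helper99.CKC
end Pool.Agent.Helper99.CKC
namespace Pool.Agent.Helper11.CKC
end Pool.Agent.Helper11.CKC
namespace Pool.Agent.Helper20.EK7
end Pool.Agent.Helper20.EK7
namespace Pool.Agent.Helper20.CK
end Pool.Agent.Helper20.CK
namespace Pool.Agent.Helper82.CKC
end Pool.Agent.Helper82.CKC
namespace Pool.Agent.Helper69.CK
end Pool.Agent.Helper69.CK
namespace Pool.Agent.Helper33.CKC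
end Pool.Agent.Helper33.CKC

set_option autoImplicit false

open Complex MeasureTheory Metric Set

open scoped Real ComplexConjugate

namespace Pool.Agent.Helper65.CKC

open Pool.Agent.Helper42.CKC (Vx DatC)

open Pool.Agent.Helper99.CKC

open Pool.Agent.Helper11.CKC (MqA mOk_arc FChk covB arcB)

open Pool.Agent.Helper20.EK7 (InL OutD)

open Pool.Agent.Helper20.CK (ROk)

open Pool.Agent.Helper82.CKC (wu)

open Pool.Agent.Helper69.CK (MOk)

open Pool.Agent.Helper33.CKC (SecH)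

/-- the null Lagrangian of the data -/
noncomputable def ND (D : DatC) (v0 v1 v2 : Vx) (τ s0 s1 s2 : ℝ) (x q : ℂ) (η : ℝ) : ℝ :=
  (NGs D.d τ D.G0 x q η + τ * NGs D.d τ D.G1 x q η +
    (s0 * NHms v0.HM x q η + s1 * NHms v1.HM x q η + s2 * NHms v2.HM x q η)) / D.M

def okN (D : DatC) (v0 v1 v2 : Vx) : Bool :=
  and (and (okGs D.G0) (okGs D.G1))
    (and (v0.HM.all HmC.ok) (and (v1.HM.all HmC.ok) (v2.HM.all HmC.ok)))

theorem nullX_ND {D : DatC} {v0 v1 v2 : Vx} (h : okN D v0 v1 v2 = true) (τ s0 s1 s2 : ℝ) :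
    NullX τ (ND D v0 v1 v2 τ s0 s1 s2) := by
  simp only [okN, Bool.and_eq_true] at h
  obtain ⟨⟨g0, g1⟩, h0, h1, h2⟩ := h
  have k := ((nullX_Gs D.d τ D.G0 g0).add ((nullX_Gs D.d τ D.G1 g1).const_mul τ)).add
    ((((nullX_Hms τ v0.HM h0).const_mul s0).add ((nullX_Hms τ v1.HM h1).const_mul s1)).add
      ((nullX_Hms τ v2.HM h2).const_mul s2))
  refine (k.const_mul ((D.M : ℝ)⁻¹)).congr fun x q η => ?_
  unfold ND
  rw [div_eq_inv_mul]

/-- the inequality of the certificate in all directions of the arc -/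
def PtArc (D : DatC) (v0 v1 v2 : Vx) (p0 p1 p2 q0 q1 q2 : ℝ) : Prop :=
  ∀ τ s0 s1 s2 : ℝ, 0 ≤ s0 → 0 ≤ s1 → 0 ≤ s2 → s0 + s1 + s2 = 1 →
    s0 * (v0.tn / v0.td) + s1 * (v1.tn / v1.td) + s2 * (v2.tn / v2.td) = τ →
    s0 * (v0.sn / v0.td) + s1 * (v1.sn / v1.td) + s2 * (v2.sn / v2.td) = τ ^ 2 →
    ∃ (B : ℝ) (gam c a b a' b' : ℂ), 0 ≤ B ∧
      PtX τ (s0 * (v0.ka / D.M) + s1 * (v1.ka / D.M) + s2 * (v2.ka / D.M))
        (s0 * (v0.lam / D.M) + s1 * (v1.lam / D.M) + s2 * (v2.lam / D.M)) 0 0 B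
        gam c a b a' b' p0 p1 p2 q0 q1 q2
        (MqA D.M D.MI0 D.MI1 D.MO0 D.MO1 p0 p1 p2 q0 q1 q2 τ) (ND D v0 v1 v2 τ s0 s1 s2)

/-- all checks except the multiplier -/
def okA (D : DatC) (v0 v1 v2 : Vx) (kA kB kD : ℤ) : Bool :=
  and (and (okN D v0 v1 v2) (arcV v0 v1 v2))
    (and (and (decide (0 < D.M)) (decide (0 < kD)))
      (and (numV D.M kA kB kD v0) (and (numV D.M kA kB kD v1) (numV D.M kA kB kD v2))))

/-- **one direction of the arc** -/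
theorem dirX_arc {D : DatC} {v0 v1 v2 : Vx} {kA kB kD : ℤ} {p0 p1 p2 q0 q1 q2 : ℝ}
    (hok : okA D v0 v1 v2 kA kB kD = true) (hP : PtArc D v0 v1 v2 p0 p1 p2 q0 q1 q2) {τ : ℝ}
    (h0 : (v0.tn : ℝ) / v0.td ≤ τ) (h1 : τ ≤ (v1.tn : ℝ) / v1.td)
    (hM : ∃ (Mb : ℝ) (M' : ℂ → ℂ) (Lm ε₀ : ℝ), Mb < 2 * ((kA : ℝ) / kD + kB / kD * τ ^ 2) ∧
      0 < ε₀ ∧ MOk (fun m => conj (ud τ) ^ 2 * ((1 + (τ : ℂ) * I) / 2) *
        MqA D.M D.MI0 D.MI1 D.MO0 D.MO1 p0 p1 p2 q0 q1 q2 τ (wu (ud τ) m)) M' Mb Lm ε₀) :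
    DirX ((kA : ℝ) / kD + kB / kD * τ ^ 2) τ p0 p1 p2 q0 q1 q2 := by
  simp only [okA, Bool.and_eq_true, decide_eq_true_eq] at hok
  obtain ⟨⟨hN, hV⟩, ⟨hM0, hD0⟩, g0, g1, g2⟩ := hok
  obtain ⟨s0, s1, s2, a0, a1, a2, e1, e2, e3⟩ := arcV_bern hV h0 h1
  obtain ⟨B, gam, c, a, b, a', b', hB, hX⟩ := hP τ s0 s1 s2 a0 a1 a2 e1 e2 e3
  obtain ⟨k0, k1, k2⟩ := num_arc g0 g1 g2 hM0 hD0 a0 a1 a2 e1 e3
  obtain ⟨Mb, M', Lm, ε₀, hMb, hε, hMO⟩ := hM
  exact ⟨_, _, B, Mb, Lm, ε₀, gam, c, a, b, a', b', _, M', _, hB, k0, k1, k2, hMb, hε,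
    nullX_ND hN τ s0 s1 s2, hMO, hX⟩

/-- **the arc `0 ≤ τ ≤ Tn / Td`** -/
theorem secH_arc {D : DatC} {v0 v1 v2 : Vx} {kA kB kD : ℤ} {p0 p1 p2 q0 q1 q2 : ℝ}
    (hp : InL p0 p1 p2) (hq : OutD q0 q1 q2) {r r0 r1 r2 s s0 s1 s2 : ℤ}
    (hr : ROk r r0 r1 r2 p0 p1 p2) (hr' : ROk s s0 s1 s2 q0 q1 q2)
    (hok : okA D v0 v1 v2 kA kB kD = true) (hP : PtArc D v0 v1 v2 p0 p1 p2 q0 q1 q2)
    (hz : v0.tn = 0) (hk : 0 < kD) (hA : kD ≤ kA) (hB : 0 ≤ kB) {cs : List FChk} (hne : cs ≠ [])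
    (hcov : covB v1.tn v1.td 0 1 cs = true)
    (harc : arcB D.M D.MI0 D.MI1 D.MO0 D.MO1 r r0 r1 r2 s s0 s1 s2 kA kB kD cs = true)
    (hbox : ∀ c ∈ cs, c.okI = true ∧ c.okO = true) :
    SecH ((kA : ℝ) / kD) ((kB : ℝ) / kD) ((v1.tn : ℝ) / v1.td) := by
  have hV : arcV v0 v1 v2 = true := by
    simp only [okA, Bool.and_eq_true] at hok
    exact hok.1.2
  have hd := (arcV_td hV).2.1
  have hd0 : (0:ℝ) < v1.td := by exact_mod_cast hd
  have hk0 : (0:ℝ) < kD := by exact_mod_cast hk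
  have hA0 : (kD : ℝ) ≤ kA := by exact_mod_cast hA
  have hB0 : (0:ℝ) ≤ kB := by exact_mod_cast hB
  refine secH_of_DirX (p0 := p0) (p1 := p1) (p2 := p2) (q0 := q0) (q1 := q1) (q2 := q2)
    ((one_le_div hk0).2 hA0) (div_nonneg hB0 hk0.le) hp hq fun τ h0 h1 => ?_
  refine dirX_arc hok hP (by rw [hz]; simpa using h0) h1 ?_
  exact mOk_arc hp hq hr hr' hne hd hB hk hcov harc hbox h0 ((le_div_iff₀ hd0).1 h1)

end Pool.Agent.Helper65.CKC

end

section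

namespace Pool.Agent.Helper42.CKC
end Pool.Agent.Helper42.CKC
namespace Pool.Agent.Helper99.CKC
end Pool.Agent.Helper99.CKC
namespace Pool.Agent.Helper11.CKC
end Pool.Agent.Helper11.CKC
namespace Pool.Agent.Helper20.EK7
end Pool.Agent.Helper20.EK7
namespace Pool.Agent.Helper20.CK
end Pool.Agent.Helper20.CK
namespace Pool.Agent.Helper82.CKC
end Pool.Agent.Helper82.CKC
namespace Pool.Agent.Helper69.CK
end Pool.Agent.Helper69.CK
namespace Pool.Agent.Helper33.CKC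
end Pool.Agent.Helper33.CKC
namespace Pool.Agent.Helper58.CKC
end Pool.Agent.Helper58.CKC

set_option autoImplicit false

open Complex MeasureTheory Metric Set

open scoped Real ComplexConjugate

namespace Pool.Agent.Helper65.CKC

open Pool.Agent.Helper42.CKC (Vx DatC)

open Pool.Agent.Helper99.CKC

open Pool.Agent.Helper11.CKC (MqA mOk_F FChk covB covB_sound arcB arcB_mem numB numB_lt uT)

open Pool.Agent.Helper20.EK7 (InL OutL OutD)

open Pool.Agent.Helper20.CK (ROk)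

open Pool.Agent.Helper82.CKC (wu)

open Pool.Agent.Helper69.CK (MOk)

open Pool.Agent.Helper33.CKC (SecH Low low SigC.conj)

open Pool.Agent.Helper58.CKC (SigC)

/-- the hypothesis for an arc: `τ = tan (φ / 2)`, `u = e^(iφ) = (1 + i τ) / (1 - i τ)` -/
def SecI (a b T₀ T₁ : ℝ) : Prop :=
  ∀ ta : ℝ, T₀ ≤ ta → ta ≤ T₁ → ∀ t : ℂ, a + b * ta ^ 2 ≤ ‖t‖ →
    t = -((‖t‖ : ℂ) * conj ((1 + ta * I) / (1 - ta * I))) →
    ∀ e : ℝ, 0 < e → SigC t (‖t‖ - 1 + e)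

/-- **an arc** -/
theorem secI_of_DirX {a b T₀ T₁ p0 p1 p2 q0 q1 q2 : ℝ} (ha : 1 ≤ a) (hb : 0 ≤ b)
    (hp : InL p0 p1 p2) (hq : OutD q0 q1 q2)
    (H : ∀ τ : ℝ, T₀ ≤ τ → τ ≤ T₁ → DirX (a + b * τ ^ 2) τ p0 p1 p2 q0 q1 q2) :
    SecI a b T₀ T₁ := by
  intro τ h0 h1 t ht htu e he
  have hb2 : 0 ≤ b * τ ^ 2 := mul_nonneg hb (sq_nonneg _)
  refine (H τ h0 h1).sig (by linarith only [ha, hb2]) hp hq ht ?_ he
  unfold ud
  rw [mul_comm I (τ : ℂ)]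
  exact htu

/-- the cells cover `[An/Ad, Tn/Td]` -/
theorem cov_arc {An Ad Tn Td : ℤ} (hAd : 0 < Ad) (hTd : 0 < Td) {τ : ℝ} (h0 : (An : ℝ) ≤ τ * Ad)
    (hτ : τ * Td ≤ Tn) {cs : List FChk} (h : covB Tn Td An Ad cs = true) (hne : cs ≠ [])
    (had : ∀ c ∈ cs, 0 < c.ad) :
    ∃ c ∈ cs, (c.an : ℝ) ≤ c.ad * τ ∧ (c.ad : ℝ) * τ ≤ c.bn := by
  cases cs with
  | nil => exact absurd rfl hne
  | cons c cs =>
    simp only [covB, Bool.and_eq_true, decide_eq_true_eq] at h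
    obtain ⟨h1, h2⟩ := h
    have hc := had c List.mem_cons_self
    have hc0 : (0:ℝ) < c.ad := by exact_mod_cast hc
    have hA0 : (0:ℝ) < Ad := by exact_mod_cast hAd
    by_cases hb : (c.ad : ℝ) * τ ≤ c.bn
    · refine ⟨c, List.mem_cons_self, ?_, hb⟩
      have h3 : (c.an : ℝ) * Ad ≤ An * c.ad := by exact_mod_cast h1
      have h4 : (An : ℝ) * c.ad ≤ τ * Ad * c.ad := mul_le_mul_of_nonneg_right h0 hc0.le
      have h5 : (c.an : ℝ) * Ad ≤ c.ad * τ * Ad := by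
        calc (c.an : ℝ) * Ad ≤ τ * Ad * c.ad := h3.trans h4
          _ = c.ad * τ * Ad := by ring
      exact le_of_mul_le_mul_right h5 hA0
    · obtain ⟨d, hd, hd2⟩ := covB_sound hTd hτ cs c.bn c.ad h2 hc
        (fun e he => had e (List.mem_cons_of_mem _ he)) (not_le.1 hb)
      exact ⟨d, List.mem_cons_of_mem _ hd, hd2⟩

/-- **the multiplier of every direction of the arc `An/Ad ≤ τ ≤ Tn/Td`** -/
theorem mOk_arcI {p0 p1 p2 q0 q1 q2 : ℝ} (hp : InL p0 p1 p2) (hq : OutD q0 q1 q2)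
    {M : ℤ} {I0 I1 O0 O1 : Pool.Agent.Helper11.CKC.CL}
    {r r0 r1 r2 s s0 s1 s2 kA kB kD An Ad Tn Td : ℤ}
    (hr : ROk r r0 r1 r2 p0 p1 p2) (hr' : ROk s s0 s1 s2 q0 q1 q2) {cs : List FChk}
    (hne : cs ≠ []) (hAd : 0 < Ad) (hTd : 0 < Td) (hkB : 0 ≤ kB) (hkD : 0 < kD)
    (hcov : covB Tn Td An Ad cs = true)
    (harc : arcB M I0 I1 O0 O1 r r0 r1 r2 s s0 s1 s2 kA kB kD cs = true)
    (hbox : ∀ c ∈ cs, c.okI = true ∧ c.okO = true) {τ : ℝ} (h0 : (An : ℝ) ≤ τ * Ad)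
    (hτ : τ * Td ≤ Tn) :
    ∃ (Mb : ℝ) (M' : ℂ → ℂ) (Lm ε₀ : ℝ), Mb < 2 * ((kA : ℝ) / kD + kB / kD * τ ^ 2) ∧
      0 < ε₀ ∧ MOk (fun m => conj (ud τ) ^ 2 * ((1 + (τ : ℂ) * I) / 2) *
        MqA M I0 I1 O0 O1 p0 p1 p2 q0 q1 q2 τ (wu (ud τ) m)) M' Mb Lm ε₀ := by
  obtain ⟨c, hc, ha, hb⟩ := cov_arc hAd hTd h0 hτ hcov hne fun c hc => by
    have h1 := (arcB_mem harc hc).2.1
    simp only [numB, Bool.and_eq_true, decide_eq_true_eq] at h1
    exact h1.1.2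
  obtain ⟨h1, h2, ⟨a1, a2, a3, a4⟩, b1, b2, b3, b4⟩ := arcB_mem harc hc
  have hlt := numB_lt h2 hkB hkD ha hb
  obtain ⟨Mb, hM1, hM2⟩ := exists_between hlt
  obtain ⟨k, hk, hl⟩ := hp.low
  have h3 : OutL (q1 + q2) q0 q1 q2 := ⟨rfl, hq.pos, hq.pos'⟩
  obtain ⟨k', hk', hl'⟩ := h3.low
  obtain ⟨M', L', ε, hε, hMO⟩ := mOk_F (I0 := I0) (I1 := I1) (O0 := O0) (O1 := O1) (M := M)
    hk (fun w hw => le_trans (by nlinarith only [hk]) (hl w hw)) hk'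
    (fun w => le_trans (by (clear * - hk'; nlinarith only [hk'])) (hl' w)) c
    (by rw [a1, a2, a3, a4]; exact hr) (by rw [b1, b2, b3, b4]; exact hr') h1 (hbox c hc).1
    (hbox c hc).2 ha hb hM1
  refine ⟨Mb, M', L', ε, hM2, hε, ?_⟩
  have e : uT τ = ud τ := by
    unfold uT ud
    rw [mul_comm (τ : ℂ) I]
  rw [e] at hMO
  exact hMO

/-- **the arc from the data** -/
theorem secI_arc {D : DatC} {v0 v1 v2 : Vx} {kA kB kD : ℤ} {p0 p1 p2 q0 q1 q2 : ℝ}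
    (hp : InL p0 p1 p2) (hq : OutD q0 q1 q2) {r r0 r1 r2 s s0 s1 s2 : ℤ}
    (hr : ROk r r0 r1 r2 p0 p1 p2) (hr' : ROk s s0 s1 s2 q0 q1 q2)
    (hok : okA D v0 v1 v2 kA kB kD = true) (hP : PtArc D v0 v1 v2 p0 p1 p2 q0 q1 q2)
    (hk : 0 < kD) (hA : kD ≤ kA) (hB : 0 ≤ kB) {cs : List FChk} (hne : cs ≠ [])
    (hcov : covB v1.tn v1.td v0.tn v0.td cs = true)
    (harc : arcB D.M D.MI0 D.MI1 D.MO0 D.MO1 r r0 r1 r2 s s0 s1 s2 kA kB kD cs = true)
    (hbox : ∀ c ∈ cs, c.okI = true ∧ c.okO = true) :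
    SecI ((kA : ℝ) / kD) ((kB : ℝ) / kD) ((v0.tn : ℝ) / v0.td) ((v1.tn : ℝ) / v1.td) := by
  have hV : arcV v0 v1 v2 = true := by
    simp only [okA, Bool.and_eq_true] at hok
    exact hok.1.2
  obtain ⟨hd', hd, -⟩ := arcV_td hV
  have hd0 : (0:ℝ) < v1.td := by exact_mod_cast hd
  have hd0' : (0:ℝ) < v0.td := by exact_mod_cast hd'
  have hk0 : (0:ℝ) < kD := by exact_mod_cast hk
  have hA0 : (kD : ℝ) ≤ kA := by exact_mod_cast hA
  have hB0 : (0:ℝ) ≤ kB := by exact_mod_cast hB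
  refine secI_of_DirX (p0 := p0) (p1 := p1) (p2 := p2) (q0 := q0) (q1 := q1) (q2 := q2)
    ((one_le_div hk0).2 hA0) (div_nonneg hB0 hk0.le) hp hq fun τ h0 h1 => ?_
  refine dirX_arc hok hP h0 h1 ?_
  exact mOk_arcI hp hq hr hr' hne hd' hd hB hk hcov harc hbox ((div_le_iff₀ hd0').1 h0)
    ((le_div_iff₀ hd0).1 h1)

/-- all directions of an arc and of its reflection -/
theorem arc_of {a b T₀ T₁ : ℝ} (hT : 0 ≤ T₁) (H : SecI a b T₀ T₁) :
    ∀ t : ℂ, t ≠ 0 → T₀ ^ 2 * (‖t‖ - t.re) ≤ ‖t‖ + t.re → ‖t‖ + t.re ≤ T₁ ^ 2 * (‖t‖ - t.re) →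
      a * (‖t‖ - t.re) + b * (‖t‖ + t.re) ≤ ‖t‖ * (‖t‖ - t.re) →
      ∀ e : ℝ, 0 < e → SigC t (‖t‖ - 1 + e) := by
  have key : ∀ t : ℂ, t ≠ 0 → 0 ≤ t.im → T₀ ^ 2 * (‖t‖ - t.re) ≤ ‖t‖ + t.re →
      ‖t‖ + t.re ≤ T₁ ^ 2 * (‖t‖ - t.re) →
      a * (‖t‖ - t.re) + b * (‖t‖ + t.re) ≤ ‖t‖ * (‖t‖ - t.re) →
      ∀ e : ℝ, 0 < e → SigC t (‖t‖ - 1 + e) := by
    intro t ht him h10 h1 h2
    have hn : 0 < ‖t‖ := norm_pos_iff.2 ht
    have hre : t.re ≤ ‖t‖ := Complex.re_le_norm t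
    have hd : 0 < ‖t‖ - t.re := by
      rcases hre.lt_or_eq with h | h
      · linarith only [h]
      · rw [← h] at h1
        have : T₁ ^ 2 * (t.re - t.re) = 0 := by ring
        rw [this] at h1
        rw [← h] at hn
        (clear * - h1 hn; linarith)
    have hsq : ‖t‖ ^ 2 = t.re ^ 2 + t.im ^ 2 := by
      rw [← Complex.normSq_eq_norm_sq, Complex.normSq_apply]
      ring
    obtain ⟨n, hn'⟩ : ∃ n, n = ‖t‖ := ⟨_, rfl⟩
    obtain ⟨d, hd'⟩ : ∃ d, d = n - t.re := ⟨_, rfl⟩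
    rw [← hn'] at hn hd hsq h1 h10 h2
    rw [← hd'] at hd h1 h10 h2
    have hta0 : 0 ≤ t.im / d := div_nonneg him hd.le
    have hta2 : (t.im / d) ^ 2 = (n + t.re) / d := by
      rw [div_pow, div_eq_div_iff (by (clear * - hd; positivity)) hd.ne']
      rw [hd'] at hd ⊢
      have : t.im ^ 2 = (n + t.re) * (n - t.re) := by linarith only [hsq]
      rw [this]
      ring
    have htaT : t.im / d ≤ T₁ := by
      refine abs_le_of_sq_le_sq' ?_ hT |>.2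
      rw [hta2, div_le_iff₀ hd]
      exact h1
    have htaT0 : T₀ ≤ t.im / d := by
      refine abs_le_of_sq_le_sq' ?_ hta0 |>.2
      rw [hta2, le_div_iff₀ hd]
      exact h10
    refine H (t.im / d) htaT0 htaT t ?_ ?_
    · rw [hta2, ← hn']
      have e1 : a + b * ((n + t.re) / d) = (a * d + b * (n + t.re)) / d := by
        (clear * - hd; field_simp)
      rw [e1, div_le_iff₀ hd]
      exact h2
    · rw [← hn']
      have hne : (1 : ℂ) + ((t.im / d : ℝ) : ℂ) * I ≠ 0 := by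
        intro h
        have := congrArg Complex.re h
        simp at this
      have e1 : conj ((1 + ((t.im / d : ℝ) : ℂ) * I) /
          (1 - ((t.im / d : ℝ) : ℂ) * I)) =
          (1 - ((t.im / d : ℝ) : ℂ) * I) / (1 + ((t.im / d : ℝ) : ℂ) * I) := by
        rw [map_div₀, map_add, map_sub, map_one, map_mul, Complex.conj_ofReal, conj_I]
        congr 1 <;> ring
      rw [e1, ← neg_mul, ← mul_div_assoc, eq_div_iff hne]
      have s1 : t.im = d * (t.im / d) := by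
        (clear * - hd; field_simp)
      have s2 : t.im * (t.im / d) = n + t.re := by
        have : t.im * (t.im / d) = d * (t.im / d) ^ 2 := by
          rw [div_pow]
          (clear * - hd; field_simp)
        rw [this, hta2]
        (clear * - hd; field_simp)
      obtain ⟨τ, hτ⟩ : ∃ τ, τ = t.im / d := ⟨_, rfl⟩
      rw [← hτ] at s1 s2 ⊢
      apply Complex.ext
      · simp only [mul_re, mul_im, add_re, add_im, sub_re, sub_im, neg_re, neg_im, one_re, one_im,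
          ofReal_re, ofReal_im, I_re, I_im]
        linarith only [s2]
      · simp only [mul_re, mul_im, add_re, add_im, sub_re, sub_im, neg_re, neg_im, one_re, one_im,
          ofReal_re, ofReal_im, I_re, I_im]
        rw [hd'] at s1
        linarith only [s1]
  intro t ht h10 h1 h2 e he
  rcases le_total 0 t.im with him | him
  · exact key t ht him h10 h1 h2 e he
  · have hc : conj t ≠ 0 := by
      rw [Ne, map_eq_zero]
      exact ht
    have hn : ‖conj t‖ = ‖t‖ := RCLike.norm_conj t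
    have h3 := key (conj t) hc (by rw [Complex.conj_im]; linarith)
      (by rw [hn, Complex.conj_re]; exact h10)
      (by rw [hn, Complex.conj_re]; exact h1) (by rw [hn, Complex.conj_re]; exact h2) e he
    rw [hn] at h3
    have h4 := SigC.conj h3
    rwa [Complex.conj_conj] at h4

/-- the region of an arc -/
def Arc (a b T₀ T₁ : ℝ) (t : ℂ) : Prop :=
  T₀ ^ 2 * (‖t‖ - t.re) ≤ ‖t‖ + t.re ∧ ‖t‖ + t.re ≤ T₁ ^ 2 * (‖t‖ - t.re) ∧
    a * (‖t‖ - t.re) + b * (‖t‖ + t.re) ≤ ‖t‖ * (‖t‖ - t.re)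

/-- **upper and lower bound in the region of an arc** -/
theorem arc_all {a b T₀ T₁ : ℝ} (ha : 1 < a) (hb : 0 ≤ b) (hT : 0 ≤ T₁)
    (H : SecI a b T₀ T₁) {t : ℂ} (ht : t ≠ 0) (h : Arc a b T₀ T₁ t) :
    (∀ e : ℝ, 0 < e → SigC t (‖t‖ - 1 + e)) ∧ Low t := by
  obtain ⟨h0, h1, h2⟩ := h
  refine ⟨arc_of hT H t ht h0 h1 h2, ?_⟩
  have hn : 0 < ‖t‖ := norm_pos_iff.2 ht
  have hre : t.re ≤ ‖t‖ := Complex.re_le_norm t
  have hre2 : -‖t‖ ≤ t.re := (abs_le.1 (Complex.abs_re_le_norm t)).1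
  have hlt : t.re < ‖t‖ := by
    rcases hre.lt_or_eq with h | h
    · exact h
    · exfalso
      have h3 : ‖t‖ - t.re = 0 := by linarith only [h]
      rw [h3, mul_zero] at h1
      linarith
  refine low ?_ hlt
  have hd : 0 < ‖t‖ - t.re := by (clear * - hlt; linarith)
  have hb' : 0 ≤ b * (‖t‖ + t.re) := mul_nonneg hb (by (clear * - hre2; linarith))
  have h3 : a * (‖t‖ - t.re) ≤ ‖t‖ * (‖t‖ - t.re) := by linarith
  have h4 := le_of_mul_le_mul_right h3 hd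
  linarith

end Pool.Agent.Helper65.CKC

end

section

namespace Pool.Sos71
end Pool.Sos71
namespace Pool.EK71
end Pool.EK71
namespace Pool.Agent.Helper52.EK
end Pool.Agent.Helper52.EK
namespace Pool.Agent.Helper69.EK3
end Pool.Agent.Helper69.EK3
namespace Pool.Agent.Helper69.EK7
end Pool.Agent.Helper69.EK7
namespace Pool.Agent.Helper69.CKC
end Pool.Agent.Helper69.CKC
namespace Pool.Agent.Helper99.CKC
end Pool.Agent.Helper99.CKC
namespace Pool.Agent.Helper42.CKC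
end Pool.Agent.Helper42.CKC

set_option autoImplicit false

open Complex MeasureTheory Metric Set

open scoped Real ComplexConjugate

namespace Pool.Agent.Helper65.CKY

open Pool.Sos71 Pool.EK71

open Pool.Agent.Helper52.EK Pool.Agent.Helper69.EK3 Pool.Agent.Helper69.EK7

open Pool.Agent.Helper69.CKC Pool.Agent.Helper99.CKC

open Pool.Agent.Helper42.CKC

/-- `y` -/
noncomputable def yx (τ : ℝ) (x : ℂ) : ℂ := (1 + I * τ) * x

/-- composition with a linear map -/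
theorem c1x_lin {H H1 H2 : ℂ → ℂ} (h : C1x H H1 H2) (c b : ℂ) :
    C1x (fun x => c * H (b * x))
      (fun x => c * (H1 (b * x) * (b.re : ℂ) + H2 (b * x) * (b.im : ℂ)))
      (fun x => c * (H2 (b * x) * (b.re : ℂ) - H1 (b * x) * (b.im : ℂ))) := by
  have ca : Continuous fun x : ℂ => b * x := by fun_prop
  have c1 := h.cx.comp ca
  have c2 := h.cy.comp ca
  refine ⟨fun x => ?_, ?_, ?_⟩
  · have h0 : HasFDerivAt (fun x : ℂ => b * x) (b • ContinuousLinearMap.id ℝ ℂ) x :=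
      (hasFDerivAt_id x).const_mul b
    have h1 := ((h.hd (b * x)).comp x h0).const_mul c
    refine h1.congr_fderiv ?_
    ext v
    simp only [_root_.add_apply, ContinuousLinearMap.smulRight_apply, reCLM_apply, imCLM_apply,
      _root_.smul_apply, ContinuousLinearMap.comp_apply,
      ContinuousLinearMap.id_apply, smul_eq_mul, real_smul, mul_re, mul_im, ofReal_sub,
      ofReal_add, ofReal_mul]
    ring
  · exact continuous_const.mul ((c1.mul continuous_const).add (c2.mul continuous_const))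
  · exact continuous_const.mul ((c2.mul continuous_const).sub (c1.mul continuous_const))

/-- the integrand of a potential in `y`, with a factor -/
noncomputable def NPY (τ : ℝ) (c : ℂ) (j : ℕ) (a a₁ : ℝ) (H H1 H2 : ℂ) (y q : ℂ) : ℝ :=
  (c * q ^ j * (I * (1 + I * τ) * a₁ * H +
    a * (1 - I * τ) * (H1 + I * H2) * conj (q * (1 + y)))).re

theorem NPY_eq (τ : ℝ) (c : ℂ) (j : ℕ) (a a₁ : ℝ) (H H1 H2 x q : ℂ) :
    NP τ j a a₁ (c * H) (c * (H1 * ((1 + I * (τ : ℂ)).re : ℂ) + H2 * ((1 + I * (τ : ℂ)).im : ℂ)))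
      (c * (H2 * ((1 + I * (τ : ℂ)).re : ℂ) - H1 * ((1 + I * (τ : ℂ)).im : ℂ))) x q =
      NPY τ c j a a₁ H H1 H2 (yx τ x) q := by
  have e1 : (1 + I * (τ : ℂ)).re = 1 := by simp
  have e2 : (1 + I * (τ : ℂ)).im = τ := by simp
  unfold NP NPY yx
  rw [e1, e2]
  congr 1
  push_cast
  linear_combination (q ^ j * (a : ℂ) * c * H2 * τ * conj (q * (1 + (1 + I * τ) * x))) * I_sq

/-- **the null Lagrangian of a potential in `y`** -/
theorem nullX_PY {H H1 H2 : ℂ → ℂ} (hH : C1x H H1 H2) (τ : ℝ) (c : ℂ) (j : ℕ) {a a₁ : ℝ → ℝ}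
    (g1 : ∀ η, HasDerivAt a (a₁ η) η) (g1c : Continuous a₁) (f1 : a 0 = 0) (f2 : a π = 0) {C : ℝ}
    (hC : ∀ (x q : ℂ) (η : ℝ), η ∈ Icc (0:ℝ) π → Real.sin η * ‖x‖ ≤ 10 →
      Real.sin η * ‖q‖ ≤ 38 → |a η| * ‖H (yx τ x)‖ * ‖q‖ ^ j ≤ C * Real.sin η * (1 + ‖x‖ ^ 2)) :
    NullX τ (fun x q η => NPY τ c j (a η) (a₁ η) (H (yx τ x)) (H1 (yx τ x)) (H2 (yx τ x))
      (yx τ x) q) := by
  have h := isNull_P (c1x_lin hH c (1 + I * τ)) τ j g1 g1c f1 f2 (C := ‖c‖ * C) (by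
    intro x q η hη hx hq
    have h1 := hC x q η hη hx hq
    rw [norm_mul]
    have h2 := mul_le_mul_of_nonneg_left h1 (norm_nonneg c)
    unfold yx at h2
    calc |a η| * (‖c‖ * ‖H ((1 + I * τ) * x)‖) * ‖q‖ ^ j =
        ‖c‖ * (|a η| * ‖H ((1 + I * τ) * x)‖ * ‖q‖ ^ j) := by ring
      _ ≤ ‖c‖ * (C * Real.sin η * (1 + ‖x‖ ^ 2)) := h2
      _ = ‖c‖ * C * Real.sin η * (1 + ‖x‖ ^ 2) := by ring)
  refine NullX.congr (N := fun x q η => NP τ j (a η) (a₁ η) (c * H ((1 + I * τ) * x))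
    (c * (H1 ((1 + I * τ) * x) * ((1 + I * (τ : ℂ)).re : ℂ) +
      H2 ((1 + I * τ) * x) * ((1 + I * (τ : ℂ)).im : ℂ)))
    (c * (H2 ((1 + I * τ) * x) * ((1 + I * (τ : ℂ)).re : ℂ) -
      H1 ((1 + I * τ) * x) * ((1 + I * (τ : ℂ)).im : ℂ))) x q) h fun x q η => ?_
  exact (NPY_eq τ c j (a η) (a₁ η) (H (yx τ x)) (H1 (yx τ x)) (H2 (yx τ x)) x q).symm

theorem norm_yx (τ : ℝ) (x : ℂ) : ‖yx τ x‖ = ‖(1 : ℂ) + I * τ‖ * ‖x‖ := by
  unfold yx
  rw [norm_mul]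

theorem one_le_fac (τ : ℝ) : 1 ≤ ‖(1 : ℂ) + I * τ‖ := by
  have h := abs_re_le_norm ((1 : ℂ) + I * τ)
  have e : ((1 : ℂ) + I * τ).re = 1 := by simp
  rw [e, abs_one] at h
  exact h

theorem HD_grg' (d : DC) (k : ℕ) (M1 M2 : BP) (g : AP) (h : okC k (g, M1, M2) = true) {Λ : ℝ}
    (hΛ : 1 ≤ Λ) :
    ∃ C : ℝ, 0 ≤ C ∧ ∀ (x : ℂ) (η : ℝ), η ∈ Icc (0:ℝ) π → Real.sin η * ‖x‖ ≤ 10 * Λ →
      |af g η| * ‖HD d k M1 M2 x‖ ≤ C * (1 + ‖x‖ ^ 2) := by
  have hΛ0 : 0 < Λ := by (clear * - hΛ; linarith only [hΛ])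
  induction g with
  | nil =>
    refine ⟨0, le_rfl, fun x η hη _ => ?_⟩
    simp [af, aev]
  | cons t g ih =>
    obtain ⟨c, i, j⟩ := t
    simp only [Pool.Agent.Helper99.CKC.okC, List.all_cons, Bool.and_eq_true] at h
    obtain ⟨⟨a1, a2⟩, a3⟩ := h
    obtain ⟨C₁, h1, k1⟩ := ih (by simpa only [Pool.Agent.Helper99.CKC.okC] using a3)
    obtain ⟨C₂, h2, k2⟩ := HD_gr d k (min i j) M1 M2 a1 a2
    refine ⟨|(c : ℝ)| * (Λ ^ (min i j) * C₂) + C₁, by (clear * - hΛ h2 h1; positivity), fun x η hη hX => ?_⟩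
    obtain ⟨s0, s1, c0, c1⟩ := half_bd hη
    have k3 := k1 x η hη hX
    have e2 := two_sc η
    have hsc0 : 0 ≤ Real.sin (η / 2) * Real.cos (η / 2) := mul_nonneg s0 c0
    have hsc1 : Real.sin (η / 2) * Real.cos (η / 2) ≤ 1 := mul_le_one₀ s1 c0 c1
    have k4 := k2 x (Real.sin (η / 2) * Real.cos (η / 2) / Λ) (div_nonneg hsc0 hΛ0.le)
      ((div_le_one hΛ0).2 (hsc1.trans hΛ)) (by
        have h5 : 2 * (Real.sin (η / 2) * Real.cos (η / 2)) * ‖x‖ ≤ 10 * Λ := by rw [e2]; exact hX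
        have h6 : 0 ≤ Real.sin (η / 2) * Real.cos (η / 2) * ‖x‖ := mul_nonneg hsc0 (norm_nonneg x)
        rw [div_mul_eq_mul_div, div_le_iff₀ hΛ0]
        (clear * - h5 h6; linarith only [h5, h6]))
    have k5 : (Real.sin (η / 2) * Real.cos (η / 2)) ^ (min i j) * ‖HD d k M1 M2 x‖ ≤
        Λ ^ (min i j) * C₂ * (1 + ‖x‖ ^ 2) := by
      have h7 := mul_le_mul_of_nonneg_left k4 (pow_nonneg hΛ0.le (min i j))
      rw [div_pow] at h7
      have e3 : Λ ^ (min i j) * ((Real.sin (η / 2) * Real.cos (η / 2)) ^ (min i j) /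
          Λ ^ (min i j) * ‖HD d k M1 M2 x‖) =
          (Real.sin (η / 2) * Real.cos (η / 2)) ^ (min i j) * ‖HD d k M1 M2 x‖ := by
        have : Λ ^ (min i j) ≠ 0 := (pow_pos hΛ0 _).ne'
        (clear * - this; field_simp)
      rw [e3] at h7
      linarith only [h7]
    have hn := norm_nonneg (HD d k M1 M2 x)
    have e1 : |af ((c, i, j) :: g) η| ≤
        |(c : ℝ)| * (Real.sin (η / 2) * Real.cos (η / 2)) ^ (min i j) + |af g η| := by
      unfold af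
      rw [aev]
      refine (abs_add_le _ _).trans (add_le_add ?_ le_rfl)
      rw [abs_mul, abs_of_nonneg (mul_nonneg (pow_nonneg s0 i) (pow_nonneg c0 j))]
      exact mul_le_mul_of_nonneg_left (pow_min_le s0 s1 c0 c1 i j) (abs_nonneg _)
    have h3 := mul_le_mul_of_nonneg_right e1 hn
    refine h3.trans ?_
    rw [add_mul, add_mul, mul_assoc, mul_assoc]
    exact add_le_add (mul_le_mul_of_nonneg_left k5 (abs_nonneg _)) k3

/-- the integrand of one potential of the data, with the factor `c` -/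
noncomputable def NPotY (d : DC) (τ : ℝ) (c : ℂ) (j k : ℕ) (t : AP × BP × BP) (x q : ℂ)
    (η : ℝ) : ℝ :=
  NPY τ c j (aC j t.1 η) (aC1 j t.1 η) (HD d k t.2.1 t.2.2 (yx τ x))
    (HD d (k + 1) (qcX d k t.2.1) (qcX d k t.2.2) (yx τ x))
    (HD d (k + 1) (qcY d k t.2.1) (qcY d k t.2.2) (yx τ x)) (yx τ x) q

theorem nullX_PotY (d : DC) (τ : ℝ) (c : ℂ) (j k : ℕ) (t : AP × BP × BP) (h : okC k t = true) :
    NullX τ (NPotY d τ c j k t) := by
  obtain ⟨g, M1, M2⟩ := t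
  have hf := one_le_fac τ
  obtain ⟨C, hC0, hC⟩ := HD_grg' d k M1 M2 g h hf
  refine nullX_PY (c1x_HD d k M1 M2) τ c j (hd_aC j g) (af_cont _) (aC_zero j g) (aC_pi j g)
    (C := 38 ^ j * (C * ‖(1 : ℂ) + I * τ‖ ^ 2)) ?_
  intro x q η hη hx hq
  obtain ⟨s0, s1, c0, c1⟩ := half_bd hη
  have hy : Real.sin η * ‖yx τ x‖ ≤ 10 * ‖(1 : ℂ) + I * τ‖ := by
    rw [norm_yx]
    calc Real.sin η * (‖(1 : ℂ) + I * τ‖ * ‖x‖) = Real.sin η * ‖x‖ * ‖(1 : ℂ) + I * τ‖ := by ring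
      _ ≤ 10 * ‖(1 : ℂ) + I * τ‖ := mul_le_mul_of_nonneg_right hx (norm_nonneg _)
  have k1 := hC (yx τ x) η hη hy
  have hnx : 1 + ‖yx τ x‖ ^ 2 ≤ ‖(1 : ℂ) + I * τ‖ ^ 2 * (1 + ‖x‖ ^ 2) := by
    rw [norm_yx, mul_pow]
    have : 1 ≤ ‖(1 : ℂ) + I * τ‖ ^ 2 := one_le_pow₀ hf
    (clear * - this; linarith only [this])
  have k2 : |af g η| * ‖HD d k M1 M2 (yx τ x)‖ ≤ C * ‖(1 : ℂ) + I * τ‖ ^ 2 * (1 + ‖x‖ ^ 2) := by
    refine k1.trans ((mul_le_mul_of_nonneg_left hnx hC0).trans (le_of_eq ?_))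
    ring
  have e2 := two_sc η
  have hsc0 : 0 ≤ Real.sin (η / 2) * Real.cos (η / 2) := mul_nonneg s0 c0
  have hs := sin_nn' hη
  have hq2 : Real.sin (η / 2) * Real.cos (η / 2) * ‖q‖ ≤ 38 := by
    have h5 : 2 * (Real.sin (η / 2) * Real.cos (η / 2)) * ‖q‖ ≤ 38 := by rw [e2]; exact hq
    linarith only [h5]
  have hq3 : (Real.sin (η / 2) * Real.cos (η / 2) * ‖q‖) ^ j ≤ 38 ^ j :=
    pow_le_pow_left₀ (mul_nonneg hsc0 (norm_nonneg q)) hq2 j
  rw [aC_eq, abs_mul, abs_of_nonneg (by (clear * - s0 c0; positivity) :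
    (0:ℝ) ≤ 2 * (Real.sin (η / 2) * Real.cos (η / 2)) ^ (j + 1))]
  have e3 : 2 * (Real.sin (η / 2) * Real.cos (η / 2)) ^ (j + 1) * |af g η| *
      ‖HD d k M1 M2 (yx τ x)‖ * ‖q‖ ^ j = Real.sin η *
      ((Real.sin (η / 2) * Real.cos (η / 2) * ‖q‖) ^ j *
        (|af g η| * ‖HD d k M1 M2 (yx τ x)‖)) := by
    rw [← e2, mul_pow _ ‖q‖, pow_succ]
    ring
  rw [e3]
  have h7 : 0 ≤ |af g η| * ‖HD d k M1 M2 (yx τ x)‖ := by (clear * -; positivity)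
  calc Real.sin η * ((Real.sin (η / 2) * Real.cos (η / 2) * ‖q‖) ^ j *
        (|af g η| * ‖HD d k M1 M2 (yx τ x)‖)) ≤
        Real.sin η * (38 ^ j * (C * ‖(1 : ℂ) + I * τ‖ ^ 2 * (1 + ‖x‖ ^ 2))) :=
      mul_le_mul_of_nonneg_left (mul_le_mul hq3 k2 h7 (by positivity)) hs
    _ = 38 ^ j * (C * ‖(1 : ℂ) + I * τ‖ ^ 2) * Real.sin η * (1 + ‖x‖ ^ 2) := by ring

/-- the sum over groups -/
noncomputable def NGsY (d : DC) (τ : ℝ) (c : ℂ) (j : ℕ) (L : List GrC) (x q : ℂ) (η : ℝ) : ℝ :=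
  (L.map fun G => (G.l.map fun t => NPotY d τ c j G.k t x q η).sum).sum

theorem nullX_GsY (d : DC) (τ : ℝ) (c : ℂ) (j : ℕ) (L : List GrC) (h : okGs L = true) :
    NullX τ (NGsY d τ c j L) := by
  simp only [okGs, List.all_eq_true] at h
  exact NullX.list L fun G hG => NullX.list G.l fun t ht => nullX_PotY d τ c j G.k t (h G hG t ht)

theorem nullX_HmY (τ : ℝ) (t : HmC) (h : t.ok = true) : NullX τ (fun x _ η => NHm t (yx τ x) η) := by
  simp only [HmC.ok, Bool.and_eq_true, decide_eq_true_eq, Nat.ble_eq] at h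
  refine (nullX_Hm τ ((((t.cR : ℝ) : ℂ) + I * ((t.cI : ℝ) : ℂ)) * (1 + I * τ) ^ t.n) h.1
    (af_cont (ader t.P)) (int_ader t.P h.2)).congr fun x q η => ?_
  unfold NHm yx
  rw [mul_pow]
  congr 2
  ring

theorem nullX_HmsY (τ : ℝ) (L : List HmC) (h : L.all HmC.ok = true) :
    NullX τ (fun x q η => NHms L (yx τ x) q η) := by
  simp only [List.all_eq_true] at h
  exact NullX.list L fun t ht => nullX_HmY τ t (h t ht)

end Pool.Agent.Helper65.CKY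

end

section

namespace Pool.Sos71
end Pool.Sos71
namespace Pool.EK71
end Pool.EK71
namespace Pool.Agent.Helper2.EK
end Pool.Agent.Helper2.EK
namespace Pool.Agent.Helper52.EK
end Pool.Agent.Helper52.EK
namespace Pool.Agent.Helper69.EK3
end Pool.Agent.Helper69.EK3
namespace Pool.Agent.Helper99.CKC
end Pool.Agent.Helper99.CKC
namespace Pool.Agent.Helper11.CKC
end Pool.Agent.Helper11.CKC
namespace Pool.Agent.Helper42.CKC
end Pool.Agent.Helper42.CKC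

set_option autoImplicit false

open Complex MeasureTheory Metric Set

open scoped Real ComplexConjugate

namespace Pool.Agent.Helper65.CKY

open Pool.Sos71 Pool.EK71 Pool.Agent.Helper2.EK

open Pool.Agent.Helper52.EK hiding ee

open Pool.Agent.Helper69.EK3 (AP aev af apE apE_re ader ash imul_cast' iadd_cast' ofNat_cast' rF rF_eq)

open Pool.Agent.Helper99.CKC

open Pool.Agent.Helper11.CKC (CL MSc ineg_cast')

open Pool.Agent.Helper42.CKC

/-- the value of `w` -/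
noncomputable def wW (W : ℂ) (η : ℝ) : ℂ := wx 0 W (Real.sin η) (Real.cos η)

theorem wx_wW (x q : ℂ) (η : ℝ) : wx x q (Real.sin η) (Real.cos η) = wW (2 * x + q) η := by
  unfold wW wx
  ring

/-- the integrand of a potential, j = 0, for the pair  (c₀, c₁) -/
noncomputable def NVv (d : DC) (c0 c1 : ℝ) (k : ℕ) (t : AP × BP × BP) (W y : ℂ) (η : ℝ) : ℝ :=
  (I * (c0 + c1 * I) * aC1 0 t.1 η * HD d k t.2.1 t.2.2 y +
    2 * af t.1 η * (HD d (k + 1) (qcX d k t.2.1) (qcX d k t.2.2) y +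
      I * HD d (k + 1) (qcY d k t.2.1) (qcY d k t.2.2) y) *
      conj (((c0 + c1 * I) * pp W η - c0 * (Real.sin η * y)) * (1 + y))).re

/-- the integrand of a potential, j = 1, for  (c₀, c₁, c₂) -/
noncomputable def NFv (d : DC) (c0 c1 c2 : ℝ) (k : ℕ) (t : AP × BP × BP) (W y : ℂ) (η : ℝ) : ℝ :=
  (I * ((c0 - c2 + 2 * c1 * I) * pp W η - (c0 + c1 * I) * (Real.sin η * y)) *
      af (adC 1 t.1) η * HD d k t.2.1 t.2.2 y +
    2 * af t.1 η * (((c0 + c2) * ‖pp W η‖ ^ 2 + c0 * ‖(Real.sin η : ℂ) * y‖ ^ 2 -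
      2 * ((c0 + c1 * I) * pp W η * conj (Real.sin η * y)).re : ℝ) : ℂ) *
      (HD d (k + 1) (qcX d k t.2.1) (qcX d k t.2.2) y +
      I * HD d (k + 1) (qcY d k t.2.1) (qcY d k t.2.2) y) * conj (1 + y)).re

noncomputable def NVsv (d : DC) (c0 c1 : ℝ) (L : List GrC) (W y : ℂ) (η : ℝ) : ℝ :=
  (L.map fun G => (G.l.map fun t => NVv d c0 c1 G.k t W y η).sum).sum

noncomputable def NFsv (d : DC) (c0 c1 c2 : ℝ) (L : List GrC) (W y : ℂ) (η : ℝ) : ℝ :=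
  (L.map fun G => (G.l.map fun t => NFv d c0 c1 c2 G.k t W y η).sum).sum

/-- the multiplier term -/
noncomputable def MTy (c0 c1 : ℝ) (L : CL) (l : ℝ) (w e y : ℂ) : ℝ :=
  ((c0 - c1 * I) * MSc L l w * e * (y ^ 2 + 2 * y)).re

/-- the polynomial of a disc -/
noncomputable def dpy (T t s' σ : ℝ) (W y : ℂ) (η : ℝ) : ℝ :=
  4 * (T + s') - (4 * (T + s') * ‖pp W η‖ ^ 2 - 4 * (2 - 2 * σ) *
      ((T - t * I) * (Real.sin η * y) * conj (pp W η)).re +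
      (2 - 2 * σ) ^ 2 * T * ‖(Real.sin η : ℂ) * y‖ ^ 2) -
    4 * (pp W η * (2 * σ * Real.sin η * (T + I * t) +
      I * Real.cos η * (T + 2 * I * t - s'))).re +
    2 * (2 - 2 * σ) * ((Real.sin η * y) * (2 * σ * Real.sin η * T +
      I * Real.cos η * (T + I * t))).re -
    4 * T * Real.sin η ^ 2 - Real.cos η ^ 2 * (T + s') + 4 * σ * t * Real.sin η * Real.cos η

section val

variable (l η : ℝ) (W y : ℂ)

theorem v_cAy : CX.v (pt7 l η W y) cAy = Real.sin η * y := by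
  unfold cAy
  have e : (Ex.sc 2 xSC).re (pt7 l η W y) = Real.sin η := by
    show ((2 : ℤ) : ℝ) * (Real.sin (η / 2) * Real.cos (η / 2)) = _
    rw [sin_half η]
    push_cast
    ring
  rw [CX.v_rm, v_cx, e]

theorem v_cY1 : CX.v (pt7 l η W y) cY1 = 1 + y := by
  unfold cY1
  rw [CX.v_add, v_cZ, v_cx]
  push_cast
  ring

theorem v_cW0 : CX.v (pt7 l η W y) cW0 = wt W 0 η := by
  unfold cW0 wt
  rw [CX.v_add, CX.v_sc, v_cE, v_cP]
  push_cast
  ring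

theorem wW_eq : wW W η = ee η * wt W 0 η := by
  unfold wW
  rw [← ww_wx, ww_wt]

theorem v_cRz (z0 z1 : ℤ) : CX.v (pt7 l η W y) (cRz z0 z1) =
    (z0 + z1 * I) * pp W η - z0 * (Real.sin η * y) := by
  unfold cRz
  rw [CX.v_add, CX.v_sc2, CX.v_sc, v_cAy, v_cP]
  push_cast
  ring

theorem v_cR2 (z0 z1 z2 : ℤ) : CX.v (pt7 l η W y) (cR2 z0 z1 z2) =
    (z0 - z2 + 2 * z1 * I) * pp W η - (z0 + z1 * I) * (Real.sin η * y) := by
  unfold cR2
  rw [CX.v_add, CX.v_sc2, CX.v_sc2, v_cAy, v_cP]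
  have e1 : Int.add z0 (Int.neg z2) = z0 - z2 := rfl
  have e2 : Int.mul 2 z1 = 2 * z1 := rfl
  have e3 : ∀ z : ℤ, Int.neg z = -z := fun z => rfl
  rw [e1, e2, e3, e3]
  push_cast
  ring

theorem eRR_re (z0 z1 z2 : ℤ) : (eRR z0 z1 z2).re (pt7 l η W y) =
    (z0 + z2) * ‖pp W η‖ ^ 2 + z0 * ‖(Real.sin η : ℂ) * y‖ ^ 2 -
      2 * ((z0 + z1 * I) * pp W η * conj (Real.sin η * y)).re := by
  have e : (eRR z0 z1 z2).re (pt7 l η W y) = ((Int.add z0 z2 : ℤ) : ℝ) *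
      (CX.nsq cP).re (pt7 l η W y) + z0 * (CX.nsq cAy).re (pt7 l η W y) +
      ((-2 : ℤ) : ℝ) * (CX.v (pt7 l η W y) (CX.mul (CX.sc2 z0 z1 cP) (CX.cj cAy))).re := rfl
  rw [e, CX.v_nsq, CX.v_nsq, CX.v_mul, CX.v_sc2, CX.v_cj, v_cAy, v_cP, iadd_cast']
  push_cast
  ring

theorem v_sumM (d : DC) {K : ℕ} {G : GrC} (hk : G.k ≤ K) (j : ℕ) :
    CX.v (pt7 l η W y) (CX.sum (fun t => CX.rm (apE (adC j t.1)) (hM d K G.k t)) G.l) =
      ((Dc d y.re y.im ^ K : ℝ) : ℂ) * (G.l.map fun t =>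
        (af (adC j t.1) η : ℂ) * HD d G.k t.2.1 t.2.2 y).sum := by
  rw [CX.v_sum, ← v_mapC]
  congr 1
  refine List.map_congr_left fun t _ => ?_
  rw [CX.v_rm, ap_re, v_hM l η W y d hk]
  ring

theorem v_sumN (d : DC) {K : ℕ} {G : GrC} (hk : G.k + 1 ≤ K) :
    CX.v (pt7 l η W y) (CX.sum (fun t => CX.rm (Ex.sc 2 (apE t.1)) (hN d K G.k t)) G.l) =
      ((Dc d y.re y.im ^ K : ℝ) : ℂ) * (G.l.map fun t => 2 * (af t.1 η : ℂ) *
        (HD d (G.k + 1) (qcX d G.k t.2.1) (qcX d G.k t.2.2) y +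
        I * HD d (G.k + 1) (qcY d G.k t.2.1) (qcY d G.k t.2.2) y)).sum := by
  rw [CX.v_sum, ← v_mapC]
  congr 1
  refine List.map_congr_left fun t _ => ?_
  have e3 : (Ex.sc 2 (apE t.1)).re (pt7 l η W y) = 2 * af t.1 η := by
    show ((2 : ℤ) : ℝ) * (apE t.1).re (pt7 l η W y) = _
    rw [ap_re]
    push_cast
    ring
  rw [CX.v_rm, e3, v_hN l η W y d hk]
  push_cast
  ring

/-- the real part of a sum of two sums -/
theorem sum2_re {ι : Type} (L : List ι) (f g : ι → ℂ) (a b : ℂ) :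
    (L.map fun t => (a * f t + b * g t).re).sum = (a * (L.map f).sum + b * (L.map g).sum).re := by
  induction L with
  | nil => simp
  | cons t L ih =>
    rw [List.map_cons, List.sum_cons, ih, List.map_cons, List.sum_cons, List.map_cons,
      List.sum_cons, ← add_re]
    congr 1
    ring

theorem EV_re (z0 z1 : ℤ) (d : DC) {K : ℕ} {G : GrC} (hk : G.k + 1 ≤ K) :
    (EV z0 z1 d K G).re (pt7 l η W y) = Dc d y.re y.im ^ K *
      (G.l.map fun t => NVv d z0 z1 G.k t W y η).sum := by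
  have e : (EV z0 z1 d K G).re (pt7 l η W y) = (CX.v (pt7 l η W y)
    (CX.add (CX.mI (CX.sc2 z0 z1 (CX.sum (fun t => CX.rm (apE (adC 0 t.1)) (hM d K G.k t)) G.l)))
    (CX.mul (CX.cj (CX.mul (cRz z0 z1) cY1))
      (CX.sum (fun t => CX.rm (Ex.sc 2 (apE t.1)) (hN d K G.k t)) G.l)))).re := rfl
  have e4 : ∀ t ∈ G.l, NVv d z0 z1 G.k t W y η =
      ((I * (z0 + z1 * I)) * ((af (adC 0 t.1) η : ℂ) * HD d G.k t.2.1 t.2.2 y) +
      conj ((((z0 : ℂ) + z1 * I) * pp W η - z0 * (Real.sin η * y)) * (1 + y)) *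
        (2 * (af t.1 η : ℂ) * (HD d (G.k + 1) (qcX d G.k t.2.1) (qcX d G.k t.2.2) y +
        I * HD d (G.k + 1) (qcY d G.k t.2.1) (qcY d G.k t.2.2) y))).re := by
    intro t _
    unfold NVv
    rw [aC1_eq, pow_zero, one_mul]
    congr 1
    push_cast
    ring
  rw [e, CX.v_add, CX.v_mI, CX.v_sc2, CX.v_mul, CX.v_cj, CX.v_mul, v_cRz, v_cY1,
    v_sumM l η W y d (by omega), v_sumN l η W y d hk, List.map_congr_left e4, sum2_re,
    ← re_ofReal_mul]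
  congr 1
  ring

theorem EF_re (z0 z1 z2 : ℤ) (d : DC) {K : ℕ} {G : GrC} (hk : G.k + 1 ≤ K) :
    (EF z0 z1 z2 d K G).re (pt7 l η W y) = Dc d y.re y.im ^ K *
      (G.l.map fun t => NFv d z0 z1 z2 G.k t W y η).sum := by
  have e : (EF z0 z1 z2 d K G).re (pt7 l η W y) = (CX.v (pt7 l η W y)
    (CX.add (CX.mul (CX.mI (cR2 z0 z1 z2))
      (CX.sum (fun t => CX.rm (apE (adC 1 t.1)) (hM d K G.k t)) G.l))
    (CX.mul (CX.rm (eRR z0 z1 z2) (CX.cj cY1))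
      (CX.sum (fun t => CX.rm (Ex.sc 2 (apE t.1)) (hN d K G.k t)) G.l)))).re := rfl
  obtain ⟨r, hr⟩ : ∃ r : ℝ, r = (z0 + z2) * ‖pp W η‖ ^ 2 + z0 * ‖(Real.sin η : ℂ) * y‖ ^ 2 -
      2 * (((z0 : ℂ) + z1 * I) * pp W η * conj (Real.sin η * y)).re := ⟨_, rfl⟩
  have e4 : ∀ t ∈ G.l, NFv d z0 z1 z2 G.k t W y η =
      ((I * (((z0 : ℂ) - z2 + 2 * z1 * I) * pp W η - (z0 + z1 * I) * (Real.sin η * y))) *
        ((af (adC 1 t.1) η : ℂ) * HD d G.k t.2.1 t.2.2 y) +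
      ((r : ℂ) * conj (1 + y)) *
        (2 * (af t.1 η : ℂ) * (HD d (G.k + 1) (qcX d G.k t.2.1) (qcX d G.k t.2.2) y +
        I * HD d (G.k + 1) (qcY d G.k t.2.1) (qcY d G.k t.2.2) y))).re := by
    intro t _
    rw [hr]
    unfold NFv
    congr 1
    push_cast
    ring
  rw [e, CX.v_add, CX.v_mul, CX.v_mI, CX.v_mul, CX.v_rm, CX.v_cj, v_cR2, v_cY1, eRR_re, ← hr,
    v_sumM l η W y d (by omega), v_sumN l η W y d hk, List.map_congr_left e4, sum2_re,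
    ← re_ofReal_mul]
  congr 1
  ring

theorem v_cMw0 {j : ℕ} (hj : j ≤ 2) : CX.v (pt7 l η W y) (cMw0 j) =
    conj (wW W η) ^ j * e0 (Real.sin η) (Real.cos η) := by
  unfold cMw0
  rw [CX.v_mul, CX.v_pw, CX.v_pw, CX.v_cj, v_cE, v_cW0, wW_eq, ← ee_sq, map_mul]
  have h := ee_conj η
  generalize conj (ee η) = f at *
  generalize ee η = e at *
  generalize conj (wt W 0 η) = z
  interval_cases j
  · simp
  · simp only [pow_one]
    linear_combination (-e * z) * h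
  · simp only [pow_two, pow_zero, Nat.sub_self]
    linear_combination (-(z ^ 2) - z ^ 2 * (f * e)) * h

theorem EMy_re (z0 z1 : ℤ) (d : DC) (K h : ℕ) (t : ℕ × ℕ × ℤ × ℤ) (ht : t.2.1 ≤ 2) :
    (EMy z0 z1 d K h t).re (pt7 l η W y) = Dc d y.re y.im ^ K *
      ((((z0 : ℂ) - z1 * I) * (((t.2.2.1 : ℂ) + (t.2.2.2 : ℂ) * I) * ((l : ℂ) ^ t.1 *
        conj (wW W η) ^ t.2.1))) * e0 (Real.sin η) (Real.cos η) * (y ^ 2 + 2 * y)).re := by
  have e : (EMy z0 z1 d K h t).re (pt7 l η W y) = (l ^ t.1 * (CX.v (pt7 l η W y)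
      (CX.mul (CX.sc2 z0 (Int.neg z1) (CX.sc2 t.2.2.1 t.2.2.2 (cMw0 t.2.1)))
      (CX.mul cx (CX.add (cZ 2 0) cx)))).re) *
      (xo.re (pt7 l η W y) ^ (h - 2) * ev2 y.re y.im (Dk d K)) := rfl
  have e2 : Int.neg z1 = -z1 := rfl
  rw [e, CX.v_mul, CX.v_sc2, CX.v_sc2, v_cMw0 l η W y ht, CX.v_mul, CX.v_add, v_cZ, v_cx, v_xo,
    one_pow, Dk_ev, one_mul, e2]
  have e5 : (((z0 : ℂ) - z1 * I) * (((t.2.2.1 : ℂ) + (t.2.2.2 : ℂ) * I) * ((l : ℂ) ^ t.1 *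
        conj (wW W η) ^ t.2.1))) * e0 (Real.sin η) (Real.cos η) * (y ^ 2 + 2 * y) =
      ((l ^ t.1 : ℝ) : ℂ) *
      (((z0 : ℂ) + ((-z1 : ℤ) : ℂ) * I) * (((t.2.2.1 : ℂ) + (t.2.2.2 : ℂ) * I) *
        (conj (wW W η) ^ t.2.1 * e0 (Real.sin η) (Real.cos η))) *
        (y * ((((2 : ℤ) : ℂ) + I * ((0 : ℤ) : ℂ)) + y))) := by
    push_cast
    ring
  rw [e5, re_ofReal_mul]
  ring

theorem EMys_re (z0 z1 : ℤ) (d : DC) (K h : ℕ) {L : CL} (hL : ∀ t ∈ L, t.2.1 ≤ 2) :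
    (L.map fun t => (EMy z0 z1 d K h t).re (pt7 l η W y)).sum = Dc d y.re y.im ^ K *
      MTy z0 z1 L l (wW W η) (e0 (Real.sin η) (Real.cos η)) y := by
  rw [List.map_congr_left fun t ht => EMy_re l η W y z0 z1 d K h t (hL t ht), map_mul_l]
  congr 1
  unfold MTy MSc
  generalize wW W η = w
  generalize e0 (Real.sin η) (Real.cos η) = e
  have e3 : (((z0 : ℝ) : ℂ) - ((z1 : ℝ) : ℂ) * I) = (z0 : ℂ) - z1 * I := by push_cast; rfl
  rw [e3]
  generalize (z0 : ℂ) - z1 * I = Z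
  generalize y ^ 2 + 2 * y = V
  clear hL
  induction L with
  | nil => simp
  | cons t L ih =>
    rw [List.map_cons, List.sum_cons, ih, List.map_cons, List.sum_cons, ← add_re]
    congr 1
    ring

theorem v_cGv0 (Fd s gm cR cI : ℤ) (fl : Fl) : ‖CX.v (pt7 l η W y) (cGv0 Fd s gm cR cI fl)‖ ^ 2 =
    ‖Bf s gm cR cI fl l (wW W η) - Fd * e0 (Real.sin η) (Real.cos η)‖ ^ 2 := by
  have h1 : ee η * CX.v (pt7 l η W y) (cGv0 Fd s gm cR cI fl) =
      Bf s gm cR cI fl l (wW W η) - Fd * e0 (Real.sin η) (Real.cos η) := by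
    unfold cGv0 Bf
    rw [CX.v_add, CX.v_add, CX.v_add, CX.v_sc, CX.v_sc2, CX.v_sc, CX.v_rm, CX.v_add, CX.v_sc2,
      CX.v_sc2, CX.v_cj, v_cE, v_cW0, wW_eq, ← ee_sq]
    have h := ee_conj η
    have e1 : (Ex.sc s (Ex.va 0)).re (pt7 l η W y) = s * l := rfl
    rw [e1]
    generalize conj (ee η) = f at *
    generalize ee η = e at *
    push_cast
    linear_combination ((cR : ℂ) + cI * I + s * l * (fl.bR + fl.bI * I)) * h
  rw [← h1, norm_mul, ee_norm, one_mul]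

theorem eCn0_re (rd s r0 r1 r2 : ℤ) : (eCn0 rd s r0 r1 r2).re (pt7 l η W y) =
    rd * (‖wW W η‖ ^ 2 - 1) + s * l * rF r0 r1 r2 (wW W η) := by
  have e : (eCn0 rd s r0 r1 r2).re (pt7 l η W y) = rd * ((CX.nsq cW0).re (pt7 l η W y) +
      ((-1 : ℤ) : ℝ) * xo.re (pt7 l η W y) ^ 2) + (s * l) * (r0 * xo.re (pt7 l η W y) ^ 2 +
      (r1 * (CX.nsq (CX.add cW0 (CX.cj cE))).re (pt7 l η W y) +
        r2 * (CX.nsq cW0).re (pt7 l η W y))) := rfl
  have e2 : ‖wt W 0 η + conj (ee η)‖ ^ 2 = ‖wW W η + 1‖ ^ 2 := by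
    have h1 : wW W η + 1 = ee η * (wt W 0 η + conj (ee η)) := by
      rw [wW_eq]
      linear_combination (-1 : ℂ) * ee_conj η
    rw [h1, norm_mul, ee_norm, one_mul]
  have e3 : ‖wt W 0 η‖ = ‖wW W η‖ := by
    rw [wW_eq, norm_mul, ee_norm, one_mul]
  rw [e, CX.v_nsq, CX.v_nsq, CX.v_add, CX.v_cj, v_cE, v_cW0, v_xo, e2, e3]
  unfold rF
  push_cast
  ring

theorem eDy_re (s c0 c1 c2 : ℤ) : (eDy s c0 c1 c2).re (pt7 l η W y) = dpy c0 c1 c2 s W y η := by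
  have hA : (Ex.sc 2 xSC).re (pt7 l η W y) = Real.sin η := by
    show ((2 : ℤ) : ℝ) * (Real.sin (η / 2) * Real.cos (η / 2)) = _
    rw [sin_half η]
    push_cast
    ring
  have hB : cE.i.re (pt7 l η W y) = Real.cos η := by
    show Real.cos (η / 2) ^ 2 + ((-1 : ℤ) : ℝ) * Real.sin (η / 2) ^ 2 = _
    rw [cos_half η]
    push_cast
    ring
  obtain ⟨U, hU⟩ : ∃ U : CX, U = ⟨Ex.add (Ex.sc (Int.mul (Int.mul 2 s) c0) (Ex.sc 2 xSC))
      (Ex.sc (Int.mul (-2) c1) cE.i), Ex.add (Ex.sc (Int.mul (Int.mul 2 s) c1) (Ex.sc 2 xSC))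
      (Ex.sc (Int.add c0 (Int.neg c2)) cE.i)⟩ := ⟨_, rfl⟩
  obtain ⟨V, hV⟩ : ∃ V : CX, V = ⟨Ex.add (Ex.sc (Int.mul (Int.mul 2 s) c0) (Ex.sc 2 xSC))
      (Ex.sc (Int.neg c1) cE.i), Ex.sc c0 cE.i⟩ := ⟨_, rfl⟩
  obtain ⟨g, hg⟩ : ∃ g : ℤ, g = Int.add 2 (Int.mul (-2) s) := ⟨_, rfl⟩
  have e : (eDy s c0 c1 c2).re (pt7 l η W y) = ((Int.mul 4 (Int.add c0 c2) : ℤ) : ℝ) *
      xo.re (pt7 l η W y) ^ 2 + ((-1 : ℤ) : ℝ) * ((((Int.mul 4 (Int.add c0 c2) : ℤ) : ℝ) *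
      (CX.nsq cP).re (pt7 l η W y) + (((Int.mul (-4) g : ℤ) : ℝ) * (CX.v (pt7 l η W y)
        (CX.mul (CX.sc2 c0 (Int.neg c1) cAy) (CX.cj cP))).re +
        ((Int.mul (Int.mul g g) c0 : ℤ) : ℝ) * (CX.nsq cAy).re (pt7 l η W y))) +
      ((((4 : ℤ) : ℝ) * (CX.v (pt7 l η W y) (CX.mul cP U)).re + ((Int.mul (-2) g : ℤ) : ℝ) *
        (CX.v (pt7 l η W y) (CX.mul cAy V)).re) +
      (((Int.mul 4 c0 : ℤ) : ℝ) * (Ex.sc 2 xSC).re (pt7 l η W y) ^ 2 +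
      (((Int.add c0 c2 : ℤ) : ℝ) * cE.i.re (pt7 l η W y) ^ 2 +
      ((Int.mul (Int.mul (-4) s) c1 : ℤ) : ℝ) * ((Ex.sc 2 xSC).re (pt7 l η W y) *
        cE.i.re (pt7 l η W y)))))) := by
    rw [hU, hV, hg]
    rfl
  have vU : CX.v (pt7 l η W y) U = 2 * (s : ℝ) * (Real.sin η : ℂ) * ((c0 : ℝ) + I * (c1 : ℝ)) +
      I * (Real.cos η : ℂ) * ((c0 : ℝ) + 2 * I * (c1 : ℝ) - (c2 : ℝ)) := by
    rw [hU]
    apply Complex.ext
    · show ((Int.mul (Int.mul 2 s) c0 : ℤ) : ℝ) * (Ex.sc 2 xSC).re (pt7 l η W y) +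
        ((Int.mul (-2) c1 : ℤ) : ℝ) * cE.i.re (pt7 l η W y) = _
      rw [hA, hB, imul_cast', imul_cast', imul_cast']
      simp only [add_re, mul_re, mul_im, sub_re, add_im, sub_im, ofReal_re, ofReal_im, I_re, I_im,
        re_ofNat, im_ofNat]
      push_cast
      ring
    · show ((Int.mul (Int.mul 2 s) c1 : ℤ) : ℝ) * (Ex.sc 2 xSC).re (pt7 l η W y) +
        ((Int.add c0 (Int.neg c2) : ℤ) : ℝ) * cE.i.re (pt7 l η W y) = _
      rw [hA, hB, imul_cast', imul_cast', iadd_cast', ineg_cast']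
      simp only [add_re, mul_re, mul_im, sub_re, add_im, sub_im, ofReal_re, ofReal_im, I_re, I_im,
        re_ofNat, im_ofNat]
      push_cast
      ring
  have vV : CX.v (pt7 l η W y) V = 2 * (s : ℝ) * (Real.sin η : ℂ) * (c0 : ℝ) +
      I * (Real.cos η : ℂ) * ((c0 : ℝ) + I * (c1 : ℝ)) := by
    rw [hV]
    apply Complex.ext
    · show ((Int.mul (Int.mul 2 s) c0 : ℤ) : ℝ) * (Ex.sc 2 xSC).re (pt7 l η W y) +
        ((Int.neg c1 : ℤ) : ℝ) * cE.i.re (pt7 l η W y) = _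
      rw [hA, hB, imul_cast', imul_cast', ineg_cast']
      simp only [add_re, mul_re, mul_im, add_im, ofReal_re, ofReal_im, I_re, I_im,
        re_ofNat, im_ofNat]
      push_cast
      ring
    · show (c0 : ℝ) * cE.i.re (pt7 l η W y) = _
      rw [hB]
      simp only [add_re, mul_re, mul_im, add_im, ofReal_re, ofReal_im, I_re, I_im,
        re_ofNat, im_ofNat]
      push_cast
      ring
  have hg' : (g : ℝ) = 2 - 2 * s := by
    rw [hg, iadd_cast', imul_cast']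
    push_cast
    ring
  rw [e, hA, hB, v_xo, CX.v_nsq, CX.v_nsq, CX.v_mul, CX.v_mul, CX.v_mul, CX.v_sc2, CX.v_cj,
    v_cAy, v_cP, vU, vV]
  simp only [imul_cast', iadd_cast', ineg_cast', hg']
  unfold dpy
  have e9 : ((Int.neg c1 : ℤ) : ℂ) = -(c1 : ℂ) := by
    show (((-c1 : ℤ)) : ℂ) = _
    push_cast
    ring
  rw [e9]
  push_cast
  ring_nf

end val

end Pool.Agent.Helper65.CKY

end

section

namespace Pool.Sos71
end Pool.Sos71
namespace Pool.EK71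
end Pool.EK71
namespace Pool.Agent.Helper2.EK
end Pool.Agent.Helper2.EK
namespace Pool.Agent.Helper52.EK
end Pool.Agent.Helper52.EK
namespace Pool.Agent.Helper69.EK3
end Pool.Agent.Helper69.EK3
namespace Pool.Agent.Helper99.CKC
end Pool.Agent.Helper99.CKC
namespace Pool.Agent.Helper11.CKC
end Pool.Agent.Helper11.CKC
namespace Pool.Agent.Helper42.CKC
end Pool.Agent.Helper42.CKC

set_option autoImplicit false

open Complex MeasureTheory Metric Set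

open scoped Real ComplexConjugate

namespace Pool.Agent.Helper65.CKY

open Pool.Sos71 Pool.EK71 Pool.Agent.Helper2.EK

open Pool.Agent.Helper52.EK hiding ee

open Pool.Agent.Helper69.EK3 (AP aev af imul_cast' iadd_cast')

open Pool.Agent.Helper99.CKC

open Pool.Agent.Helper11.CKC (CL MSc ineg_cast')

open Pool.Agent.Helper42.CKC

/-- the value of a polynomial -/
noncomputable def pv : List ℤ → ℝ → ℝ
  | [], _ => 0
  | a :: p, t => a + t * pv p t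

theorem pv_shift (p : List ℤ) (t : ℝ) : pv (0 :: p) t = t * pv p t := by
  show ((0 : ℤ) : ℝ) + t * pv p t = _
  rw [Int.cast_zero, zero_add]

theorem pv_padd (p q : List ℤ) (t : ℝ) : pv (padd p q) t = pv p t + pv q t := by
  induction p generalizing q with
  | nil => simp [padd, pv]
  | cons a p ih =>
    cases q with
    | nil => simp [padd, pv]
    | cons b q =>
      show ((Int.add a b : ℤ) : ℝ) + t * pv (padd p q) t = (a + t * pv p t) + (b + t * pv q t)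
      rw [ih, iadd_cast']
      ring

theorem pv_P1 (m : ℕ) (t : ℝ) : pv (P1 m) t = (1 + t ^ 2) ^ m := by
  induction m with
  | zero => simp [P1, pv]
  | succ m ih =>
    show pv (padd (P1 m) (0 :: 0 :: P1 m)) t = _
    rw [pv_padd, pv_shift, pv_shift, ih]
    ring

theorem length_padd (p q : List ℤ) : (padd p q).length = max p.length q.length := by
  induction p generalizing q with
  | nil => simp [padd]
  | cons a p ih =>
    cases q with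
    | nil => simp [padd]
    | cons b q =>
      show (padd p q).length + 1 = _
      rw [ih, List.length_cons, List.length_cons]
      omega

theorem length_P1 (m : ℕ) : (P1 m).length = 2 * m + 1 := by
  induction m with
  | zero => rfl
  | succ m ih =>
    show (padd (P1 m) (0 :: 0 :: P1 m)).length = _
    rw [length_padd, List.length_cons, List.length_cons, ih]
    omega

theorem dt_drop (a : ℤ) (p c : List ℤ) (k : ℕ) :
    dt (a :: p) (c.drop k) = a * nz c k + dt p (c.drop (k + 1)) := by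
  induction c generalizing k with
  | nil => cases p <;> simp [dt, nz]
  | cons b c ih =>
    cases k with
    | zero => rfl
    | succ k => exact ih k

/-- the mean of a function of the vertex -/
noncomputable def mn (vs : List Vy) (s f : Vy → ℝ) : ℝ := (vs.map fun v => s v * f v).sum

/-- the vertices represent the monomials up to degree `n` -/
def Rep (n : ℕ) (vs : List Vy) (s : Vy → ℝ) (τ : ℝ) : Prop :=
  ∀ j ≤ n, mn vs s (fun v => (nz v.c j : ℝ)) = τ ^ j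

section mn

variable {vs : List Vy} {s : Vy → ℝ}

theorem mn_congr {f g : Vy → ℝ} (h : ∀ v ∈ vs, f v = g v) : mn vs s f = mn vs s g := by
  unfold mn
  congr 1
  exact List.map_congr_left fun v hv => by rw [h v hv]

theorem mn_add (f g : Vy → ℝ) : mn vs s (fun v => f v + g v) = mn vs s f + mn vs s g := by
  unfold mn
  induction vs with
  | nil => simp
  | cons v vs ih =>
    rw [List.map_cons, List.sum_cons, ih, List.map_cons, List.sum_cons, List.map_cons,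
      List.sum_cons]
    ring

theorem mn_mul (a : ℝ) (f : Vy → ℝ) : mn vs s (fun v => a * f v) = a * mn vs s f := by
  unfold mn
  induction vs with
  | nil => simp
  | cons v vs ih =>
    rw [List.map_cons, List.sum_cons, ih, List.map_cons, List.sum_cons]
    ring

theorem mn_zero : mn vs s (fun _ => 0) = 0 := by
  unfold mn
  induction vs with
  | nil => simp
  | cons v vs ih =>
    rw [List.map_cons, List.sum_cons, ih]
    ring

theorem mn_mulr (a : ℝ) (f : Vy → ℝ) : mn vs s (fun v => f v * a) = mn vs s f * a := by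
  rw [mul_comm, ← mn_mul]
  exact mn_congr fun v _ => mul_comm _ _

theorem mn_list {ι : Type} (L : List ι) (f : ι → Vy → ℝ) :
    mn vs s (fun v => (L.map fun g => f g v).sum) = (L.map fun g => mn vs s (f g)).sum := by
  induction L with
  | nil => simpa using mn_zero
  | cons g L ih =>
    rw [List.map_cons, List.sum_cons, ← ih, ← mn_add]
    exact mn_congr fun v _ => by rw [List.map_cons, List.sum_cons]

theorem mn_mono (hs : ∀ v ∈ vs, 0 ≤ s v) {f g : Vy → ℝ} (h : ∀ v ∈ vs, f v ≤ g v) :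
    mn vs s f ≤ mn vs s g := by
  unfold mn
  induction vs with
  | nil => simp
  | cons v vs ih =>
    rw [List.map_cons, List.sum_cons, List.map_cons, List.sum_cons]
    exact add_le_add (mul_le_mul_of_nonneg_left (h v List.mem_cons_self) (hs v List.mem_cons_self))
      (ih (fun v hv => hs v (List.mem_cons_of_mem _ hv)) fun v hv => h v (List.mem_cons_of_mem _ hv))

theorem mn_nonneg (hs : ∀ v ∈ vs, 0 ≤ s v) {f : Vy → ℝ} (h : ∀ v ∈ vs, 0 ≤ f v) :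
    0 ≤ mn vs s f := by
  have := mn_mono (f := fun _ => 0) hs h
  rwa [mn_zero] at this

theorem rep_dt_k {n : ℕ} {τ : ℝ} (h : Rep n vs s τ) (p : List ℤ) (k : ℕ)
    (hk : k + p.length ≤ n + 1) :
    mn vs s (fun v => (dt p (v.c.drop k) : ℝ)) = τ ^ k * pv p τ := by
  induction p generalizing k with
  | nil =>
    have : mn vs s (fun v => (dt [] (v.c.drop k) : ℝ)) = mn vs s (fun _ => 0) :=
      mn_congr fun v _ => by simp [dt]
    rw [this, mn_zero]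
    simp [pv]
  | cons a p ih =>
    have e : mn vs s (fun v => (dt (a :: p) (v.c.drop k) : ℝ)) =
        mn vs s (fun v => a * (nz v.c k : ℝ) + (dt p (v.c.drop (k + 1)) : ℝ)) :=
      mn_congr fun v _ => by
        rw [dt_drop]
        push_cast
        rfl
    rw [List.length_cons] at hk
    rw [e, mn_add, mn_mul, ih (k + 1) (by omega), h k (by omega)]
    show _ = τ ^ k * (a + τ * pv p τ)
    ring

/-- the mean of a polynomial -/
theorem rep_dt {n : ℕ} {τ : ℝ} (h : Rep n vs s τ) (p : List ℤ) (hp : p.length ≤ n + 1) :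
    mn vs s (fun v => (dt p v.c : ℝ)) = pv p τ := by
  have := rep_dt_k h p 0 (by omega)
  simpa using this

/-- the mean of a linear function of two numbers -/
theorem mn2 {g : ℝ → ℝ → ℝ} {A B : ℝ} (hg : ∀ a b, g a b = a * A + b * B) (α β : Vy → ℝ) :
    mn vs s (fun v => g (α v) (β v)) = g (mn vs s α) (mn vs s β) := by
  simp only [hg]
  rw [mn_add, mn_mulr, mn_mulr]

theorem mn3 {g : ℝ → ℝ → ℝ → ℝ} {A B C : ℝ} (hg : ∀ a b c, g a b c = a * A + b * B + c * C)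
    (α β γ : Vy → ℝ) :
    mn vs s (fun v => g (α v) (β v) (γ v)) = g (mn vs s α) (mn vs s β) (mn vs s γ) := by
  simp only [hg]
  rw [mn_add, mn_add, mn_mulr, mn_mulr, mn_mulr]

end mn

theorem NVv_lin (d : DC) (c0 c1 : ℝ) (k : ℕ) (t : AP × BP × BP) (W y : ℂ) (η : ℝ) :
    NVv d c0 c1 k t W y η = c0 * NVv d 1 0 k t W y η + c1 * NVv d 0 1 k t W y η := by
  unfold NVv
  rw [← re_ofReal_mul, ← re_ofReal_mul, ← add_re]
  congr 1
  simp only [map_add, map_sub, map_mul, conj_ofReal, conj_I, ofReal_one, ofReal_zero, map_one,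
    map_zero]
  ring

theorem sum_lin2 {ι : Type} (L : List ι) {f g h : ι → ℝ} {a b : ℝ}
    (H : ∀ t, f t = a * g t + b * h t) :
    (L.map f).sum = a * (L.map g).sum + b * (L.map h).sum := by
  induction L with
  | nil => simp
  | cons t L ih =>
    rw [List.map_cons, List.sum_cons, ih, List.map_cons, List.sum_cons, List.map_cons,
      List.sum_cons, H]
    ring

theorem sum_lin3 {ι : Type} (L : List ι) {f g h i : ι → ℝ} {a b c : ℝ}
    (H : ∀ t, f t = a * g t + b * h t + c * i t) :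
    (L.map f).sum = a * (L.map g).sum + b * (L.map h).sum + c * (L.map i).sum := by
  induction L with
  | nil => simp
  | cons t L ih =>
    rw [List.map_cons, List.sum_cons, ih, List.map_cons, List.sum_cons, List.map_cons,
      List.sum_cons, List.map_cons, List.sum_cons, H]
    ring

theorem NVsv_lin (d : DC) (L : List GrC) (W y : ℂ) (η : ℝ) (c0 c1 : ℝ) :
    NVsv d c0 c1 L W y η = c0 * NVsv d 1 0 L W y η + c1 * NVsv d 0 1 L W y η :=
  sum_lin2 L fun G => sum_lin2 G.l fun t => NVv_lin d c0 c1 G.k t W y η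

theorem re3 (a b c : ℝ) (x y z : ℂ) :
    a * x.re + b * y.re + c * z.re = ((a : ℂ) * x + b * y + c * z).re := by
  rw [add_re, add_re, re_ofReal_mul, re_ofReal_mul, re_ofReal_mul]

theorem re2 (a b : ℝ) (x y : ℂ) : a * x.re + b * y.re = ((a : ℂ) * x + b * y).re := by
  rw [add_re, re_ofReal_mul, re_ofReal_mul]

theorem NFv_lin (d : DC) (c0 c1 c2 : ℝ) (k : ℕ) (t : AP × BP × BP) (W y : ℂ) (η : ℝ) :
    NFv d c0 c1 c2 k t W y η = c0 * NFv d 1 0 0 k t W y η + c1 * NFv d 0 1 0 k t W y η +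
      c2 * NFv d 0 0 1 k t W y η := by
  unfold NFv
  have e : ((((c0 + c2) * ‖pp W η‖ ^ 2 + c0 * ‖(Real.sin η : ℂ) * y‖ ^ 2 -
      2 * (((c0 : ℂ) + c1 * I) * pp W η * conj (Real.sin η * y)).re : ℝ)) : ℂ) =
      c0 * ((((1 + 0) * ‖pp W η‖ ^ 2 + 1 * ‖(Real.sin η : ℂ) * y‖ ^ 2 -
      2 * ((((1:ℝ) : ℂ) + ((0:ℝ) : ℂ) * I) * pp W η * conj (Real.sin η * y)).re : ℝ)) : ℂ) +
      c1 * ((((0 + 0) * ‖pp W η‖ ^ 2 + 0 * ‖(Real.sin η : ℂ) * y‖ ^ 2 -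
      2 * ((((0:ℝ) : ℂ) + ((1:ℝ) : ℂ) * I) * pp W η * conj (Real.sin η * y)).re : ℝ)) : ℂ) +
      c2 * ((((0 + 1) * ‖pp W η‖ ^ 2 + 0 * ‖(Real.sin η : ℂ) * y‖ ^ 2 -
      2 * ((((0:ℝ) : ℂ) + ((0:ℝ) : ℂ) * I) * pp W η * conj (Real.sin η * y)).re : ℝ)) : ℂ) := by
    rw [← ofReal_mul, ← ofReal_mul, ← ofReal_mul, ← ofReal_add, ← ofReal_add]
    congr 1
    have e1 : (((c0 : ℂ) + c1 * I) * pp W η * conj (Real.sin η * y)).re =
        c0 * ((((1:ℝ) : ℂ) + ((0:ℝ) : ℂ) * I) * pp W η * conj (Real.sin η * y)).re +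
        c1 * ((((0:ℝ) : ℂ) + ((1:ℝ) : ℂ) * I) * pp W η * conj (Real.sin η * y)).re +
        c2 * ((((0:ℝ) : ℂ) + ((0:ℝ) : ℂ) * I) * pp W η * conj (Real.sin η * y)).re := by
      rw [re3]
      congr 1
      push_cast
      ring
    rw [e1]
    ring
  rw [re3, e]
  congr 1
  push_cast
  ring

theorem NFsv_lin (d : DC) (L : List GrC) (W y : ℂ) (η : ℝ) (c0 c1 c2 : ℝ) :
    NFsv d c0 c1 c2 L W y η = c0 * NFsv d 1 0 0 L W y η + c1 * NFsv d 0 1 0 L W y η +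
      c2 * NFsv d 0 0 1 L W y η :=
  sum_lin3 L fun G => sum_lin3 G.l fun t => NFv_lin d c0 c1 c2 G.k t W y η

theorem MTy_lin (L : CL) (l : ℝ) (w e y : ℂ) (c0 c1 : ℝ) :
    MTy c0 c1 L l w e y = c0 * MTy 1 0 L l w e y + c1 * MTy 0 1 L l w e y := by
  unfold MTy
  rw [re2]
  congr 1
  push_cast
  ring

theorem dpy_lin (T t s' σ : ℝ) (W y : ℂ) (η : ℝ) :
    dpy T t s' σ W y η = T * dpy 1 0 0 σ W y η + t * dpy 0 1 0 σ W y η +
      s' * dpy 0 0 1 σ W y η := by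
  unfold dpy
  have e1 : (((T : ℂ) - t * I) * (Real.sin η * y) * conj (pp W η)).re =
      T * ((((1:ℝ) : ℂ) - ((0:ℝ) : ℂ) * I) * (Real.sin η * y) * conj (pp W η)).re +
      t * ((((0:ℝ) : ℂ) - ((1:ℝ) : ℂ) * I) * (Real.sin η * y) * conj (pp W η)).re +
      s' * ((((0:ℝ) : ℂ) - ((0:ℝ) : ℂ) * I) * (Real.sin η * y) * conj (pp W η)).re := by
    rw [re3]
    congr 1
    push_cast
    ring
  have e2 : (pp W η * (2 * σ * Real.sin η * (T + I * t) +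
      I * Real.cos η * (T + 2 * I * t - s'))).re =
      T * (pp W η * (2 * σ * Real.sin η * (((1:ℝ) : ℂ) + I * ((0:ℝ) : ℂ)) +
      I * Real.cos η * (((1:ℝ) : ℂ) + 2 * I * ((0:ℝ) : ℂ) - ((0:ℝ) : ℂ)))).re +
      t * (pp W η * (2 * σ * Real.sin η * (((0:ℝ) : ℂ) + I * ((1:ℝ) : ℂ)) +
      I * Real.cos η * (((0:ℝ) : ℂ) + 2 * I * ((1:ℝ) : ℂ) - ((0:ℝ) : ℂ)))).re +
      s' * (pp W η * (2 * σ * Real.sin η * (((0:ℝ) : ℂ) + I * ((0:ℝ) : ℂ)) +
      I * Real.cos η * (((0:ℝ) : ℂ) + 2 * I * ((0:ℝ) : ℂ) - ((1:ℝ) : ℂ)))).re := by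
    rw [re3]
    congr 1
    push_cast
    ring
  have e3 : ((Real.sin η * y) * (2 * σ * Real.sin η * T + I * Real.cos η * (T + I * t))).re =
      T * ((Real.sin η * y) * (2 * σ * Real.sin η * ((1:ℝ) : ℂ) +
        I * Real.cos η * (((1:ℝ) : ℂ) + I * ((0:ℝ) : ℂ)))).re +
      t * ((Real.sin η * y) * (2 * σ * Real.sin η * ((0:ℝ) : ℂ) +
        I * Real.cos η * (((0:ℝ) : ℂ) + I * ((1:ℝ) : ℂ)))).re +
      s' * ((Real.sin η * y) * (2 * σ * Real.sin η * ((0:ℝ) : ℂ) +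
        I * Real.cos η * (((0:ℝ) : ℂ) + I * ((0:ℝ) : ℂ)))).re := by
    rw [re3]
    congr 1
    push_cast
    ring
  rw [e1, e2, e3]
  ring

theorem yx_re (τ : ℝ) (x : ℂ) : (1 + τ ^ 2) * x.re = (yx τ x).re + τ * (yx τ x).im := by
  unfold yx
  simp only [mul_re, mul_im, add_re, add_im, one_re, one_im, I_re, I_im, ofReal_re, ofReal_im]
  ring

theorem yx_nsq (τ : ℝ) (x : ℂ) : ‖yx τ x‖ ^ 2 = (1 + τ ^ 2) * ‖x‖ ^ 2 := by
  unfold yx
  rw [norm_mul, mul_pow]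
  congr 1
  rw [← Complex.normSq_eq_norm_sq, Complex.normSq_apply]
  simp
  ring

theorem one_sub_ne (τ : ℝ) : (1 : ℂ) - I * τ ≠ 0 := by
  intro h
  have := congrArg Complex.re h
  simp at this

theorem fac_eq (τ : ℝ) : ((1 : ℂ) + I * τ) * (1 - I * τ) = ((1 + τ ^ 2 : ℝ) : ℂ) := by
  push_cast
  linear_combination (-(τ : ℂ) ^ 2) * I_sq

theorem pos_fac (τ : ℝ) : 0 < 1 + τ ^ 2 := by (clear * -; positivity)

/-- `S C q` -/
theorem pp_q (x q : ℂ) (η : ℝ) : ((Real.sin (η / 2) * Real.cos (η / 2) : ℝ) : ℂ) * q =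
    pp (2 * x + q) η - Real.sin η * x := by
  unfold pp
  have h := sin_half η
  have h2 : (Real.sin η : ℂ) = 2 * ((Real.sin (η / 2) * Real.cos (η / 2) : ℝ) : ℂ) := by
    rw [h]
    push_cast
    ring
  rw [h2]
  ring

theorem sx_y (τ : ℝ) (x : ℂ) (η : ℝ) : (1 + I * (τ : ℂ)) * (Real.sin η * x) =
    Real.sin η * yx τ x := by
  unfold yx
  ring

theorem NVv_tau (d : DC) (τ : ℝ) (k : ℕ) (t : AP × BP × BP) (x q : ℂ) (η : ℝ) :
    NVv d 1 τ k t (2 * x + q) (yx τ x) η =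
      (1 + τ ^ 2) * NPotY d τ (1 / ((1 + τ ^ 2 : ℝ) : ℂ)) 0 k t x q η := by
  unfold NVv NPotY NPY
  have hz : ((1 + τ ^ 2 : ℝ) : ℂ) ≠ 0 := by exact_mod_cast (pos_fac τ).ne'
  have e1 : ((1 : ℝ) + τ * I) * pp (2 * x + q) η - (1 : ℝ) * (Real.sin η * yx τ x) =
      (1 + I * (τ : ℂ)) * (((Real.sin (η / 2) * Real.cos (η / 2) : ℝ) : ℂ) * q) := by
    rw [pp_q, mul_sub, sx_y]
    push_cast
    ring
  rw [e1, ← re_ofReal_mul, aC_eq]
  congr 1
  have e2 : ∀ Z : ℂ, conj ((1 + I * (τ : ℂ)) * (((Real.sin (η / 2) * Real.cos (η / 2) : ℝ) : ℂ) *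
      q) * Z) = (1 - I * τ) * (((Real.sin (η / 2) * Real.cos (η / 2) : ℝ) : ℂ) *
      conj (q * Z)) := by
    intro Z
    simp only [map_mul, map_add, map_one, conj_I, conj_ofReal]
    ring
  rw [e2]
  generalize ((1 + τ ^ 2 : ℝ) : ℂ) = z at *
  generalize conj (q * (1 + yx τ x)) = Q
  push_cast
  field_simp

theorem NFv_tau (d : DC) (τ : ℝ) (k : ℕ) (t : AP × BP × BP) (x q : ℂ) (η : ℝ) :
    NFv d 1 τ (τ ^ 2) k t (2 * x + q) (yx τ x) η =
      (1 + τ ^ 2) * NPotY d τ (1 / (1 - I * τ)) 1 k t x q η := by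
  unfold NFv NPotY NPY
  have hz := one_sub_ne τ
  obtain ⟨u, hu⟩ : ∃ u : ℂ, u = ((Real.sin (η / 2) * Real.cos (η / 2) : ℝ) : ℂ) * q := ⟨_, rfl⟩
  have hP : pp (2 * x + q) η = u + Real.sin η * x := by
    rw [hu, pp_q]
    ring
  have e1 : ((1 : ℝ) - ((τ ^ 2 : ℝ) : ℂ) + 2 * τ * I) * pp (2 * x + q) η -
      ((1 : ℝ) + τ * I) * (Real.sin η * yx τ x) = (1 + I * (τ : ℂ)) ^ 2 * u := by
    rw [← sx_y, hP]
    push_cast
    linear_combination (-(τ : ℂ) ^ 2 * (u + Complex.sin η * x)) * I_sq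
  have e2 : ((1 + τ ^ 2) * ‖pp (2 * x + q) η‖ ^ 2 + 1 * ‖(Real.sin η : ℂ) * yx τ x‖ ^ 2 -
      2 * ((((1:ℝ) : ℂ) + τ * I) * pp (2 * x + q) η * conj (Real.sin η * yx τ x)).re : ℝ) =
      (1 + τ ^ 2) * ‖u‖ ^ 2 := by
    have e3 : (((1:ℝ) : ℂ) + τ * I) * pp (2 * x + q) η * conj (Real.sin η * yx τ x) =
        ((1 + τ ^ 2 : ℝ) : ℂ) * (pp (2 * x + q) η * conj (Real.sin η * x)) := by
      rw [← sx_y, ← fac_eq]
      simp only [map_mul, map_add, map_one, conj_I, conj_ofReal]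
      push_cast
      ring
    rw [e3, re_ofReal_mul, norm_mul _ (yx τ x), mul_pow, yx_nsq, hP]
    have e4 : ‖u + Real.sin η * x‖ ^ 2 = ‖u‖ ^ 2 + ‖(Real.sin η : ℂ)‖ ^ 2 * ‖x‖ ^ 2 +
        2 * (u * conj (Real.sin η * x)).re := by
      rw [← mul_pow, ← norm_mul]
      simp only [← Complex.normSq_eq_norm_sq]
      exact Complex.normSq_add _ _
    have e5 : ((u + Real.sin η * x) * conj (Real.sin η * x)).re =
        (u * conj (Real.sin η * x)).re + ‖(Real.sin η : ℂ)‖ ^ 2 * ‖x‖ ^ 2 := by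
      rw [add_mul, add_re, Complex.mul_conj, ofReal_re, Complex.normSq_eq_norm_sq, norm_mul,
        mul_pow]
    rw [e4, e5]
    ring
  rw [e1, e2, ← re_ofReal_mul, aC_eq, aC1_eq]
  congr 1
  have e6 : ((‖u‖ ^ 2 : ℝ) : ℂ) = ((Real.sin (η / 2) * Real.cos (η / 2) : ℝ) : ℂ) ^ 2 *
      (q * conj q) := by
    rw [← Complex.normSq_eq_norm_sq, ← Complex.mul_conj, hu, map_mul, conj_ofReal]
    ring
  rw [ofReal_mul _ (‖u‖ ^ 2), e6, hu, map_mul conj q, ← fac_eq]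
  push_cast
  (clear * - hz; field_simp)

theorem NVsv_tau (d : DC) (τ : ℝ) (L : List GrC) (x q : ℂ) (η : ℝ) :
    NVsv d 1 τ L (2 * x + q) (yx τ x) η =
      (1 + τ ^ 2) * NGsY d τ (1 / ((1 + τ ^ 2 : ℝ) : ℂ)) 0 L x q η := by
  unfold NVsv NGsY
  simp only [NVv_tau, map_mul_l]

theorem NFsv_tau (d : DC) (τ : ℝ) (L : List GrC) (x q : ℂ) (η : ℝ) :
    NFsv d 1 τ (τ ^ 2) L (2 * x + q) (yx τ x) η =
      (1 + τ ^ 2) * NGsY d τ (1 / (1 - I * τ)) 1 L x q η := by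
  unfold NFsv NGsY
  simp only [NFv_tau, map_mul_l]

theorem MTy_tau (τ : ℝ) (L : CL) (l : ℝ) (w e x : ℂ) : MTy 1 τ L l w e (yx τ x) =
    2 * (1 + τ ^ 2) * (MSc L l w * e * ((1 + I * τ) / 2 * x ^ 2 + x)).re := by
  unfold MTy yx
  have e2 : 2 * (1 + τ ^ 2) * (MSc L l w * e * ((1 + I * τ) / 2 * x ^ 2 + x)).re =
      (((2 * (1 + τ ^ 2) : ℝ) : ℂ) * (MSc L l w * e * ((1 + I * τ) / 2 * x ^ 2 + x))).re := by
    rw [re_ofReal_mul]
  rw [e2, ofReal_mul, ← fac_eq]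
  congr 1
  push_cast
  ring

theorem dpy_tau (τ σ : ℝ) (x q : ℂ) (η : ℝ) : dpy 1 τ (τ ^ 2) σ (2 * x + q) (yx τ x) η =
    dpol τ σ x q (Real.sin η) (Real.cos η) := by
  have hs : (Real.sin η : ℂ) * q = 2 * pp (2 * x + q) η - 2 * (Real.sin η * x) := by
    unfold pp
    have h := sin_half η
    have h2 : (Real.sin η : ℂ) = 2 * ((Real.sin (η / 2) * Real.cos (η / 2) : ℝ) : ℂ) := by
      rw [h]
      push_cast
      ring
    rw [h2]
    ring
  unfold dpy dpol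
  have hY : (Real.sin η : ℂ) * q + 2 * σ * Real.sin η * x =
      2 * pp (2 * x + q) η - ((2 - 2 * σ : ℝ) : ℂ) * (Real.sin η * x) := by
    rw [hs]
    push_cast
    ring
  rw [hY]
  generalize pp (2 * x + q) η = P
  have e1 : (1 + τ ^ 2) * ‖2 * P - ((2 - 2 * σ : ℝ) : ℂ) * (Real.sin η * x)‖ ^ 2 =
      4 * (1 + τ ^ 2) * ‖P‖ ^ 2 - 4 * (2 - 2 * σ) *
      ((((1:ℝ) : ℂ) - τ * I) * (Real.sin η * yx τ x) * conj P).re +
      (2 - 2 * σ) ^ 2 * 1 * ‖(Real.sin η : ℂ) * yx τ x‖ ^ 2 := by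
    have e3 : (((1:ℝ) : ℂ) - τ * I) * (Real.sin η * yx τ x) * conj P =
        ((1 + τ ^ 2 : ℝ) : ℂ) * (Real.sin η * x * conj P) := by
      rw [← sx_y, ← fac_eq]
      push_cast
      ring
    have e4 : ‖2 * P - ((2 - 2 * σ : ℝ) : ℂ) * (Real.sin η * x)‖ ^ 2 = 4 * ‖P‖ ^ 2 +
        (2 - 2 * σ) ^ 2 * (‖(Real.sin η : ℂ)‖ ^ 2 * ‖x‖ ^ 2) -
        2 * (2 * (2 - 2 * σ)) * (Real.sin η * x * conj P).re := by
      rw [← mul_pow ‖(Real.sin η : ℂ)‖, ← norm_mul]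
      simp only [← Complex.normSq_eq_norm_sq]
      generalize (Real.sin η : ℂ) * x = X
      simp only [Complex.normSq_apply, sub_re, sub_im, mul_re, mul_im, conj_re, conj_im,
        ofReal_re, ofReal_im, re_ofNat, im_ofNat]
      ring
    rw [e3, re_ofReal_mul, norm_mul _ (yx τ x), mul_pow _ ‖yx τ x‖, yx_nsq, e4]
    ring
  have e2 : ((2 * P - ((2 - 2 * σ : ℝ) : ℂ) * (Real.sin η * x)) *
      (2 * σ * Real.sin η * (1 + I * τ) + I * Real.cos η * (1 + I * τ) ^ 2)).re =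
      2 * (P * (2 * σ * Real.sin η * (((1:ℝ) : ℂ) + I * τ) +
        I * Real.cos η * (((1:ℝ) : ℂ) + 2 * I * τ - ((τ ^ 2 : ℝ) : ℂ)))).re -
      (2 - 2 * σ) * ((Real.sin η * yx τ x) * (2 * σ * Real.sin η * ((1:ℝ) : ℂ) +
        I * Real.cos η * (((1:ℝ) : ℂ) + I * τ))).re := by
    have e5 : ∀ a b : ℂ, ∀ s : ℝ, 2 * a.re - s * b.re = (2 * a - (s : ℂ) * b).re := by
      intro a b s
      rw [sub_re, re_ofReal_mul, mul_re, re_ofNat, im_ofNat, zero_mul, sub_zero]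
    rw [e5, ← sx_y]
    congr 1
    push_cast
    linear_combination (2 * P * I * Complex.cos η * (τ : ℂ) ^ 2) * I_sq
  rw [e1, e2]
  ring

end Pool.Agent.Helper65.CKY

end

section

namespace Pool.Sos71
end Pool.Sos71
namespace Pool.EK71
end Pool.EK71
namespace Pool.Agent.Helper2.EK
end Pool.Agent.Helper2.EK
namespace Pool.Agent.Helper52.EK
end Pool.Agent.Helper52.EK
namespace Pool.Agent.Helper69.EK3
end Pool.Agent.Helper69.EK3
namespace Pool.Agent.Helper99.CKC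
end Pool.Agent.Helper99.CKC
namespace Pool.Agent.Helper11.CKC
end Pool.Agent.Helper11.CKC
namespace Pool.Agent.Helper42.CKC
end Pool.Agent.Helper42.CKC

set_option autoImplicit false

open Complex MeasureTheory Metric Set

open scoped Real ComplexConjugate

namespace Pool.Agent.Helper65.CKY

open Pool.Sos71 Pool.EK71 Pool.Agent.Helper2.EK

open Pool.Agent.Helper52.EK hiding ee

open Pool.Agent.Helper69.EK3 (AP aev af imul_cast' iadd_cast' rF)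

open Pool.Agent.Helper99.CKC

open Pool.Agent.Helper11.CKC (CL MSc ineg_cast')

open Pool.Agent.Helper42.CKC

noncomputable def VsV (d : DC) (c : List ℤ) (V : List (List ℤ × List GrC)) (W y : ℂ) (η : ℝ) : ℝ :=
  (V.map fun g => NVsv d (dt g.1 c) (dt (0 :: g.1) c) g.2 W y η).sum

noncomputable def VsF (d : DC) (c : List ℤ) (V : List (List ℤ × List GrC)) (W y : ℂ) (η : ℝ) : ℝ :=
  (V.map fun g => NFsv d (dt g.1 c) (dt (0 :: g.1) c) (dt (0 :: 0 :: g.1) c) g.2 W y η).sum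

/-- all potentials have order below `K` -/
def kOk (K : ℕ) (V : List (List ℤ × List GrC)) : Bool :=
  V.all fun g => g.2.all fun G => Nat.ble (G.k + 1) K

section val

variable (l η : ℝ) (W y : ℂ)

theorem sumV_re (c : List ℤ) (d : DC) (K : ℕ) {V : List (List ℤ × List GrC)}
    (h : kOk K V = true) (e : Ex) : (sumV c d K V e).re (pt7 l η W y) =
      Dc d y.re y.im ^ K * VsV d c V W y η + e.re (pt7 l η W y) := by
  unfold VsV
  induction V with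
  | nil => simp [sumV]
  | cons g V ih =>
    simp only [kOk, List.all_cons, Bool.and_eq_true] at h
    obtain ⟨h1, h2⟩ := h
    simp only [List.all_eq_true, Nat.ble_eq] at h1
    show (sumX (EV (dt g.1 c) (dt (0 :: g.1) c) d K) (sumV c d K V e) g.2).re (pt7 l η W y) = _
    rw [sumX_re, ih (by simpa only [kOk] using h2), List.map_cons, List.sum_cons,
      List.map_congr_left fun G hG => EV_re l η W y (dt g.1 c) (dt (0 :: g.1) c) d (h1 G hG),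
      map_mul_l]
    unfold NVsv
    ring

theorem sumF_re (c : List ℤ) (d : DC) (K : ℕ) {V : List (List ℤ × List GrC)}
    (h : kOk K V = true) (e : Ex) : (sumF c d K V e).re (pt7 l η W y) =
      Dc d y.re y.im ^ K * VsF d c V W y η + e.re (pt7 l η W y) := by
  unfold VsF
  induction V with
  | nil => simp [sumF]
  | cons g V ih =>
    simp only [kOk, List.all_cons, Bool.and_eq_true] at h
    obtain ⟨h1, h2⟩ := h
    simp only [List.all_eq_true, Nat.ble_eq] at h1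
    show (sumX (EF (dt g.1 c) (dt (0 :: g.1) c) (dt (0 :: 0 :: g.1) c) d K)
      (sumF c d K V e) g.2).re (pt7 l η W y) = _
    rw [sumX_re, ih (by simpa only [kOk] using h2), List.map_cons, List.sum_cons,
      List.map_congr_left fun G hG => EF_re l η W y (dt g.1 c) (dt (0 :: g.1) c)
        (dt (0 :: 0 :: g.1) c) d (h1 G hG), map_mul_l]
    unfold NFsv
    ring

end val

namespace DatY

variable (D : DatY)

/-- `T` weight of a vertex -/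
def tw (v : Vy) : ℤ := Int.add (dt (P1 D.m) v.c) (dt (0 :: 0 :: P1 D.m) v.c)

/-- `2 M (1 + τ²)^(m + 1) F` at a vertex -/
noncomputable def FF (v : Vy) (s : ℤ) (f : Fl) (L0 L1 : CL) (l : ℝ) (W y : ℂ) (η : ℝ) : ℝ :=
  -2 * D.Mt * (D.tw v * ‖Bf s v.gm v.cR v.cI f l (wW W η) -
      D.Fd * e0 (Real.sin η) (Real.cos η)‖ ^ 2) + 2 * NHms v.HM y W η +
    2 * (VsV D.d v.c D.V W y η + VsF D.d v.c D.F W y η) +
    (MTy (dt (P1 D.m) v.c) (dt (0 :: P1 D.m) v.c) L0 l (wW W η)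
        (e0 (Real.sin η) (Real.cos η)) y +
      MTy (dt (0 :: P1 D.m) v.c) (dt (0 :: 0 :: P1 D.m) v.c) L1 l (wW W η)
        (e0 (Real.sin η) (Real.cos η)) y) +
    2 * ((v.ka + dt D.nu v.c) * ‖y‖ ^ 2 + (dt D.nu v.c * y.re + dt (0 :: D.nu) v.c * y.im))

/-- conditions on the data -/
structure Wf : Prop where
  v0 : kOk D.K D.V = true
  f0 : kOk D.K D.F = true
  i0 : ∀ t ∈ D.MI0, t.2.1 ≤ 2
  i1 : ∀ t ∈ D.MI1, t.2.1 ≤ 2
  o0 : ∀ t ∈ D.MO0, t.2.1 ≤ 2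
  o1 : ∀ t ∈ D.MO1, t.2.1 ≤ 2

def wf : Bool :=
  kOk D.K D.V && kOk D.K D.F &&
    D.MI0.all (fun t => Nat.ble t.2.1 2) && D.MI1.all (fun t => Nat.ble t.2.1 2) &&
    D.MO0.all (fun t => Nat.ble t.2.1 2) && D.MO1.all (fun t => Nat.ble t.2.1 2)

theorem wf_iff (h : D.wf = true) : D.Wf := by
  simp only [wf, Bool.and_eq_true, Nat.ble_eq, List.all_eq_true] at h
  obtain ⟨⟨⟨⟨⟨h1, h2⟩, h3⟩, h4⟩, h5⟩, h6⟩ := h
  exact ⟨h1, h2, h3, h4, h5, h6⟩

variable {D}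

section

variable (l η : ℝ) (W y : ℂ)

theorem eLin_re (v : Vy) : (D.eLin v).re (pt7 l η W y) = Dc D.d y.re y.im ^ D.K *
    (2 * ((v.ka + dt D.nu v.c) * ‖y‖ ^ 2 + (dt D.nu v.c * y.re +
      dt (0 :: D.nu) v.c * y.im))) := by
  have e : (D.eLin v).re (pt7 l η W y) = xo.re (pt7 l η W y) ^ D.h * ev2 y.re y.im
      (mu2 [[0, Int.mul 2 (dt (0 :: D.nu) v.c), Int.mul 2 (Int.add v.ka (dt D.nu v.c))],
    [Int.mul 2 (dt D.nu v.c)], [Int.mul 2 (Int.add v.ka (dt D.nu v.c))]] (Dk D.d D.K)) := rfl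
  have e2 : ‖y‖ ^ 2 = y.re ^ 2 + y.im ^ 2 := by
    rw [← Complex.normSq_eq_norm_sq, Complex.normSq_apply]
    ring
  rw [e, v_xo, one_pow, one_mul, ev2_mu, Dk_ev, e2]
  simp only [ev2, ev1, imul_cast', iadd_cast']
  push_cast
  ring

theorem NHms_eq (L : List HmC) (d : DC) (K : ℕ) :
    (L.map fun t => (EHm d K t).re (pt7 l η W y)).sum = Dc d y.re y.im ^ K * NHms L y W η := by
  simp only [EHm_re, map_mul_l]
  rfl

theorem eMain_re (w : D.Wf) (v : Vy) (s : ℤ) (f : Fl) {L0 L1 : CL} (h0 : ∀ t ∈ L0, t.2.1 ≤ 2)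
    (h1 : ∀ t ∈ L1, t.2.1 ≤ 2) : (D.eMain v s f L0 L1).re (pt7 l η W y) =
      Dc D.d y.re y.im ^ D.K * D.FF v s f L0 L1 l W y η := by
  have e : (D.eMain v s f L0 L1).re (pt7 l η W y) =
      ((Int.mul (-2) (Int.mul (D.tw v) D.Mt) : ℤ) : ℝ) *
        (CX.nsq (cGv0 D.Fd s v.gm v.cR v.cI f)).re (pt7 l η W y) *
        (xo.re (pt7 l η W y) ^ (D.h - 2) * ev2 y.re y.im (Dk D.d D.K)) +
      (((2 : ℤ) : ℝ) * (sumX (EHm D.d D.K) (Ex.mul (Ex.pow xo D.h) (Ex.lit 0))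
          v.HM).re (pt7 l η W y) +
        (((2 : ℤ) : ℝ) * (sumV v.c D.d D.K D.V
          (sumF v.c D.d D.K D.F (Ex.mul (Ex.pow xo D.h) (Ex.lit 0)))).re (pt7 l η W y) +
        (sumX (EMy (dt (P1 D.m) v.c) (dt (0 :: P1 D.m) v.c) D.d D.K D.h)
          (sumX (EMy (dt (0 :: P1 D.m) v.c) (dt (0 :: 0 :: P1 D.m) v.c) D.d D.K D.h)
            (D.eLin v) L1) L0).re (pt7 l η W y))) := rfl
  rw [e, CX.v_nsq, v_cGv0, v_xo, one_pow, Dk_ev, sumX_re, lit0_re, NHms_eq,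
    sumV_re l η W y _ _ _ w.v0, sumF_re l η W y _ _ _ w.f0, lit0_re, sumX_re, sumX_re,
    EMys_re l η W y _ _ _ _ _ h0, EMys_re l η W y _ _ _ _ _ h1, eLin_re, imul_cast', imul_cast']
  unfold FF
  push_cast
  ring

theorem target_re (w : D.Wf) (v : Vy) (s r0 r1 r2 : ℤ) (f : Fl) {L0 L1 : CL}
    (h0 : ∀ t ∈ L0, t.2.1 ≤ 2) (h1 : ∀ t ∈ L1, t.2.1 ≤ 2) (R : List Rm)
    (hr : D.rd * (‖wW W η‖ ^ 2 - 1) + s * l * rF r0 r1 r2 (wW W η) = 0) :
    (D.target v s r0 r1 r2 f L0 L1 R).re (pt7 l η W y) =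
      Dc D.d y.re y.im ^ D.K * D.FF v s f L0 L1 l W y η := by
  have e : (D.target v s r0 r1 r2 f L0 L1 R).re (pt7 l η W y) =
      (D.eMain v s f L0 L1).re (pt7 l η W y) + (eCn0 D.rd s r0 r1 r2).re (pt7 l η W y) *
      (sumX (eRm D.d (D.K - D.kL)) (Ex.mul (Ex.pow xo (D.h - 2)) (Ex.lit 0)) R).re
        (pt7 l η W y) := rfl
  rw [e, eCn0_re, hr, zero_mul, add_zero, eMain_re l η W y w v s f h0 h1]

end

/-- degrees of the data: `n = 2 m + 2` -/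
def degB (D : DatY) : Bool :=
  Nat.ble D.nu.length (2 * D.m + 2) && (D.V.all (fun g => Nat.ble g.1.length (2 * D.m + 2)) &&
    D.F.all (fun g => Nat.ble g.1.length (2 * D.m + 1)))

/-- the null Lagrangian -/
noncomputable def NN (D : DatY) (vs : List Vy) (s : Vy → ℝ) (τ : ℝ) (x q : ℂ) (η : ℝ) : ℝ :=
  1 / (D.M * (1 + τ ^ 2) ^ (D.m + 1)) *
    ((1 + τ ^ 2) * ((D.V.map fun g => pv g.1 τ *
        NGsY D.d τ (1 / ((1 + τ ^ 2 : ℝ) : ℂ)) 0 g.2 x q η).sum +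
      (D.F.map fun g => pv g.1 τ * NGsY D.d τ (1 / (1 - I * τ)) 1 g.2 x q η).sum) +
    mn vs s (fun v => NHms v.HM (yx τ x) q η))

variable {vs : List Vy} {s : Vy → ℝ} {τ : ℝ}

theorem mean_V (hR : Rep (2 * D.m + 2) vs s τ) {V : List (List ℤ × List GrC)}
    (hV : ∀ g ∈ V, g.1.length ≤ 2 * D.m + 2) (x q : ℂ) (η : ℝ) :
    mn vs s (fun v => VsV D.d v.c V (2 * x + q) (yx τ x) η) =
      (1 + τ ^ 2) * (V.map fun g => pv g.1 τ *
        NGsY D.d τ (1 / ((1 + τ ^ 2 : ℝ) : ℂ)) 0 g.2 x q η).sum := by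
  unfold VsV
  rw [mn_list, ← map_mul_l]
  congr 1
  refine List.map_congr_left fun g hg => ?_
  have h1 := hV g hg
  rw [mn2 (NVsv_lin D.d g.2 (2 * x + q) (yx τ x) η) (fun v => (dt g.1 v.c : ℝ))
    (fun v => (dt (0 :: g.1) v.c : ℝ)), rep_dt hR _ (by omega),
    rep_dt hR _ (by rw [List.length_cons]; omega), pv_shift]
  have h2 := NVsv_tau D.d τ g.2 x q η
  have h3 := NVsv_lin D.d g.2 (2 * x + q) (yx τ x) η
  rw [h3] at h2 ⊢
  linear_combination pv g.1 τ * h2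

theorem mean_F (hR : Rep (2 * D.m + 2) vs s τ) {V : List (List ℤ × List GrC)}
    (hV : ∀ g ∈ V, g.1.length ≤ 2 * D.m + 1) (x q : ℂ) (η : ℝ) :
    mn vs s (fun v => VsF D.d v.c V (2 * x + q) (yx τ x) η) =
      (1 + τ ^ 2) * (V.map fun g => pv g.1 τ *
        NGsY D.d τ (1 / (1 - I * τ)) 1 g.2 x q η).sum := by
  unfold VsF
  rw [mn_list, ← map_mul_l]
  congr 1
  refine List.map_congr_left fun g hg => ?_
  have h1 := hV g hg
  rw [mn3 (NFsv_lin D.d g.2 (2 * x + q) (yx τ x) η) (fun v => (dt g.1 v.c : ℝ))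
    (fun v => (dt (0 :: g.1) v.c : ℝ)) (fun v => (dt (0 :: 0 :: g.1) v.c : ℝ)),
    rep_dt hR _ (by omega), rep_dt hR _ (by rw [List.length_cons]; omega),
    rep_dt hR _ (by rw [List.length_cons, List.length_cons]; omega)]
  simp only [pv_shift]
  have h2 := NFsv_tau D.d τ g.2 x q η
  have h3 := NFsv_lin D.d g.2 (2 * x + q) (yx τ x) η
  rw [h3] at h2 ⊢
  linear_combination pv g.1 τ * h2

theorem len_P (D : DatY) : (P1 D.m).length ≤ 2 * D.m + 2 + 1 ∧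
    (0 :: P1 D.m).length ≤ 2 * D.m + 2 + 1 ∧ (0 :: 0 :: P1 D.m).length ≤ 2 * D.m + 2 + 1 := by
  simp only [List.length_cons, length_P1]
  omega

theorem mean_M (hR : Rep (2 * D.m + 2) vs s τ) (L0 L1 : CL) (l : ℝ) (w e x : ℂ) :
    mn vs s (fun v => MTy (dt (P1 D.m) v.c) (dt (0 :: P1 D.m) v.c) L0 l w e (yx τ x) +
      MTy (dt (0 :: P1 D.m) v.c) (dt (0 :: 0 :: P1 D.m) v.c) L1 l w e (yx τ x)) =
    2 * (1 + τ ^ 2) ^ (D.m + 1) * ((MSc L0 l w + (τ : ℂ) * MSc L1 l w) * e *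
      ((1 + I * τ) / 2 * x ^ 2 + x)).re := by
  obtain ⟨a1, a2, a3⟩ := len_P D
  rw [mn_add, mn2 (MTy_lin L0 l w e (yx τ x)) (fun v => (dt (P1 D.m) v.c : ℝ))
    (fun v => (dt (0 :: P1 D.m) v.c : ℝ)), mn2 (MTy_lin L1 l w e (yx τ x))
    (fun v => (dt (0 :: P1 D.m) v.c : ℝ)) (fun v => (dt (0 :: 0 :: P1 D.m) v.c : ℝ)),
    rep_dt hR _ a1, rep_dt hR _ a2, rep_dt hR _ a3]
  simp only [pv_shift, pv_P1]
  have h2 := MTy_tau τ L0 l w e x
  have h3 := MTy_tau τ L1 l w e x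
  have h4 := MTy_lin L0 l w e (yx τ x)
  have h5 := MTy_lin L1 l w e (yx τ x)
  rw [h4] at h2 ⊢
  rw [h5] at h3 ⊢
  have e6 : ((MSc L0 l w + (τ : ℂ) * MSc L1 l w) * e * ((1 + I * τ) / 2 * x ^ 2 + x)).re =
      (MSc L0 l w * e * ((1 + I * τ) / 2 * x ^ 2 + x)).re +
      τ * (MSc L1 l w * e * ((1 + I * τ) / 2 * x ^ 2 + x)).re := by
    rw [← re_ofReal_mul, ← add_re]
    congr 1
    ring
  rw [e6]
  linear_combination (1 + τ ^ 2) ^ D.m * h2 + τ * (1 + τ ^ 2) ^ D.m * h3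

theorem mean_tw (hR : Rep (2 * D.m + 2) vs s τ) :
    mn vs s (fun v => (D.tw v : ℝ)) = (1 + τ ^ 2) ^ (D.m + 1) := by
  obtain ⟨a1, -, a3⟩ := len_P D
  have e : ∀ v : Vy, (D.tw v : ℝ) = dt (P1 D.m) v.c + dt (0 :: 0 :: P1 D.m) v.c := by
    intro v
    unfold tw
    rw [iadd_cast']
  rw [mn_congr fun v _ => e v, mn_add, rep_dt hR _ a1, rep_dt hR _ a3, pv_shift, pv_shift, pv_P1]
  ring

theorem mean_disc (hR : Rep (2 * D.m + 2) vs s τ) {p : List ℤ} (hp : p.length ≤ 2 * D.m + 1)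
    (z : ℤ) (l : ℝ) (x q : ℂ) (η : ℝ) :
    mn vs s (fun v => (eDv z p v.c).re (pt7 l η (2 * x + q) (yx τ x))) =
      pv p τ * dpol τ z x q (Real.sin η) (Real.cos η) := by
  have e : ∀ v : Vy, (eDv z p v.c).re (pt7 l η (2 * x + q) (yx τ x)) =
      dpy (dt p v.c) (dt (0 :: p) v.c) (dt (0 :: 0 :: p) v.c) z (2 * x + q) (yx τ x) η := by
    intro v
    unfold eDv
    rw [eDy_re]
  have lin : ∀ a b c : ℝ, dpy a b c z (2 * x + q) (yx τ x) η =
      a * dpy 1 0 0 z (2 * x + q) (yx τ x) η + b * dpy 0 1 0 z (2 * x + q) (yx τ x) η +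
      c * dpy 0 0 1 z (2 * x + q) (yx τ x) η := fun a b c => dpy_lin a b c z _ _ η
  rw [mn_congr fun v _ => e v, mn3 (g := fun a b c => dpy a b c z (2 * x + q) (yx τ x) η) lin
    (fun v => (dt p v.c : ℝ)) (fun v => (dt (0 :: p) v.c : ℝ))
    (fun v => (dt (0 :: 0 :: p) v.c : ℝ)), rep_dt hR _ (by omega),
    rep_dt hR _ (by rw [List.length_cons]; omega),
    rep_dt hR _ (by rw [List.length_cons, List.length_cons]; omega)]
  simp only [pv_shift]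
  rw [← dpy_tau, lin, lin 1 τ (τ ^ 2)]
  ring

/-- the mean of the linear part -/
theorem mean_lin (hR : Rep (2 * D.m + 2) vs s τ) (hn : D.nu.length ≤ 2 * D.m + 2) (x : ℂ) :
    mn vs s (fun v => (v.ka + dt D.nu v.c) * ‖yx τ x‖ ^ 2 + (dt D.nu v.c * (yx τ x).re +
      dt (0 :: D.nu) v.c * (yx τ x).im)) =
    (1 + τ ^ 2) * ((mn vs s (fun v => (v.ka : ℝ)) + pv D.nu τ) * ‖x‖ ^ 2 + pv D.nu τ * x.re) := by
  rw [mn_add, mn_mulr, mn_add, mn_add, mn_mulr, mn_mulr, rep_dt hR _ (by omega),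
    rep_dt hR _ (by rw [List.length_cons]; omega), pv_shift, yx_nsq]
  have h := yx_re τ x
  linear_combination (-pv D.nu τ) * h

end DatY

end Pool.Agent.Helper65.CKY

end

section

namespace Pool.Sos71
end Pool.Sos71
namespace Pool.EK71
end Pool.EK71
namespace Pool.Agent.Helper2.EK
end Pool.Agent.Helper2.EK
namespace Pool.Agent.Helper52.EK
end Pool.Agent.Helper52.EK
namespace Pool.Agent.Helper69.EK3
end Pool.Agent.Helper69.EK3
namespace Pool.Agent.Helper99.CKC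
end Pool.Agent.Helper99.CKC
namespace Pool.Agent.Helper11.CKC
end Pool.Agent.Helper11.CKC
namespace Pool.Agent.Helper42.CKC
end Pool.Agent.Helper42.CKC

set_option autoImplicit false

open Complex MeasureTheory Metric Set

open scoped Real ComplexConjugate

namespace Pool.Agent.Helper65.CKY

open Pool.Sos71 Pool.EK71 Pool.Agent.Helper2.EK

open Pool.Agent.Helper52.EK hiding ee

open Pool.Agent.Helper69.EK3 (AP aev af imul_cast' iadd_cast' rF)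

open Pool.Agent.Helper99.CKC

open Pool.Agent.Helper11.CKC (CL MSc)

open Pool.Agent.Helper42.CKC

/-- Cauchy-Schwarz for a list -/
theorem jen {ι : Type} (L : List ι) (a : ι → ℝ) (z : ι → ℂ) (ha : ∀ v ∈ L, 0 ≤ a v) :
    ‖(L.map fun v => (a v : ℂ) * z v).sum‖ ^ 2 ≤
      (L.map a).sum * (L.map fun v => a v * ‖z v‖ ^ 2).sum ∧ 0 ≤ (L.map a).sum ∧
      0 ≤ (L.map fun v => a v * ‖z v‖ ^ 2).sum := by
  induction L with
  | nil => simp
  | cons v L ih =>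
    obtain ⟨h1, h2, h3⟩ := ih fun w hw => ha w (List.mem_cons_of_mem _ hw)
    have hv := ha v List.mem_cons_self
    rw [List.map_cons, List.sum_cons, List.map_cons, List.sum_cons, List.map_cons, List.sum_cons]
    generalize (L.map fun v => (a v : ℂ) * z v).sum = Z at *
    generalize (L.map a).sum = A at *
    generalize (L.map fun v => a v * ‖z v‖ ^ 2).sum = S at *
    have hn := norm_nonneg (z v)
    have hZ := norm_nonneg Z
    refine ⟨?_, by (clear * - hv h2; positivity), by (clear * - hv h3; positivity)⟩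
    have k1 : ‖(a v : ℂ) * z v + Z‖ ≤ a v * ‖z v‖ + ‖Z‖ := by
      refine (norm_add_le _ _).trans ?_
      rw [norm_mul, norm_real, Real.norm_of_nonneg hv]
    have k2 := pow_le_pow_left₀ (norm_nonneg _) k1 2
    refine k2.trans ?_
    have k3 : 2 * (‖z v‖ * ‖Z‖) ≤ A * ‖z v‖ ^ 2 + S := by
      refine abs_le_of_sq_le_sq' ?_ (by (clear * - h2 h3; positivity)) |>.2
      have k4 : ‖z v‖ ^ 2 * ‖Z‖ ^ 2 ≤ ‖z v‖ ^ 2 * (A * S) :=
        mul_le_mul_of_nonneg_left h1 (sq_nonneg _)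
      nlinarith only [sq_nonneg (A * ‖z v‖ ^ 2 - S), h1]
    have k5 := mul_le_mul_of_nonneg_left k3 hv
    linarith only [k5, h1]

/-- the complex mean of the fields -/
noncomputable def cfY (D : DatY) (vs : List Vy) (s : Vy → ℝ) (τ : ℝ) (g : Vy → ℂ) : ℂ :=
  (vs.map fun v => ((s v * D.tw v : ℝ) : ℂ) * g v).sum / (D.Fd * ((1 + τ ^ 2) ^ (D.m + 1) : ℝ))

theorem sumC_lin (vs : List Vy) (a : Vy → ℂ) (g1 g2 g3 g4 : Vy → ℂ) (w e l : ℂ) :
    (vs.map fun v => a v * (g1 v * w + g2 v + l * (g3 v * w + g4 v) - e)).sum =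
      (vs.map fun v => a v * g1 v).sum * w + (vs.map fun v => a v * g2 v).sum +
      l * ((vs.map fun v => a v * g3 v).sum * w + (vs.map fun v => a v * g4 v).sum) -
      (vs.map a).sum * e := by
  induction vs with
  | nil => simp
  | cons v vs ih =>
    simp only [List.map_cons, List.sum_cons]
    rw [ih]
    ring

theorem sum_ofReal' (vs : List Vy) (a : Vy → ℝ) :
    (vs.map fun v => ((a v : ℝ) : ℂ)).sum = (((vs.map a).sum : ℝ) : ℂ) := by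
  induction vs with
  | nil => simp
  | cons v vs ih =>
    rw [List.map_cons, List.sum_cons, ih, List.map_cons, List.sum_cons]
    push_cast
    rfl

namespace DatY

variable {D : DatY} {vs : List Vy} {s : Vy → ℝ} {τ : ℝ}

/-- the mean of the fields -/
theorem bf_mean (hs : ∀ v ∈ vs, 0 ≤ s v) (htw : ∀ v ∈ vs, 0 ≤ D.tw v) (hF : 0 < D.Fd)
    (hR : Rep (2 * D.m + 2) vs s τ) (sg : ℤ) (f : Vy → Fl) (l : ℝ) (w e : ℂ) :
    (D.Fd : ℝ) ^ 2 * ((1 + τ ^ 2) ^ (D.m + 1) *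
      ‖cfY D vs s τ (fun v => v.gm) * w + cfY D vs s τ (fun v => (v.cR : ℂ) + v.cI * I) +
        (l : ℂ) * ((sg * cfY D vs s τ (fun v => ((f v).aR : ℂ) + (f v).aI * I)) * w +
          sg * cfY D vs s τ (fun v => ((f v).bR : ℂ) + (f v).bI * I)) - e‖ ^ 2) ≤
      mn vs s (fun v => D.tw v * ‖Bf sg v.gm v.cR v.cI (f v) l w - D.Fd * e‖ ^ 2) := by
  have hQ : 0 < (1 + τ ^ 2) ^ (D.m + 1) := by (clear * -; positivity)
  have hmt := mean_tw hR
  obtain ⟨k1, k2, k3⟩ := jen vs (fun v => s v * D.tw v)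
    (fun v => Bf sg v.gm v.cR v.cI (f v) l w - D.Fd * e) fun v hv =>
      mul_nonneg (hs v hv) (by exact_mod_cast htw v hv)
  have e1 : (vs.map fun v => s v * (D.tw v : ℝ)).sum = (1 + τ ^ 2) ^ (D.m + 1) := hmt
  rw [e1] at k1
  have e2 : (vs.map fun v => s v * (D.tw v : ℝ) * ‖Bf sg v.gm v.cR v.cI (f v) l w - D.Fd * e‖ ^ 2
      ).sum = mn vs s (fun v => D.tw v * ‖Bf sg v.gm v.cR v.cI (f v) l w - D.Fd * e‖ ^ 2) := by
    unfold mn
    congr 1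
    exact List.map_congr_left fun v _ => by ring
  rw [e2] at k1
  have e3 : (vs.map fun v => ((s v * D.tw v : ℝ) : ℂ) *
      (Bf sg v.gm v.cR v.cI (f v) l w - D.Fd * e)).sum =
      (vs.map fun v => ((s v * D.tw v : ℝ) : ℂ) * ((v.gm : ℂ) * w + ((v.cR : ℂ) + v.cI * I) +
        ((sg : ℂ) * l) * ((((f v).aR : ℂ) + (f v).aI * I) * w +
          (((f v).bR : ℂ) + (f v).bI * I)) - D.Fd * e)).sum := by
    congr 1
  rw [e3, sumC_lin, sum_ofReal' vs (fun v => s v * D.tw v), e1] at k1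
  have hFc : (D.Fd : ℂ) ≠ 0 := by exact_mod_cast hF.ne'
  have hQc : ((((1 + τ ^ 2) ^ (D.m + 1) : ℝ)) : ℂ) ≠ 0 := by exact_mod_cast hQ.ne'
  have hn : ‖(D.Fd : ℂ)‖ = D.Fd := by
    have : (D.Fd : ℂ) = ((D.Fd : ℝ) : ℂ) := by push_cast; rfl
    rw [this, norm_real, Real.norm_eq_abs, abs_of_pos (by exact_mod_cast hF)]
  have hn2 : ‖((((1 + τ ^ 2) ^ (D.m + 1) : ℝ)) : ℂ)‖ = (1 + τ ^ 2) ^ (D.m + 1) := by
    rw [norm_real, Real.norm_of_nonneg hQ.le]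
  unfold cfY
  generalize (vs.map fun v => ((s v * D.tw v : ℝ) : ℂ) * (v.gm : ℂ)).sum = g1 at *
  generalize (vs.map fun v => ((s v * D.tw v : ℝ) : ℂ) * ((v.cR : ℂ) + v.cI * I)).sum = g2 at *
  generalize (vs.map fun v => ((s v * D.tw v : ℝ) : ℂ) * (((f v).aR : ℂ) + (f v).aI * I)).sum =
    g3 at *
  generalize (vs.map fun v => ((s v * D.tw v : ℝ) : ℂ) * (((f v).bR : ℂ) + (f v).bI * I)).sum =
    g4 at *
  have e5 : g1 * w + g2 + (sg : ℂ) * l * (g3 * w + g4) -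
      ((((1 + τ ^ 2) ^ (D.m + 1) : ℝ)) : ℂ) * (D.Fd * e) =
      D.Fd * ((((1 + τ ^ 2) ^ (D.m + 1) : ℝ)) : ℂ) *
      (g1 / (D.Fd * ((((1 + τ ^ 2) ^ (D.m + 1) : ℝ)) : ℂ)) * w +
        g2 / (D.Fd * ((((1 + τ ^ 2) ^ (D.m + 1) : ℝ)) : ℂ)) +
        (l : ℂ) * ((sg * (g3 / (D.Fd * ((((1 + τ ^ 2) ^ (D.m + 1) : ℝ)) : ℂ)))) * w +
          sg * (g4 / (D.Fd * ((((1 + τ ^ 2) ^ (D.m + 1) : ℝ)) : ℂ)))) - e) := by
    generalize ((((1 + τ ^ 2) ^ (D.m + 1) : ℝ)) : ℂ) = Q at *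
    field_simp
  rw [e5, norm_mul, norm_mul, hn, hn2, mul_pow, mul_pow] at k1
  generalize ‖g1 / (D.Fd * ((((1 + τ ^ 2) ^ (D.m + 1) : ℝ)) : ℂ)) * w +
        g2 / (D.Fd * ((((1 + τ ^ 2) ^ (D.m + 1) : ℝ)) : ℂ)) +
        (l : ℂ) * ((sg * (g3 / (D.Fd * ((((1 + τ ^ 2) ^ (D.m + 1) : ℝ)) : ℂ)))) * w +
          sg * (g4 / (D.Fd * ((((1 + τ ^ 2) ^ (D.m + 1) : ℝ)) : ℂ)))) - e‖ ^ 2 = T at *
  generalize (1 + τ ^ 2) ^ (D.m + 1) = Q at *
  refine le_of_mul_le_mul_left (le_trans (le_of_eq ?_) k1) hQ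
  ring

/-- the mean of the targets -/
theorem mean_FF (hdeg : D.degB = true) (hM : 0 < D.M) (hR : Rep (2 * D.m + 2) vs s τ) (sg : ℤ)
    (f : Vy → Fl) (L0 L1 : CL) (l : ℝ) (x q : ℂ) (η : ℝ) :
    mn vs s (fun v => D.FF v sg (f v) L0 L1 l (2 * x + q) (yx τ x) η) =
      2 * D.M * (1 + τ ^ 2) ^ (D.m + 1) *
        (-(mn vs s (fun v => (v.ka : ℝ)) / (D.M * (1 + τ ^ 2) ^ D.m)) * x.re +
          (mn vs s (fun v => (v.ka : ℝ)) + pv D.nu τ) / (D.M * (1 + τ ^ 2) ^ D.m) *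
            (‖x‖ ^ 2 + x.re) + D.NN vs s τ x q η +
          ((MSc L0 l (wx x q (Real.sin η) (Real.cos η)) / D.M + (τ : ℂ) *
          (MSc L1 l (wx x q (Real.sin η) (Real.cos η)) / D.M)) * e0 (Real.sin η) (Real.cos η) *
          ((1 + I * τ) / 2 * x ^ 2 + x)).re) -
      2 * D.Mt * mn vs s (fun v => D.tw v * ‖Bf sg v.gm v.cR v.cI (f v) l
        (wx x q (Real.sin η) (Real.cos η)) - D.Fd * e0 (Real.sin η) (Real.cos η)‖ ^ 2) := by
  simp only [degB, Bool.and_eq_true, Nat.ble_eq, List.all_eq_true] at hdeg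
  obtain ⟨d1, d2, d3⟩ := hdeg
  have hM' : (D.M : ℝ) ≠ 0 := by exact_mod_cast hM.ne'
  have hMc : (D.M : ℂ) ≠ 0 := by exact_mod_cast hM.ne'
  have hZ := (pos_fac τ).ne'
  rw [wx_wW]
  have e1 : mn vs s (fun v => D.FF v sg (f v) L0 L1 l (2 * x + q) (yx τ x) η) =
      -2 * D.Mt * mn vs s (fun v => D.tw v * ‖Bf sg v.gm v.cR v.cI (f v) l (wW (2 * x + q) η) -
        D.Fd * e0 (Real.sin η) (Real.cos η)‖ ^ 2) +
      2 * mn vs s (fun v => NHms v.HM (yx τ x) q η) +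
      2 * (mn vs s (fun v => VsV D.d v.c D.V (2 * x + q) (yx τ x) η) +
        mn vs s (fun v => VsF D.d v.c D.F (2 * x + q) (yx τ x) η)) +
      mn vs s (fun v => MTy (dt (P1 D.m) v.c) (dt (0 :: P1 D.m) v.c) L0 l (wW (2 * x + q) η)
          (e0 (Real.sin η) (Real.cos η)) (yx τ x) +
        MTy (dt (0 :: P1 D.m) v.c) (dt (0 :: 0 :: P1 D.m) v.c) L1 l (wW (2 * x + q) η)
          (e0 (Real.sin η) (Real.cos η)) (yx τ x)) +
      2 * mn vs s (fun v => (v.ka + dt D.nu v.c) * ‖yx τ x‖ ^ 2 +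
        (dt D.nu v.c * (yx τ x).re + dt (0 :: D.nu) v.c * (yx τ x).im)) := by
    unfold FF
    rw [mn_add, mn_add, mn_add, mn_add, mn_mul, mn_mul, mn_mul, mn_mul,
      mn_add (fun v => VsV D.d v.c D.V (2 * x + q) (yx τ x) η)]
    rfl
  rw [e1, mean_V hR d2, mean_F hR d3, mean_M hR, mean_lin hR d1]
  have e2 : (MSc L0 l (wW (2 * x + q) η) + (τ : ℂ) * MSc L1 l (wW (2 * x + q) η)) *
      e0 (Real.sin η) (Real.cos η) * ((1 + I * τ) / 2 * x ^ 2 + x) = ((D.M : ℝ) : ℂ) *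
      ((MSc L0 l (wW (2 * x + q) η) / D.M + (τ : ℂ) * (MSc L1 l (wW (2 * x + q) η) / D.M)) *
      e0 (Real.sin η) (Real.cos η) * ((1 + I * τ) / 2 * x ^ 2 + x)) := by
    push_cast
    field_simp
  rw [e2, re_ofReal_mul]
  generalize ((MSc L0 l (wW (2 * x + q) η) / D.M + (τ : ℂ) * (MSc L1 l (wW (2 * x + q) η) /
      D.M)) * e0 (Real.sin η) (Real.cos η) * ((1 + I * τ) / 2 * x ^ 2 + x)).re = MM
  unfold NN
  generalize (D.V.map fun g => pv g.1 τ *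
    NGsY D.d τ (1 / ((1 + τ ^ 2 : ℝ) : ℂ)) 0 g.2 x q η).sum = sV
  generalize (D.F.map fun g => pv g.1 τ * NGsY D.d τ (1 / (1 - I * τ)) 1 g.2 x q η).sum = sF
  generalize mn vs s (fun v => NHms v.HM (yx τ x) q η) = sH
  generalize mn vs s (fun v => (v.ka : ℝ)) = ka
  generalize pv D.nu τ = nu
  generalize mn vs s _ = mT
  rw [pow_succ]
  have hZm : (1 + τ ^ 2) ^ D.m ≠ 0 := pow_ne_zero _ hZ
  generalize (1 + τ ^ 2) ^ D.m = Zm at *
  generalize 1 + τ ^ 2 = Z at *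
  field_simp
  ring

/-- the mean of the discs -/
theorem mean_QL (hR : Rep (2 * D.m + 2) vs s τ) {QL : List (List ℤ × ℝ × ℝ)}
    (hp : ∀ g ∈ QL, g.1.length ≤ 2 * D.m + 1) (l : ℝ) (x q : ℂ) (η : ℝ) :
    mn vs s (fun v => (QL.map fun g =>
      g.2.1 * (eDv 1 g.1 v.c).re (pt7 l η (2 * x + q) (yx τ x)) +
      g.2.2 * (eDv (-1) g.1 v.c).re (pt7 l η (2 * x + q) (yx τ x))).sum) =
    (QL.map fun g => pv g.1 τ * g.2.1).sum * dpol τ 1 x q (Real.sin η) (Real.cos η) +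
      (QL.map fun g => pv g.1 τ * g.2.2).sum * dpol τ (-1) x q (Real.sin η) (Real.cos η) := by
  rw [mn_list]
  induction QL with
  | nil => simp
  | cons g QL ih =>
    have h1 := hp g List.mem_cons_self
    rw [List.map_cons, List.sum_cons, ih fun g hg => hp g (List.mem_cons_of_mem _ hg), mn_add,
      mn_mul, mn_mul, mean_disc hR h1, mean_disc hR h1]
    simp only [List.map_cons, List.sum_cons]
    push_cast
    ring

/-- **one side at a point** -/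
theorem side_ptY (w : D.Wf) (hdeg : D.degB = true) (hM : 0 < D.M) (hF : 0 < D.Fd)
    (hMF : D.M = D.Fd ^ 2 * D.Mt) (hs : ∀ v ∈ vs, 0 ≤ s v) (htw : ∀ v ∈ vs, 0 ≤ D.tw v)
    (hR : Rep (2 * D.m + 2) vs s τ) {sg r0 r1 r2 : ℤ} {f : Vy → Fl} {L0 L1 : CL}
    (h0 : ∀ t ∈ L0, t.2.1 ≤ 2) (h1 : ∀ t ∈ L1, t.2.1 ≤ 2) {R : Vy → List Rm}
    {QL : List (List ℤ × ℝ × ℝ)} (hp : ∀ g ∈ QL, g.1.length ≤ 2 * D.m + 1) {l : ℝ} {x q : ℂ}
    {η : ℝ}
    (hQ : ∀ v ∈ vs, (QL.map fun g =>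
      g.2.1 * (eDv 1 g.1 v.c).re (pt7 l η (2 * x + q) (yx τ x)) +
      g.2.2 * (eDv (-1) g.1 v.c).re (pt7 l η (2 * x + q) (yx τ x))).sum ≤
      (D.target v sg r0 r1 r2 (f v) L0 L1 (R v)).re (pt7 l η (2 * x + q) (yx τ x)))
    (hr : D.rd * (‖wx x q (Real.sin η) (Real.cos η)‖ ^ 2 - 1) +
      sg * l * rF r0 r1 r2 (wx x q (Real.sin η) (Real.cos η)) = 0) :
    ‖cfY D vs s τ (fun v => v.gm) * wx x q (Real.sin η) (Real.cos η) +
        cfY D vs s τ (fun v => (v.cR : ℂ) + v.cI * I) +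
        (l : ℂ) * ((sg * cfY D vs s τ (fun v => ((f v).aR : ℂ) + (f v).aI * I)) *
            wx x q (Real.sin η) (Real.cos η) +
          sg * cfY D vs s τ (fun v => ((f v).bR : ℂ) + (f v).bI * I)) -
        e0 (Real.sin η) (Real.cos η)‖ ^ 2 +
        (QL.map fun g => pv g.1 τ * g.2.1).sum / (2 * D.M * (1 + τ ^ 2) ^ (D.m + 1) *
          Dc D.d (yx τ x).re (yx τ x).im ^ D.K) * dpol τ 1 x q (Real.sin η) (Real.cos η) +
        (QL.map fun g => pv g.1 τ * g.2.2).sum / (2 * D.M * (1 + τ ^ 2) ^ (D.m + 1) *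
          Dc D.d (yx τ x).re (yx τ x).im ^ D.K) * dpol τ (-1) x q (Real.sin η) (Real.cos η) ≤
      -(mn vs s (fun v => (v.ka : ℝ)) / (D.M * (1 + τ ^ 2) ^ D.m)) * x.re +
        (mn vs s (fun v => (v.ka : ℝ)) + pv D.nu τ) / (D.M * (1 + τ ^ 2) ^ D.m) *
          (‖x‖ ^ 2 + x.re) + D.NN vs s τ x q η +
        ((MSc L0 l (wx x q (Real.sin η) (Real.cos η)) / D.M + (τ : ℂ) *
          (MSc L1 l (wx x q (Real.sin η) (Real.cos η)) / D.M)) * e0 (Real.sin η) (Real.cos η) *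
          ((1 + I * τ) / 2 * x ^ 2 + x)).re := by
  have hr' : D.rd * (‖wW (2 * x + q) η‖ ^ 2 - 1) + sg * l * rF r0 r1 r2 (wW (2 * x + q) η) = 0 := by
    rw [← wx_wW]
    exact hr
  have k1 := mn_mono hs hQ
  rw [mean_QL hR hp] at k1
  have e1 : mn vs s (fun v => (D.target v sg r0 r1 r2 (f v) L0 L1 (R v)).re
      (pt7 l η (2 * x + q) (yx τ x))) = Dc D.d (yx τ x).re (yx τ x).im ^ D.K *
      mn vs s (fun v => D.FF v sg (f v) L0 L1 l (2 * x + q) (yx τ x) η) := by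
    rw [← mn_mul]
    exact mn_congr fun v _ => target_re l η (2 * x + q) (yx τ x) w v sg r0 r1 r2 (f v) h0 h1 (R v)
      hr'
  rw [e1, mean_FF hdeg hM hR] at k1
  have k2 := bf_mean hs htw hF hR sg f l (wx x q (Real.sin η) (Real.cos η))
    (e0 (Real.sin η) (Real.cos η))
  have hD : 0 < Dc D.d (yx τ x).re (yx τ x).im ^ D.K := pow_pos (Dc_pos _ _ _) _
  have hM' : (0:ℝ) < D.M := by exact_mod_cast hM
  have hF' : (0:ℝ) < D.Fd := by exact_mod_cast hF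
  have hMF' : (D.M : ℝ) = D.Fd ^ 2 * D.Mt := by exact_mod_cast hMF
  have hQp : 0 < (1 + τ ^ 2) ^ (D.m + 1) := by (clear * -; positivity)
  have hMt : (0:ℝ) < D.Mt := by
    by_contra hc
    have : (D.Fd : ℝ) ^ 2 * D.Mt ≤ 0 := mul_nonpos_of_nonneg_of_nonpos (by (clear * - hF; positivity)) (not_lt.1 hc)
    linarith only [hM', hMF', this]
  have k3 := mul_le_mul_of_nonneg_left k2 hMt.le
  generalize ‖cfY D vs s τ (fun v => v.gm) * wx x q (Real.sin η) (Real.cos η) +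
        cfY D vs s τ (fun v => (v.cR : ℂ) + v.cI * I) +
        (l : ℂ) * ((sg * cfY D vs s τ (fun v => ((f v).aR : ℂ) + (f v).aI * I)) *
            wx x q (Real.sin η) (Real.cos η) +
          sg * cfY D vs s τ (fun v => ((f v).bR : ℂ) + (f v).bI * I)) -
        e0 (Real.sin η) (Real.cos η)‖ ^ 2 = T at *
  generalize mn vs s (fun v => D.tw v * ‖Bf sg v.gm v.cR v.cI (f v) l
        (wx x q (Real.sin η) (Real.cos η)) - D.Fd * e0 (Real.sin η) (Real.cos η)‖ ^ 2) = mT at *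
  generalize -(mn vs s (fun v => (v.ka : ℝ)) / (D.M * (1 + τ ^ 2) ^ D.m)) * x.re +
        (mn vs s (fun v => (v.ka : ℝ)) + pv D.nu τ) / (D.M * (1 + τ ^ 2) ^ D.m) *
          (‖x‖ ^ 2 + x.re) + D.NN vs s τ x q η +
        ((MSc L0 l (wx x q (Real.sin η) (Real.cos η)) / D.M + (τ : ℂ) *
          (MSc L1 l (wx x q (Real.sin η) (Real.cos η)) / D.M)) * e0 (Real.sin η) (Real.cos η) *
          ((1 + I * τ) / 2 * x ^ 2 + x)).re = RH at *
  generalize (QL.map fun g => pv g.1 τ * g.2.1).sum = q1 at *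
  generalize (QL.map fun g => pv g.1 τ * g.2.2).sum = q2 at *
  generalize dpol τ 1 x q (Real.sin η) (Real.cos η) = d1 at *
  generalize dpol τ (-1) x q (Real.sin η) (Real.cos η) = d2 at *
  generalize Dc D.d (yx τ x).re (yx τ x).im ^ D.K = DK at *
  generalize (1 + τ ^ 2) ^ (D.m + 1) = Q at *
  have hden : 0 < 2 * (D.M : ℝ) * Q * DK := by (clear * - hM hQp hD; positivity)
  have e7 : q1 / (2 * D.M * Q * DK) * d1 + q2 / (2 * D.M * Q * DK) * d2 =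
      (q1 * d1 + q2 * d2) / (2 * D.M * Q * DK) := by ring
  have k4 : 2 * (D.M : ℝ) * Q * T ≤ 2 * D.Mt * mT := by
    rw [hMF']
    linarith only [k3]
  have k5 : q1 * d1 + q2 * d2 ≤ DK * (2 * D.M * Q * (RH - T)) := by
    refine k1.trans (mul_le_mul_of_nonneg_left ?_ hD.le)
    linarith only [k4]
  have k6 : (q1 * d1 + q2 * d2) / (2 * D.M * Q * DK) ≤ RH - T := by
    rw [div_le_iff₀ hden]
    refine k5.trans (le_of_eq ?_)
    ring
  linarith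

end DatY

end Pool.Agent.Helper65.CKY

end

section

namespace Pool.Sos71
end Pool.Sos71
namespace Pool.EK71
end Pool.EK71
namespace Pool.Agent.Helper2.EK
end Pool.Agent.Helper2.EK
namespace Pool.Agent.Helper52.EK
end Pool.Agent.Helper52.EK
namespace Pool.Agent.Helper69.EK3
end Pool.Agent.Helper69.EK3
namespace Pool.Agent.Helper71.CK
end Pool.Agent.Helper71.CK
namespace Pool.Agent.Helper20.EK7
end Pool.Agent.Helper20.EK7
namespace Pool.Agent.Helper99.CKC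
end Pool.Agent.Helper99.CKC
namespace Pool.Agent.Helper11.CKC
end Pool.Agent.Helper11.CKC
namespace Pool.Agent.Helper42.CKC
end Pool.Agent.Helper42.CKC

set_option autoImplicit false

open Complex MeasureTheory Metric Set

open scoped Real ComplexConjugate

namespace Pool.Agent.Helper65.CKY

open Pool.Sos71 Pool.EK71 Pool.Agent.Helper2.EK

open Pool.Agent.Helper52.EK hiding ee

open Pool.Agent.Helper69.EK3 (AP aev af rF rF_eq)

open Pool.Agent.Helper71.CK (LIn LOut)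

open Pool.Agent.Helper20.EK7 (InL OutL OutD)

open Pool.Agent.Helper99.CKC

open Pool.Agent.Helper11.CKC (CL MSc Mqc MqA)

open Pool.Agent.Helper42.CKC

theorem rF_div' (p0 p1 p2 r : ℝ) (w : ℂ) :
    rF (p0 / r) (p1 / r) (p2 / r) w = rF p0 p1 p2 w / r := by
  unfold rF
  ring

/-- the radius of the domain in `y` -/
noncomputable def RY (τ : ℝ) : ℝ := 1 + 5 * ‖(1 : ℂ) + I * τ‖

theorem one_le_RY (τ : ℝ) : 1 ≤ RY τ := by
  unfold RY
  have := norm_nonneg ((1 : ℂ) + I * τ)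
  linarith only [this]

theorem dom_ptY {Ln Ld : ℤ} {l η τ : ℝ} {x : ℂ} (W : ℂ) (hη : η ∈ Icc (0:ℝ) π)
    (hx : Real.sin η * ‖x‖ ≤ 10) (h0 : 0 ≤ l) (h1 : (Ld : ℝ) * l ≤ Ln) :
    DomY (RY τ) Ln Ld (pt7 l η W (yx τ x)) := by
  obtain ⟨s0, s1, c0, c1⟩ := half_bd hη
  have hs := sin_half η
  have hr : Pool.Agent.Helper42.CKC.Bdd.rho (pt7 l η W (yx τ x)) ≤ 1 + ‖yx τ x‖ := by
    have e2 : ‖yx τ x‖ ^ 2 = (yx τ x).re ^ 2 + (yx τ x).im ^ 2 := by
      rw [← Complex.normSq_eq_norm_sq, Complex.normSq_apply]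
      ring
    unfold Pool.Agent.Helper42.CKC.Bdd.rho
    show Real.sqrt (1 + (yx τ x).re ^ 2 + (yx τ x).im ^ 2) ≤ _
    rw [Real.sqrt_le_left (by (clear * -; positivity))]
    linarith only [norm_nonneg (yx τ x), e2]
  refine ⟨s0, c0, Real.sin_sq_add_cos_sq _, h0, h1, ?_⟩
  have h3 : 0 ≤ Real.sin (η / 2) * Real.cos (η / 2) := mul_nonneg s0 c0
  have h4 := mul_le_mul_of_nonneg_left hr h3
  refine h4.trans ?_
  have h5 : Real.sin (η / 2) * Real.cos (η / 2) * (1 + ‖yx τ x‖) =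
      Real.sin η / 2 + Real.sin η * ‖x‖ * ‖(1 : ℂ) + I * τ‖ / 2 := by
    rw [hs, norm_yx]
    ring
  rw [h5]
  have h6 := mul_le_mul_of_nonneg_right hx (norm_nonneg ((1 : ℂ) + I * τ))
  unfold RY
  (clear * - h6; linarith only [Real.sin_le_one η, h6])

/-- the bound of the factors of the discs -/
theorem k_bdY {B N Dk M Q t Z : ℝ} {K : ℕ} (hB : 0 ≤ B) (hM : 0 < M) (hZ : 0 < Z) (ht : 1 ≤ t)
    (hD : 0 < Dk) (hN : t ≤ N * Dk) (hQ : Q ≤ B * t ^ (K + 1)) :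
    Q / (2 * M * Z * Dk ^ K) ≤ B * N ^ K / (2 * M * Z) * t := by
  have h0 : 0 < t := by linarith only [ht]
  have hDK : 0 < Dk ^ K := pow_pos hD K
  rw [div_le_iff₀ (by positivity)]
  have h1 : t ^ K ≤ (N * Dk) ^ K := pow_le_pow_left₀ h0.le hN K
  have h2 : B * t * t ^ K ≤ B * t * (N * Dk) ^ K := mul_le_mul_of_nonneg_left h1 (by (clear * - hB ht; positivity))
  have e : B * N ^ K / (2 * M * Z) * t * (2 * M * Z * Dk ^ K) = B * t * (N * Dk) ^ K := by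
    rw [mul_pow]
    (clear * - hM hZ hD ht; field_simp)
  rw [e]
  refine hQ.trans (le_trans (le_of_eq ?_) h2)
  rw [pow_succ]
  ring

/-- sums of bounded terms -/
theorem sum_bd {ι : Type} (L : List ι) (a q : ι → ℝ) {B : ℝ} (ha : ∀ i ∈ L, 0 ≤ a i)
    (hq : ∀ i ∈ L, 0 ≤ q i ∧ q i ≤ B) :
    0 ≤ (L.map fun i => a i * q i).sum ∧ (L.map fun i => a i * q i).sum ≤ (L.map a).sum * B := by
  induction L with
  | nil => simp
  | cons i L ih =>
    obtain ⟨h1, h2⟩ := ih (fun j hj => ha j (List.mem_cons_of_mem _ hj))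
      fun j hj => hq j (List.mem_cons_of_mem _ hj)
    obtain ⟨h3, h4⟩ := hq i List.mem_cons_self
    have h5 := ha i List.mem_cons_self
    rw [List.map_cons, List.sum_cons, List.map_cons, List.sum_cons]
    have h6 := mul_nonneg h5 h3
    have h7 := mul_le_mul_of_nonneg_left h4 h5
    constructor
    · linarith
    · rw [add_mul]
      linarith

namespace DatY

/-- conditions on the data: `BS` polynomials of the discs, `VS` vertices -/
structure Ok (D : DatY) (VS : List Vy) (BS : List (List ℤ)) (Ln Ld Ln' Ld' : ℤ) : Prop where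
  wf : D.wf = true
  deg : D.degB = true
  bs : ∀ p ∈ BS, p.length ≤ 2 * D.m + 1
  v0 : ∀ g ∈ D.V, okGs g.2 = true
  f0 : ∀ g ∈ D.F, okGs g.2 = true
  hm : ∀ v ∈ VS, v.HM.all HmC.ok = true
  tw0 : ∀ v ∈ VS, 0 ≤ D.tw v
  M0 : 0 < D.M
  F0 : 0 < D.Fd
  MF : D.M = D.Fd ^ 2 * D.Mt
  rd0 : 0 < D.rd
  Ld0 : 0 < Ld
  Ld0' : 0 < Ld'
  inL : InL (D.p0 / D.rd) (D.p1 / D.rd) (D.p2 / D.rd)
  outD : OutD (D.q0 / D.rd) (D.q1 / D.rd) (D.q2 / D.rd)
  lIn : LIn (D.p0 / D.rd) (D.p1 / D.rd) (D.p2 / D.rd) (Ln / Ld)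
  lOut : LOut (D.q0 / D.rd) (D.q1 / D.rd) (D.q2 / D.rd) (Ln' / Ld')

variable {D : DatY} {VS : List Vy} {BS : List (List ℤ)} {Ln Ld Ln' Ld' : ℤ}

theorem Ok.null (o : D.Ok VS BS Ln Ld Ln' Ld') (s : Vy → ℝ) (τ : ℝ) : NullX τ (D.NN VS s τ) := by
  have a1 : NullX τ (fun x q η => (D.V.map fun g => pv g.1 τ *
      NGsY D.d τ (1 / ((1 + τ ^ 2 : ℝ) : ℂ)) 0 g.2 x q η).sum) :=
    NullX.list D.V fun g hg => (nullX_GsY D.d τ _ 0 g.2 (o.v0 g hg)).const_mul (pv g.1 τ)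
  have a2 : NullX τ (fun x q η => (D.F.map fun g => pv g.1 τ *
      NGsY D.d τ (1 / (1 - I * τ)) 1 g.2 x q η).sum) :=
    NullX.list D.F fun g hg => (nullX_GsY D.d τ _ 1 g.2 (o.f0 g hg)).const_mul (pv g.1 τ)
  have a3 : NullX τ (fun x q η => mn VS s (fun v => NHms v.HM (yx τ x) q η)) :=
    NullX.list VS fun v hv => (nullX_HmsY τ v.HM (o.hm v hv)).const_mul (s v)
  exact ((((a1.add a2).const_mul (1 + τ ^ 2)).add a3).const_mul
    (1 / (D.M * (1 + τ ^ 2) ^ (D.m + 1))))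

/-- the factors of the discs -/
theorem disc_ex (o : D.Ok VS BS Ln Ld Ln' Ld') {s : Vy → ℝ} {τ : ℝ}
    (hs : ∀ v ∈ VS, 0 ≤ s v) (hb : ∀ p ∈ BS, 0 ≤ pv p τ) (hR : Rep (2 * D.m + 2) VS s τ)
    {Lm Le : ℤ} {VT : List (List ℤ × Ex)} (hS : SideY D.K Lm Le BS VT) {sg r0 r1 r2 : ℤ}
    {f : Vy → Fl} {L0 L1 : CL} (h0 : ∀ t ∈ L0, t.2.1 ≤ 2) (h1 : ∀ t ∈ L1, t.2.1 ≤ 2)
    {R : Vy → List Rm} (hVT : ∀ v ∈ VS, (v.c, D.target v sg r0 r1 r2 (f v) L0 L1 (R v)) ∈ VT) :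
    ∃ B : ℝ, 0 ≤ B ∧ ∀ (x q : ℂ) (η : ℝ), η ∈ Icc (0:ℝ) π → Real.sin η * ‖x‖ ≤ 10 →
      ∀ l : ℝ, 0 ≤ l → (Le : ℝ) * l ≤ Lm →
      D.rd * (‖wx x q (Real.sin η) (Real.cos η)‖ ^ 2 - 1) +
        sg * l * rF r0 r1 r2 (wx x q (Real.sin η) (Real.cos η)) = 0 →
      ∃ k1 k2 : ℝ, 0 ≤ k1 ∧ k1 ≤ B * (1 + ‖x‖ ^ 2) ∧ 0 ≤ k2 ∧ k2 ≤ B * (1 + ‖x‖ ^ 2) ∧
        ‖cfY D VS s τ (fun v => v.gm) * wx x q (Real.sin η) (Real.cos η) +
          cfY D VS s τ (fun v => (v.cR : ℂ) + v.cI * I) +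
          (l : ℂ) * ((sg * cfY D VS s τ (fun v => ((f v).aR : ℂ) + (f v).aI * I)) *
              wx x q (Real.sin η) (Real.cos η) +
            sg * cfY D VS s τ (fun v => ((f v).bR : ℂ) + (f v).bI * I)) -
          e0 (Real.sin η) (Real.cos η)‖ ^ 2 +
          k1 * dpol τ 1 x q (Real.sin η) (Real.cos η) +
          k2 * dpol τ (-1) x q (Real.sin η) (Real.cos η) ≤
        -(mn VS s (fun v => (v.ka : ℝ)) / (D.M * (1 + τ ^ 2) ^ D.m)) * x.re +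
          (mn VS s (fun v => (v.ka : ℝ)) + pv D.nu τ) / (D.M * (1 + τ ^ 2) ^ D.m) *
            (‖x‖ ^ 2 + x.re) + D.NN VS s τ x q η +
          ((MSc L0 l (wx x q (Real.sin η) (Real.cos η)) / D.M + (τ : ℂ) *
            (MSc L1 l (wx x q (Real.sin η) (Real.cos η)) / D.M)) *
            e0 (Real.sin η) (Real.cos η) * ((1 + I * τ) / 2 * x ^ 2 + x)).re := by
  obtain ⟨QL, hQB, hQ⟩ := hS
  obtain ⟨B, hB, hQ2⟩ := hQ (RY τ) (one_le_RY τ)
  have hM : (0:ℝ) < D.M := by exact_mod_cast o.M0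
  have hN : (0:ℝ) < D.d.N := by exact_mod_cast D.d.hN
  have hZ : 0 < (1 + τ ^ 2) ^ (D.m + 1) := by positivity
  have hS0 : 0 ≤ (QL.map fun g => pv g.1 τ).sum := by
    have := (sum_bd QL (fun g => pv g.1 τ) (fun _ => (1:ℝ)) (B := 1)
      (fun g hg => hb _ (hQB g hg)) (fun _ _ => ⟨zero_le_one, le_rfl⟩)).1
    simpa using this
  obtain ⟨S, hSe⟩ : ∃ S, S = (QL.map fun g => pv g.1 τ).sum := ⟨_, rfl⟩
  rw [← hSe] at hS0
  refine ⟨S * B * D.d.N ^ D.K / (2 * D.M * (1 + τ ^ 2) ^ (D.m + 1)) * (1 + τ ^ 2), by (clear * - hS0 hB hN hM; positivity),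
    fun x q η hη hx l l0 l1 hr => ?_⟩
  obtain ⟨a1, a2⟩ := hQ2 _ (dom_ptY (2 * x + q) hη hx l0 l1 (τ := τ))
  have key := side_ptY (QL := QL.map fun g => (g.1, g.2.1 (pt7 l η (2 * x + q) (yx τ x)),
      g.2.2 (pt7 l η (2 * x + q) (yx τ x)))) (wf_iff D o.wf) o.deg o.M0 o.F0 o.MF hs o.tw0 hR h0 h1
    (R := R) (f := f) (fun g hg => by
      obtain ⟨g', hg', rfl⟩ := List.mem_map.1 hg
      exact o.bs _ (hQB g' hg')) (fun v hv => by
      have h := a2 _ (hVT v hv)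
      simp only [List.map_map, Function.comp_def] at h ⊢
      exact h) hr
  simp only [List.map_map, Function.comp_def] at key
  have e2 : (pt7 l η (2 * x + q) (yx τ x)).f ^ 2 + (pt7 l η (2 * x + q) (yx τ x)).g ^ 2 =
      ‖yx τ x‖ ^ 2 := by
    rw [← Complex.normSq_eq_norm_sq, Complex.normSq_apply]
    show (yx τ x).re ^ 2 + (yx τ x).im ^ 2 = _
    ring
  have e3 : 1 + (pt7 l η (2 * x + q) (yx τ x)).f ^ 2 + (pt7 l η (2 * x + q) (yx τ x)).g ^ 2 =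
      1 + ‖yx τ x‖ ^ 2 := by rw [add_assoc, e2]
  have hN2 : 1 + ‖yx τ x‖ ^ 2 ≤ D.d.N * Dc D.d (yx τ x).re (yx τ x).im := by
    have h := Dc_low D.d (yx τ x).re (yx τ x).im
    have e2 : ‖yx τ x‖ ^ 2 = (yx τ x).re ^ 2 + (yx τ x).im ^ 2 := by
      rw [← Complex.normSq_eq_norm_sq, Complex.normSq_apply]
      ring
    rw [e2]
    exact h
  have ht1 : (1:ℝ) ≤ 1 + ‖yx τ x‖ ^ 2 := le_add_of_nonneg_right (sq_nonneg _)
  have htx : 1 + ‖yx τ x‖ ^ 2 ≤ (1 + τ ^ 2) * (1 + ‖x‖ ^ 2) := by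
    rw [yx_nsq]
    have h0 := sq_nonneg τ
    linarith only [h0]
  have fin : ∀ q' : (List ℤ × (Pnt → ℝ) × (Pnt → ℝ)) → ℝ,
      (∀ g ∈ QL, 0 ≤ q' g ∧ q' g ≤ B * (1 + ‖yx τ x‖ ^ 2) ^ (D.K + 1)) →
      0 ≤ (QL.map fun g => pv g.1 τ * q' g).sum / (2 * D.M * (1 + τ ^ 2) ^ (D.m + 1) *
        Dc D.d (yx τ x).re (yx τ x).im ^ D.K) ∧
      (QL.map fun g => pv g.1 τ * q' g).sum / (2 * D.M * (1 + τ ^ 2) ^ (D.m + 1) *
        Dc D.d (yx τ x).re (yx τ x).im ^ D.K) ≤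
      S * B * D.d.N ^ D.K / (2 * D.M * (1 + τ ^ 2) ^ (D.m + 1)) * (1 + τ ^ 2) *
        (1 + ‖x‖ ^ 2) := by
    intro q' hq'
    obtain ⟨c1, c2⟩ := sum_bd QL (fun g => pv g.1 τ) q' (fun g hg => hb _ (hQB g hg)) hq'
    rw [← hSe, ← mul_assoc] at c2
    have hD1 := Dc_pos D.d (yx τ x).re (yx τ x).im
    have c3 := k_bdY (mul_nonneg hS0 hB) hM hZ ht1 hD1 hN2 c2
    refine ⟨div_nonneg c1 (by (clear * - hM hD1; positivity)), c3.trans ?_⟩
    rw [mul_assoc _ (1 + τ ^ 2)]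
    exact mul_le_mul_of_nonneg_left htx (by (clear * - hS0 hB hN hM; positivity))
  have f1 := fin (fun g => g.2.1 (pt7 l η (2 * x + q) (yx τ x))) fun g hg => by
    have := a1 g hg
    rw [e3] at this
    exact ⟨this.1, this.2.1⟩
  have f2 := fin (fun g => g.2.2 (pt7 l η (2 * x + q) (yx τ x))) fun g hg => by
    have := a1 g hg
    rw [e3] at this
    exact ⟨this.2.2.1, this.2.2.2⟩
  exact ⟨_, _, f1.1, f1.2, f2.1, f2.2, key⟩

/-- **the inequality in a direction** -/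
theorem Ok.point (o : D.Ok VS BS Ln Ld Ln' Ld')
    (hI : SideY D.K Ln Ld BS (VS.map fun v => (v.c, D.tIn v)))
    (hO : SideY D.K Ln' Ld' BS (VS.map fun v => (v.c, D.tOut v))) {s : Vy → ℝ} {τ : ℝ}
    (hs : ∀ v ∈ VS, 0 ≤ s v) (hb : ∀ p ∈ BS, 0 ≤ pv p τ) (hR : Rep (2 * D.m + 2) VS s τ) :
    ∃ B : ℝ, 0 ≤ B ∧ PtX τ (mn VS s (fun v => (v.ka : ℝ)) / (D.M * (1 + τ ^ 2) ^ D.m))
        ((mn VS s (fun v => (v.ka : ℝ)) + pv D.nu τ) / (D.M * (1 + τ ^ 2) ^ D.m)) 0 0 B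
        (cfY D VS s τ (fun v => v.gm)) (cfY D VS s τ (fun v => (v.cR : ℂ) + v.cI * I))
        (cfY D VS s τ (fun v => (v.fi.aR : ℂ) + v.fi.aI * I))
        (cfY D VS s τ (fun v => (v.fi.bR : ℂ) + v.fi.bI * I))
        (-cfY D VS s τ (fun v => (v.fo.aR : ℂ) + v.fo.aI * I))
        (-cfY D VS s τ (fun v => (v.fo.bR : ℂ) + v.fo.bI * I))
        (D.p0 / D.rd) (D.p1 / D.rd) (D.p2 / D.rd) (D.q0 / D.rd) (D.q1 / D.rd) (D.q2 / D.rd)
        (MqA D.M D.MI0 D.MI1 D.MO0 D.MO1 (D.p0 / D.rd) (D.p1 / D.rd) (D.p2 / D.rd)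
          (D.q0 / D.rd) (D.q1 / D.rd) (D.q2 / D.rd) τ) (D.NN VS s τ) := by
  have w := wf_iff D o.wf
  have hR' : (0:ℝ) < D.rd := by exact_mod_cast o.rd0
  have hL : (0:ℝ) < Ld := by exact_mod_cast o.Ld0
  have hL' : (0:ℝ) < Ld' := by exact_mod_cast o.Ld0'
  obtain ⟨B1, hB1, H1⟩ := disc_ex o hs hb hR hI (sg := 1) (r0 := D.p0) (r1 := D.p1) (r2 := D.p2)
    (f := fun v => v.fi) w.i0 w.i1 (R := fun v => v.RI) fun v hv =>
      List.mem_map.2 ⟨v, hv, rfl⟩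
  obtain ⟨B2, hB2, H2⟩ := disc_ex o hs hb hR hO (sg := -1) (r0 := D.q0) (r1 := D.q1) (r2 := D.q2)
    (f := fun v => v.fo) w.o0 w.o1 (R := fun v => v.RO) fun v hv =>
      List.mem_map.2 ⟨v, hv, rfl⟩
  have mon1 : ∀ t : ℝ, 0 ≤ t → B1 * t ≤ (B1 + B2) * t := fun t ht =>
    mul_le_mul_of_nonneg_right (by linarith) ht
  have mon2 : ∀ t : ℝ, 0 ≤ t → B2 * t ≤ (B1 + B2) * t := fun t ht =>
    mul_le_mul_of_nonneg_right (by linarith) ht
  refine ⟨B1 + B2, by (clear * - hB1 hB2; positivity), ?_, ?_⟩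
  · intro x q η hη hx _ w' hw' h1 l hl
    obtain ⟨c1, c2, c3⟩ := o.lIn.l_bd o.inL h1
    rw [← hl] at c2 c3
    have l1 : (Ld : ℝ) * l ≤ Ln := by
      rw [le_div_iff₀ hL] at c3
      (clear * - c3; linarith only [c3])
    have hr : D.rd * (‖wx x q (Real.sin η) (Real.cos η)‖ ^ 2 - 1) +
        ((1 : ℤ) : ℝ) * l * rF D.p0 D.p1 D.p2 (wx x q (Real.sin η) (Real.cos η)) = 0 := by
      rw [← hw']
      have e1 : l * rF (D.p0 / D.rd) (D.p1 / D.rd) (D.p2 / D.rd) w' = 1 - ‖w'‖ ^ 2 := by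
        rw [hl, div_mul_cancel₀ _ c1.ne']
      rw [rF_div'] at e1
      have e2 : l * rF D.p0 D.p1 D.p2 w' = D.rd * (1 - ‖w'‖ ^ 2) := by
        rw [← e1]
        (clear * - hR'; field_simp)
      push_cast
      rw [one_mul, e2]
      ring
    obtain ⟨k1, k2, a1, a2, a3, a4, a5⟩ := H1 x q η hη hx l c2 l1 hr
    have ht : 0 ≤ 1 + ‖x‖ ^ 2 := by (clear * -; positivity)
    refine ⟨0, k1, k2, le_rfl, by (clear * - hB1 hB2; positivity), a1, a2.trans (mon1 _ ht), a3,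
      a4.trans (mon1 _ ht), ?_⟩
    rw [← hw'] at a5
    unfold MqA Mqc
    rw [if_pos h1, if_pos h1, ← hl]
    simp only [Int.cast_one, one_mul] at a5
    simp only [ofReal_zero, zero_mul, sub_zero, add_zero]
    exact a5
  · intro x q η hη hx _ w' hw' h1 l hl
    have hOL : OutL ((D.q1 : ℝ) / D.rd + D.q2 / D.rd) (D.q0 / D.rd) (D.q1 / D.rd)
      (D.q2 / D.rd) := ⟨rfl, o.outD.pos, o.outD.pos'⟩
    obtain ⟨c1, c2, c3⟩ := o.lOut.l_bd hOL h1.le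
    rw [← hl] at c2 c3
    have l1 : (Ld' : ℝ) * l ≤ Ln' := by
      rw [le_div_iff₀ hL'] at c3
      linarith only [c3]
    have hr : D.rd * (‖wx x q (Real.sin η) (Real.cos η)‖ ^ 2 - 1) +
        ((-1 : ℤ) : ℝ) * l * rF D.q0 D.q1 D.q2 (wx x q (Real.sin η) (Real.cos η)) = 0 := by
      rw [← hw']
      have e1 : l * rF (D.q0 / D.rd) (D.q1 / D.rd) (D.q2 / D.rd) w' = ‖w'‖ ^ 2 - 1 := by
        rw [hl, div_mul_cancel₀ _ c1.ne']
      rw [rF_div'] at e1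
      have e2 : l * rF D.q0 D.q1 D.q2 w' = D.rd * (‖w'‖ ^ 2 - 1) := by
        rw [← e1]
        (clear * - hR'; field_simp)
      push_cast
      rw [neg_one_mul, neg_mul, e2]
      ring
    obtain ⟨k1, k2, a1, a2, a3, a4, a5⟩ := H2 x q η hη hx l c2 l1 hr
    have ht : 0 ≤ 1 + ‖x‖ ^ 2 := by (clear * -; positivity)
    refine ⟨0, k1, k2, le_rfl, by (clear * - hB1 hB2; positivity), a1, a2.trans (mon2 _ ht), a3,
      a4.trans (mon2 _ ht), ?_⟩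
    rw [← hw'] at a5
    unfold MqA Mqc
    rw [if_neg (not_le.2 h1), if_neg (not_le.2 h1), ← hl]
    simp only [Int.cast_neg, Int.cast_one, neg_one_mul] at a5
    simp only [ofReal_zero, zero_mul, sub_zero, add_zero]
    exact a5

end DatY

end Pool.Agent.Helper65.CKY

end

section

namespace Pool.Sos71
end Pool.Sos71
namespace Pool.EK71
end Pool.EK71
namespace Pool.Agent.Helper2.EK
end Pool.Agent.Helper2.EK
namespace Pool.Agent.Helper52.EK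
end Pool.Agent.Helper52.EK
namespace Pool.Agent.Helper20.EK7
end Pool.Agent.Helper20.EK7
namespace Pool.Agent.Helper20.CK
end Pool.Agent.Helper20.CK
namespace Pool.Agent.Helper99.CKC
end Pool.Agent.Helper99.CKC
namespace Pool.Agent.Helper82.CKC
end Pool.Agent.Helper82.CKC
namespace Pool.Agent.Helper69.CK
end Pool.Agent.Helper69.CK
namespace Pool.Agent.Helper11.CKC
end Pool.Agent.Helper11.CKC
namespace Pool.Agent.Helper42.CKC
end Pool.Agent.Helper42.CKC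
namespace Pool.Agent.Helper65.CKC
end Pool.Agent.Helper65.CKC
namespace Pool.Agent.Helper33.CKC
end Pool.Agent.Helper33.CKC
namespace Pool.Agent.Helper58.CKC
end Pool.Agent.Helper58.CKC

set_option autoImplicit false

open Complex MeasureTheory Metric Set

open scoped Real ComplexConjugate

namespace Pool.Agent.Helper65.CKY

open Pool.Sos71 Pool.EK71 Pool.Agent.Helper2.EK

open Pool.Agent.Helper52.EK hiding ee

open Pool.Agent.Helper20.EK7 (InL OutL OutD)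

open Pool.Agent.Helper20.CK (ROk)

open Pool.Agent.Helper99.CKC

open Pool.Agent.Helper82.CKC (wu)

open Pool.Agent.Helper69.CK (MOk)

open Pool.Agent.Helper11.CKC (CL MSc MqA HChk covH rayB mOk_ray FChk covB arcB)

open Pool.Agent.Helper42.CKC

open Pool.Agent.Helper65.CKC (DirX SecI secI_of_DirX mOk_arcI arc_of)

open Pool.Agent.Helper33.CKC (Low low)

open Pool.Agent.Helper58.CKC (SigC)

/-- the numbers of a vertex -/
def numY (D : DatY) (kA kB kD : ℤ) (v : Vy) : Bool :=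
  and (and (decide (0 ≤ Int.add v.ka (dt D.nu v.c))) (decide (dt D.nu v.c ≤ 0)))
    (decide (Int.mul v.ka kD < Int.mul (Int.mul 2 D.M) (Int.add (Int.mul kA (dt (P1 D.m) v.c))
      (Int.mul kB (dt (0 :: 0 :: P1 D.m) v.c)))))

theorem mn_lt_or {vs : List Vy} {s f g : Vy → ℝ} (hs : ∀ v ∈ vs, 0 ≤ s v)
    (h : ∀ v ∈ vs, f v < g v) : mn vs s f < mn vs s g ∨ ∀ v ∈ vs, s v = 0 := by
  induction vs with
  | nil => exact Or.inr fun v hv => absurd hv List.not_mem_nil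
  | cons v vs ih =>
    have hs' : ∀ u ∈ vs, 0 ≤ s u := fun u hu => hs u (List.mem_cons_of_mem _ hu)
    have h' : ∀ u ∈ vs, f u < g u := fun u hu => h u (List.mem_cons_of_mem _ hu)
    have e : ∀ F : Vy → ℝ, mn (v :: vs) s F = s v * F v + mn vs s F := fun F => by
      unfold mn
      rw [List.map_cons, List.sum_cons]
    rw [e, e]
    have hle : mn vs s f ≤ mn vs s g := mn_mono hs' fun u hu => (h' u hu).le
    have hv := h v List.mem_cons_self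
    rcases eq_or_lt_of_le (hs v List.mem_cons_self) with h0 | h0
    · rcases ih hs' h' with h1 | h1
      · left
        rw [← h0, zero_mul, zero_mul, zero_add, zero_add]
        exact h1
      · right
        intro u hu
        rcases List.mem_cons.1 hu with rfl | hu
        · exact h0.symm
        · exact h1 u hu
    · left
      have := mul_lt_mul_of_pos_left hv h0
      (clear * - hle this; linarith)

theorem mn_lt {vs : List Vy} {s f g : Vy → ℝ} (hs : ∀ v ∈ vs, 0 ≤ s v)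
    (h : ∀ v ∈ vs, f v < g v) {F : Vy → ℝ} (hF : mn vs s F ≠ 0) : mn vs s f < mn vs s g := by
  rcases mn_lt_or hs h with h1 | h1
  · exact h1
  · exfalso
    apply hF
    rw [← mn_zero (vs := vs) (s := s)]
    unfold mn
    congr 1
    exact List.map_congr_left fun v hv => by rw [h1 v hv, zero_mul, zero_mul]

section

variable {D : DatY} {VS : List Vy} {BS : List (List ℤ)} {Ln Ld Ln' Ld' : ℤ}

theorem num_Y {kA kB kD : ℤ} (hnum : ∀ v ∈ VS, numY D kA kB kD v = true) (hM : 0 < D.M)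
    (hk : 0 < kD) (hnu : D.nu.length ≤ 2 * D.m + 2) {s : Vy → ℝ} {τ : ℝ}
    (hs : ∀ v ∈ VS, 0 ≤ s v) (hR : Rep (2 * D.m + 2) VS s τ) :
    0 ≤ (mn VS s (fun v => (v.ka : ℝ)) + pv D.nu τ) / (D.M * (1 + τ ^ 2) ^ D.m) ∧
    (mn VS s (fun v => (v.ka : ℝ)) + pv D.nu τ) / (D.M * (1 + τ ^ 2) ^ D.m) ≤
      mn VS s (fun v => (v.ka : ℝ)) / (D.M * (1 + τ ^ 2) ^ D.m) ∧
    mn VS s (fun v => (v.ka : ℝ)) / (D.M * (1 + τ ^ 2) ^ D.m) <
      2 * ((kA : ℝ) / kD + kB / kD * τ ^ 2) := by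
  have hM' : (0:ℝ) < D.M := by exact_mod_cast hM
  have hk' : (0:ℝ) < kD := by exact_mod_cast hk
  have hZ : 0 < (1 + τ ^ 2) ^ D.m := by (clear * -; positivity)
  have hden : 0 < (D.M : ℝ) * (1 + τ ^ 2) ^ D.m := by (clear * - hM; positivity)
  obtain ⟨a1, a2, a3⟩ := DatY.len_P D
  have hn : ∀ v ∈ VS, (0 : ℝ) ≤ v.ka + dt D.nu v.c ∧ (dt D.nu v.c : ℝ) ≤ 0 ∧
      (kD : ℝ) * v.ka < 2 * D.M * (kA * dt (P1 D.m) v.c + kB * dt (0 :: 0 :: P1 D.m) v.c) := by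
    intro v hv
    have h := hnum v hv
    simp only [numY, Bool.and_eq_true, decide_eq_true_eq] at h
    obtain ⟨⟨h1, h2⟩, h3⟩ := h
    refine ⟨?_, by exact_mod_cast h2, ?_⟩
    · have h4 : (0 : ℤ) ≤ v.ka + dt D.nu v.c := h1
      exact_mod_cast h4
    · have h4 : v.ka * kD < (2 * D.M) * (kA * dt (P1 D.m) v.c +
        kB * dt (0 :: 0 :: P1 D.m) v.c) := h3
      rw [mul_comm] at h4
      exact_mod_cast h4
  have e1 : mn VS s (fun v => (v.ka : ℝ)) + pv D.nu τ =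
      mn VS s (fun v => (v.ka : ℝ) + dt D.nu v.c) := by
    rw [mn_add, rep_dt hR _ (by omega)]
  have e2 : pv D.nu τ ≤ 0 := by
    rw [← rep_dt hR _ (by omega)]
    have := mn_mono hs fun v hv => (hn v hv).2.1
    rwa [mn_zero] at this
  refine ⟨?_, ?_, ?_⟩
  · rw [e1]
    exact div_nonneg (mn_nonneg hs fun v hv => (hn v hv).1) hden.le
  · exact div_le_div_of_nonneg_right (by (clear * - e2; linarith only [e2])) hden.le
  · have h1 := mn_lt hs (fun v hv => (hn v hv).2.2) (F := fun v => (D.tw v : ℝ)) (by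
      rw [DatY.mean_tw hR]
      (clear * -; positivity))
    rw [mn_mul, mn_mul, mn_add, mn_mul, mn_mul, rep_dt hR _ a1, rep_dt hR _ a3, pv_shift,
      pv_shift, pv_P1] at h1
    rw [div_lt_iff₀ hden]
    have e3 : 2 * ((kA : ℝ) / kD + kB / kD * τ ^ 2) * (D.M * (1 + τ ^ 2) ^ D.m) =
        (2 * D.M * (kA * (1 + τ ^ 2) ^ D.m + kB * (τ * (τ * (1 + τ ^ 2) ^ D.m)))) / kD := by
      (clear * - hM hk; field_simp)
    rw [e3, lt_div_iff₀ hk', mul_comm]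
    exact h1

/-- **one direction** -/
theorem dirY (o : D.Ok VS BS Ln Ld Ln' Ld')
    (hI : SideY D.K Ln Ld BS (VS.map fun v => (v.c, D.tIn v)))
    (hO : SideY D.K Ln' Ld' BS (VS.map fun v => (v.c, D.tOut v))) {kA kB kD : ℤ}
    (hnum : ∀ v ∈ VS, numY D kA kB kD v = true) (hk : 0 < kD) {s : Vy → ℝ} {τ : ℝ}
    (hs : ∀ v ∈ VS, 0 ≤ s v) (hb : ∀ p ∈ BS, 0 ≤ pv p τ) (hR : Rep (2 * D.m + 2) VS s τ)
    {p0 p1 p2 q0 q1 q2 : ℝ} (e0 : D.p0 / D.rd = p0) (e1 : D.p1 / D.rd = p1)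
    (e2 : D.p2 / D.rd = p2) (e3 : D.q0 / D.rd = q0) (e4 : D.q1 / D.rd = q1)
    (e5 : D.q2 / D.rd = q2)
    (hM : ∃ (Mb : ℝ) (M' : ℂ → ℂ) (Lm ε₀ : ℝ), Mb < 2 * ((kA : ℝ) / kD + kB / kD * τ ^ 2) ∧
      0 < ε₀ ∧ MOk (fun m => conj (ud τ) ^ 2 * ((1 + (τ : ℂ) * I) / 2) *
        MqA D.M D.MI0 D.MI1 D.MO0 D.MO1 p0 p1 p2 q0 q1 q2 τ (wu (ud τ) m)) M' Mb Lm ε₀) :
    DirX ((kA : ℝ) / kD + kB / kD * τ ^ 2) τ p0 p1 p2 q0 q1 q2 := by
  subst e0 e1 e2 e3 e4 e5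
  obtain ⟨B, hB, hX⟩ := o.point hI hO hs hb hR
  have hdeg := o.deg
  simp only [DatY.degB, Bool.and_eq_true, Nat.ble_eq] at hdeg
  obtain ⟨k0, k1, k2⟩ := num_Y hnum o.M0 hk hdeg.1 hs hR
  obtain ⟨Mb, M', Lm, ε₀, hMb, hε, hMO⟩ := hM
  exact ⟨_, _, B, Mb, Lm, ε₀, _, _, _, _, _, _, _, M', _, hB, k0, k1, k2, hMb, hε,
    o.null s τ, hMO, hX⟩

/-- the representation of the monomials by the vertices `ic` with the weights `wt` -/
def RepL (n : ℕ) (wt : ℕ → ℝ → ℝ) (ic : List (ℕ × List ℤ)) (τ : ℝ) : Prop :=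
  ∀ j ≤ n, (ic.map fun t => wt t.1 τ * (nz t.2 j : ℝ)).sum = τ ^ j

theorem RepL.rep {n : ℕ} {wt : ℕ → ℝ → ℝ} {ic : List (ℕ × List ℤ)} {τ : ℝ}
    (h : RepL n wt ic τ) (e : (VS.map fun v => (v.id, v.c)) = ic) :
    Rep n VS (fun v => wt v.id τ) τ := by
  intro j hj
  rw [← h j hj, ← e, List.map_map]
  rfl

theorem wt_nonneg {wt : ℕ → ℝ → ℝ} {ic : List (ℕ × List ℤ)} {τ : ℝ}
    (h : ∀ t ∈ ic, 0 ≤ wt t.1 τ) (e : (VS.map fun v => (v.id, v.c)) = ic) :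
    ∀ v ∈ VS, 0 ≤ wt v.id τ := by
  intro v hv
  refine h (v.id, v.c) ?_
  rw [← e]
  exact List.mem_map.2 ⟨v, hv, rfl⟩

/-- the cone `τ ≥ p/q`, degree 4 -/
def cone4 (p q : ℤ) : List (ℕ × List ℤ) :=
  [(0, [q ^ 4, q ^ 3 * p, q ^ 2 * p ^ 2, q * p ^ 3, p ^ 4]),
    (1, [0, q ^ 3, 2 * (q ^ 2 * p), 3 * (q * p ^ 2), 4 * p ^ 3]),
    (2, [0, 0, q ^ 2, 3 * (q * p), 6 * p ^ 2]), (3, [0, 0, 0, q, 4 * p]), (4, [0, 0, 0, 0, 1])]

/-- the weights of a cone -/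
noncomputable def wtC (n : ℕ) (p q : ℤ) (k : ℕ) (τ : ℝ) : ℝ := (q * τ - p) ^ k / (q : ℝ) ^ n

theorem wtC_nonneg {n : ℕ} {p q : ℤ} (hq : 0 < q) {τ : ℝ} (h : (p : ℝ) ≤ q * τ) (k : ℕ) :
    0 ≤ wtC n p q k τ := by
  have hq' : (0:ℝ) < q := by exact_mod_cast hq
  exact div_nonneg (pow_nonneg (by linarith only [h]) _) (pow_nonneg hq'.le _)

theorem cone4_rep {p q : ℤ} (hq : 0 < q) (τ : ℝ) : RepL 4 (wtC 4 p q) (cone4 p q) τ := by
  have hq' : (q : ℝ) ≠ 0 := by exact_mod_cast hq.ne'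
  intro j hj
  unfold cone4 wtC
  interval_cases j <;>
  · simp only [List.map_cons, List.map_nil, List.sum_cons, List.sum_nil, nz]
    push_cast
    field_simp
    ring

def bs3 (p q : ℤ) : List (List ℤ) := [[1], [-p, q], [p ^ 2, -(2 * (p * q)), q ^ 2]]

theorem bs3_nonneg {p q : ℤ} {τ : ℝ} (h : (p : ℝ) ≤ q * τ) : ∀ g ∈ bs3 p q, 0 ≤ pv g τ := by
  intro g hg
  simp only [bs3, List.mem_cons, List.mem_nil_iff, or_false] at hg
  rcases hg with rfl | rfl | rfl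
  · simp [pv]
  · simp only [pv]
    push_cast
    linarith only [h]
  · simp only [pv]
    push_cast
    (clear * - h; nlinarith only [h])

/-- all arcs `[T₀, T₁]` -/
def SecU (a b T₀ : ℝ) : Prop := ∀ T₁ : ℝ, SecI a b T₀ T₁

/-- **the ray `τ ≥ Tn / Td`** -/
theorem secU_ray (o : D.Ok VS BS Ln Ld Ln' Ld')
    (hI : SideY D.K Ln Ld BS (VS.map fun v => (v.c, D.tIn v)))
    (hO : SideY D.K Ln' Ld' BS (VS.map fun v => (v.c, D.tOut v))) {kA kB kD : ℤ}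
    (hnum : ∀ v ∈ VS, numY D kA kB kD v = true) (hk : 0 < kD) (hA : kD ≤ kA) (hB : 0 ≤ kB)
    {p0 p1 p2 q0 q1 q2 : ℝ} (e0 : D.p0 / D.rd = p0) (e1 : D.p1 / D.rd = p1)
    (e2 : D.p2 / D.rd = p2) (e3 : D.q0 / D.rd = q0) (e4 : D.q1 / D.rd = q1)
    (e5 : D.q2 / D.rd = q2) {Tn Td : ℤ} (hTd : 0 < Td)
    {wt : ℕ → ℝ → ℝ} {ic : List (ℕ × List ℤ)} (hic : (VS.map fun v => (v.id, v.c)) = ic)
    (hw : ∀ τ : ℝ, (Tn : ℝ) ≤ Td * τ → (∀ t ∈ ic, 0 ≤ wt t.1 τ) ∧ (∀ p ∈ BS, 0 ≤ pv p τ) ∧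
      RepL (2 * D.m + 2) wt ic τ) {r r0 r1 r2 s s0 s1 s2 : ℤ} (hr : ROk r r0 r1 r2 p0 p1 p2)
    (hr' : ROk s s0 s1 s2 q0 q1 q2) {cs : List HChk} (hcov : covH Tn Td cs = true)
    (harc : rayB D.M D.MI0 D.MI1 D.MO0 D.MO1 r r0 r1 r2 s s0 s1 s2 kA kB kD cs = true)
    (hbox : ∀ c ∈ cs, c.okI = true ∧ c.okO = true) :
    SecU ((kA : ℝ) / kD) ((kB : ℝ) / kD) ((Tn : ℝ) / Td) := by
  have hk0 : (0:ℝ) < kD := by exact_mod_cast hk
  have hA0 : (kD : ℝ) ≤ kA := by exact_mod_cast hA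
  have hB0 : (0:ℝ) ≤ kB := by exact_mod_cast hB
  have hT0 : (0:ℝ) < Td := by exact_mod_cast hTd
  have hp : InL p0 p1 p2 := by
    rw [← e0, ← e1, ← e2]
    exact o.inL
  have hq : OutD q0 q1 q2 := by
    rw [← e3, ← e4, ← e5]
    exact o.outD
  intro T₁
  refine secI_of_DirX (p0 := p0) (p1 := p1) (p2 := p2) (q0 := q0) (q1 := q1) (q2 := q2)
    ((one_le_div hk0).2 hA0) (div_nonneg hB0 hk0.le) hp hq fun τ h0 _ => ?_
  have h0' : (Tn : ℝ) ≤ Td * τ := by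
    rw [mul_comm]
    exact (div_le_iff₀ hT0).1 h0
  obtain ⟨w1, w2, w3⟩ := hw τ h0'
  exact dirY o hI hO hnum hk (wt_nonneg w1 hic) w2 (w3.rep hic) e0 e1 e2 e3 e4 e5
    (mOk_ray hp hq hr hr' hTd (hk.le.trans hA) hB hk hcov harc hbox h0')

end

/-- all directions of a ray and of its reflection -/
theorem ray_of {a b T₀ : ℝ} (hb : 0 < b) (H : SecU a b T₀) :
    ∀ t : ℂ, t ≠ 0 → T₀ ^ 2 * (‖t‖ - t.re) ≤ ‖t‖ + t.re →
      a * (‖t‖ - t.re) + b * (‖t‖ + t.re) ≤ ‖t‖ * (‖t‖ - t.re) →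
      ∀ e : ℝ, 0 < e → SigC t (‖t‖ - 1 + e) := by
  intro t ht h1 h2
  have hn : 0 < ‖t‖ := norm_pos_iff.2 ht
  have hre : t.re ≤ ‖t‖ := Complex.re_le_norm t
  have hd : 0 < ‖t‖ - t.re := by
    rcases hre.lt_or_eq with h | h
    · (clear * - h; linarith only [h])
    · exfalso
      rw [h, sub_self, mul_zero, mul_zero, zero_add] at h2
      have : 0 < b * (‖t‖ + ‖t‖) := by (clear * - hb ht; positivity)
      linarith only [h2, this]
  have h3 : 0 ≤ (‖t‖ + t.re) / (‖t‖ - t.re) := by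
    have := (abs_le.1 (Complex.abs_re_le_norm t)).1
    exact div_nonneg (by linarith) hd.le
  refine arc_of (T₀ := T₀) (T₁ := Real.sqrt ((‖t‖ + t.re) / (‖t‖ - t.re)))
    (Real.sqrt_nonneg _) (H _) t ht h1 ?_ h2
  rw [Real.sq_sqrt h3, div_mul_cancel₀ _ hd.ne']

/-- the region of a ray -/
def Ray (a b T₀ : ℝ) (t : ℂ) : Prop :=
  T₀ ^ 2 * (‖t‖ - t.re) ≤ ‖t‖ + t.re ∧
    a * (‖t‖ - t.re) + b * (‖t‖ + t.re) ≤ ‖t‖ * (‖t‖ - t.re)

/-- **upper and lower bound in the region of a ray** -/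
theorem ray_all {a b T₀ : ℝ} (ha : 1 < a) (hb : 0 < b) (H : SecU a b T₀) {t : ℂ} (ht : t ≠ 0)
    (h : Ray a b T₀ t) : (∀ e : ℝ, 0 < e → SigC t (‖t‖ - 1 + e)) ∧ Low t := by
  obtain ⟨h1, h2⟩ := h
  refine ⟨ray_of hb H t ht h1 h2, ?_⟩
  have hn : 0 < ‖t‖ := norm_pos_iff.2 ht
  have hre : t.re ≤ ‖t‖ := Complex.re_le_norm t
  have hre2 : -‖t‖ ≤ t.re := (abs_le.1 (Complex.abs_re_le_norm t)).1
  have hlt : t.re < ‖t‖ := by
    rcases hre.lt_or_eq with h | h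
    · exact h
    · exfalso
      rw [h, sub_self, mul_zero, mul_zero, zero_add] at h2
      have : 0 < b * (‖t‖ + ‖t‖) := by (clear * - hb ht; positivity)
      linarith only [h2, this]
  refine low ?_ hlt
  have hd : 0 < ‖t‖ - t.re := by (clear * - hlt; linarith only [hlt])
  have hb' : 0 ≤ b * (‖t‖ + t.re) := mul_nonneg hb.le (by linarith only [hre2])
  have h3 : a * (‖t‖ - t.re) ≤ ‖t‖ * (‖t‖ - t.re) := by linarith only [h2, hb']
  have h4 := le_of_mul_le_mul_right h3 hd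
  linarith only [ha, h4]

end Pool.Agent.Helper65.CKY

end
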