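import Pool.Agent.Helper14.CMG.T25
import Pool.Agent.Helper14.CMG.T26
import Pool.Agent.Helper14.CMG.T27

set_option linter.all false

section

namespace Pool.Agent.Helper11.CKC
end Pool.Agent.Helper11.CKC

set_option autoImplicit false

set_option maxRecDepth 100000

namespace Pool.Agent.Helper98.CKY.K3B.Mul

open Pool.Agent.Helper11.CKC

def cells : List HChk := [c0, c1, c2, c3, c4, c5, c6, c7, c8, c9]

theorem boxes : ∀ c ∈ cells, c.okI = true ∧ c.okO = true := by
  intro c hc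
  simp only [cells, List.mem_cons, List.not_mem_nil, or_false] at hc
  rcases hc with rfl | rfl | rfl | rfl | rfl | rfl | rfl | rfl | rfl | rfl
  · exact ⟨c0I, c0O⟩
  · exact ⟨c1I, c1O⟩
  · exact ⟨c2I, c2O⟩
  · exact ⟨c3I, c3O⟩
  · exact ⟨c4I, c4O⟩
  · exact ⟨c5I, c5O⟩
  · exact ⟨c6I, c6O⟩
  · exact ⟨c7I, c7O⟩
  · exact ⟨c8I, c8O⟩
  · exact ⟨c9I, c9O⟩

theorem ray : rayB D.M D.MI0 D.MI1 D.MO0 D.MO1 12 12 0 (-4) 12 8 1 11 13555 13555 10000 cells = true := by
  decide +kernel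

theorem cov : covH 1 1 cells = true := by decide +kernel

end Pool.Agent.Helper98.CKY.K3B.Mul

end
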