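import Pool.Agent.Helper14.CMG.T05
import Pool.Agent.Helper14.CMG.T09
import Pool.Agent.Helper14.CMG.T11
import Pool.Agent.Helper14.CMG.T12
import Pool.Agent.Helper14.CMG.T14
import Pool.Agent.Helper14.CMF.T50
import Pool.Agent.Helper14.CMF.T51
import Pool.Agent.Helper14.CMF.T52
import Pool.Agent.Helper14.CMF.T53
import Pool.Agent.Helper14.CMF.T54
import Pool.Agent.Helper14.CMF.T55
import Pool.Agent.Helper14.CMG.T13
import Pool.Agent.Helper14.CMF.T49
import Pool.Agent.Helper14.CMG.T15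
import Pool.Agent.Helper14.CMG.T16
import Pool.Agent.Helper14.CMG.T17
import Pool.Agent.Helper14.CMG.T18
import Pool.Agent.Helper14.CMG.T19
import Pool.Agent.Helper14.CMG.T20
import Pool.Agent.Helper14.CMG.T21
import Pool.Agent.Helper14.CMG.T22
import Pool.Agent.Helper14.CMG.T23
import Pool.Agent.Helper14.CMG.T24
import Pool.Agent.Helper14.CMG.T28
import Pool.Agent.Helper14.CMF.T48
import Pool.Agent.Helper14.CMF.T42

set_option linter.all false

section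

namespace Pool.Sos71
end Pool.Sos71
namespace Pool.Agent.Helper71.CK
end Pool.Agent.Helper71.CK

set_option autoImplicit false

namespace Pool.Agent.Helper46.CK.C4

open Pool.Sos71

open Pool.Agent.Helper71.CK

theorem gOk : g.Ok (1 / 10) (1 / 11) (1) (1 / 20) (-1 / 5) (61 / 120) (0) (9 / 20) (-1 / 24) (11 / 20) 1 1 2 1 where
  wf := by decide +kernel
  M0 := by decide +kernel
  td0 := by decide +kernel
  lam0 := by decide +kernel
  fi := by constructor <;> simp only [g, ct, cm, cb] <;> norm_num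
  fo := by constructor <;> simp only [g, ct, cm, cb] <;> norm_num
  Ld0 := by norm_num
  Ld0' := by norm_num
  inL := by constructor <;> norm_num [abs_of_nonneg, abs_of_neg, abs_of_pos, abs_of_nonpos]
  outL := by constructor <;> norm_num [abs_of_nonneg, abs_of_neg, abs_of_pos, abs_of_nonpos]
  lIn := by constructor <;> norm_num
  lOut := by constructor <;> norm_num

theorem good_D0a (b : Blk) (hb : b ∈ D0a.cert.blocks) : GoodH 3 1 1 b := by
  simp only [D0a.cert, List.mem_cons, List.not_mem_nil, or_false] at hb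
  subst hb
  exact GoodH.one rfl

theorem good_D0b (b : Blk) (hb : b ∈ D0b.cert.blocks) : GoodH 3 1 1 b := by
  simp only [D0b.cert, List.mem_cons, List.not_mem_nil, or_false] at hb
  rcases hb with rfl | rfl
  · exact GoodH.one rfl
  · exact GoodH.ab rfl

theorem good_D0 (b : Blk) (hb : b ∈ D0.cert.blocks) : GoodH 3 1 1 b := by
  simp only [D0.cert, List.mem_cons, List.not_mem_nil, or_false] at hb
  rcases hb with rfl | rfl | rfl
  · exact GoodH.l rfl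
  · exact GoodH.abl rfl
  · exact GoodH.one rfl

theorem part_D0a : SideF 3 1 1 fun x => D0a.P.re x :=
  SideF.part D0a.ok (by norm_num) good_D0a rfl rfl rfl

theorem part_D0b : SideF 3 1 1 fun x => D0b.P.re x :=
  SideF.part D0b.ok (by norm_num) good_D0b rfl rfl rfl

theorem minus0 (P : Pk) (h : P ∈ D0.cert.minus) : SideF 3 1 1 fun x => P.re x := by
  simp only [D0.cert, List.mem_cons, List.not_mem_nil, or_false] at h
  rcases h with rfl | rfl
  · exact part_D0a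
  · exact part_D0b

theorem hIn : SideH g.s.d.c.K 1 1 (g.tInM mi) :=
  SideF.target (K := 3) D0T.ok (s := 157758) (by norm_num) rfl rfl rfl rfl
    (SideF.lastP D0.ok (by norm_num) good_D0 rfl rfl minus0)

theorem good_D1a (b : Blk) (hb : b ∈ D1a.cert.blocks) : GoodH 3 2 1 b := by
  simp only [D1a.cert, List.mem_cons, List.not_mem_nil, or_false] at hb
  subst hb
  exact GoodH.one rfl

theorem good_D1b (b : Blk) (hb : b ∈ D1b.cert.blocks) : GoodH 3 2 1 b := by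
  simp only [D1b.cert, List.mem_cons, List.not_mem_nil, or_false] at hb
  rcases hb with rfl | rfl
  · exact GoodH.one rfl
  · exact GoodH.ab rfl

theorem good_D1 (b : Blk) (hb : b ∈ D1.cert.blocks) : GoodH 3 2 1 b := by
  simp only [D1.cert, List.mem_cons, List.not_mem_nil, or_false] at hb
  rcases hb with rfl | rfl | rfl | rfl
  · exact GoodH.l rfl
  · exact GoodH.abl rfl
  · exact GoodH.d1 rfl (by decide +kernel)
  · exact GoodH.one rfl

theorem part_D1a : SideF 3 2 1 fun x => D1a.P.re x :=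
  SideF.part D1a.ok (by norm_num) good_D1a rfl rfl rfl

theorem part_D1b : SideF 3 2 1 fun x => D1b.P.re x :=
  SideF.part D1b.ok (by norm_num) good_D1b rfl rfl rfl

theorem minus1 (P : Pk) (h : P ∈ D1.cert.minus) : SideF 3 2 1 fun x => P.re x := by
  simp only [D1.cert, List.mem_cons, List.not_mem_nil, or_false] at h
  rcases h with rfl | rfl
  · exact part_D1a
  · exact part_D1b

theorem hOut : SideH g.s.d.c.K 2 1 (g.tOutM mo) :=
  SideF.target (K := 3) D1T.ok (s := 157758) (by norm_num) rfl rfl rfl rfl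
    (SideF.lastP D1.ok (by norm_num) good_D1 rfl rfl minus1)

theorem good2 (b : Blk) (hb : b ∈ D2.cert.blocks) : b.mult = mOne ∨ b.mult = mCen := by
  simp only [D2.cert, List.mem_cons, List.not_mem_nil, or_false] at hb
  rcases hb with rfl | rfl | rfl | rfl
  · exact Or.inl rfl
  · exact Or.inl rfl
  · exact Or.inr rfl
  · exact Or.inr rfl

theorem hCen (x : Pnt) (h : 0 ≤ -2 * x.f - x.f ^ 2 - x.g ^ 2) : 0 ≤ (Ex.bp g.cen).re x :=
  cen_of D2.ok good2 x h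

theorem hk : (g.s.d.c.lam : ℝ) + g.s.d.c.c1 + (|(g.s.d.c.c1 : ℝ) - g.s.d.kb| +
    2 * |(g.s.d.c.a2 : ℝ)|) / 10 ^ 7 < 2 * (52 / 25) * g.s.d.c.M := by
  simp only [g, ct, cm, cb]
  norm_num [abs_of_nonneg, abs_of_neg, abs_of_pos, abs_of_nonpos]

end Pool.Agent.Helper46.CK.C4

end

section

namespace Pool.Agent.Helper71.CK
end Pool.Agent.Helper71.CK

/-!
# Project CK: the integral means spectrum for `p ≥ 52 / 25`
-/

set_option autoImplicit false

open Complex MeasureTheory Metric Set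

open scoped Real

namespace Pool.Agent.Helper46.CK.C4

open Pool.Agent.Helper71.CK

/-- **the integral means spectrum**: `B(-p) ≤ p - 1` for `p ≥ 52 / 25` -/
theorem means : ∀ p : ℝ, 52 / 25 ≤ p → ∀ e : ℝ, 0 < e → ∃ C : ℝ, ∀ ψ : ℂ → ℂ,
    DifferentiableOn ℂ ψ {z : ℂ | 1 < ‖z‖} → InjOn ψ {z : ℂ | 1 < ‖z‖} →
    (∃ b : ℂ, Filter.Tendsto (fun z => ψ z - z) (Bornology.cobounded ℂ) (nhds b)) →
    ∀ R : ℝ, 1 < R →
    (2 * π)⁻¹ * (∫ θ in (0:ℝ)..(2 * π), ‖deriv ψ (R * Complex.exp (θ * I))‖ ^ (-p)) ≤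
      C * (R ^ 2 / (R ^ 2 - 1)) ^ (p - 1 + e) := by
  have h := meansH gOk hIn hOut (by decide) (by decide) (by decide) hCen hk (κ := 52 / 25)
    (by norm_num) (Mb := 13 / 5) (by norm_num) (by norm_num) (mOk (by norm_num)) (by simp [g, ct, cm])
  have hdel : (g.s.d.del : ℝ) / g.s.d.c.M = 0 := by simp [g, ct, cm]
  rw [hdel] at h
  intro p hp e he
  simpa only [add_zero] using h p hp e he

end Pool.Agent.Helper46.CK.C4

end

section

namespace Pool.Agent.Helper65.CKC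
end Pool.Agent.Helper65.CKC
namespace Pool.Agent.Helper33.CKC
end Pool.Agent.Helper33.CKC
namespace Pool.Agent.Helper20.EK7
end Pool.Agent.Helper20.EK7
namespace Pool.Agent.Helper20.CK
end Pool.Agent.Helper20.CK

set_option autoImplicit false

/-!
# Project CKC, certificate A9: the arc, from the inequality at its directions
-/

namespace Pool.Agent.Helper99.CKC.A9

open Pool.Agent.Helper65.CKC Pool.Agent.Helper33.CKC

open Pool.Agent.Helper20.EK7 (InL OutD)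

open Pool.Agent.Helper20.CK (ROk)

theorem inL : InL 1 0 (-(9/25)) :=
  ⟨by rw [abs_of_nonneg (by norm_num)]; norm_num, by rw [abs_of_nonneg (by norm_num)]; norm_num⟩

theorem outD : OutD (17/18) (1/12) (11/12) :=
  ⟨by rw [abs_of_nonneg (by norm_num)]; norm_num, by rw [abs_of_nonneg (by norm_num)]; norm_num⟩

theorem rokI : ROk 900 900 0 (-324) 1 0 (-(9/25)) :=
  ⟨by norm_num, by norm_num, by norm_num, by norm_num⟩

theorem rokO : ROk 900 850 75 825 (17/18) (1/12) (11/12) :=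
  ⟨by norm_num, by norm_num, by norm_num, by norm_num⟩

theorem okAll : okA D v0 v1 v2 21865 2702 10000 = true := by decide +kernel

theorem secH_of (hP : PtArc D v0 v1 v2 1 0 (-(9/25)) (17/18) (1/12) (11/12)) :
    SecH (21865/10000) (2702/10000) (1/2) := by
  have h := secH_arc (kA := 21865) (kB := 2702) (kD := 10000) inL outD rokI rokO okAll hP (by decide +kernel)
    (by norm_num) (by norm_num) (by norm_num) (cs := cells) (by decide) cov arc boxes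
  have e : ((v1.tn : ℤ) : ℝ) / v1.td = 1/2 := by
    have a : v1.tn = 2 := by decide +kernel
    have b : v1.td = 4 := by decide +kernel
    rw [a, b]
    norm_num
  rw [e] at h
  norm_num at h ⊢
  exact h

end Pool.Agent.Helper99.CKC.A9

end

section

namespace Pool.Sos71
end Pool.Sos71
namespace Pool.Agent.Helper42.CKC
end Pool.Agent.Helper42.CKC
namespace Pool.Agent.Helper99.CKC
end Pool.Agent.Helper99.CKC
namespace Pool.Agent.Helper65.CKC
end Pool.Agent.Helper65.CKC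
namespace Pool.Agent.Helper33.CKC
end Pool.Agent.Helper33.CKC
namespace Pool.Agent.Helper71.CK
end Pool.Agent.Helper71.CK

set_option autoImplicit false

namespace Pool.Agent.Helper99.CKC.A9

open Pool.Sos71 Pool.Agent.Helper42.CKC Pool.Agent.Helper99.CKC

open Pool.Agent.Helper65.CKC Pool.Agent.Helper33.CKC

open Pool.Agent.Helper71.CK (LIn LOut)

open Do

def d1 : Blk := ⟨(.lit 1), ND1, 1, itsD1, 35184372088832, 17592186044416, lD1, 2, 1, [], 0⟩

def d2 : Blk := ⟨(.lit 1), ND2, 1, itsD2, 70368744177664, 35184372088832, lD2, 2, 1, [], 0⟩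

theorem sideI : SideP D.K 1 1 v0 v1 v2 (D.tIn v0) (D.tIn v1) (D.tIn v2) :=
  Pool.Agent.Helper96.T2.sideIn (by decide +kernel) <| side_of0 C0i.ok C1i.ok C2i.ok rfl rfl rfl
    ⟨Or.inl rfl, Or.inr (Or.inl rfl), Or.inr (Or.inr (Or.inl rfl)), trivial⟩
    ⟨Or.inl rfl, Or.inr (Or.inl rfl), Or.inr (Or.inr (Or.inl rfl)), trivial⟩
    ⟨Or.inl rfl, Or.inr (Or.inl rfl), Or.inr (Or.inr (Or.inl rfl)), trivial⟩

theorem sideO : SideP D.K 101 100 v0 v1 v2 (D.tOut v0) (D.tOut v1) (D.tOut v2) :=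
  Pool.Agent.Helper96.T2.sideOut (by decide +kernel) <| side_of (by norm_num) C0o.ok C1o.ok C2o.ok rfl rfl rfl
    (b0 := [C0o.b0, C0o.b1, C0o.b2])
    (b1 := [C1o.b0, C1o.b1, C1o.b2])
    (b2 := [C2o.b0, C2o.b1, C2o.b2])
    (d1 := d1) (d2 := d2) rfl rfl rfl
    ⟨Or.inl rfl, Or.inr (Or.inl rfl), Or.inr (Or.inr (Or.inl rfl)), trivial⟩
    ⟨Or.inl rfl, Or.inr (Or.inl rfl), Or.inr (Or.inr (Or.inl rfl)), trivial⟩
    ⟨Or.inl rfl, Or.inr (Or.inl rfl), Or.inr (Or.inr (Or.inl rfl)), trivial⟩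
    rfl rfl rfl (by decide +kernel) (by decide +kernel)

theorem ep0 : ((D.p0 : ℤ) : ℝ) / D.rd = 1 := by
  have a : D.p0 = 900 := rfl
  have b : D.rd = 900 := rfl
  rw [a, b]; norm_num

theorem ep1 : ((D.p1 : ℤ) : ℝ) / D.rd = 0 := by
  have a : D.p1 = 0 := rfl
  have b : D.rd = 900 := rfl
  rw [a, b]; norm_num

theorem ep2 : ((D.p2 : ℤ) : ℝ) / D.rd = (-(9/25)) := by
  have a : D.p2 = -324 := rfl
  have b : D.rd = 900 := rfl
  rw [a, b]; norm_num

theorem eq0 : ((D.q0 : ℤ) : ℝ) / D.rd = (17/18) := by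
  have a : D.q0 = 850 := rfl
  have b : D.rd = 900 := rfl
  rw [a, b]; norm_num

theorem eq1 : ((D.q1 : ℤ) : ℝ) / D.rd = (1/12) := by
  have a : D.q1 = 75 := rfl
  have b : D.rd = 900 := rfl
  rw [a, b]; norm_num

theorem eq2 : ((D.q2 : ℤ) : ℝ) / D.rd = (11/12) := by
  have a : D.q2 = 825 := rfl
  have b : D.rd = 900 := rfl
  rw [a, b]; norm_num

theorem lIn : LIn 1 0 (-(9/25)) ((1 : ℤ) / (1 : ℤ)) :=
  ⟨by norm_num, by norm_num, by norm_num⟩

theorem lOut : LOut (17/18) (1/12) (11/12) ((101 : ℤ) / (100 : ℤ)) :=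
  ⟨by norm_num, by norm_num, by norm_num⟩

theorem okD : D.Ok v0 v1 v2 1 1 101 100 where
  wf := by decide +kernel
  g0 := by decide +kernel
  g1 := by decide +kernel
  m0 := by decide +kernel
  m1 := by decide +kernel
  m2 := by decide +kernel
  M0 := by decide +kernel
  F0 := by decide +kernel
  MF := by decide +kernel
  rd0 := by decide +kernel
  t0 := by decide +kernel
  t1 := by decide +kernel
  t2 := by decide +kernel
  Ld0 := by norm_num
  Ld0' := by norm_num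
  inL := by rw [ep0, ep1, ep2]; exact inL
  outD := by rw [eq0, eq1, eq2]; exact outD
  lIn := by rw [ep0, ep1, ep2]; exact lIn
  lOut := by rw [eq0, eq1, eq2]; exact lOut

theorem ptArc : PtArc D v0 v1 v2 1 0 (-(9/25)) (17/18) (1/12) (11/12) := by
  intro τ s0 s1 s2 h0 h1 h2 h3 h4 h5
  obtain ⟨B, hB, H⟩ := okD.point sideI sideO
  have hX := (H τ s0 s1 s2 h0 h1 h2 h3 h4 h5).2
  rw [ep0, ep1, ep2, eq0, eq1, eq2] at hX
  have e : D.NN v0 v1 v2 τ s0 s1 s2 = ND D v0 v1 v2 τ s0 s1 s2 := by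
    funext x q η
    unfold DatC.NN ND
    rw [one_div, inv_mul_eq_div]
  rw [e] at hX
  exact ⟨B, _, _, _, _, _, _, hB, hX⟩

/-- **the arc `0 ≤ τ ≤ 1/2`** -/
theorem secH : SecH (21865/10000) (2702/10000) (1/2) := secH_of ptArc

end Pool.Agent.Helper99.CKC.A9

end

section

namespace Pool.Sos71
end Pool.Sos71
namespace Pool.Agent.Helper42.CKC
end Pool.Agent.Helper42.CKC
namespace Pool.Agent.Helper20.EK7
end Pool.Agent.Helper20.EK7
namespace Pool.Agent.Helper71.CK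
end Pool.Agent.Helper71.CK

set_option autoImplicit false

/-!
# Project CKY: helpers for the final files of a certificate
-/

namespace Pool.Agent.Helper65.CKY

open Pool.Sos71

open Pool.Agent.Helper42.CKC (Goods)

theorem all5 {P : Vy → Prop} {v0 v1 v2 v3 v4 : Vy} (h0 : P v0) (h1 : P v1) (h2 : P v2)
    (h3 : P v3) (h4 : P v4) : ∀ v ∈ [v0, v1, v2, v3, v4], P v := by
  intro v hv
  simp only [List.mem_cons, List.mem_nil_iff, or_false] at hv
  rcases hv with rfl | rfl | rfl | rfl | rfl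
  exacts [h0, h1, h2, h3, h4]

/-- **one side from the certificates of the vertices** -/
theorem side_ofV {K : ℕ} {Ln Ld : ℤ} (hd : 0 < Ld) (DL : List (List ℤ × Blk × Blk)) {s : ℕ}
    {VS : List Vy} {T : Vy → Ex} (H : ∀ v ∈ VS, CertY Ln Ld s DL (v.c, T v))
    (hi : ∀ q ∈ DL, Pool.Agent.Helper42.CKC.Bdd.itb (K + 1) q.2.1.its = true ∧
      Pool.Agent.Helper42.CKC.Bdd.itb (K + 1) q.2.2.its = true) :
    SideY K Ln Ld (DL.map Prod.fst) (VS.map fun v => (v.c, T v)) := by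
  refine side_ofY (s := s) hd (fun vt hvt => ?_) hi
  obtain ⟨v, hv, rfl⟩ := List.mem_map.1 hvt
  exact H v hv

theorem side_ofV0 {K : ℕ} {Ln Ld : ℤ} (hd : 0 < Ld) (BS : List (List ℤ)) {s : ℕ}
    {VS : List Vy} {T : Vy → Ex} (H : ∀ v ∈ VS, CertY Ln Ld s [] (v.c, T v)) :
    SideY K Ln Ld BS (VS.map fun v => (v.c, T v)) := by
  refine side_ofY0 (s := s) hd (fun vt hvt => ?_) BS
  obtain ⟨v, hv, rfl⟩ := List.mem_map.1 hvt
  exact H v hv

/-- all checks which are decided on the data -/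
def okB (D : DatY) (VS : List Vy) (BS : List (List ℤ)) (kA kB kD : ℤ) : Bool :=
  and (and (and D.wf D.degB) (BS.all fun p => Nat.ble p.length (2 * D.m + 1)))
    (and (and (and (D.V.all fun g => Pool.Agent.Helper99.CKC.okGs g.2)
        (D.F.all fun g => Pool.Agent.Helper99.CKC.okGs g.2))
      (VS.all fun v => and (v.HM.all Pool.Agent.Helper99.CKC.HmC.ok)
        (and (decide (0 ≤ D.tw v)) (numY D kA kB kD v))))
      (and (and (decide (0 < D.M)) (decide (0 < D.Fd)))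
        (and (decide (D.M = D.Fd ^ 2 * D.Mt)) (decide (0 < D.rd)))))

open Pool.Agent.Helper20.EK7 (InL OutL OutD)

open Pool.Agent.Helper71.CK (LIn LOut)

/-- **`Ok` from the decided checks** -/
theorem ok_of {D : DatY} {VS : List Vy} {BS : List (List ℤ)} {kA kB kD Ln Ld Ln' Ld' : ℤ}
    (h : okB D VS BS kA kB kD = true) (hL : 0 < Ld) (hL' : 0 < Ld')
    (inL : InL (D.p0 / D.rd) (D.p1 / D.rd) (D.p2 / D.rd))
    (outD : OutD (D.q0 / D.rd) (D.q1 / D.rd) (D.q2 / D.rd))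
    (lIn : LIn (D.p0 / D.rd) (D.p1 / D.rd) (D.p2 / D.rd) (Ln / Ld))
    (lOut : LOut (D.q0 / D.rd) (D.q1 / D.rd) (D.q2 / D.rd) (Ln' / Ld')) :
    D.Ok VS BS Ln Ld Ln' Ld' ∧ ∀ v ∈ VS, numY D kA kB kD v = true := by
  simp only [okB, Bool.and_eq_true, decide_eq_true_eq, List.all_eq_true, Nat.ble_eq] at h
  obtain ⟨⟨⟨h1, h2⟩, h3⟩, ⟨⟨h4, h5⟩, h6⟩, ⟨h7, h8⟩, h9, h10⟩ := h
  refine ⟨⟨h1, h2, h3, h4, h5, fun v hv => ?_, fun v hv => (h6 v hv).2.1, h7, h8, h9, h10, hL, hL',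
    inL, outD, lIn, lOut⟩, fun v hv => (h6 v hv).2.2⟩
  rw [List.all_eq_true]
  exact (h6 v hv).1

end Pool.Agent.Helper65.CKY

end

section

namespace Pool.Sos71
end Pool.Sos71
namespace Pool.EK71
end Pool.EK71
namespace Pool.Agent.Helper69.EK3
end Pool.Agent.Helper69.EK3
namespace Pool.Agent.Helper71.EKC
end Pool.Agent.Helper71.EKC
namespace Pool.Agent.Helper99.CKC
end Pool.Agent.Helper99.CKC
namespace Pool.Agent.Helper42.CKC
end Pool.Agent.Helper42.CKC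
namespace Pool.Agent.Helper11.CKC
end Pool.Agent.Helper11.CKC
namespace Pool.Agent.Helper96.T2
end Pool.Agent.Helper96.T2

set_option autoImplicit false

namespace Pool.Agent.Helper65.CKY

open Complex

open Pool.Sos71 Pool.EK71

open Pool.Agent.Helper69.EK3 (AP apE)

open Pool.Agent.Helper71.EKC

open Pool.Agent.Helper99.CKC Pool.Agent.Helper42.CKC

open Pool.Agent.Helper11.CKC (CL)

open Pool.Agent.Helper96.T2 (xD pD hm2 mD nD eR2 vD pD_re Dk_v hm2_re eR2_re v_mD v_nD v_sumC sumX_mul sumX_congr)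

section

variable (y : Pnt)

theorem EMy2_re (z0 z1 : ℤ) (d : DC) (K h : ℕ) (t : ℕ × ℕ × ℤ × ℤ) :
    (EMy z0 z1 d K h t).re y = vD y d ^ K * (EMy2 z0 z1 h t).re y := by
  have e1 : (EMy z0 z1 d K h t).re y = (Ex.mul (Ex.pow (Ex.va 0) t.1)
    (CX.mul (CX.sc2 z0 (Int.neg z1) (CX.sc2 t.2.2.1 t.2.2.2 (cMw0 t.2.1)))
      (CX.mul cx (CX.add (cZ 2 0) cx))).r).re y *
      ((Ex.pow xo (h - 2)).re y * ev2 y.f y.g (Dk d K)) := rfl
  have e2 : (EMy2 z0 z1 h t).re y = (Ex.mul (Ex.pow (Ex.va 0) t.1)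
    (CX.mul (CX.sc2 z0 (Int.neg z1) (CX.sc2 t.2.2.1 t.2.2.2 (cMw0 t.2.1)))
      (CX.mul cx (CX.add (cZ 2 0) cx))).r).re y *
      (Ex.pow xo (h - 2)).re y := rfl
  rw [e1, e2, Dk_v]; ring

theorem eLy2_re (D : DatY) (v : Vy) : (D.eLin v).re y = vD y D.d ^ D.K * (eLy2 D v).re y := by
  have e1 : (D.eLin v).re y = (Ex.pow xo D.h).re y * ev2 y.f y.g
      (mu2 [[0, Int.mul 2 (dt (0 :: D.nu) v.c), Int.mul 2 (Int.add v.ka (dt D.nu v.c))],
    [Int.mul 2 (dt D.nu v.c)], [Int.mul 2 (Int.add v.ka (dt D.nu v.c))]] (Dk D.d D.K)) := rfl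
  have e2 : (eLy2 D v).re y = (Ex.pow xo D.h).re y * ev2 y.f y.g
      [[0, Int.mul 2 (dt (0 :: D.nu) v.c), Int.mul 2 (Int.add v.ka (dt D.nu v.c))],
    [Int.mul 2 (dt D.nu v.c)], [Int.mul 2 (Int.add v.ka (dt D.nu v.c))]] := rfl
  rw [e1, e2, ev2_mu, Dk_v]; ring

theorem EV2_re (z0 z1 : ℤ) (d : DC) {K : ℕ} {G : GrC} (hk : G.k + 1 ≤ K) :
    (EV z0 z1 d K G).re y = (EV2 z0 z1 d K G).re y := by
  have e1 : (EV z0 z1 d K G).re y = (CX.v y (CX.add (CX.mI (CX.sc2 z0 z1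
      (CX.sum (fun t => CX.rm (apE (adC 0 t.1)) (hM d K G.k t)) G.l)))
    (CX.mul (CX.cj (CX.mul (cRz z0 z1) cY1))
      (CX.sum (fun t => CX.rm (Ex.sc 2 (apE t.1)) (hN d K G.k t)) G.l)))).re := rfl
  have e2 : (EV2 z0 z1 d K G).re y = (pD d (K - G.k - 1)).re y * (CX.v y (CX.add (CX.mI (CX.sc2 z0 z1
      (CX.sum (fun t => CX.rm (apE (adC 0 t.1)) (mD d t)) G.l)))
    (CX.mul (CX.cj (CX.mul (cRz z0 z1) cY1))
      (CX.sum (fun t => CX.rm (Ex.sc 2 (apE t.1)) (nD d G.k t)) G.l)))).re := rfl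
  have s1 := v_sumC y (fun t => CX.rm (apE (adC 0 t.1)) (hM d K G.k t))
    (fun t => CX.rm (apE (adC 0 t.1)) (mD d t)) ((vD y d ^ (K - G.k - 1) : ℝ) : ℂ) G.l
    (fun t _ => by rw [CX.v_rm, CX.v_rm, v_mD y d hk]; ring)
  have s2 := v_sumC y (fun t => CX.rm (Ex.sc 2 (apE t.1)) (hN d K G.k t))
    (fun t => CX.rm (Ex.sc 2 (apE t.1)) (nD d G.k t)) ((vD y d ^ (K - G.k - 1) : ℝ) : ℂ) G.l
    (fun t _ => by rw [CX.v_rm, CX.v_rm, v_nD y d]; ring)
  rw [e1, e2, pD_re, ← re_ofReal_mul]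
  congr 1
  rw [CX.v_add, CX.v_add, CX.v_mI, CX.v_mI, CX.v_sc2, CX.v_sc2, CX.v_mul, CX.v_mul, s1, s2]
  ring

theorem EF2_re (z0 z1 z2 : ℤ) (d : DC) {K : ℕ} {G : GrC} (hk : G.k + 1 ≤ K) :
    (EF z0 z1 z2 d K G).re y = (EF2 z0 z1 z2 d K G).re y := by
  have e1 : (EF z0 z1 z2 d K G).re y = (CX.v y (CX.add (CX.mul (CX.mI (cR2 z0 z1 z2))
      (CX.sum (fun t => CX.rm (apE (adC 1 t.1)) (hM d K G.k t)) G.l))
    (CX.mul (CX.rm (eRR z0 z1 z2) (CX.cj cY1))
      (CX.sum (fun t => CX.rm (Ex.sc 2 (apE t.1)) (hN d K G.k t)) G.l)))).re := rfl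
  have e2 : (EF2 z0 z1 z2 d K G).re y = (pD d (K - G.k - 1)).re y * (CX.v y (CX.add
      (CX.mul (CX.mI (cR2 z0 z1 z2))
      (CX.sum (fun t => CX.rm (apE (adC 1 t.1)) (mD d t)) G.l))
    (CX.mul (CX.rm (eRR z0 z1 z2) (CX.cj cY1))
      (CX.sum (fun t => CX.rm (Ex.sc 2 (apE t.1)) (nD d G.k t)) G.l)))).re := rfl
  have s1 := v_sumC y (fun t => CX.rm (apE (adC 1 t.1)) (hM d K G.k t))
    (fun t => CX.rm (apE (adC 1 t.1)) (mD d t)) ((vD y d ^ (K - G.k - 1) : ℝ) : ℂ) G.l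
    (fun t _ => by rw [CX.v_rm, CX.v_rm, v_mD y d hk]; ring)
  have s2 := v_sumC y (fun t => CX.rm (Ex.sc 2 (apE t.1)) (hN d K G.k t))
    (fun t => CX.rm (Ex.sc 2 (apE t.1)) (nD d G.k t)) ((vD y d ^ (K - G.k - 1) : ℝ) : ℂ) G.l
    (fun t _ => by rw [CX.v_rm, CX.v_rm, v_nD y d]; ring)
  rw [e1, e2, pD_re, ← re_ofReal_mul]
  congr 1
  rw [CX.v_add, CX.v_add, CX.v_mul, CX.v_mul, CX.v_mul, CX.v_mul, s1, s2]
  ring

/-- the groups are within the bound of the powers of `D` -/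
def gk (K : ℕ) (L : List (List ℤ × List GrC)) : Bool :=
  L.all fun g => g.2.all fun G => Nat.ble (G.k + 1) K

theorem gk_le {K : ℕ} {L : List (List ℤ × List GrC)} (h : gk K L = true) :
    ∀ g ∈ L, ∀ G ∈ g.2, G.k + 1 ≤ K := fun g hg G hG =>
  Nat.le_of_ble_eq_true (List.all_eq_true.1 (List.all_eq_true.1 h g hg) G hG)

theorem sumV2_re (c : List ℤ) (d : DC) {K : ℕ} (L : List (List ℤ × List GrC))
    (h : ∀ g ∈ L, ∀ G ∈ g.2, G.k + 1 ≤ K) {a b : Ex} (hab : a.re y = b.re y) :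
    (sumV c d K L a).re y = (sumV2 c d K L b).re y := by
  induction L with
  | nil => exact hab
  | cons g L ih =>
    exact sumX_congr y _ _ _ _ g.2
      (fun G hG => EV2_re y _ _ d (h g List.mem_cons_self G hG))
      (ih fun g' hg' => h g' (List.mem_cons_of_mem _ hg'))

theorem sumF2_re (c : List ℤ) (d : DC) {K : ℕ} (L : List (List ℤ × List GrC))
    (h : ∀ g ∈ L, ∀ G ∈ g.2, G.k + 1 ≤ K) {a b : Ex} (hab : a.re y = b.re y) :
    (sumF c d K L a).re y = (sumF2 c d K L b).re y := by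
  induction L with
  | nil => exact hab
  | cons g L ih =>
    exact sumX_congr y _ _ _ _ g.2
      (fun G hG => EF2_re y _ _ _ d (h g List.mem_cons_self G hG))
      (ih fun g' hg' => h g' (List.mem_cons_of_mem _ hg'))

theorem targety2_re {D : DatY} (hV : gk D.K D.V = true) (hF : gk D.K D.F = true) (v : Vy)
    (s r0 r1 r2 : ℤ) (f : Fl) (L0 L1 : CL) (R : List Rm) :
    (D.target v s r0 r1 r2 f L0 L1 R).re y = (targety2 D v s r0 r1 r2 f L0 L1 R).re y := by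
  have h1 := sumX_mul y (EHm D.d D.K) hm2 (Ex.mul (Ex.pow xo D.h) (Ex.lit 0))
    (Ex.mul (Ex.pow xo D.h) (Ex.lit 0)) (vD y D.d ^ D.K) v.HM (fun t _ => hm2_re y D.d D.K t)
    (by rw [lit0_re]; ring)
  have h2 := sumX_mul y (EMy (dt (P1 D.m) v.c) (dt (0 :: P1 D.m) v.c) D.d D.K D.h)
    (EMy2 (dt (P1 D.m) v.c) (dt (0 :: P1 D.m) v.c) D.h)
    (sumX (EMy (dt (0 :: P1 D.m) v.c) (dt (0 :: 0 :: P1 D.m) v.c) D.d D.K D.h) (D.eLin v) L1)
    (sumX (EMy2 (dt (0 :: P1 D.m) v.c) (dt (0 :: 0 :: P1 D.m) v.c) D.h) (eLy2 D v) L1)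
    (vD y D.d ^ D.K) L0 (fun t _ => EMy2_re y _ _ D.d D.K D.h t)
    (sumX_mul y _ _ _ _ _ L1 (fun t _ => EMy2_re y _ _ D.d D.K D.h t) (eLy2_re y D v))
  have h3 := sumV2_re y v.c D.d D.V (gk_le hV) (sumF2_re y v.c D.d D.F (gk_le hF)
    (a := Ex.mul (Ex.pow xo D.h) (Ex.lit 0)) rfl)
  have h4 := sumX_mul y (eRm D.d (D.K - D.kL)) eR2 (Ex.mul (Ex.pow xo (D.h - 2)) (Ex.lit 0))
    (Ex.mul (Ex.pow xo (D.h - 2)) (Ex.lit 0)) (vD y D.d ^ (D.K - D.kL)) R
    (fun t _ => eR2_re y D.d _ t) (by rw [lit0_re]; ring)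
  have e1 : (D.target v s r0 r1 r2 f L0 L1 R).re y =
      (Ex.sc (Int.mul (-2) (Int.mul (Int.add (dt (P1 D.m) v.c) (dt (0 :: 0 :: P1 D.m) v.c)) D.Mt))
        (CX.nsq (cGv0 D.Fd s v.gm v.cR v.cI f))).re y *
        ((Ex.pow xo (D.h - 2)).re y * ev2 y.f y.g (Dk D.d D.K)) +
      (((2 : ℤ) : ℝ) *
          (sumX (EHm D.d D.K) (Ex.mul (Ex.pow xo D.h) (Ex.lit 0)) v.HM).re y +
        (((2 : ℤ) : ℝ) * (sumV v.c D.d D.K D.V
          (sumF v.c D.d D.K D.F (Ex.mul (Ex.pow xo D.h) (Ex.lit 0)))).re y +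
        (sumX (EMy (dt (P1 D.m) v.c) (dt (0 :: P1 D.m) v.c) D.d D.K D.h)
          (sumX (EMy (dt (0 :: P1 D.m) v.c) (dt (0 :: 0 :: P1 D.m) v.c) D.d D.K D.h)
            (D.eLin v) L1) L0).re y)) +
      (eCn0 D.rd s r0 r1 r2).re y * (sumX (eRm D.d (D.K - D.kL))
        (Ex.mul (Ex.pow xo (D.h - 2)) (Ex.lit 0)) R).re y := rfl
  have e2 : (targety2 D v s r0 r1 r2 f L0 L1 R).re y =
      ((pD D.d D.K).re y * (
        (Ex.sc (Int.mul (-2) (Int.mul (Int.add (dt (P1 D.m) v.c) (dt (0 :: 0 :: P1 D.m) v.c)) D.Mt))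
        (CX.nsq (cGv0 D.Fd s v.gm v.cR v.cI f))).re y * (Ex.pow xo (D.h - 2)).re y +
        (((2 : ℤ) : ℝ) *
          (sumX hm2 (Ex.mul (Ex.pow xo D.h) (Ex.lit 0)) v.HM).re y +
        (sumX (EMy2 (dt (P1 D.m) v.c) (dt (0 :: P1 D.m) v.c) D.h)
          (sumX (EMy2 (dt (0 :: P1 D.m) v.c) (dt (0 :: 0 :: P1 D.m) v.c) D.h)
            (eLy2 D v) L1) L0).re y)) +
      ((2 : ℤ) : ℝ) * (sumV2 v.c D.d D.K D.V
          (sumF2 v.c D.d D.K D.F (Ex.mul (Ex.pow xo D.h) (Ex.lit 0)))).re y) +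
      (pD D.d (D.K - D.kL)).re y * ((eCn0 D.rd s r0 r1 r2).re y * (sumX eR2
      (Ex.mul (Ex.pow xo (D.h - 2)) (Ex.lit 0)) R).re y) := rfl
  rw [e1, e2, h1, h2, h3, h4, pD_re, pD_re, Dk_v]
  ring

theorem tIn2_re {D : DatY} (hV : gk D.K D.V = true) (hF : gk D.K D.F = true) (v : Vy) :
    (D.tIn v).re y = (tIn2 D v).re y :=
  targety2_re y hV hF v _ _ _ _ _ _ _ _

theorem tOut2_re {D : DatY} (hV : gk D.K D.V = true) (hF : gk D.K D.F = true) (v : Vy) :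
    (D.tOut v).re y = (tOut2 D v).re y :=
  targety2_re y hV hF v _ _ _ _ _ _ _ _

end

variable {D : DatY} {K : ℕ} {Ln Ld : ℤ} {BS : List (List ℤ)} {VS : List Vy}

/-- **inner side** from certificates with the second expression -/
theorem side_in2 (hV : gk D.K D.V = true) (hF : gk D.K D.F = true)
    (h : SideY K Ln Ld BS (VS.map fun v => (v.c, tIn2 D v))) :
    SideY K Ln Ld BS (VS.map fun v => (v.c, D.tIn v)) := by
  obtain ⟨QL, h1, h2⟩ := h
  refine ⟨QL, h1, fun R hR => ?_⟩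
  obtain ⟨B, hB, H⟩ := h2 R hR
  refine ⟨B, hB, fun y hy => ⟨(H y hy).1, fun vt hvt => ?_⟩⟩
  obtain ⟨v, hv, rfl⟩ := List.mem_map.1 hvt
  have k := (H y hy).2 (v.c, tIn2 D v) (List.mem_map.2 ⟨v, hv, rfl⟩)
  show _ ≤ (D.tIn v).re y
  rw [tIn2_re y hV hF]
  exact k

/-- **outer side** from certificates with the second expression -/
theorem side_out2 (hV : gk D.K D.V = true) (hF : gk D.K D.F = true)
    (h : SideY K Ln Ld BS (VS.map fun v => (v.c, tOut2 D v))) :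
    SideY K Ln Ld BS (VS.map fun v => (v.c, D.tOut v)) := by
  obtain ⟨QL, h1, h2⟩ := h
  refine ⟨QL, h1, fun R hR => ?_⟩
  obtain ⟨B, hB, H⟩ := h2 R hR
  refine ⟨B, hB, fun y hy => ⟨(H y hy).1, fun vt hvt => ?_⟩⟩
  obtain ⟨v, hv, rfl⟩ := List.mem_map.1 hvt
  have k := (H y hy).2 (v.c, tOut2 D v) (List.mem_map.2 ⟨v, hv, rfl⟩)
  show _ ≤ (D.tOut v).re y
  rw [tOut2_re y hV hF]
  exact k

end Pool.Agent.Helper65.CKY

end

section

namespace Pool.Sos71
end Pool.Sos71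
namespace Pool.Agent.Helper42.CKC
end Pool.Agent.Helper42.CKC
namespace Pool.Agent.Helper99.CKC
end Pool.Agent.Helper99.CKC
namespace Pool.Agent.Helper65.CKY
end Pool.Agent.Helper65.CKY
namespace Pool.Agent.Helper11.CKC
end Pool.Agent.Helper11.CKC
namespace Pool.Agent.Helper71.CK
end Pool.Agent.Helper71.CK
namespace Pool.Agent.Helper20.EK7
end Pool.Agent.Helper20.EK7
namespace Pool.Agent.Helper20.CK
end Pool.Agent.Helper20.CK

set_option autoImplicit false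

namespace Pool.Agent.Helper98.CKY.K3B

open Pool.Sos71 Pool.Agent.Helper42.CKC Pool.Agent.Helper99.CKC Pool.Agent.Helper65.CKY

open Pool.Agent.Helper11.CKC (CL)

open Pool.Agent.Helper71.CK (LIn LOut)

open Pool.Agent.Helper20.EK7 (InL OutD)

open Pool.Agent.Helper20.CK (ROk)

open Pool.Agent.Helper11.CKC (HChk covH rayB)

def DLO : List (List ℤ × Blk × Blk) := [([1], Do.bD10, Do.bD20), ([-1, 1], Do.bD11, Do.bD21), ([1, -2, 1], Do.bD12, Do.bD22)]

def VS : List Vy := [v0, v1, v2, v3, v4]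

theorem c0i : CertY 1 1 8 [] (v0.c, tIn2 D v0) :=
  ⟨C0i.cert, [C0i.b0, C0i.b1, C0i.b2], C0i.ok, rfl, rfl, ⟨Or.inl rfl, Or.inr (Or.inl rfl), Or.inr (Or.inr (Or.inl rfl)), trivial⟩, rfl⟩

theorem c0o : CertY 101 100 8 DLO (v0.c, tOut2 D v0) :=
  ⟨C0o.cert, [C0o.b0, C0o.b1, C0o.b2], C0o.ok, rfl, rfl, ⟨Or.inl rfl, Or.inr (Or.inl rfl), Or.inr (Or.inr (Or.inl rfl)), trivial⟩, rfl⟩

theorem c1i : CertY 1 1 8 [] (v1.c, tIn2 D v1) :=
  ⟨C1i.cert, [C1i.b0, C1i.b1, C1i.b2], C1i.ok, rfl, rfl, ⟨Or.inl rfl, Or.inr (Or.inl rfl), Or.inr (Or.inr (Or.inl rfl)), trivial⟩, rfl⟩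

theorem c1o : CertY 101 100 8 DLO (v1.c, tOut2 D v1) :=
  ⟨C1o.cert, [C1o.b0, C1o.b1, C1o.b2], C1o.ok, rfl, rfl, ⟨Or.inl rfl, Or.inr (Or.inl rfl), Or.inr (Or.inr (Or.inl rfl)), trivial⟩, rfl⟩

theorem c2i : CertY 1 1 8 [] (v2.c, tIn2 D v2) :=
  ⟨C2i.cert, [C2i.b0, C2i.b1, C2i.b2], C2i.ok, rfl, rfl, ⟨Or.inl rfl, Or.inr (Or.inl rfl), Or.inr (Or.inr (Or.inl rfl)), trivial⟩, rfl⟩

theorem c2o : CertY 101 100 8 DLO (v2.c, tOut2 D v2) :=
  ⟨C2o.cert, [C2o.b0, C2o.b1, C2o.b2], C2o.ok, rfl, rfl, ⟨Or.inl rfl, Or.inr (Or.inl rfl), Or.inr (Or.inr (Or.inl rfl)), trivial⟩, rfl⟩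

theorem c3i : CertY 1 1 8 [] (v3.c, tIn2 D v3) :=
  ⟨C3i.cert, [C3i.b0, C3i.b1, C3i.b2], C3i.ok, rfl, rfl, ⟨Or.inl rfl, Or.inr (Or.inl rfl), Or.inr (Or.inr (Or.inl rfl)), trivial⟩, rfl⟩

theorem c3o : CertY 101 100 8 DLO (v3.c, tOut2 D v3) :=
  ⟨C3o.cert, [C3o.b0, C3o.b1, C3o.b2], C3o.ok, rfl, rfl, ⟨Or.inl rfl, Or.inr (Or.inl rfl), Or.inr (Or.inr (Or.inl rfl)), trivial⟩, rfl⟩

theorem c4i : CertY 1 1 8 [] (v4.c, tIn2 D v4) :=
  ⟨C4i.cert, [C4i.b0, C4i.b1, C4i.b2], C4i.ok, rfl, rfl, ⟨Or.inl rfl, Or.inr (Or.inl rfl), Or.inr (Or.inr (Or.inl rfl)), trivial⟩, rfl⟩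

theorem c4o : CertY 101 100 8 DLO (v4.c, tOut2 D v4) :=
  ⟨C4o.cert, [C4o.b0, C4o.b1, C4o.b2], C4o.ok, rfl, rfl, ⟨Or.inl rfl, Or.inr (Or.inl rfl), Or.inr (Or.inr (Or.inl rfl)), trivial⟩, rfl⟩

theorem sideI : SideY D.K 1 1 [[1], [-1, 1], [1, -2, 1]] (VS.map fun v => (v.c, D.tIn v)) :=
  side_in2 (by decide +kernel) (by decide +kernel)
    (side_ofV0 (by norm_num) [[1], [-1, 1], [1, -2, 1]] (all5 c0i c1i c2i c3i c4i))

theorem sideO : SideY D.K 101 100 (DLO.map Prod.fst) (VS.map fun v => (v.c, D.tOut v)) :=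
  side_out2 (by decide +kernel) (by decide +kernel)
    (side_ofV (by norm_num) DLO (all5 c0o c1o c2o c3o c4o) (by decide +kernel))

theorem hic : (VS.map fun v => (v.id, v.c)) = cone4 1 1 := by decide +kernel

theorem bse : bs3 1 1 = [[1], [-1, 1], [1, -2, 1]] := by decide +kernel

theorem hw : ∀ τ : ℝ, ((1 : ℤ) : ℝ) ≤ ((1 : ℤ) : ℝ) * τ → (∀ t ∈ cone4 1 1, 0 ≤ wtC 4 1 1 t.1 τ) ∧
    (∀ p ∈ ([[1], [-1, 1], [1, -2, 1]] : List (List ℤ)), 0 ≤ pv p τ) ∧ RepL (2 * D.m + 2) (wtC 4 1 1) (cone4 1 1) τ :=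
  fun τ h => ⟨fun t _ => wtC_nonneg (by norm_num) h t.1, bse ▸ bs3_nonneg h, cone4_rep (by norm_num) τ⟩

theorem inL : InL (1) (0) (-(1/3)) :=
  ⟨by rw [abs_of_nonneg (by norm_num)]; norm_num, by rw [abs_of_nonneg (by norm_num)]; norm_num⟩

theorem outD : OutD (2/3) (1/12) (11/12) :=
  ⟨by rw [abs_of_nonneg (by norm_num)]; norm_num, by rw [abs_of_nonneg (by norm_num)]; norm_num⟩

theorem rokI : ROk 12 12 0 (-4) (1) (0) (-(1/3)) :=
  ⟨by norm_num, by norm_num, by norm_num, by norm_num⟩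

theorem rokO : ROk 12 8 1 11 (2/3) (1/12) (11/12) :=
  ⟨by norm_num, by norm_num, by norm_num, by norm_num⟩

theorem ep0 : ((D.p0 : ℤ) : ℝ) / D.rd = (1) := by
  have a : D.p0 = 12 := rfl
  have b : D.rd = 12 := rfl
  rw [a, b]; norm_num

theorem ep1 : ((D.p1 : ℤ) : ℝ) / D.rd = (0) := by
  have a : D.p1 = 0 := rfl
  have b : D.rd = 12 := rfl
  rw [a, b]; norm_num

theorem ep2 : ((D.p2 : ℤ) : ℝ) / D.rd = (-(1/3)) := by
  have a : D.p2 = -4 := rfl
  have b : D.rd = 12 := rfl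
  rw [a, b]; norm_num

theorem eq0 : ((D.q0 : ℤ) : ℝ) / D.rd = (2/3) := by
  have a : D.q0 = 8 := rfl
  have b : D.rd = 12 := rfl
  rw [a, b]; norm_num

theorem eq1 : ((D.q1 : ℤ) : ℝ) / D.rd = (1/12) := by
  have a : D.q1 = 1 := rfl
  have b : D.rd = 12 := rfl
  rw [a, b]; norm_num

theorem eq2 : ((D.q2 : ℤ) : ℝ) / D.rd = (11/12) := by
  have a : D.q2 = 11 := rfl
  have b : D.rd = 12 := rfl
  rw [a, b]; norm_num

theorem lIn : LIn (1) (0) (-(1/3)) ((1 : ℤ) / (1 : ℤ)) :=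
  ⟨by norm_num, by norm_num, by norm_num⟩

theorem lOut : LOut (2/3) (1/12) (11/12) ((101 : ℤ) / (100 : ℤ)) :=
  ⟨by norm_num, by norm_num, by norm_num⟩

theorem okD : D.Ok VS [[1], [-1, 1], [1, -2, 1]] 1 1 101 100 ∧ ∀ v ∈ VS, numY D 13555 13555 10000 v = true :=
  ok_of (by decide +kernel) (by norm_num) (by norm_num) (by rw [ep0, ep1, ep2]; exact inL)
    (by rw [eq0, eq1, eq2]; exact outD) (by rw [ep0, ep1, ep2]; exact lIn)
    (by rw [eq0, eq1, eq2]; exact lOut)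

/-- **every direction with `τ ≥ 1`** -/
theorem secU : SecU (13555/10000) (13555/10000) (1/1) := by
  have h := secU_ray okD.1 sideI sideO okD.2 (by norm_num) (by norm_num) (by norm_num) ep0 ep1 ep2
    eq0 eq1 eq2 (Tn := 1) (Td := 1) (by norm_num) hic hw rokI rokO (cs := Mul.cells) Mul.cov Mul.ray Mul.boxes
  norm_num at h ⊢
  exact h

end Pool.Agent.Helper98.CKY.K3B

end

section

namespace Pool.Agent.Helper58.CKC
end Pool.Agent.Helper58.CKC
namespace Pool.Agent.Helper33.CKC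
end Pool.Agent.Helper33.CKC
namespace Pool.Agent.Helper65.CKC
end Pool.Agent.Helper65.CKC

set_option autoImplicit false

/-!
# The closed left half plane, from two arcs of directions
-/

namespace Pool.Agent.Helper96.CKF

open Pool.Agent.Helper58.CKC (SigC)

open Pool.Agent.Helper33.CKC (SecH sec_all)

open Pool.Agent.Helper65.CKC (SecI arc_all)

/-- the arcs `0 ≤ τ ≤ 1/2` and `1/2 ≤ τ ≤ 1`; on the left half plane both inequalities are
assumed, so that only the larger threshold matters -/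
theorem two_arcs {a b a' b' : ℝ} (ha : 1 < a) (hb : 0 ≤ b) (ha' : 1 < a') (hb' : 0 ≤ b')
    (HA : SecH a b (1/2)) (HB : SecI a' b' (1/2) (1/1)) {t : ℂ} (ht : t ≠ 0) (hre : t.re ≤ 0)
    (h1 : a * (‖t‖ - t.re) + b * (‖t‖ + t.re) ≤ ‖t‖ * (‖t‖ - t.re))
    (h2 : a' * (‖t‖ - t.re) + b' * (‖t‖ + t.re) ≤ ‖t‖ * (‖t‖ - t.re)) {e : ℝ} (he : 0 < e) :
    SigC t (‖t‖ - 1 + e) ∧ LowC t (‖t‖ - 1) := by
  rcases le_total (4 * (‖t‖ + t.re)) (‖t‖ - t.re) with h | h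
  · have h3 := sec_all ha hb (by norm_num) HA ht ⟨by
      have : ((1:ℝ) / 2) ^ 2 = 1 / 4 := by norm_num
      rw [this]; (clear * - h; linarith only [h]), h1⟩
    exact ⟨h3.1 e he, h3.2⟩
  · have h3 := arc_all ha' hb' (by norm_num) HB ht ⟨by
      have : ((1:ℝ) / 2) ^ 2 = 1 / 4 := by norm_num
      rw [this]; (clear * - h; linarith only [h]), by
      have : ((1:ℝ) / 1) ^ 2 = 1 := by norm_num
      rw [this]; linarith only [hre], h2⟩
    exact ⟨h3.1 e he, h3.2⟩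

end Pool.Agent.Helper96.CKF

end

section

namespace Pool.Agent.Helper58.CKC
end Pool.Agent.Helper58.CKC
namespace Pool.Agent.Helper65.CKY
end Pool.Agent.Helper65.CKY

set_option autoImplicit false

/-!
# The closed right half plane: `|t| - Re t ≥ 2 c`
-/

namespace Pool.Agent.Helper96.CKF

open Pool.Agent.Helper58.CKC (SigC)

open Pool.Agent.Helper65.CKY (SecU ray_all)

/-- the cone `Re t ≥ 0` -/
theorem cone {c : ℝ} (hc : 1 < c) (H : SecU c c (1/1)) {t : ℂ} (ht : t ≠ 0) (hre : 0 ≤ t.re)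
    (h : 2 * c ≤ ‖t‖ - t.re) {e : ℝ} (he : 0 < e) :
    SigC t (‖t‖ - 1 + e) ∧ LowC t (‖t‖ - 1) := by
  have hn : 0 ≤ ‖t‖ := norm_nonneg t
  have h3 := ray_all hc (by linarith only [hc]) H ht ⟨by
    have : ((1:ℝ) / 1) ^ 2 = 1 := by norm_num
    rw [this]; linarith only [hre], by
    have h1 : ‖t‖ * (2 * c) ≤ ‖t‖ * (‖t‖ - t.re) := mul_le_mul_of_nonneg_left h hn
    linarith only [h1]⟩
  exact ⟨h3.1 e he, h3.2⟩

end Pool.Agent.Helper96.CKF

end

section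

namespace Pool.Agent.Helper33.CKC
end Pool.Agent.Helper33.CKC
namespace Pool.Agent.Helper65.CKC
end Pool.Agent.Helper65.CKC
namespace Pool.Agent.Helper65.CKY
end Pool.Agent.Helper65.CKY

set_option autoImplicit false

open Complex MeasureTheory Metric Set Filter Topology

open scoped Real ComplexConjugate

namespace Pool.Agent.Helper5.TR

open Pool.Agent.Helper33.CKC (SecH)

open Pool.Agent.Helper65.CKC (SecI)

open Pool.Agent.Helper65.CKY (SecU)

theorem extreme_five (HA : SecH (21865/10000) (2702/10000) (1/2))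
    (HB : SecI (21401/10000) (5058/10000) (1/2) (1/1))
    (HU : SecU (13555/10000) (13555/10000) (1/1)) :
    ∀ a s : ℝ, 0 < a → a < 1 → 0 < s → a * s ^ 2 < 1 - 26459 / 10000 * (1 - s) →
      ∃ C : ℝ, ∀ ψ h : ℂ → ℂ,
      DifferentiableOn ℂ ψ {z : ℂ | 1 < ‖z‖} →
      InjOn ψ {z : ℂ | 1 < ‖z‖} →
      (∃ b : ℂ, Tendsto (fun z => ψ z - z) (Bornology.cobounded ℂ) (𝓝 b)) →
      DifferentiableOn ℂ h {z : ℂ | 1 < ‖z‖} →
      (∀ z : ℂ, 1 < ‖z‖ → Complex.exp (h z) = deriv ψ z) →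
      Tendsto h (Bornology.cobounded ℂ) (𝓝 0) →
      ∀ R : ℝ, 1 < R →
        (1 / (2 * π)) * (∫ θ in (0:ℝ)..(2 * π),
          if (1 - 13 / 100 * (1 - a) ^ 2) * Real.log (R ^ 2 / (R ^ 2 - 1)) ≤
              ‖h ((R:ℂ) * Complex.exp ((θ:ℂ) * I))‖ ∨
              (h ((R:ℂ) * Complex.exp ((θ:ℂ) * I))).re ≤ 0 ∧
              s * Real.log (R ^ 2 / (R ^ 2 - 1)) ≤ ‖h ((R:ℂ) * Complex.exp ((θ:ℂ) * I))‖ then
            Real.exp (a * ‖h ((R:ℂ) * Complex.exp ((θ:ℂ) * I))‖ ^ 2 /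
              Real.log (R ^ 2 / (R ^ 2 - 1)))
          else 0) ≤ C := by
  have H := marshall_union (p := 0) (q := 13555 / 10000) (k := 26459 / 10000) (η := 13 / 100)
    (τ := 71 / 100) (d₀ := 1) (by norm_num) (by norm_num) (by norm_num) (by norm_num) (by norm_num)
    (by norm_num) (by norm_num) (by norm_num) (by norm_num) (by norm_num)
    (by
      intro t h0 ht hreg
      have hn : 0 < ‖t‖ := h0.trans ht
      have ht0 : t ≠ 0 := norm_pos_iff.1 hn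
      have h1 : 2 * (13555 / 10000) ≤ ‖t‖ - t.re := by
        have h2 : ‖t‖ * (2 * (13555 / 10000)) ≤ ‖t‖ * (‖t‖ - t.re) := by linarith
        exact le_of_mul_le_mul_left h2 hn
      apply Ex.of_weak
      intro e he
      exact (Pool.Agent.Helper96.CKF.cone (by norm_num) HU ht0 h0.le h1 he).1)
    (by
      intro t ht hn
      have hn0 : 0 < ‖t‖ := by rw [hn]; norm_num
      have ht0 : t ≠ 0 := norm_pos_iff.1 hn0
      have h3 : -t.re ≤ ‖t‖ := (neg_le_abs _).trans (Complex.abs_re_le_norm t)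
      apply Ex.of_weak
      intro e he
      refine (Pool.Agent.Helper96.CKF.two_arcs (by norm_num) (by norm_num) (by norm_num)
        (by norm_num) HA HB ht0 ht ?_ ?_ he).1
      · rw [hn] at h3 ⊢
        nlinarith
      · rw [hn] at h3 ⊢
        nlinarith)
  intro a s ha0 ha1 hs h
  exact H a s (by linarith) ha1 hs h

end Pool.Agent.Helper5.TR

end
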