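import Pool.Agent.Helper14.CMF.T67
import Pool.Agent.Helper14.CMG.T14
import Pool.Agent.Helper14.CMF.T61
import Pool.Agent.Helper14.CMF.T62
import Pool.Agent.Helper14.CMF.T63
import Pool.Agent.Helper14.CMF.T64
import Pool.Agent.Helper14.CMF.T65
import Pool.Agent.Helper14.CMF.T66
import Pool.Agent.Helper14.CMG.T12

set_option linter.all false

section

namespace Pool.Agent.Helper65.CKC
end Pool.Agent.Helper65.CKC
namespace Pool.Agent.Helper33.CKC
end Pool.Agent.Helper33.CKC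
namespace Pool.Agent.Helper20.EK7
end Pool.Agent.Helper20.EK7
namespace Pool.Agent.Helper20.CK
end Pool.Agent.Helper20.CK

set_option autoImplicit false

/-!
# Project CKC, certificate B9: the arc, from the inequality at its directions
-/

namespace Pool.Agent.Helper99.CKC.B9

open Pool.Agent.Helper65.CKC Pool.Agent.Helper33.CKC

open Pool.Agent.Helper20.EK7 (InL OutD)

open Pool.Agent.Helper20.CK (ROk)

theorem inL : InL (21/20) (-(1/25)) (-(9/25)) :=
  ⟨by rw [abs_of_nonpos (by norm_num)]; norm_num, by rw [abs_of_nonpos (by norm_num)]; norm_num⟩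

theorem outD : OutD (47/50) (2/25) (93/100) :=
  ⟨by rw [abs_of_nonneg (by norm_num)]; norm_num, by rw [abs_of_nonneg (by norm_num)]; norm_num⟩

theorem rokI : ROk 100 105 (-4) (-36) (21/20) (-(1/25)) (-(9/25)) :=
  ⟨by norm_num, by norm_num, by norm_num, by norm_num⟩

theorem rokO : ROk 100 94 8 93 (47/50) (2/25) (93/100) :=
  ⟨by norm_num, by norm_num, by norm_num, by norm_num⟩

theorem okAll : okA D v0 v1 v2 21401 5058 10000 = true := by decide +kernel

theorem secI_of (hP : PtArc D v0 v1 v2 (21/20) (-(1/25)) (-(9/25)) (47/50) (2/25) (93/100)) :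
    SecI (21401/10000) (5058/10000) (1/2) (1/1) := by
  have h := secI_arc (kA := 21401) (kB := 5058) (kD := 10000) inL outD rokI rokO okAll hP
    (by norm_num) (by norm_num) (by norm_num) (cs := cells) (by decide) (by decide +kernel) arc boxes
  have e : ((v1.tn : ℤ) : ℝ) / v1.td = 1/1 := by
    have a : v1.tn = 1 := by decide +kernel
    have b : v1.td = 1 := by decide +kernel
    rw [a, b]
    norm_num
  have e' : ((v0.tn : ℤ) : ℝ) / v0.td = 1/2 := by
    have a : v0.tn = 2 := by decide +kernel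
    have b : v0.td = 4 := by decide +kernel
    rw [a, b]
    norm_num
  rw [e, e'] at h
  norm_num at h ⊢
  exact h

end Pool.Agent.Helper99.CKC.B9

end

section

namespace Pool.Sos71
end Pool.Sos71
namespace Pool.Agent.Helper42.CKC
end Pool.Agent.Helper42.CKC
namespace Pool.Agent.Helper99.CKC
end Pool.Agent.Helper99.CKC
namespace Pool.Agent.Helper65.CKC
end Pool.Agent.Helper65.CKC
namespace Pool.Agent.Helper33.CKC
end Pool.Agent.Helper33.CKC
namespace Pool.Agent.Helper71.CK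
end Pool.Agent.Helper71.CK

set_option autoImplicit false

namespace Pool.Agent.Helper99.CKC.B9

open Pool.Sos71 Pool.Agent.Helper42.CKC Pool.Agent.Helper99.CKC

open Pool.Agent.Helper65.CKC Pool.Agent.Helper33.CKC

open Pool.Agent.Helper71.CK (LIn LOut)

open Do

def d1 : Blk := ⟨(.lit 1), ND1, 1, itsD1, 70368744177664, 35184372088832, lD1, 2, 1, [], 0⟩

def d2 : Blk := ⟨(.lit 1), ND2, 1, itsD2, 70368744177664, 35184372088832, lD2, 2, 1, [], 0⟩

theorem sideI : SideP D.K 1 1 v0 v1 v2 (D.tIn v0) (D.tIn v1) (D.tIn v2) :=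
  Pool.Agent.Helper96.T2.sideIn (by decide +kernel) <| side_of0 C0i.ok C1i.ok C2i.ok rfl rfl rfl
    ⟨Or.inl rfl, Or.inr (Or.inl rfl), Or.inr (Or.inr (Or.inl rfl)), trivial⟩
    ⟨Or.inl rfl, Or.inr (Or.inl rfl), Or.inr (Or.inr (Or.inl rfl)), trivial⟩
    ⟨Or.inl rfl, Or.inr (Or.inl rfl), Or.inr (Or.inr (Or.inl rfl)), trivial⟩

theorem sideO : SideP D.K 1 1 v0 v1 v2 (D.tOut v0) (D.tOut v1) (D.tOut v2) :=
  Pool.Agent.Helper96.T2.sideOut (by decide +kernel) <| side_of (by norm_num) C0o.ok C1o.ok C2o.ok rfl rfl rfl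
    (b0 := [C0o.b0, C0o.b1, C0o.b2])
    (b1 := [C1o.b0, C1o.b1, C1o.b2])
    (b2 := [C2o.b0, C2o.b1, C2o.b2])
    (d1 := d1) (d2 := d2) rfl rfl rfl
    ⟨Or.inl rfl, Or.inr (Or.inl rfl), Or.inr (Or.inr (Or.inl rfl)), trivial⟩
    ⟨Or.inl rfl, Or.inr (Or.inl rfl), Or.inr (Or.inr (Or.inl rfl)), trivial⟩
    ⟨Or.inl rfl, Or.inr (Or.inl rfl), Or.inr (Or.inr (Or.inl rfl)), trivial⟩
    rfl rfl rfl (by decide +kernel) (by decide +kernel)

theorem ep0 : ((D.p0 : ℤ) : ℝ) / D.rd = (21/20) := by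
  have a : D.p0 = 105 := rfl
  have b : D.rd = 100 := rfl
  rw [a, b]; norm_num

theorem ep1 : ((D.p1 : ℤ) : ℝ) / D.rd = (-(1/25)) := by
  have a : D.p1 = -4 := rfl
  have b : D.rd = 100 := rfl
  rw [a, b]; norm_num

theorem ep2 : ((D.p2 : ℤ) : ℝ) / D.rd = (-(9/25)) := by
  have a : D.p2 = -36 := rfl
  have b : D.rd = 100 := rfl
  rw [a, b]; norm_num

theorem eq0 : ((D.q0 : ℤ) : ℝ) / D.rd = (47/50) := by
  have a : D.q0 = 94 := rfl
  have b : D.rd = 100 := rfl
  rw [a, b]; norm_num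

theorem eq1 : ((D.q1 : ℤ) : ℝ) / D.rd = (2/25) := by
  have a : D.q1 = 8 := rfl
  have b : D.rd = 100 := rfl
  rw [a, b]; norm_num

theorem eq2 : ((D.q2 : ℤ) : ℝ) / D.rd = (93/100) := by
  have a : D.q2 = 93 := rfl
  have b : D.rd = 100 := rfl
  rw [a, b]; norm_num

theorem lIn : LIn (21/20) (-(1/25)) (-(9/25)) ((1 : ℤ) / (1 : ℤ)) :=
  ⟨by norm_num, by norm_num, by norm_num⟩

theorem lOut : LOut (47/50) (2/25) (93/100) ((1 : ℤ) / (1 : ℤ)) :=
  ⟨by norm_num, by norm_num, by norm_num⟩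

theorem okD : D.Ok v0 v1 v2 1 1 1 1 where
  wf := by decide +kernel
  g0 := by decide +kernel
  g1 := by decide +kernel
  m0 := by decide +kernel
  m1 := by decide +kernel
  m2 := by decide +kernel
  M0 := by decide +kernel
  F0 := by decide +kernel
  MF := by decide +kernel
  rd0 := by decide +kernel
  t0 := by decide +kernel
  t1 := by decide +kernel
  t2 := by decide +kernel
  Ld0 := by norm_num
  Ld0' := by norm_num
  inL := by rw [ep0, ep1, ep2]; exact inL
  outD := by rw [eq0, eq1, eq2]; exact outD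
  lIn := by rw [ep0, ep1, ep2]; exact lIn
  lOut := by rw [eq0, eq1, eq2]; exact lOut

theorem ptArc : PtArc D v0 v1 v2 (21/20) (-(1/25)) (-(9/25)) (47/50) (2/25) (93/100) := by
  intro τ s0 s1 s2 h0 h1 h2 h3 h4 h5
  obtain ⟨B, hB, H⟩ := okD.point sideI sideO
  have hX := (H τ s0 s1 s2 h0 h1 h2 h3 h4 h5).2
  rw [ep0, ep1, ep2, eq0, eq1, eq2] at hX
  have e : D.NN v0 v1 v2 τ s0 s1 s2 = ND D v0 v1 v2 τ s0 s1 s2 := by
    funext x q η
    unfold DatC.NN ND
    rw [one_div, inv_mul_eq_div]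
  rw [e] at hX
  exact ⟨B, _, _, _, _, _, _, hB, hX⟩

/-- **the arc `1/2 ≤ τ ≤ 1/1`** -/
theorem secI : SecI (21401/10000) (5058/10000) (1/2) (1/1) := secI_of ptArc

end Pool.Agent.Helper99.CKC.B9

end
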